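import Pool.Agent.H97.S3.Oneg

/-!
# [H73 S3 BDO] from boxes to sums over configurations, with an amplitude which depends on the order of the places (MP_b39724_nt, stage 3)

`Oe Z c q q'`: the tuples `q`, `q'` are in the same order relative to the places of `c` and among themselves.
`bdo`: `g` an amplitude, `‖g‖ ≤ 1`, `g c q = g c q'` if `Oe Z c q q'`, `F` small in the mean over boxes: then the sum of `g · ψ · F` is small.
Proof: as H1/BD/Bad (truncation of the number of places with `cnt_ran`; grid `T (1 + δ) ^ j`; the cut-off is constant up to `C δ` on a box). NEW: on a box `g` is constant if the `m` intervals are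
different and contain no place of `c`; the other ones are few by `H97.S3.cnt_coin` (`H97.S3.one_g`).
-/

set_option autoImplicit false

open scoped NumberField
open NumberField IsDedekindDomain H63.MA H57.AN H35.CF
open scoped Classical

noncomputable section

namespace H73.S3

/-- the same order of the tuples, relative to the places of `c` and among themselves -/
def Oe {K : Type} [Field K] [NumberField K] {Λ : Type} (Z : Finset (Pl K)) (c : Pl K → Option Λ) {m : ℕ}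
    (q q' : Fin m → Pl K) : Prop :=
  (∀ k, ∀ v ∈ sp Z c, (nm (q k) < nm v ∧ nm (q' k) < nm v) ∨ (nm v < nm (q k) ∧ nm v < nm (q' k))) ∧
    ∀ k j, k ≠ j → (nm (q k) < nm (q j) ∧ nm (q' k) < nm (q' j)) ∨
      (nm (q j) < nm (q k) ∧ nm (q' j) < nm (q' k))

/-- the power of the number of places -/
private theorem card_pow_le (b : ℝ) (hb : 0 ≤ b) (m n : ℕ) :
    (n : ℝ) ^ m * b ^ n ≤ m.factorial * (b * Real.exp 1) ^ n := by
  have h7 : (n : ℝ) ^ m ≤ m.factorial * Real.exp 1 ^ n := by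
    have h8 := Real.pow_div_factorial_le_exp (n : ℝ) (Nat.cast_nonneg _) m
    rw [div_le_iff₀ (by positivity)] at h8
    rw [← Real.exp_nat_mul, mul_one, mul_comm]
    exact h8
  calc (n : ℝ) ^ m * b ^ n ≤ (m.factorial * Real.exp 1 ^ n) * b ^ n :=
        mul_le_mul_of_nonneg_right h7 (by positivity)
    _ = m.factorial * (b * Real.exp 1) ^ n := by
        rw [mul_pow]
        ring

/-- sums over configurations and tuples, bounded by sums over configurations -/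
private theorem rev_b {K : Type} [Field K] [NumberField K] (Λ : Type) [Fintype Λ] (b : ℝ) (hb : 0 ≤ b) (m : ℕ)
    (Z : Finset (Pl K)) (W : Pl K → Prop) (Q : Finset (Pl K) → Prop) :
    ∑ c ∈ Cf Z Λ, ∑ q ∈ Fr Z W c m,
        (if Q (sp Z c ∪ Finset.univ.image q) then b ^ ((sp Z c).card + m) else 0) ≤
      m.factorial * ∑ c ∈ (Cf Z (Option Λ)).filter (fun c => Q (sp Z c)),
        (b * Real.exp 1) ^ (sp Z c).card := by
  have h1 := H97.S3.rev_set (Λ := Λ) Z W m (fun s => if Q s then b ^ s.card else 0) fun s => by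
    split_ifs
    · exact pow_nonneg hb _
    · exact le_rfl
  have h2 : ∑ c ∈ Cf Z Λ, ∑ q ∈ Fr Z W c m,
        (if Q (sp Z c ∪ Finset.univ.image q) then b ^ ((sp Z c).card + m) else 0) =
      ∑ c ∈ Cf Z Λ, ∑ q ∈ Fr Z W c m, (fun s : Finset (Pl K) => if Q s then b ^ s.card else 0)
        (sp Z c ∪ Finset.univ.image q) := by
    refine Finset.sum_congr rfl fun c _ => Finset.sum_congr rfl fun q hq => ?_
    beta_reduce
    rw [H97.S3.fr_card Z W m c q hq]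
  rw [h2]
  refine h1.trans ?_
  rw [Finset.mul_sum, Finset.sum_filter]
  refine Finset.sum_le_sum fun c _ => ?_
  split_ifs
  · exact card_pow_le b hb m _
  · rw [mul_zero]

/-- an exponential of a power against a power -/
private theorem exp_pow (κ ε A : ℝ) (hκ : 0 < κ) (hε : 0 < ε) (hA : 0 ≤ A) :
    ∃ C : ℝ, 0 < C ∧ ∀ x : ℝ, 1 ≤ x → Real.exp (x ^ ε) ^ (-κ) ≤ C * x ^ (-A) := by
  obtain ⟨n, hn⟩ := exists_nat_ge (A / ε)
  refine ⟨n.factorial / κ ^ n, by positivity, fun x hx => ?_⟩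
  have hx0 : 0 < x := by linarith
  have hs0 : 0 < x ^ ε := Real.rpow_pos_of_pos hx0 _
  have h1 := Real.pow_div_factorial_le_exp (κ * x ^ ε) (by positivity) n
  have h2 : x ^ A ≤ (x ^ ε) ^ n := by
    rw [← Real.rpow_natCast, ← Real.rpow_mul hx0.le]
    refine Real.rpow_le_rpow_of_exponent_le hx ?_
    rw [div_le_iff₀ hε] at hn
    linarith
  have h4 : κ ^ n * x ^ A / n.factorial ≤ Real.exp (κ * x ^ ε) := by
    refine le_trans ?_ h1
    rw [mul_pow]
    exact div_le_div_of_nonneg_right (mul_le_mul_of_nonneg_left h2 (by positivity)) (by positivity)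
  have hxA : 0 < x ^ A := Real.rpow_pos_of_pos hx0 _
  rw [← Real.exp_mul, mul_neg, mul_comm (x ^ ε) κ, Real.exp_neg, Real.rpow_neg hx0.le]
  have h6 : (Real.exp (κ * x ^ ε))⁻¹ ≤ (κ ^ n * x ^ A / n.factorial)⁻¹ :=
    inv_anti₀ (by positivity) h4
  refine h6.trans (le_of_eq ?_)
  field_simp

theorem bdo (K : Type) [Field K] [NumberField K] (Λ : Type) [Fintype Λ] (m : ℕ) (b A ε : ℝ)
    (hb : 0 ≤ b) (hA : 0 ≤ A) (hε : 0 < ε) :
    ∃ C₁ A' C : ℝ, 3 ≤ C₁ ∧ 0 ≤ A' ∧ 0 < C ∧ ∀ Y : ℝ, 3 ≤ Y →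
      ∀ (Z : Finset (Pl K)) (W : Pl K → Prop), (∀ v, W v → Real.exp (Real.log Y ^ ε) < nm v) →
      ∀ ψ : ℝ → ℝ, (∀ t, |ψ t| ≤ 1) → (∀ t, 2 ≤ t → ψ t = 0) → (∀ s t, |ψ s - ψ t| ≤ |s - t|) →
      ∀ g F : (Pl K → Option Λ) → (Fin m → Pl K) → ℂ,
      (∀ c ∈ Cf Z Λ, ∀ q ∈ Fr Z W c m, ‖g c q‖ ≤ 1) →
      (∀ c ∈ Cf Z Λ, ∀ q ∈ Fr Z W c m, ∀ q' ∈ Fr Z W c m, Oe Z c q q' → g c q = g c q') →
      (∀ c ∈ Cf Z Λ, ∀ q ∈ Fr Z W c m, ‖F c q‖ ≤ b ^ ((sp Z c).card + m)) →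
      (∀ lo hi : Fin m → ℝ, (∀ k, Real.exp (Real.log Y ^ ε) ≤ lo k ∧ lo k ≤ hi k ∧
          hi k ≤ 2 * lo k ∧ hi k ≤ Y ^ C₁) →
        ∑ c ∈ (Cf Z Λ).filter (fun c => nr (sp Z c) ≤ Y ^ C₁ ∧
            ((sp Z c).card : ℝ) ≤ C₁ * (1 + Real.log (Real.log Y))),
          (nr (sp Z c))⁻¹ * (∏ k, lo k)⁻¹ * ‖∑ q ∈ (Fr Z W c m).filter
            (fun q => ∀ k, lo k < nm (q k) ∧ (nm (q k) : ℝ) ≤ hi k), F c q‖ ≤
          Real.log Y ^ (-A')) →
      ‖∑ c ∈ Cf Z Λ, ∑ q ∈ Fr Z W c m, g c q *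
          ((ψ (nr (sp Z c) * (∏ k, (nm (q k) : ℝ)) / Y) : ℝ) : ℂ) * F c q‖ ≤
        C * Y * Real.log Y ^ (-A) := by
  obtain ⟨B, Cr, hB, hCr, hr⟩ := cnt_ran K (Option Λ) (b * Real.exp 1)
    (mul_nonneg hb (Real.exp_pos _).le) A
  obtain ⟨Cp, Ap, hCp, hAp, hp⟩ := cnt_pow K (Option Λ) (b * Real.exp 1)
    (mul_nonneg hb (Real.exp_pos _).le)
  obtain ⟨Cc, Ac, κ, hCc, hAc, hκ, hc⟩ := H97.S3.cnt_coin K (Option Λ) (b * Real.exp 1)
    (mul_nonneg hb (Real.exp_pos _).le)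
  obtain ⟨Ce, hCe, he⟩ := exp_pow κ ε (A + Ac) hκ hε (by positivity)
  obtain ⟨Aq, hAq⟩ : ∃ Aq : ℝ, Aq = A + Ap + Ac := ⟨_, rfl⟩
  have hAq0 : 0 ≤ Aq := by
    rw [hAq]
    positivity
  refine ⟨2 * B + 3, A + m * (1 + Aq), m.factorial * (2 * Cr) + 2 * 15 ^ m +
    2 ^ (m + 1) * (m.factorial * (Cp * 2 ^ (m + 1) * (m + 3) ^ Ap)) +
    m.factorial * (Cc * 2 ^ (m + 1) * (m + 3) ^ Ac * (1 + Ce)), by linarith, by positivity,
    by positivity, ?_⟩
  intro Y hY Z W hW ψ hψ1 hψ2 hψ3 g F hg hgo hF hbox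
  have hY0 : (0 : ℝ) < Y := by linarith
  obtain ⟨ℓ, hℓ⟩ : ∃ ℓ, ℓ = Real.log Y := ⟨_, rfl⟩
  have hl1 : 1 ≤ ℓ := by
    rw [hℓ, Real.le_log_iff_exp_le hY0]
    exact (Real.exp_one_lt_d9.le.trans (by norm_num)).trans hY
  have hl0 : 0 < ℓ := by linarith
  rw [← hℓ] at hbox hW ⊢
  have hll : 0 ≤ Real.log ℓ := Real.log_nonneg hl1
  obtain ⟨T, hT⟩ : ∃ T, T = Real.exp (ℓ ^ ε) := ⟨_, rfl⟩
  rw [← hT] at hbox hW
  have hT1 : 1 ≤ T := by
    rw [hT]
    exact Real.one_le_exp (by positivity)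
  obtain ⟨δ, hδ⟩ : ∃ δ, δ = 1 / 3 * ℓ ^ (-Aq) := ⟨_, rfl⟩
  have hlq : ℓ ^ (-Aq) ≤ 1 := Real.rpow_le_one_of_one_le_of_nonpos hl1 (by linarith)
  have hlq0 : 0 < ℓ ^ (-Aq) := Real.rpow_pos_of_pos hl0 _
  have hδ0 : 0 < δ := by
    rw [hδ]
    positivity
  have hδ3 : δ ≤ 1 / 3 := by
    rw [hδ]
    linarith
  have hδ1 : δ ≤ 1 := by linarith
  have hδq : δ ≤ ℓ ^ (-Aq) := by
    rw [hδ]
    linarith
  obtain ⟨J, hJ1, hJ2⟩ := H1.BD.grid Y ℓ δ T hY hℓ hδ0 hδ1 hT1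
  obtain ⟨B₂, hB₂⟩ : ∃ B₂, B₂ = 2 * B * (1 + Real.log ℓ) := ⟨_, rfl⟩
  have hψn : ∀ t, ‖((ψ t : ℝ) : ℂ)‖ ≤ 1 := fun t => by
    rw [Complex.norm_real, Real.norm_eq_abs]
    exact hψ1 t
  have hl2 : Real.log (2 * Y) ≤ 1 + ℓ := by
    rw [Real.log_mul (by norm_num) hY0.ne', ← hℓ]
    have h := Real.log_two_lt_d9
    linarith
  have hB2 : B * (1 + Real.log (Real.log (2 * Y))) ≤ B₂ := by
    rw [hB₂]
    have h6 : Real.log (Real.log (2 * Y)) ≤ 1 + Real.log ℓ := by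
      refine (Real.log_le_log (Real.log_pos (by linarith)) (show Real.log (2 * Y) ≤ 2 * ℓ by
        linarith)).trans ?_
      rw [Real.log_mul (by norm_num) hl0.ne']
      have h := Real.log_two_lt_d9
      linarith
    nlinarith
  have hlY : 1 + Real.log (2 ^ (m + 1) * Y) ≤ (m + 3) * ℓ := by
    rw [Real.log_mul (by positivity) hY0.ne', Real.log_pow, ← hℓ]
    have h12 : Real.log 2 ≤ 1 := by
      have := Real.log_two_lt_d9
      linarith
    have h13 : ((m + 1 : ℕ) : ℝ) * Real.log 2 ≤ (m + 1) * ℓ := by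
      push_cast
      exact mul_le_mul_of_nonneg_left (by linarith) (by positivity)
    nlinarith
  have h2m : (1 : ℝ) ≤ 2 ^ (m + 1) := one_le_pow₀ (by norm_num)
  have hlY0 : 0 ≤ Real.log (2 ^ (m + 1) * Y) := Real.log_nonneg (by nlinarith)
  have hlYp : ∀ a : ℝ, 0 ≤ a → (1 + Real.log (2 ^ (m + 1) * Y)) ^ a ≤ (m + 3) ^ a * ℓ ^ a := by
    intro a ha
    rw [← Real.mul_rpow (by positivity) hl0.le]
    exact Real.rpow_le_rpow (by linarith) hlY ha
  -- the products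
  have hfr : ∀ c : Pl K → Option Λ, ∀ q ∈ Fr Z W c m, nr (sp Z c ∪ Finset.univ.image q) =
      nr (sp Z c) * ∏ k, (nm (q k) : ℝ) := fun c q hq => H97.S3.fr_prod Z W m c q hq fun v => (nm v : ℝ)
  have hn1 : ∀ c : Pl K → Option Λ, 1 ≤ nr (sp Z c) := fun c => one_le_nr _
  -- the four parts
  obtain ⟨P₁, hP₁⟩ : ∃ P₁ : (Pl K → Option Λ) → ℝ, P₁ = fun c =>
      if ((sp Z c).card : ℝ) + m ≤ B₂ then
        ∑ j ∈ (Fintype.piFinset fun _ : Fin m => Finset.range J).filter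
          (fun j => nr (sp Z c) * ∏ k, T * (1 + δ) ^ j k ≤ 2 * Y),
        ‖∑ q ∈ (Fr Z W c m).filter (fun q => ∀ k, T * (1 + δ) ^ j k < nm (q k) ∧
          (nm (q k) : ℝ) ≤ T * (1 + δ) ^ (j k + 1)), F c q‖ else 0 := ⟨_, rfl⟩
  obtain ⟨Q₂, hQ₂⟩ : ∃ Q₂ : Finset (Pl K) → Prop, ∀ s, Q₂ s ↔ nr s ≤ 2 ^ (m + 1) * Y :=
    ⟨fun s => nr s ≤ 2 ^ (m + 1) * Y, fun _ => Iff.rfl⟩
  obtain ⟨Q₃, hQ₃⟩ : ∃ Q₃ : Finset (Pl K) → Prop, ∀ s, Q₃ s ↔ nr s ≤ 2 ^ (m + 1) * Y ∧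
      H97.S3.Coin δ T s := ⟨fun s => nr s ≤ 2 ^ (m + 1) * Y ∧ H97.S3.Coin δ T s, fun _ => Iff.rfl⟩
  obtain ⟨Q₄, hQ₄⟩ : ∃ Q₄ : Finset (Pl K) → Prop, ∀ s, Q₄ s ↔ nr s ≤ 2 * Y ∧
      B * (1 + Real.log (Real.log (2 * Y))) < (s.card : ℝ) :=
    ⟨fun s => nr s ≤ 2 * Y ∧ B * (1 + Real.log (Real.log (2 * Y))) < (s.card : ℝ),
      fun _ => Iff.rfl⟩
  obtain ⟨P₂, hP₂⟩ : ∃ P₂ : (Pl K → Option Λ) → ℝ, P₂ = fun c => ∑ q ∈ Fr Z W c m,
      (if Q₂ (sp Z c ∪ Finset.univ.image q) then b ^ ((sp Z c).card + m) else 0) := ⟨_, rfl⟩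
  obtain ⟨P₃, hP₃⟩ : ∃ P₃ : (Pl K → Option Λ) → ℝ, P₃ = fun c => ∑ q ∈ Fr Z W c m,
      (if Q₃ (sp Z c ∪ Finset.univ.image q) then b ^ ((sp Z c).card + m) else 0) := ⟨_, rfl⟩
  obtain ⟨P₄, hP₄⟩ : ∃ P₄ : (Pl K → Option Λ) → ℝ, P₄ = fun c => ∑ q ∈ Fr Z W c m,
      (if Q₄ (sp Z c ∪ Finset.univ.image q) then b ^ ((sp Z c).card + m) else 0) := ⟨_, rfl⟩
  have hite : ∀ (Q : Prop) (x : ℝ), 0 ≤ x → 0 ≤ if Q then x else 0 := by
    intro Q x hx
    split_ifs
    · exact hx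
    · exact le_rfl
  have hP₂0 : ∀ c, 0 ≤ P₂ c := fun c => by
    rw [hP₂]
    exact Finset.sum_nonneg fun q _ => hite _ _ (pow_nonneg hb _)
  have hP₃0 : ∀ c, 0 ≤ P₃ c := fun c => by
    rw [hP₃]
    exact Finset.sum_nonneg fun q _ => hite _ _ (pow_nonneg hb _)
  have hP₄0 : ∀ c, 0 ≤ P₄ c := fun c => by
    rw [hP₄]
    exact Finset.sum_nonneg fun q _ => hite _ _ (pow_nonneg hb _)
  have hone : ∀ c ∈ Cf Z Λ, ‖∑ q ∈ Fr Z W c m, g c q *
        ((ψ (nr (sp Z c) * (∏ k, (nm (q k) : ℝ)) / Y) : ℝ) : ℂ) * F c q‖ ≤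
      P₁ c + 2 ^ (m + 1) * δ * P₂ c + P₃ c + P₄ c := by
    intro c hcm
    by_cases h1 : ((sp Z c).card : ℝ) + m ≤ B₂
    · have h2 := H97.S3.one_g K m Z W Y T δ hY hT1 hδ0 hδ1 hW J hJ2 ψ hψ1 hψ2 hψ3 c (g c) (F c)
        (hg c hcm) (hgo c hcm)
      have h3 : ∑ q ∈ Fr Z W c m,
          (if nr (sp Z c) * (∏ k, (nm (q k) : ℝ)) ≤ 2 ^ (m + 1) * Y then ‖F c q‖ else 0) ≤ P₂ c := by
        rw [hP₂]
        refine Finset.sum_le_sum fun q hq => ?_
        rw [← hfr c q hq]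
        by_cases h7 : Q₂ (sp Z c ∪ Finset.univ.image q)
        · rw [if_pos h7, if_pos ((hQ₂ _).1 h7)]
          exact hF c hcm q hq
        · rw [if_neg h7, if_neg fun h8 => h7 ((hQ₂ _).2 h8)]
      have h4 : ∑ q ∈ Fr Z W c m, (if nr (sp Z c) * (∏ k, (nm (q k) : ℝ)) ≤ 2 ^ (m + 1) * Y ∧
          H97.S3.Coin δ T (sp Z c ∪ Finset.univ.image q) then ‖F c q‖ else 0) ≤ P₃ c := by
        rw [hP₃]
        refine Finset.sum_le_sum fun q hq => ?_
        rw [← hfr c q hq]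
        by_cases h7 : Q₃ (sp Z c ∪ Finset.univ.image q)
        · rw [if_pos h7, if_pos ((hQ₃ _).1 h7)]
          exact hF c hcm q hq
        · rw [if_neg h7, if_neg fun h8 => h7 ((hQ₃ _).2 h8)]
      have h5 : P₁ c = ∑ j ∈ (Fintype.piFinset fun _ : Fin m => Finset.range J).filter
          (fun j => nr (sp Z c) * ∏ k, T * (1 + δ) ^ j k ≤ 2 * Y),
        ‖∑ q ∈ (Fr Z W c m).filter (fun q => ∀ k, T * (1 + δ) ^ j k < nm (q k) ∧
          (nm (q k) : ℝ) ≤ T * (1 + δ) ^ (j k + 1)), F c q‖ := by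
        rw [hP₁]
        exact if_pos h1
      have h6 := mul_le_mul_of_nonneg_left h3 (by positivity : 0 ≤ 2 ^ (m + 1) * δ)
      rw [h5]
      linarith [hP₄0 c]
    · have h2 : P₁ c = 0 := by
        rw [hP₁]
        exact if_neg h1
      have h3 : ‖∑ q ∈ Fr Z W c m, g c q *
          ((ψ (nr (sp Z c) * (∏ k, (nm (q k) : ℝ)) / Y) : ℝ) : ℂ) * F c q‖ ≤ P₄ c := by
        rw [hP₄]
        refine (norm_sum_le _ _).trans (Finset.sum_le_sum fun q hq => ?_)
        rw [norm_mul, norm_mul]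
        by_cases h4 : nr (sp Z c) * (∏ k, (nm (q k) : ℝ)) ≤ 2 * Y
        · rw [if_pos]
          · calc ‖g c q‖ * ‖((ψ (nr (sp Z c) * (∏ k, (nm (q k) : ℝ)) / Y) : ℝ) : ℂ)‖ * ‖F c q‖
                ≤ 1 * 1 * b ^ ((sp Z c).card + m) :=
                  mul_le_mul (mul_le_mul (hg c hcm q hq) (hψn _) (norm_nonneg _) zero_le_one)
                    (hF c hcm q hq) (norm_nonneg _) (by norm_num)
              _ = b ^ ((sp Z c).card + m) := by ring
          · rw [hQ₄, hfr c q hq, H97.S3.fr_card Z W m c q hq]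
            refine ⟨h4, ?_⟩
            push Not at h1
            push_cast
            linarith
        · rw [hψ2 _ ?_, Complex.ofReal_zero, norm_zero, mul_zero, zero_mul]
          · exact hite _ _ (pow_nonneg hb _)
          · rw [le_div_iff₀ hY0]
            push Not at h4
            exact h4.le
      have h4 : 0 ≤ 2 ^ (m + 1) * δ * P₂ c := mul_nonneg (by positivity) (hP₂0 c)
      linarith [hP₃0 c]
  refine (norm_sum_le _ _).trans ((Finset.sum_le_sum hone).trans ?_)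
  rw [Finset.sum_add_distrib, Finset.sum_add_distrib, Finset.sum_add_distrib, ← Finset.mul_sum]
  -- the coincidences and the errors
  have hs4 : ∑ c ∈ Cf Z Λ, P₄ c ≤ m.factorial * (2 * Cr) * Y * ℓ ^ (-A) := by
    rw [hP₄]
    refine (rev_b Λ b hb m Z W Q₄).trans ?_
    have h1 := (hr Z (2 * Y) (by linarith)).1
    have h9 : (Cf Z (Option Λ)).filter (fun c => Q₄ (sp Z c)) =
        (Cf Z (Option Λ)).filter (fun c => nr (sp Z c) ≤ 2 * Y ∧
          B * (1 + Real.log (Real.log (2 * Y))) < ((sp Z c).card : ℝ)) := by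
      ext c
      rw [Finset.mem_filter, Finset.mem_filter, hQ₄]
    rw [h9]
    have h3 : Real.log (2 * Y) ^ (-A) ≤ ℓ ^ (-A) := by
      refine Real.rpow_le_rpow_of_nonpos hl0 ?_ (by linarith)
      rw [hℓ]
      exact Real.log_le_log hY0 (by linarith)
    calc (m.factorial : ℝ) * _ ≤ m.factorial * (Cr * (2 * Y) * Real.log (2 * Y) ^ (-A)) :=
          mul_le_mul_of_nonneg_left h1 (by positivity)
      _ ≤ m.factorial * (Cr * (2 * Y) * ℓ ^ (-A)) := by
          refine mul_le_mul_of_nonneg_left ?_ (by positivity)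
          exact mul_le_mul_of_nonneg_left h3 (by positivity)
      _ = m.factorial * (2 * Cr) * Y * ℓ ^ (-A) := by ring
  have hs3 : ∑ c ∈ Cf Z Λ, P₃ c ≤
      m.factorial * (Cc * 2 ^ (m + 1) * (m + 3) ^ Ac * (1 + Ce)) * Y * ℓ ^ (-A) := by
    rw [hP₃]
    refine (rev_b Λ b hb m Z W Q₃).trans ?_
    have h1 := hc Z δ T (2 ^ (m + 1) * Y) hδ0 hδ3 hT1 (by nlinarith)
    have h9 : (Cf Z (Option Λ)).filter (fun c => Q₃ (sp Z c)) =
        (Cf Z (Option Λ)).filter (fun c => nr (sp Z c) ≤ 2 ^ (m + 1) * Y ∧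
          H97.S3.Coin δ T (sp Z c)) := by
      ext c
      rw [Finset.mem_filter, Finset.mem_filter, hQ₃]
    rw [h9]
    have h2 : δ + T ^ (-κ) ≤ (1 + Ce) * ℓ ^ (-(A + Ac)) := by
      have h3 : δ ≤ ℓ ^ (-(A + Ac)) := by
        refine hδq.trans (Real.rpow_le_rpow_of_exponent_le hl1 ?_)
        rw [hAq]
        linarith
      have h4 := he ℓ hl1
      rw [← hT] at h4
      linarith
    have h5 : 0 ≤ δ + T ^ (-κ) := add_nonneg hδ0.le (Real.rpow_nonneg (by linarith) _)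
    have h6 : ℓ ^ Ac * ℓ ^ (-(A + Ac)) = ℓ ^ (-A) := by
      rw [← Real.rpow_add hl0]
      congr 1
      ring
    calc (m.factorial : ℝ) * _ ≤ m.factorial *
          (Cc * (2 ^ (m + 1) * Y) * (1 + Real.log (2 ^ (m + 1) * Y)) ^ Ac * (δ + T ^ (-κ))) :=
          mul_le_mul_of_nonneg_left h1 (by positivity)
      _ ≤ m.factorial * (Cc * (2 ^ (m + 1) * Y) * ((m + 3) ^ Ac * ℓ ^ Ac) *
          ((1 + Ce) * ℓ ^ (-(A + Ac)))) := by
          refine mul_le_mul_of_nonneg_left ?_ (by positivity)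
          refine mul_le_mul ?_ h2 h5 (by positivity)
          exact mul_le_mul_of_nonneg_left (hlYp Ac hAc) (by positivity)
      _ = m.factorial * (Cc * 2 ^ (m + 1) * (m + 3) ^ Ac * (1 + Ce)) * Y *
          (ℓ ^ Ac * ℓ ^ (-(A + Ac))) := by ring
      _ = _ := by rw [h6]
  have hs2 : 2 ^ (m + 1) * δ * ∑ c ∈ Cf Z Λ, P₂ c ≤
      2 ^ (m + 1) * (m.factorial * (Cp * 2 ^ (m + 1) * (m + 3) ^ Ap)) * Y * ℓ ^ (-A) := by
    have h1 : ∑ c ∈ Cf Z Λ, P₂ c ≤ m.factorial * (Cp * (2 ^ (m + 1) * Y) * ((m + 3) ^ Ap * ℓ ^ Ap)) := by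
      rw [hP₂]
      refine (rev_b Λ b hb m Z W Q₂).trans ?_
      refine mul_le_mul_of_nonneg_left ?_ (by positivity)
      have h9 : (Cf Z (Option Λ)).filter (fun c => Q₂ (sp Z c)) =
          (Cf Z (Option Λ)).filter (fun c => nr (sp Z c) ≤ 2 ^ (m + 1) * Y) := by
        ext c
        rw [Finset.mem_filter, Finset.mem_filter, hQ₂]
      rw [h9]
      refine ((hp Z (2 ^ (m + 1) * Y) (by nlinarith)).1).trans ?_
      exact mul_le_mul_of_nonneg_left (hlYp Ap hAp) (by positivity)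
    have h2 : δ * ℓ ^ Ap ≤ ℓ ^ (-A) := by
      have h3 : ℓ ^ (-Aq) * ℓ ^ Ap ≤ ℓ ^ (-A) := by
        rw [← Real.rpow_add hl0]
        refine Real.rpow_le_rpow_of_exponent_le hl1 ?_
        rw [hAq]
        linarith
      exact (mul_le_mul_of_nonneg_right hδq (by positivity)).trans h3
    calc 2 ^ (m + 1) * δ * ∑ c ∈ Cf Z Λ, P₂ c
        ≤ 2 ^ (m + 1) * δ * (m.factorial * (Cp * (2 ^ (m + 1) * Y) * ((m + 3) ^ Ap * ℓ ^ Ap))) :=
          mul_le_mul_of_nonneg_left h1 (by positivity)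
      _ = 2 ^ (m + 1) * (m.factorial * (Cp * 2 ^ (m + 1) * (m + 3) ^ Ap)) * Y * (δ * ℓ ^ Ap) := by
          ring
      _ ≤ _ := mul_le_mul_of_nonneg_left h2 (by positivity)
  -- the boxes
  have hs1 : ∑ c ∈ Cf Z Λ, P₁ c ≤ 2 * 15 ^ m * Y * ℓ ^ (-A) := by
    have h30 : ∀ c ∈ Cf Z Λ, P₁ c =
        ∑ j ∈ Fintype.piFinset fun _ : Fin m => Finset.range J,
          (if ((sp Z c).card : ℝ) + m ≤ B₂ ∧ nr (sp Z c) * ∏ k, T * (1 + δ) ^ j k ≤ 2 * Y then
          ‖∑ q ∈ (Fr Z W c m).filter (fun q => ∀ k, T * (1 + δ) ^ j k < nm (q k) ∧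
            (nm (q k) : ℝ) ≤ T * (1 + δ) ^ (j k + 1)), F c q‖ else 0) := by
      intro c _
      rw [hP₁]
      beta_reduce
      split_ifs with h1
      · rw [Finset.sum_filter]
        refine Finset.sum_congr rfl fun j _ => ?_
        simp only [h1, true_and]
      · symm
        refine Finset.sum_eq_zero fun j _ => ?_
        rw [if_neg]
        exact fun h2 => h1 h2.1
    rw [Finset.sum_congr rfl h30, Finset.sum_comm]
    have h4 : ∀ j ∈ Fintype.piFinset fun _ : Fin m => Finset.range J,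
        ∑ c ∈ Cf Z Λ, (if ((sp Z c).card : ℝ) + m ≤ B₂ ∧
            nr (sp Z c) * ∏ k, T * (1 + δ) ^ j k ≤ 2 * Y then
          ‖∑ q ∈ (Fr Z W c m).filter (fun q => ∀ k, T * (1 + δ) ^ j k < nm (q k) ∧
            (nm (q k) : ℝ) ≤ T * (1 + δ) ^ (j k + 1)), F c q‖ else 0) ≤
        2 * Y * ℓ ^ (-(A + m * (1 + Aq))) := by
      intro j _
      have hpos : ∀ i : ℕ, 1 ≤ T * (1 + δ) ^ i := fun i =>
        one_le_mul_of_one_le_of_one_le hT1 (one_le_pow₀ (by linarith))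
      have hprod : 1 ≤ ∏ k, T * (1 + δ) ^ j k := Finset.one_le_prod fun k _ => hpos _
      by_cases h5 : ∏ k, T * (1 + δ) ^ j k ≤ 2 * Y
      · have hYB : Y ^ 3 ≤ Y ^ (2 * B + 3) := by
          have h12 : Y ^ (3 : ℝ) ≤ Y ^ (2 * B + 3) :=
            Real.rpow_le_rpow_of_exponent_le (by linarith) (by linarith)
          have h13 : Y ^ (3 : ℝ) = Y ^ 3 := by
            exact_mod_cast Real.rpow_natCast Y 3
          rw [← h13]
          exact h12
        have hY4 : 4 * Y ≤ Y ^ 3 := by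
          nlinarith [mul_nonneg hY0.le (sq_nonneg (Y - 2)), sq_nonneg (Y - 2)]
        have h6 : ∀ k, T ≤ T * (1 + δ) ^ j k ∧ T * (1 + δ) ^ j k ≤ T * (1 + δ) ^ (j k + 1) ∧
            T * (1 + δ) ^ (j k + 1) ≤ 2 * (T * (1 + δ) ^ j k) ∧
            T * (1 + δ) ^ (j k + 1) ≤ Y ^ (2 * B + 3) := by
          intro k
          have h7 : 1 ≤ (1 + δ) ^ j k := one_le_pow₀ (by linarith)
          have h8 : T * (1 + δ) ^ (j k + 1) = (1 + δ) * (T * (1 + δ) ^ j k) := by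
            rw [pow_succ]
            ring
          have h9 : T * (1 + δ) ^ j k ≤ ∏ k, T * (1 + δ) ^ j k := by
            rw [← Finset.mul_prod_erase Finset.univ (fun k => T * (1 + δ) ^ j k)
              (Finset.mem_univ k)]
            refine le_mul_of_one_le_right (by linarith [hpos (j k)]) ?_
            exact Finset.one_le_prod fun i _ => hpos _
          have h10 := hpos (j k)
          refine ⟨le_mul_of_one_le_right (by linarith) h7, ?_, ?_, ?_⟩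
          · rw [h8]
            exact le_mul_of_one_le_left (by linarith) (by linarith)
          · rw [h8]
            exact mul_le_mul_of_nonneg_right (by linarith) (by linarith)
          · have h11 : T * (1 + δ) ^ (j k + 1) ≤ 4 * Y := by
              rw [h8]
              nlinarith
            exact h11.trans (hY4.trans hYB)
        have h14 := hbox (fun k => T * (1 + δ) ^ j k) (fun k => T * (1 + δ) ^ (j k + 1)) h6
        beta_reduce at h14
        have h15 : ∀ c ∈ Cf Z Λ, (if ((sp Z c).card : ℝ) + m ≤ B₂ ∧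
              nr (sp Z c) * ∏ k, T * (1 + δ) ^ j k ≤ 2 * Y then
            ‖∑ q ∈ (Fr Z W c m).filter (fun q => ∀ k, T * (1 + δ) ^ j k < nm (q k) ∧
              (nm (q k) : ℝ) ≤ T * (1 + δ) ^ (j k + 1)), F c q‖ else 0) ≤
            2 * Y * (if nr (sp Z c) ≤ Y ^ (2 * B + 3) ∧
              ((sp Z c).card : ℝ) ≤ (2 * B + 3) * (1 + Real.log ℓ) then
              (nr (sp Z c))⁻¹ * (∏ k, T * (1 + δ) ^ j k)⁻¹ *
              ‖∑ q ∈ (Fr Z W c m).filter (fun q => ∀ k, T * (1 + δ) ^ j k < nm (q k) ∧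
                (nm (q k) : ℝ) ≤ T * (1 + δ) ^ (j k + 1)), F c q‖ else 0) := by
          intro c _
          have hnc := hn1 c
          by_cases h16 : ((sp Z c).card : ℝ) + m ≤ B₂ ∧
              nr (sp Z c) * ∏ k, T * (1 + δ) ^ j k ≤ 2 * Y
          · rw [if_pos h16, if_pos]
            · have h19 : 1 ≤ 2 * Y * ((nr (sp Z c))⁻¹ * (∏ k, T * (1 + δ) ^ j k)⁻¹) := by
                rw [← mul_inv, ← div_eq_mul_inv, one_le_div (by positivity)]
                exact h16.2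
              calc ‖∑ q ∈ (Fr Z W c m).filter (fun q => ∀ k, T * (1 + δ) ^ j k < nm (q k) ∧
                    (nm (q k) : ℝ) ≤ T * (1 + δ) ^ (j k + 1)), F c q‖
                  ≤ (2 * Y * ((nr (sp Z c))⁻¹ * (∏ k, T * (1 + δ) ^ j k)⁻¹)) *
                    ‖∑ q ∈ (Fr Z W c m).filter (fun q => ∀ k, T * (1 + δ) ^ j k < nm (q k) ∧
                    (nm (q k) : ℝ) ≤ T * (1 + δ) ^ (j k + 1)), F c q‖ :=
                    le_mul_of_one_le_left (norm_nonneg _) h19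
                _ = _ := by ring
            · constructor
              · have h20 : nr (sp Z c) ≤ 2 * Y := by
                  refine le_trans ?_ h16.2
                  exact le_mul_of_one_le_right (by linarith) hprod
                exact h20.trans ((by linarith : 2 * Y ≤ 4 * Y).trans (hY4.trans hYB))
              · have h17 := h16.1
                rw [hB₂] at h17
                have h21 : (0 : ℝ) ≤ m := Nat.cast_nonneg _
                nlinarith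
          · rw [if_neg h16]
            refine mul_nonneg (by linarith) ?_
            have hpp : 0 < ∏ k, T * (1 + δ) ^ j k := by linarith
            have : 0 ≤ (nr (sp Z c))⁻¹ := inv_nonneg.2 (by linarith)
            split_ifs
            · positivity
            · exact le_rfl
        refine (Finset.sum_le_sum h15).trans ?_
        rw [← Finset.mul_sum, ← Finset.sum_filter]
        exact mul_le_mul_of_nonneg_left h14 (by linarith)
      · rw [Finset.sum_eq_zero]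
        · positivity
        · intro c _
          rw [if_neg]
          intro h6
          refine h5 (le_trans ?_ h6.2)
          exact le_mul_of_one_le_left (by linarith) (hn1 c)
    refine (Finset.sum_le_sum h4).trans ?_
    rw [Finset.sum_const, nsmul_eq_mul, Fintype.card_piFinset, Finset.prod_const,
      Finset.card_univ, Fintype.card_fin, Finset.card_range]
    push_cast
    have h5 : (J : ℝ) ≤ 15 * ℓ ^ (1 + Aq) := by
      refine hJ1.trans (le_of_eq ?_)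
      rw [hδ, Real.rpow_neg hl0.le, Real.rpow_add hl0 1 Aq, Real.rpow_one]
      have hpq : 0 < ℓ ^ Aq := Real.rpow_pos_of_pos hl0 _
      field_simp
      norm_num
    have h6 : (J : ℝ) ^ m ≤ 15 ^ m * ℓ ^ (m * (1 + Aq)) := by
      refine (pow_le_pow_left₀ (Nat.cast_nonneg _) h5 m).trans (le_of_eq ?_)
      rw [mul_pow, ← Real.rpow_natCast (ℓ ^ (1 + Aq)), ← Real.rpow_mul hl0.le, mul_comm (1 + Aq)]
    calc (J : ℝ) ^ m * (2 * Y * ℓ ^ (-(A + m * (1 + Aq))))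
        ≤ (15 ^ m * ℓ ^ (m * (1 + Aq))) * (2 * Y * ℓ ^ (-(A + m * (1 + Aq)))) :=
          mul_le_mul_of_nonneg_right h6 (by positivity)
      _ = 2 * 15 ^ m * Y * (ℓ ^ (m * (1 + Aq)) * ℓ ^ (-(A + m * (1 + Aq)))) := by ring
      _ = 2 * 15 ^ m * Y * ℓ ^ (-A) := by
          rw [← Real.rpow_add hl0]
          congr 2
          ring
  calc _ ≤ 2 * 15 ^ m * Y * ℓ ^ (-A) +
        2 ^ (m + 1) * (m.factorial * (Cp * 2 ^ (m + 1) * (m + 3) ^ Ap)) * Y * ℓ ^ (-A) +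
        m.factorial * (Cc * 2 ^ (m + 1) * (m + 3) ^ Ac * (1 + Ce)) * Y * ℓ ^ (-A) +
        m.factorial * (2 * Cr) * Y * ℓ ^ (-A) := add_le_add (add_le_add (add_le_add hs1 hs2) hs3) hs4
    _ = _ := by ring

end H73.S3
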