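import Pool.Agent.H73.S3.Fou

/-!
# [H73 S3 CEN] the Fourier coefficients vanish unless the functionals kill the central elements (MP_b39724_nt, stage 3, chapter B)

`cen`: `z ∈ gam_m` central in `S`, `Pi (il z) = 1`: if `Hh m τ x η ≠ 0` then `(η j).1` is `0` at the class of `z`, for the letters `pp`.
Proof: multiply `u j` on the left by `z`: `mv` changes by `il z` at `j`; `G` does not change (`gi`), `RR` does not change (`t j = il (y j)`, `x j ∈ il S`: `[y, z x] = [y, x]`), so
`H (m+1) τ (mv (z u) x) = H (m+1) τ (mv u x)`, and `pr η (z u) = pr η u + (η j).1 (gk m z)`.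
-/

set_option autoImplicit false

open scoped commutatorElement
open scoped Classical

noncomputable section

namespace H73.S3

open H1.S3

variable {S P : Type} [Group S] [Group P] [MulDistribMulAction P S] {J V : Type}

private theorem com_cen {a z s : S} (hc : ∀ s, z * s = s * z) : ⁅a, z * s⁆ = ⁅a, s⁆ := by
  have h1 : a * (z * s) = z * (a * s) := by rw [← mul_assoc, ← hc a, mul_assoc]
  rw [commutatorElement_def, commutatorElement_def, h1, mul_inv_rev]
  have h2 : z * (a * s) * a⁻¹ * (s⁻¹ * z⁻¹) = z * (a * s * a⁻¹ * s⁻¹) * z⁻¹ := by group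
  rw [h2, hc, mul_inv_cancel_right]

theorem cen [Fintype S] (X : AD S P J V) {p k Mw q c : ℕ} [NeZero q] {P' : Type} [Group P']
    {Pi : SP S P →* P'} (hX : X.Ok p k Mw q c Pi) (m : ℕ) (hm : 1 ≤ m) (τ : V → S)
    (x : J → SP S P) (hx : ∀ j ∈ X.Jf, (x j).right = X.ph (X.W j))
    (η : X.Jf → Du S q m × Du S q (m + 1)) (j : X.Jf) (hj : X.pp j) (z : S) (hz : z ∈ gm S m)
    (hc : ∀ s, z * s = s * z) (hP : Pi (il z) = 1) (hne : X.Hh m τ x η ≠ 0) :
    (η j).1.ap (gk m z) = 0 := by
  obtain ⟨e, hej, hei⟩ : ∃ e : X.Jf → S, e j = z ∧ ∀ i, i ≠ j → e i = 1 :=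
    ⟨fun i => if i = j then z else 1, if_pos rfl, fun i hi => if_neg hi⟩
  have hec : ∀ i s, e i * s = s * e i := by
    intro i s
    by_cases h : i = j
    · rw [h, hej, hc]
    · rw [hei i h, one_mul, mul_one]
  have heP : ∀ i, Pi (il (e i)) = 1 := by
    intro i
    by_cases h : i = j
    · rw [h, hej, hP]
    · rw [hei i h]
      have : (il (1 : S) : SP S P) = 1 := map_one (SemidirectProduct.inl : S →* SP S P)
      rw [this, map_one]
  have hee : e ∈ X.Cg m := by
    unfold AD.Cg
    rw [Finset.mem_filter]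
    refine ⟨Finset.mem_univ _, fun i => ?_⟩
    by_cases h : i = j
    · rw [h, hej, if_pos hj]
      exact hz
    · rw [hei i h]
      exact one_mem _
  -- the function `H (m + 1)` does not change
  have hA : ∀ u, X.H (m + 1) τ (X.mv (e * u) x) = X.H (m + 1) τ (X.mv u x) := by
    intro u
    have key : ∀ w : X.Jf → S, (X.G (X.mv w (X.mv (e * u) x)) ∧ X.RR τ (X.mv w (X.mv (e * u) x)) = 1) ↔
        (X.G (X.mv w (X.mv u x)) ∧ X.RR τ (X.mv w (X.mv u x)) = 1) := by
      intro w
      have h1 : ∀ i (hi : i ∈ X.Jf), X.mv w (X.mv (e * u) x) i = il (e ⟨i, hi⟩) * X.mv w (X.mv u x) i := by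
        intro i hi
        rw [mv_mv, mv_mv]
        unfold AD.mv
        have h2 : (w * (e * u)) ⟨i, hi⟩ = e ⟨i, hi⟩ * (w * u) ⟨i, hi⟩ := by
          change w ⟨i, hi⟩ * (e ⟨i, hi⟩ * u ⟨i, hi⟩) = e ⟨i, hi⟩ * (w ⟨i, hi⟩ * u ⟨i, hi⟩)
          rw [← mul_assoc, ← hec, mul_assoc]
        have h3 : (il (e ⟨i, hi⟩ * (w * u) ⟨i, hi⟩) : SP S P) = il (e ⟨i, hi⟩) * il ((w * u) ⟨i, hi⟩) :=
          map_mul (SemidirectProduct.inl : S →* SP S P) _ _
        rw [dif_pos hi, dif_pos hi, h2, h3, mul_assoc]
      have h2 : ∀ i, i ∉ X.Jf → X.mv w (X.mv (e * u) x) i = X.mv w (X.mv u x) i := by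
        intro i hi
        rw [mv_mv, mv_mv]
        unfold AD.mv
        rw [dif_neg hi, dif_neg hi]
      have h3 : ∀ i ∈ X.Jf, Pi (X.mv w (X.mv (e * u) x) i) = Pi (X.mv w (X.mv u x) i) := by
        intro i hi
        rw [h1 i hi, map_mul, heP, one_mul]
      have h4 : X.RR τ (X.mv w (X.mv (e * u) x)) = X.RR τ (X.mv w (X.mv u x)) := by
        unfold AD.RR AD.bk wd
        congr 1
        refine List.map_congr_left fun v _ => ?_
        congr 2
        refine List.map_congr_left fun i _ => ?_
        by_cases hi : i ∈ X.Jf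
        · rw [h1 i hi]
          by_cases hij : (⟨i, hi⟩ : X.Jf) = j
          · have hij' : i = j := congrArg Subtype.val hij
            subst hij'
            rw [hij, hej]
            have h5 : (X.mv w (X.mv u x) j).right = 1 := by
              rw [mv_mv]
              unfold AD.mv
              rw [dif_pos j.2, SemidirectProduct.mul_right]
              change 1 * _ = _
              rw [one_mul, hx _ j.2, hX.pw _ j.2 hj]
            have h6 : X.mv w (X.mv u x) j = il (X.mv w (X.mv u x) j).left := by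
              refine SemidirectProduct.ext rfl ?_
              rw [h5]
              rfl
            rw [h6, hX.pt _ j.2 hj]
            have h7 : ∀ a b : S, (il ⁅a, b⁆ : SP S P) = ⁅(il a : SP S P), il b⁆ := fun a b =>
              map_commutatorElement (SemidirectProduct.inl : S →* SP S P) a b
            have h8 : ∀ a b : S, (il (a * b) : SP S P) = il a * il b := fun a b =>
              map_mul (SemidirectProduct.inl : S →* SP S P) a b
            rw [← h8, ← h7, ← h7, com_cen hc]
          · rw [hei _ hij]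
            have : (il (1 : S) : SP S P) = 1 := map_one (SemidirectProduct.inl : S →* SP S P)
            rw [this, one_mul]
        · rw [h2 i hi]
      rw [h4]
      constructor
      · rintro ⟨g, r⟩
        exact ⟨hX.gi _ _ h3 g, r⟩
      · rintro ⟨g, r⟩
        exact ⟨hX.gi _ _ (fun i hi => (h3 i hi).symm) g, r⟩
    unfold AD.H
    simp only [key]
  -- the phase
  have hB : ∀ u ∈ X.Cg m, X.pr η (e * u) = (η j).1.ap (gk m z) + X.pr η u := by
    intro u hu
    unfold AD.Cg at hu
    rw [Finset.mem_filter] at hu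
    unfold AD.pr
    rw [← Finset.add_sum_erase _ _ (Finset.mem_univ j), ← Finset.add_sum_erase _ _ (Finset.mem_univ j), ← add_assoc]
    congr 1
    · rw [if_pos hj, if_pos hj]
      have h1 := hu.2 j
      rw [if_pos hj] at h1
      change (η j).1.ap (gk m (e j * u j)) = _
      rw [hej, gk_mul hz h1, ap_sum]
    · refine Finset.sum_congr rfl fun i hi => ?_
      have h1 : (e * u) i = u i := by
        change e i * u i = u i
        rw [hei i (Finset.ne_of_mem_erase hi), one_mul]
      rw [h1]
  have hC : X.Hh m τ x η = H63.MA.ep q (-(η j).1.ap (gk m z)) * X.Hh m τ x η := by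
    have h1 : ∑ u ∈ X.Cg m, X.H (m + 1) τ (X.mv u x) * H63.MA.ep q (-X.pr η u) =
        H63.MA.ep q (-(η j).1.ap (gk m z)) * ∑ u ∈ X.Cg m, X.H (m + 1) τ (X.mv u x) * H63.MA.ep q (-X.pr η u) := by
      conv_lhs => rw [← Finset.sum_bij' (s := X.Cg m) (f := fun u => X.H (m + 1) τ (X.mv (e * u) x) * H63.MA.ep q (-X.pr η (e * u)))
        (fun u _ => e * u) (fun u _ => e⁻¹ * u) (fun u hu => cg_mul X hee hu) (fun u hu => cg_mul X (cg_inv X hee) hu)
        (fun u _ => inv_mul_cancel_left e u) (fun u _ => mul_inv_cancel_left e u) (fun u _ => rfl)]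
      rw [Finset.mul_sum]
      refine Finset.sum_congr rfl fun u hu => ?_
      rw [hA, hB u hu, neg_add, epq_add]
      ring
    unfold AD.Hh
    conv_lhs => rw [h1]
    rw [mul_div_assoc]
  have hD : H63.MA.ep q (-(η j).1.ap (gk m z)) = 1 := by
    have h1 : (1 - H63.MA.ep q (-(η j).1.ap (gk m z))) * X.Hh m τ x η = 0 := by
      rw [sub_mul, one_mul, ← hC, sub_self]
    rcases mul_eq_zero.1 h1 with h | h
    · exact (sub_eq_zero.1 h).symm
    · exact absurd h hne
  rw [H63.MA.rayc_std] at hD
  have h1 : (ZMod.stdAddChar (-(η j).1.ap (gk m z)) : ℂ) = ZMod.stdAddChar (0 : ZMod q) := by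
    rw [hD, AddChar.map_zero_eq_one]
  exact neg_eq_zero.1 (ZMod.injective_stdAddChar h1)

end H73.S3
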