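import Pool.Agent.H73.S3.Fr

/-!
# [H73 S3 ADF] the data of a rich configuration satisfy `AD.Ok` (MP_b39724_nt, stage 3, chapter B)

Proof. `ph = hat L A φ` on the words with letters in `Z` (`OnZ`, `Rel`; `φ (L.t v) = 1` for `v ∉ S0`, `v ∉ E`), so `ph (Wv v) = φ (F v)` (`v ∈ Z`), `ph (Wi i) = φ (b i)` (`Wds`, `P` is
small: `Nat.card P ≤ Mw ≤ p ^ k`). `pw`: `PPc`. `hb`: `cm`, `s0`. `rel`: `Rel` (`wrd` is `wd` on `bl v`; letters outside `Jf` contain those outside `Z`). `gi`: `G` depends on `G.Pi (x j)`,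
`j ∈ Jf`. `gb`: `LTok` at `E`, `S0` (`G.Pi (t j)` is the local type: `FD.Ok`, `SG.Pi_mk`), `Commute` at the `v ∈ sp Zc f`, `t = 1` at the other places. `gen`: richness and `SG.gen`.
-/

set_option autoImplicit false

open scoped NumberField commutatorElement
open IsDedekindDomain
open scoped Classical

noncomputable section

namespace H73.S3

open H63.MA H38.BB H38.BG H57.PC H57.BRA H77.WD H77.WE H77.PC3 H35.CF H35.UB H77.S3 H71.S3

section wd

variable {H H' I : Type} [Group H] [Group H']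

omit [Group H] in
theorem up_eq {dec : DecidableEq I} (x : I → H) (i : I) (y : H) : Function.update x i y i = y :=
  Function.update_self i y x

omit [Group H] in
theorem up_ne {dec : DecidableEq I} (x : I → H) {i j : I} (y : H) (h : j ≠ i) :
    Function.update x i y j = x j := Function.update_of_ne h y x

theorem wd_map (f : H →* H') (a d : I → H) (l : List I) :
    f (H1.S3.wd a d l) = H1.S3.wd (fun i => f (a i)) (fun i => f (d i)) l := by
  unfold H1.S3.wd
  rw [map_list_prod, List.map_map]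
  congr 1
  apply List.map_congr_left
  intro i _
  exact map_commutatorElement f (a i) (d i)

theorem wd_congr {a d a' d' : I → H} {l : List I} (h : ∀ i ∈ l, a i = a' i ∧ d i = d' i) :
    H1.S3.wd a d l = H1.S3.wd a' d' l := by
  unfold H1.S3.wd
  congr 1
  apply List.map_congr_left
  intro i hi
  rw [(h i hi).1, (h i hi).2]

theorem wd_one (a d : I → H) (i : I) : H1.S3.wd a d [i] = ⁅a i, d i⁆ := by
  unfold H1.S3.wd
  rw [List.map_cons, List.map_nil, List.prod_singleton]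

end wd

variable {K : Type} [Field K] [NumberField K] {Ω : Type} [Field Ω] [Algebra K Ω]
  {p N : ℕ} {ζ : K} {D : RD0 K p ζ} {Q : DP K Ω} {A : GS D Ω} {P : Type} [Group P]
  {c : CL p N P} {S : Type} [Group S] [MulDistribMulAction P S]

theorem sml_of (hp : p.Prime) {k Mw : ℕ} (hk : Mw ≤ p ^ k) {H : Type} [Group H] [Finite H]
    (hH : IsPGroup p H) (hM : Nat.card H ≤ Mw) : Sml p k Mw H := by
  refine ⟨hH, hM, fun h => ?_⟩
  have hpf : Fact p.Prime := ⟨hp⟩
  obtain ⟨n, hn⟩ := IsPGroup.iff_card.1 hH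
  have h1 : p ^ n ≤ p ^ k := by
    rw [← hn]
    exact hM.trans hk
  have h2 : n ≤ k := (Nat.pow_le_pow_iff_right hp.one_lt).1 h1
  obtain ⟨d, rfl⟩ := Nat.exists_eq_add_of_le h2
  rw [pow_add, pow_mul, ← hn, pow_card_eq_one', one_pow]

variable (G : SG c S) (B : SD D Q A) (X : FD A P S) (W : WF A)

/-- `wrd` is the product on the letters of the place -/
theorem wrd_wd (T : ℝ) (Zc : Finset (Pl K)) (f : Pl K → Option (Px c)) {H : Type} [Group H]
    (t w : Pl K → H) (a b : Fin A.g → H) (v : Pl K) :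
    wrd B t w a b v = H1.S3.wd (Sum.elim t a) (Sum.elim w b) ((adf G B X W T Zc f).bl v) := by
  show wrd B t w a b v = H1.S3.wd (Sum.elim t a) (Sum.elim w b) (if v ∈ D.S0 then
    ((List.finRange A.g).filter fun i => B.pl i = v).map Sum.inr else [Sum.inl v])
  unfold wrd
  by_cases hv : v ∈ D.S0
  · rw [if_pos hv, if_pos hv]
    unfold H77.S3.blk H1.S3.wd
    rw [List.map_map]
    rfl
  · rw [if_neg hv, if_neg hv, wd_one]
    rfl

theorem ph_hat (hX : X.Ok G B W) (T : ℝ) (Zc : Finset (Pl K)) (f : Pl K → Option (Px c)) :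
    (adf G B X W T Zc f).ph = hat W.L A X.φ := by
  refine FreeGroup.ext_hom _ _ fun x => ?_
  have h1 : (adf G B X W T Zc f).ph (FreeGroup.of x) = ((adf G B X W T Zc f).t x).right := by
    unfold AD.ph
    rw [FreeGroup.lift_apply_of]
  rw [h1]
  rcases x with v | i
  · rw [hat_inl]
    show (if v ∈ X.E then (⟨X.sv v, X.φ (W.L.t v)⟩ : SP S P) else
      (if v ∈ Zc then f v else none).elim 1 fun s => il (G.y s)).right = X.φ (W.L.t v)
    by_cases hv : v ∈ X.E
    · rw [if_pos hv]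
    · rw [if_neg hv]
      have h2 : X.φ (W.L.t v) = 1 := by
        by_cases h0 : v ∈ D.S0
        · rw [Pool.Agent.H19.AB.t_S0 W.L h0, map_one]
        · exact hX.unz.2 v h0 hv
      rw [h2]
      cases h3 : (if v ∈ Zc then f v else none) with
      | none => rfl
      | some s => rfl
  · rw [hat_inr]
    rfl

variable {G B X W}

theorem ph_v [Finite P] (G : SG c S) (B : SD D Q A) (X : FD A P S) (W : WF A) {k Mw : ℕ}
    (hX : X.Ok G B W) (hW : W.Ok B k Mw) (hP : Sml p k Mw P) (T : ℝ) (Zc : Finset (Pl K))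
    (hZ : Disjoint Zc X.E) (hE : X.E ⊆ W.Z) (f : Pl K → Option (Px c)) :
    (∀ v ∈ W.Z, (adf G B X W T Zc f).ph (W.Wv v) = X.φ (W.Fr.F v)) ∧
      ∀ i, (adf G B X W T Zc f).ph (W.Wi i) = X.φ (B.b i) := by
  have _ := hZ
  rw [ph_hat G B X W hX T Zc f]
  exact hW.rel.2.2.1 P hP X.φ ⟨hX.unz.1, fun v hv hz => hX.unz.2 v hv fun h => hz (hE h)⟩

theorem adf_ok [Fintype S] [Finite P] (hp : p.Prime) (G : SG c S) (B : SD D Q A) (X : FD A P S)
    (W : WF A) {k Mw q c₀ : ℕ} (hX : X.Ok G B W) (hW : W.Ok B k Mw) (T : ℝ) (Zc : Finset (Pl K))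
    (hZ : Disjoint Zc X.E) (hZc : Zc ⊆ W.Z) (hE : X.E ⊆ W.Z) (f : Pl K → Option (Px c))
    (hf : Rich X W T Zc 1 f) (hP : IsPGroup p P) (hS : IsPGroup p S) (hn : gm S (c₀ + 1) = ⊥)
    (hq : ∀ s : S, s ^ q = 1) (hk : Mw ≤ p ^ k) (hM : Nat.card P * Nat.card S ^ 2 * q ≤ Mw)
    (hqp : ∃ r, q = p ^ r) : (adf G B X W T Zc f).Ok p k Mw q c₀ G.Pi := by
  have hpf : Fact p.Prime := ⟨hp⟩
  have hcS : 0 < Nat.card S := Nat.card_pos
  have hq0 : 0 < q := by
    obtain ⟨r, rfl⟩ := hqp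
    exact pow_pos hp.pos r
  have hPM : Nat.card P ≤ Mw := by
    refine le_trans ?_ hM
    calc Nat.card P = Nat.card P * 1 * 1 := by ring
      _ ≤ Nat.card P * Nat.card S ^ 2 * q :=
        Nat.mul_le_mul (Nat.mul_le_mul le_rfl (pow_pos hcS 2)) hq0
  have hPs : Sml p k Mw P := sml_of hp hk hP hPM
  obtain ⟨hph, hpi⟩ := ph_v G B X W hX hW hPs T Zc hZ hE f
  have hhat := ph_hat G B X W hX T Zc f
  set Y := adf G B X W T Zc f with hY
  -- the letters
  have eJ : Y.Jf = (sp Zc f ∪ X.E).disjSum Finset.univ := rfl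
  have jinl : ∀ v, Sum.inl v ∈ Y.Jf ↔ v ∈ sp Zc f ∨ v ∈ X.E := fun v => by
    rw [eJ, Finset.inl_mem_disjSum, Finset.mem_union]
  have jinr : ∀ i, Sum.inr i ∈ Y.Jf := fun i => by
    rw [eJ, Finset.inr_mem_disjSum]
    exact Finset.mem_univ _
  have hspZ : ∀ v, v ∈ sp Zc f → v ∈ W.Z := fun v hv => hZc (mem_sp.1 hv).1
  have hJZ : ∀ v, Sum.inl v ∈ Y.Jf → v ∈ W.Z := fun v hv =>
    ((jinl v).1 hv).elim (hspZ v) fun h => hE h
  have hspE : ∀ v, v ∈ Zc → v ∉ X.E := fun v hv => Finset.disjoint_left.1 hZ hv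
  have bl0 : ∀ v, v ∈ D.S0 → Y.bl v =
      ((List.finRange A.g).filter fun i => B.pl i = v).map Sum.inr := fun v hv => if_pos hv
  have bl1 : ∀ v, v ∉ D.S0 → Y.bl v = [Sum.inl v] := fun v hv => if_neg hv
  have mb0 : ∀ v, v ∈ D.S0 → ∀ j, j ∈ Y.bl v ↔ ∃ i, B.pl i = v ∧ j = Sum.inr i := by
    intro v hv j
    rw [bl0 v hv, List.mem_map]
    constructor
    · rintro ⟨i, hi, rfl⟩
      refine ⟨i, ?_, rfl⟩
      have := (List.mem_filter.1 hi).2
      simpa using this
    · rintro ⟨i, hi, rfl⟩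
      refine ⟨i, List.mem_filter.2 ⟨List.mem_finRange _, ?_⟩, rfl⟩
      simpa using hi
  have pinl : ∀ v, Y.pj (Sum.inl v) = v := fun v => rfl
  have pinr : ∀ i, Y.pj (Sum.inr i) = B.pl i := fun i => rfl
  have ppl : ∀ v, Y.pp (Sum.inl v) ↔ v ∈ sp Zc f ∧ PPc X W T v := fun v => Iff.rfl
  have ppr : ∀ i, ¬Y.pp (Sum.inr i) := fun i h => h
  have tE : ∀ v, v ∈ X.E → Y.t (Sum.inl v) = ⟨X.sv v, X.φ (W.L.t v)⟩ := fun v hv => if_pos hv
  have tZ : ∀ v s, v ∈ Zc → f v = some s → Y.t (Sum.inl v) = il (G.y s) := fun v s hv hs => by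
    show (if v ∈ X.E then (⟨X.sv v, X.φ (W.L.t v)⟩ : SP S P) else
      (if v ∈ Zc then f v else none).elim 1 fun s => il (G.y s)) = _
    rw [if_neg (hspE v hv), if_pos hv, hs]
    rfl
  have tR : ∀ i, Y.t (Sum.inr i) = ⟨X.si i, X.φ (A.a i)⟩ := fun i => rfl
  have t1 : ∀ v, v ∉ sp Zc f → v ∉ X.E → Y.t (Sum.inl v) = 1 := fun v hv hv' => by
    show (if v ∈ X.E then (⟨X.sv v, X.φ (W.L.t v)⟩ : SP S P) else
      (if v ∈ Zc then f v else none).elim 1 fun s => il (G.y s)) = _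
    rw [if_neg hv']
    by_cases hz : v ∈ Zc
    · have h1 : f v = none := by
        by_contra h
        exact hv (mem_sp.2 ⟨hz, h⟩)
      rw [if_pos hz, h1]
      rfl
    · rw [if_neg hz]
      rfl
  have hsome : ∀ v, v ∈ sp Zc f → ∃ s, f v = some s := fun v hv =>
    Option.ne_none_iff_exists'.1 (mem_sp.1 hv).2
  have gdef : ∀ x, Y.G x ↔ ((∀ v ∈ sp Zc f, ∀ s, f v = some s →
      Commute s.1 (G.Pi (x (Sum.inl v)))) ∧ (∀ v ∈ X.E, G.Pi (x (Sum.inl v)) = X.l.F v) ∧
        ∀ i, G.Pi (x (Sum.inr i)) = X.l.b i) := fun x => Iff.rfl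
  have piil : ∀ s : Px c, G.Pi (il (G.y s)) = s.1 := fun s => by
    rw [SG.Pi_mk]
    show G.pi (G.y s) * 1 = s.1
    rw [mul_one, G.pi_y]
  have piE : ∀ v ∈ X.E, G.Pi (Y.t (Sum.inl v)) = X.l.t v := fun v hv => by
    rw [tE v hv, SG.Pi_mk]
    exact hX.sv v hv
  have piR : ∀ i, G.Pi (Y.t (Sum.inr i)) = X.l.a i := fun i => by
    rw [tR i, SG.Pi_mk]
    exact hX.si i
  -- the values of the blocks
  have hwd : ∀ v, H1.S3.wd (fun j => Y.ph (FreeGroup.of j)) (fun j => Y.ph (Y.W j)) (Y.bl v) =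
      wrd B (fun v => X.φ (W.L.t v)) (fun v => Y.ph (W.Wv v)) (fun i => X.φ (A.a i))
        (fun i => X.φ (B.b i)) v := by
    intro v
    rw [hY, wrd_wd G B X W T Zc f]
    refine wd_congr fun j _ => ?_
    rw [← hY, hhat]
    rcases j with w | i
    · exact ⟨hat_inl _ _ _ _, rfl⟩
    · refine ⟨hat_inr _ _ _ _, ?_⟩
      rw [← hhat]
      exact hpi i
  refine
    { nd := hW.nd
      bn := fun v _ => ?_
      bp := fun v j hj => ?_
      jl := fun j hj => ?_
      al := fun j hj i hi => ?_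
      t1 := fun j hj => ?_
      pb := fun j hj hpj => ?_
      pt := fun j hj hpj => ?_
      pw := fun j hj hpj => ?_
      hb := fun v hv => ?_
      rel := fun H _ _ hH θ hθ => ?_
      gi := fun x x' h hx => ?_
      gb := fun x _ hx v hv => ?_
      gs := fun j hj hpj x hx => ?_
      gen := ?_
      nil := hn
      pg := ?_
      qe := hq
      qp := hqp
      kM := hk
      mx := hM }
  · by_cases h : v ∈ D.S0
    · rw [bl0 v h]
      exact ((List.nodup_finRange _).filter _).map Sum.inr_injective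
    · rw [bl1 v h]
      exact List.nodup_singleton _
  · by_cases h : v ∈ D.S0
    · obtain ⟨i, hi, rfl⟩ := (mb0 v h j).1 hj
      exact hi
    · rw [bl1 v h, List.mem_singleton] at hj
      rw [hj]
      exact pinl v
  · rcases j with v | i
    · have h := hJZ v hj
      refine ⟨(hW.lz v).2 (Or.inl h), ?_⟩
      rw [pinl, bl1 v (hW.zs v h)]
      exact List.mem_singleton.2 rfl
    · refine ⟨(hW.lz _).2 (Or.inr (B.mem i)), ?_⟩
      rw [pinr]
      exact (mb0 _ (B.mem i) _).2 ⟨i, rfl, rfl⟩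
  · rcases j with v | i'
    · rw [pinl, bl1 v (hW.zs v (hJZ v hj)), List.mem_singleton] at hi
      rw [hi]
      exact hj
    · rw [pinr] at hi
      obtain ⟨i, -, rfl⟩ := (mb0 _ (B.mem i') _).1 hi
      exact jinr i
  · rcases j with v | i
    · rw [jinl, not_or] at hj
      exact t1 v hj.1 hj.2
    · exact absurd (jinr i) hj
  · rcases j with v | i
    · rw [pinl]
      exact bl1 v (hW.zs v (hJZ v hj))
    · exact absurd hpj (ppr i)
  · rcases j with v | i
    · obtain ⟨s, hs⟩ := hsome v ((ppl v).1 hpj).1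
      have h1 := tZ v s (mem_sp.1 ((ppl v).1 hpj).1).1 hs
      unfold AD.y
      rw [h1]
      rfl
    · exact absurd hpj (ppr i)
  · rcases j with v | i
    · obtain ⟨h1, h2⟩ := (ppl v).1 hpj
      exact (hph v (hspZ v h1)).trans h2.2
    · exact absurd hpj (ppr i)
  · rw [wd_map, hwd v]
    unfold wrd
    by_cases h : v ∈ D.S0
    · rw [if_pos h]
      exact hW.s0 v h P hPs X.φ hX.unz.1
    · rw [if_neg h]
      show ⁅X.φ (W.L.t v), Y.ph (W.Wv v)⁆ = 1
      rw [hph v (((hW.lz v).1 hv).resolve_right h), commutatorElement_eq_one_iff_mul_comm]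
      exact (hW.cm v h P hPs X.φ hX.unz.1).symm
  · have h1 := hW.rel.2.2.2 H hH θ fun v hv => hθ _ fun h => hv (hJZ v h)
    refine Eq.trans ?_ h1
    congr 1
    apply List.map_congr_left
    intro v _
    rw [wrd_wd G B X W T Zc f]
    refine wd_congr fun j _ => ?_
    rcases j with w | i
    · exact ⟨rfl, rfl⟩
    · exact ⟨rfl, rfl⟩
  · rw [gdef] at hx ⊢
    refine ⟨fun v hv s hs => ?_, fun v hv => ?_, fun i => ?_⟩
    · rw [← h _ ((jinl v).2 (Or.inl hv))]
      exact hx.1 v hv s hs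
    · rw [← h _ ((jinl v).2 (Or.inr hv))]
      exact hx.2.1 v hv
    · rw [← h _ (jinr i)]
      exact hx.2.2 i
  · rw [gdef] at hx
    unfold AD.bk
    rw [wd_map]
    by_cases h : v ∈ D.S0
    · have h1 : H1.S3.wd (fun j => G.Pi (Y.t j)) (fun j => G.Pi (x j)) (Y.bl v) =
          blk B.pl v X.l.a X.l.b := by
        have h2 : H1.S3.wd (fun j => G.Pi (Y.t j)) (fun j => G.Pi (x j)) (Y.bl v) =
            H1.S3.wd (Sum.elim (fun _ => 1) X.l.a) (Sum.elim (fun _ => 1) X.l.b) (Y.bl v) := by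
          refine wd_congr fun j hj => ?_
          obtain ⟨i, -, rfl⟩ := (mb0 v h j).1 hj
          exact ⟨piR i, hx.2.2 i⟩
        rw [h2, hY, ← wrd_wd G B X W T Zc f]
        unfold wrd
        rw [if_pos h]
      rw [h1]
      exact hX.lt.1 v h
    · rw [bl1 v h, wd_one]
      by_cases hvE : v ∈ X.E
      · rw [piE v hvE, hx.2.1 v hvE]
        exact hX.lt.2 v hvE
      · by_cases hvs : v ∈ sp Zc f
        · obtain ⟨s, hs⟩ := hsome v hvs
          rw [tZ v s (mem_sp.1 hvs).1 hs, piil, commutatorElement_eq_one_iff_mul_comm]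
          exact hx.1 v hvs s hs
        · rw [t1 v hvs hvE, map_one, commutatorElement_one_left]
  · rcases j with v | i
    · obtain ⟨h1, h2⟩ := (ppl v).1 hpj
      obtain ⟨s, hs⟩ := hsome v h1
      rw [gdef] at hx ⊢
      refine ⟨fun w hw s' hs' => ?_, fun w hw => ?_, fun i => ?_⟩
      · by_cases hwv : w = v
        · subst hwv
          rw [up_eq, map_mul, tZ w s (mem_sp.1 h1).1 hs, piil]
          have h3 : s' = s := Option.some_injective _ (hs'.symm.trans hs)
          rw [h3]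
          exact (hx.1 w hw s hs).mul_right (Commute.refl _)
        · rw [up_ne _ _ (fun h => hwv (Sum.inl_injective h))]
          exact hx.1 w hw s' hs'
      · have hwv : w ≠ v := fun h => hspE v (mem_sp.1 h1).1 (h ▸ hw)
        rw [up_ne _ _ (fun h => hwv (Sum.inl_injective h))]
        exact hx.2.1 w hw
      · rw [up_ne _ _ (by simp)]
        exact hx.2.2 i
    · exact absurd hpj (ppr i)
  · refine eq_top_iff.2 (le_trans ?_ le_sup_left)
    rw [← G.gen]
    refine Subgroup.closure_mono ?_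
    rintro _ ⟨s, rfl⟩
    have h1 := hf s
    obtain ⟨v, hv⟩ := Finset.card_pos.1 (Nat.lt_of_lt_of_le Nat.zero_lt_one h1)
    rw [Finset.mem_filter] at hv
    obtain ⟨hv1, hv2, hv3⟩ := hv
    have hvs : v ∈ sp Zc f := mem_sp.2 ⟨hv1, by rw [hv2]; exact Option.some_ne_none s⟩
    refine ⟨Sum.inl v, (jinl v).2 (Or.inl hvs), (ppl v).2 ⟨hvs, hv3⟩, ?_⟩
    unfold AD.y
    rw [tZ v s hv1 hv2]
    rfl
  · have hfS : Finite (SP S P) := Finite.of_equiv _ SemidirectProduct.equivProd.symm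
    rw [IsPGroup.iff_card] at hP hS ⊢
    obtain ⟨a, ha⟩ := hP
    obtain ⟨b, hb⟩ := hS
    refine ⟨b + a, ?_⟩
    rw [Nat.card_congr (SemidirectProduct.equivProd : SP S P ≃ S × P), Nat.card_prod, ha, hb,
      pow_add]

end H73.S3
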