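import Pool.Agent.H73.S3.Al

/-!
# [H73 S3 FOU] the Fourier expansion (MP_b39724_nt, stage 3, chapter B)

`h_inv`: `H m` is invariant under the changes `Cg m` (translation of the set `Cg m`, which is a group: `mv u (mv w x) = mv (u w) x`).
`four`: `H (m+1) τ x = ∑_η Hh m τ x η` over the families with `Ff`. Proof: `∑_η ep (- pr η u) = #{η} · 1[u ∈ Cg (m+1)]` for `u ∈ Cg m` (the functionals `Gr S m → ZMod q` separate
the elements, by `q Gr = 0`: `AddCommGroup` of exponent dividing `q`; `#{η} = ∏ |Gr| = |Cg m| / |Cg (m+1)|`), and `h_inv` for `m + 1`.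
Also `du_card`: `Nat.card (Du S q m) = Nat.card (Gr S m)`, `du_sum`: `∑_χ ep (χ.ap a) = |Gr S m| · 1[a = 0]`, `du_sep`.
-/

set_option autoImplicit false

open scoped commutatorElement
open scoped Classical

noncomputable section

namespace H73.S3

open H1.S3

attribute [local instance 50] Fintype.ofFinite

variable {S P : Type} [Group S] [Group P] [MulDistribMulAction P S] {J V : Type}

theorem epq_zero (q : ℕ) [NeZero q] : H63.MA.ep q 0 = 1 := H63.MA.ep_zero q

theorem epq_add {q : ℕ} [NeZero q] (a b : ZMod q) :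
    H63.MA.ep q (a + b) = H63.MA.ep q a * H63.MA.ep q b := by
  rw [H63.MA.rayc_std, H63.MA.rayc_std, H63.MA.rayc_std, AddChar.map_add_eq_mul]

theorem epq_sum {q : ℕ} [NeZero q] {ι : Type} (s : Finset ι) (f : ι → ZMod q) :
    H63.MA.ep q (∑ i ∈ s, f i) = ∏ i ∈ s, H63.MA.ep q (f i) := by
  induction s using Finset.induction_on with
  | empty => rw [Finset.sum_empty, Finset.prod_empty, H63.MA.ep_zero]
  | insert a s ha ih => rw [Finset.sum_insert ha, Finset.prod_insert ha, epq_add, ih]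

theorem epq_nat {q : ℕ} [NeZero q] (n : ℕ) :
    H63.MA.ep q (n : ZMod q) = Complex.exp (2 * Real.pi * Complex.I / q) ^ n := by
  induction n with
  | zero => rw [Nat.cast_zero, H63.MA.ep_zero, pow_zero]
  | succ n ih =>
    rw [Nat.cast_succ, epq_add, ih, pow_succ]
    congr 1
    rw [H63.MA.rayc_std, ← Int.cast_one, ZMod.stdAddChar_coe]
    congr 1
    push_cast
    ring

theorem gk_pow {m : ℕ} {u : S} (hu : u ∈ gm S m) (n : ℕ) : gk m (u ^ n) = n • gk m u := by
  induction n with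
  | zero => rw [pow_zero, gk_one, zero_smul]
  | succ n ih => rw [pow_succ, gk_mul (pow_mem hu n) hu, ih, succ_nsmul]

theorem gr_exp {q : ℕ} (hq : ∀ s : S, s ^ q = 1) (m : ℕ) (a : Gr S m) : q • a = 0 := by
  obtain ⟨u, hu, rfl⟩ := gk_surj m a
  rw [← gk_pow hu, hq, gk_one]

theorem ap_sum {q m : ℕ} (χ : Du S q m) (a b : Gr S m) : χ.ap (a + b) = χ.ap a + χ.ap b :=
  map_add _ a b

/-- the character of a functional -/
def duc (q m : ℕ) [NeZero q] (χ : Du S q m) : AddChar (Gr S m) ℂ :=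
  (ZMod.stdAddChar (N := q)).compAddMonoidHom χ.ap

theorem duc_apply (q m : ℕ) [NeZero q] (χ : Du S q m) (a : Gr S m) :
    duc q m χ a = H63.MA.ep q (χ.ap a) := by
  rw [H63.MA.rayc_std]
  rfl

theorem duc_bij {q : ℕ} [NeZero q] (hq : ∀ s : S, s ^ q = 1) (m : ℕ) :
    Function.Bijective (duc (S := S) q m) := by
  constructor
  · intro χ ξ h
    refine du_ext fun a => ?_
    have h1 := DFunLike.congr_fun h a
    exact ZMod.injective_stdAddChar h1
  · intro ψ
    have h1 : ∀ a : Gr S m, ∃ x : ZMod q, ZMod.stdAddChar x = ψ a := by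
      intro a
      have h2 : ψ a ^ q = 1 := by
        rw [← AddChar.map_nsmul_eq_pow, gr_exp hq, AddChar.map_zero_eq_one]
      obtain ⟨i, -, hi⟩ := (Complex.isPrimitiveRoot_exp q (NeZero.ne q)).eq_pow_of_pow_eq_one h2
      refine ⟨(i : ZMod q), ?_⟩
      rw [← H63.MA.rayc_std, epq_nat, hi]
    choose f hf using h1
    refine ⟨(AddMonoidHom.mk' f fun a b => ?_ : Gr S m →+ ZMod q), ?_⟩
    · apply ZMod.injective_stdAddChar
      rw [hf, AddChar.map_add_eq_mul, AddChar.map_add_eq_mul, hf, hf]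
    · ext a
      exact hf a

theorem du_sep {q : ℕ} [NeZero q] [Finite S] (hq : ∀ s : S, s ^ q = 1) (m : ℕ) (a : Gr S m) (ha : a ≠ 0) :
    ∃ χ : Du S q m, χ.ap a ≠ 0 := by
  obtain ⟨ψ, hψ⟩ := AddChar.exists_apply_ne_zero.2 ha
  obtain ⟨χ, rfl⟩ := (duc_bij hq m).2 ψ
  refine ⟨χ, fun h => hψ ?_⟩
  rw [duc_apply, h, H63.MA.ep_zero]

theorem du_card {q : ℕ} [NeZero q] [Finite S] (hq : ∀ s : S, s ^ q = 1) (m : ℕ) :
    Nat.card (Du S q m) = Nat.card (Gr S m) := by
  rw [Nat.card_congr (Equiv.ofBijective _ (duc_bij hq m)), Nat.card_eq_fintype_card,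
    Nat.card_eq_fintype_card]
  exact AddChar.card_eq

theorem du_sum {q : ℕ} [NeZero q] [Finite S] (hq : ∀ s : S, s ^ q = 1) (m : ℕ) (a : Gr S m) :
    ∑ χ : Du S q m, H63.MA.ep q (χ.ap a) = if a = 0 then (Nat.card (Gr S m) : ℂ) else 0 := by
  have h1 : ∑ χ : Du S q m, H63.MA.ep q (χ.ap a) = ∑ ψ : AddChar (Gr S m) ℂ, ψ a := by
    refine Fintype.sum_bijective _ (duc_bij hq m) _ _ fun χ => ?_
    rw [duc_apply]
  rw [h1, AddChar.sum_apply_eq_ite, Nat.card_eq_fintype_card]

theorem mv_mv (X : AD S P J V) (w u : X.Jf → S) (x : J → SP S P) :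
    X.mv w (X.mv u x) = X.mv (w * u) x := by
  funext j
  unfold AD.mv
  split_ifs with h
  · rw [← mul_assoc]
    congr 1
    exact (map_mul (SemidirectProduct.inl : S →* SP S P) _ _).symm
  · rfl

theorem cg_mul [Fintype S] (X : AD S P J V) {m : ℕ} {w u : X.Jf → S} (hw : w ∈ X.Cg m)
    (hu : u ∈ X.Cg m) : w * u ∈ X.Cg m := by
  unfold AD.Cg at *
  rw [Finset.mem_filter] at *
  exact ⟨Finset.mem_univ _, fun j => mul_mem (hw.2 j) (hu.2 j)⟩

theorem cg_inv [Fintype S] (X : AD S P J V) {m : ℕ} {u : X.Jf → S} (hu : u ∈ X.Cg m) :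
    u⁻¹ ∈ X.Cg m := by
  unfold AD.Cg at *
  rw [Finset.mem_filter] at *
  exact ⟨Finset.mem_univ _, fun j => inv_mem (hu.2 j)⟩

theorem h_inv [Fintype S] (X : AD S P J V) (m : ℕ) (τ : V → S) (x : J → SP S P) (u : X.Jf → S)
    (hu : u ∈ X.Cg m) : X.H m τ (X.mv u x) = X.H m τ x := by
  have h1 : ((X.Cg m).filter fun w => X.G (X.mv w (X.mv u x)) ∧ X.RR τ (X.mv w (X.mv u x)) = 1).card =
      ((X.Cg m).filter fun w => X.G (X.mv w x) ∧ X.RR τ (X.mv w x) = 1).card := by
    refine Finset.card_bij' (fun w _ => w * u) (fun w _ => w * u⁻¹) ?_ ?_ ?_ ?_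
    · intro w hw
      rw [Finset.mem_filter, mv_mv] at hw
      rw [Finset.mem_filter]
      exact ⟨cg_mul X hw.1 hu, hw.2⟩
    · intro w hw
      rw [Finset.mem_filter] at hw
      rw [Finset.mem_filter, mv_mv, inv_mul_cancel_right]
      exact ⟨cg_mul X hw.1 (cg_inv X hu), hw.2⟩
    · intro w _
      exact mul_inv_cancel_right w u
    · intro w _
      exact inv_mul_cancel_right w u
  unfold AD.H
  rw [h1]

theorem cg_card [Fintype S] (X : AD S P J V) (m : ℕ) :
    (X.Cg m).card = ∏ j : X.Jf, Nat.card (gm S (if X.pp j then m else m + 1)) := by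
  have h1 : X.Cg m = Fintype.piFinset fun j : X.Jf =>
      Finset.univ.filter fun s : S => s ∈ gm S (if X.pp j then m else m + 1) := by
    ext u
    unfold AD.Cg
    rw [Finset.mem_filter, Fintype.mem_piFinset]
    simp
  rw [h1, Fintype.card_piFinset]
  refine Finset.prod_congr rfl fun j _ => ?_
  rw [Nat.card_eq_fintype_card, Fintype.card_subtype]

theorem gr_card [Finite S] (m : ℕ) : Nat.card (gm S m) = Nat.card (Gr S m) * Nat.card (gm S (m + 1)) := by
  have h1 : Nat.card (Gr S m) = ((gm S (m + 1)).subgroupOf (gm S m)).index := rfl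
  have h2 := ((gm S (m + 1)).subgroupOf (gm S m)).card_mul_index
  have h3 : Nat.card ((gm S (m + 1)).subgroupOf (gm S m)) = Nat.card (gm S (m + 1)) :=
    Nat.card_congr (Subgroup.subgroupOfEquivOfLe (gm_anti m)).toEquiv
  rw [h1, ← h2, h3, mul_comm]

/-- the sum of a family over the functionals -/
theorem ff_sum [Fintype S] (X : AD S P J V) {q : ℕ} [NeZero q] (hq : ∀ s : S, s ^ q = 1) (m : ℕ)
    (u : X.Jf → S) (hu : u ∈ X.Cg m) :
    ∑ η ∈ Finset.univ.filter fun η : X.Jf → Du S q m × Du S q (m + 1) => X.Ff η,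
      H63.MA.ep q (-X.pr η u) =
    if u ∈ X.Cg (m + 1) then ∏ j : X.Jf, (Nat.card (Gr S (if X.pp j then m else m + 1)) : ℂ) else 0 := by
  obtain ⟨D, hD⟩ : ∃ D : X.Jf → Finset (Du S q m × Du S q (m + 1)), D = fun j : X.Jf =>
    if X.pp j then (Finset.univ : Finset (Du S q m)) ×ˢ ({0} : Finset (Du S q (m + 1)))
    else ({0} : Finset (Du S q m)) ×ˢ (Finset.univ : Finset (Du S q (m + 1))) := ⟨_, rfl⟩
  have h1 : (Finset.univ.filter fun η : X.Jf → Du S q m × Du S q (m + 1) => X.Ff η) =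
      Fintype.piFinset D := by
    ext η
    rw [Finset.mem_filter, Fintype.mem_piFinset, hD]
    unfold AD.Ff
    refine ⟨fun h j => ?_, fun h => ⟨Finset.mem_univ _, fun j => ?_⟩⟩
    · have h2 := h.2 j
      beta_reduce
      split_ifs at h2 ⊢
      · rw [Finset.mem_product, Finset.mem_singleton]
        exact ⟨Finset.mem_univ _, h2⟩
      · rw [Finset.mem_product, Finset.mem_singleton]
        exact ⟨h2, Finset.mem_univ _⟩
    · have h2 := h j
      beta_reduce at h2
      split_ifs at h2 ⊢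
      · rw [Finset.mem_product, Finset.mem_singleton] at h2
        exact h2.2
      · rw [Finset.mem_product, Finset.mem_singleton] at h2
        exact h2.1
  rw [h1]
  have h2 : ∀ η ∈ Fintype.piFinset D, H63.MA.ep q (-X.pr η u) = ∏ j : X.Jf,
      H63.MA.ep q (-(if X.pp j then (η j).1.ap (gk m (u j)) else (η j).2.ap (gk (m + 1) (u j)))) := by
    intro η _
    unfold AD.pr
    rw [← Finset.sum_neg_distrib, epq_sum]
  rw [Finset.sum_congr rfl h2, ← Finset.prod_univ_sum D fun j (z : Du S q m × Du S q (m + 1)) =>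
    H63.MA.ep q (-(if X.pp j then z.1.ap (gk m (u j)) else z.2.ap (gk (m + 1) (u j))))]
  have h3 : ∀ j : X.Jf, ∑ z ∈ D j, H63.MA.ep q
      (-(if X.pp j then z.1.ap (gk m (u j)) else z.2.ap (gk (m + 1) (u j)))) =
      if u j ∈ gm S (if X.pp j then m + 1 else m + 1 + 1) then
        (Nat.card (Gr S (if X.pp j then m else m + 1)) : ℂ) else 0 := by
    intro j
    unfold AD.Cg at hu
    rw [Finset.mem_filter] at hu
    have hj := hu.2 j
    rw [hD]
    beta_reduce
    by_cases h4 : X.pp j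
    · simp only [if_pos h4] at hj ⊢
      rw [Finset.sum_product]
      simp only [Finset.sum_singleton]
      have h5 : ∀ χ : Du S q m, -χ.ap (gk m (u j)) = χ.ap (-gk m (u j)) := fun χ => (map_neg _ _).symm
      simp only [h5]
      rw [du_sum hq]
      simp only [neg_eq_zero, gk_zero hj]
    · simp only [if_neg h4] at hj ⊢
      rw [Finset.sum_product, Finset.sum_singleton]
      have h5 : ∀ χ : Du S q (m + 1), -χ.ap (gk (m + 1) (u j)) = χ.ap (-gk (m + 1) (u j)) :=
        fun χ => (map_neg _ _).symm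
      simp only [h5]
      rw [du_sum hq]
      simp only [neg_eq_zero, gk_zero hj]
  rw [Finset.prod_congr rfl fun j _ => h3 j]
  split_ifs with h4
  · unfold AD.Cg at h4
    rw [Finset.mem_filter] at h4
    exact Finset.prod_congr rfl fun j _ => if_pos (h4.2 j)
  · unfold AD.Cg at h4
    rw [Finset.mem_filter] at h4
    push Not at h4
    obtain ⟨j, hj⟩ := h4 (Finset.mem_univ _)
    exact Finset.prod_eq_zero (Finset.mem_univ j) (if_neg hj)

theorem four [Fintype S] (X : AD S P J V) {q : ℕ} [NeZero q] (hq : ∀ s : S, s ^ q = 1) (m : ℕ) (hm : 1 ≤ m)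
    (τ : V → S) (x : J → SP S P) :
    X.H (m + 1) τ x = ∑ η ∈ Finset.univ.filter fun η : X.Jf → Du S q m × Du S q (m + 1) => X.Ff η,
      X.Hh m τ x η := by
  have hsub : X.Cg (m + 1) ⊆ X.Cg m := by
    intro u hu
    unfold AD.Cg at *
    rw [Finset.mem_filter] at *
    refine ⟨Finset.mem_univ _, fun j => ?_⟩
    have := hu.2 j
    split_ifs at this ⊢
    · exact gm_anti m this
    · exact gm_anti (m + 1) this
  have h0 : ((X.Cg m).card : ℂ) ≠ 0 := by
    rw [Nat.cast_ne_zero, cg_card]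
    exact Finset.prod_ne_zero_iff.2 fun j _ => Nat.card_pos.ne'
  have h1 : ((X.Cg m).card : ℂ) = (∏ j : X.Jf, (Nat.card (Gr S (if X.pp j then m else m + 1)) : ℂ)) *
      ((X.Cg (m + 1)).card : ℂ) := by
    rw [cg_card, cg_card]
    push_cast
    rw [← Finset.prod_mul_distrib]
    refine Finset.prod_congr rfl fun j _ => ?_
    rw [gr_card (if X.pp j then m else m + 1)]
    push_cast
    congr 3
    split_ifs
    · rfl
    · rfl
  have h2 : ∑ η ∈ Finset.univ.filter fun η : X.Jf → Du S q m × Du S q (m + 1) => X.Ff η,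
      X.Hh m τ x η = (∑ u ∈ X.Cg m, X.H (m + 1) τ (X.mv u x) *
        ∑ η ∈ Finset.univ.filter fun η : X.Jf → Du S q m × Du S q (m + 1) => X.Ff η,
          H63.MA.ep q (-X.pr η u)) / ((X.Cg m).card : ℂ) := by
    unfold AD.Hh
    rw [← Finset.sum_div, Finset.sum_comm]
    simp only [Finset.mul_sum]
  have h3 : ∀ u ∈ X.Cg m, X.H (m + 1) τ (X.mv u x) *
        ∑ η ∈ Finset.univ.filter fun η : X.Jf → Du S q m × Du S q (m + 1) => X.Ff η,
          H63.MA.ep q (-X.pr η u) =
      if u ∈ X.Cg (m + 1) then X.H (m + 1) τ x *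
        ∏ j : X.Jf, (Nat.card (Gr S (if X.pp j then m else m + 1)) : ℂ) else 0 := by
    intro u hu
    rw [ff_sum X hq m u hu]
    split_ifs with h4
    · rw [h_inv X (m + 1) τ x u h4]
    · rw [mul_zero]
  rw [h2, Finset.sum_congr rfl h3, ← Finset.sum_filter, Finset.sum_const, nsmul_eq_mul,
    Finset.filter_mem_eq_inter, Finset.inter_eq_right.2 hsub, eq_div_iff h0, h1]
  ring

end H73.S3
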