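import Pool.Agent.H73.S3.Al
import Pool.Agent.H1.S3.Nin

/-!
# [H73 S3 NNX] Lemma 5 for `H_m` (MP_b39724_nt, stage 3, chapter B)

`h_cnt`: the exact value of `H_m` (with the blocks modulo `⁅N ⊓ gam_m, S⁆`). `nnx`: `H_m` does not depend on `τ` modulo `gam_m` at the letters which are not `pp`, and modulo `gam_(m-1)` at the letters `pp` (`gm S 0 = ⊤`).
Proof. Let `N = ker (Pi ∘ il)`, `N' = N ⊓ gam_m`. If `G (mv u x)` then all blocks are in `il N` (`gb`, `hb`). Multiplying `u j` on the right side by `ν j`, `pp j`, such that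
`mv` is multiplied on the right by `ν' j ∈ N'` (`mv (u · (x_j ν x_j⁻¹)) x = mv u x · ν`; `x j ∈ il S` for `pp j`) does not change `G` (`gi`); sum over `ν : PP → N'` first
(H1/S3/Nin: `nin_sum` / `nin_card` with `s i = τ_i y_i τ_i⁻¹`, `x i` replaced by `τ_i x_i τ_i⁻¹`, closure from `gen`): the number of `ν` with `RR = 1` depends only on
`RR τ (mv u x)` modulo `⁅N', ⊤⁆`. The change of `τ` changes every factor of `RR` by an element of `⁅gam_m, N⁆ ≤ ⁅N', ⊤⁆` (`gam_comm_le`), for `pp`: `⁅gam_(m-1), N ⊓ gam_2⁆`,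
and `⁅gam_(m-1), N ⊓ gam_2⁆ ≤ ⁅N', ⊤⁆` (`lcs_comm_nd` for `N ⊓ gam_2`).
-/

set_option autoImplicit false

open scoped commutatorElement
open scoped Classical

noncomputable section

namespace H73.S3

open H1.S3

variable {S P : Type} [Group S] [Group P] [MulDistribMulAction P S] {J V : Type}

section aux

private theorem il_mul (a b : S) : (il (a * b) : SP S P) = il a * il b :=
  map_mul (SemidirectProduct.inl : S →* SP S P) a b

private theorem il_one : (il (1 : S) : SP S P) = 1 :=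
  map_one (SemidirectProduct.inl : S →* SP S P)

private theorem il_inv (a : S) : (il a⁻¹ : SP S P) = (il a)⁻¹ :=
  map_inv (SemidirectProduct.inl : S →* SP S P) a

private theorem il_com (a b : S) : (il ⁅a, b⁆ : SP S P) = ⁅(il a : SP S P), il b⁆ :=
  map_commutatorElement (SemidirectProduct.inl : S →* SP S P) a b

private theorem il_inj {a b : S} (h : (il a : SP S P) = il b) : a = b :=
  SemidirectProduct.inl_injective h

private theorem il_eq (z : SP S P) (h : z.right = 1) : z = il z.left := by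
  refine SemidirectProduct.ext ?_ ?_
  · rfl
  · exact h

private theorem il_right (a : S) : (il a : SP S P).right = 1 := rfl

private theorem il_prod (l : List S) : (il l.prod : SP S P) = (l.map il).prod :=
  map_list_prod (SemidirectProduct.inl : S →* SP S P) l

private theorem wd_hom {F F' I : Type} [Group F] [Group F'] (f : F →* F') (a d : I → F)
    (l : List I) : f (wd a d l) = wd (fun i => f (a i)) (fun i => f (d i)) l := by
  unfold wd
  rw [map_list_prod, List.map_map]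
  congr 1
  refine List.map_congr_left fun i _ => ?_
  exact map_commutatorElement f (a i) (d i)

private theorem wd_congr {F I : Type} [Group F] (a d d' : I → F) (l : List I)
    (h : ∀ i ∈ l, ⁅a i, d i⁆ = ⁅a i, d' i⁆) : wd a d l = wd a d' l := by
  unfold wd
  congr 1
  exact List.map_congr_left h

private theorem nd_gm (N : Subgroup S) [N.Normal] (i : ℕ) :
    Nin.Nd (N ⊓ gm S 2) i ≤ gm S (2 + i) := by
  induction i with
  | zero => exact inf_le_right
  | succ i ih =>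
    have h1 : gm S (2 + (i + 1)) = ⁅gm S (2 + i), ⊤⁆ := gm_succ (2 + i) (by omega)
    rw [Nin.nd_succ, h1]
    exact Subgroup.commutator_mono ih le_rfl

/-- the two commutator inclusions -/
private theorem pp_le (N : Subgroup S) [N.Normal] {m : ℕ} (hm : 1 ≤ m) :
    ⁅gm S (m - 1), N ⊓ gm S 2⁆ ≤ ⁅N ⊓ gm S m, ⊤⁆ := by
  rcases Nat.lt_or_ge m 2 with h | h
  · have h1 : m = 1 := by omega
    subst h1
    rw [Subgroup.commutator_comm]
    refine Subgroup.commutator_mono ?_ le_top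
    exact le_inf inf_le_left (by rw [gm_one]; exact le_top)
  · have h1 := Nin.lcs_comm_nd (S := S) (m - 2) (N ⊓ gm S 2)
    have h2 : gm S (m - 1) = (⊤ : Subgroup S).lowerCentralSeries (m - 2) := by
      unfold gm
      congr 1
    rw [h2]
    refine h1.trans ?_
    rw [Nin.nd_succ]
    refine Subgroup.commutator_mono (le_inf ?_ ?_) le_rfl
    · exact (Nin.nd_le_zero _ _).trans inf_le_left
    · have h3 := nd_gm N (m - 2)
      rwa [show 2 + (m - 2) = m by omega] at h3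

private theorem np_le (N : Subgroup S) [N.Normal] (m : ℕ) :
    ⁅gm S m, N⁆ ≤ ⁅N ⊓ gm S m, ⊤⁆ :=
  Nin.gam_comm_le N (m - 1)

end aux

section cfg

variable [Fintype S] (X : AD S P J V) {p k Mw q c : ℕ} {P' : Type} [Group P']
  {Pi : SP S P →* P'}

/-- the kernel in `S` -/
private def Nk (Pi : SP S P →* P') : Subgroup S := (Pi.comp SemidirectProduct.inl).ker

private instance nk_normal : (Nk Pi).Normal := by
  unfold Nk
  infer_instance

omit [Fintype S] in
private theorem mem_nk {s : S} : s ∈ Nk Pi ↔ Pi (il s) = 1 := MonoidHom.mem_ker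

/-- the places of the letters `pp` -/
private def PV : Finset V := (X.Jf.filter fun j => X.pp j).image X.pj

omit [Fintype S] in
private theorem mem_pv {v : V} : v ∈ PV X ↔ ∃ j ∈ X.Jf, X.pp j ∧ X.pj j = v := by
  unfold PV
  rw [Finset.mem_image]
  constructor
  · rintro ⟨j, hj, e⟩
    rw [Finset.mem_filter] at hj
    exact ⟨j, hj.1, hj.2, e⟩
  · rintro ⟨j, h1, h2, e⟩
    exact ⟨j, Finset.mem_filter.2 ⟨h1, h2⟩, e⟩

/-- the letter of a place `pp` -/
private def jv (v : PV X) : J := ((mem_pv X).1 v.2).choose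

omit [Fintype S] in
private theorem jv_spec (v : PV X) : jv X v ∈ X.Jf ∧ X.pp (jv X v) ∧ X.pj (jv X v) = v :=
  ((mem_pv X).1 v.2).choose_spec

omit [Fintype S] in
private theorem jv_uniq (hX : X.Ok p k Mw q c Pi) (v : PV X) {j : J} (h1 : j ∈ X.Jf)
    (h2 : X.pp j) (h3 : X.pj j = v) : jv X v = j := by
  obtain ⟨e1, e2, e3⟩ := jv_spec X v
  have h4 := hX.pb j h1 h2
  have h5 := hX.pb _ e1 e2
  rw [e3] at h5
  rw [h3] at h4
  rw [h4] at h5
  exact (List.singleton_inj.1 h5).symm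

omit [Fintype S] in
private theorem x_il (hX : X.Ok p k Mw q c Pi) {x : J → SP S P}
    (hx : ∀ j ∈ X.Jf, (x j).right = X.ph (X.W j)) {j : J} (h1 : j ∈ X.Jf) (h2 : X.pp j) :
    x j = il (x j).left :=
  il_eq _ (by rw [hx j h1, hX.pw j h1 h2])

omit [Fintype S] in
private theorem mv_right {x : J → SP S P} (hx : ∀ j ∈ X.Jf, (x j).right = X.ph (X.W j))
    (u : X.Jf → S) : ∀ j ∈ X.Jf, (X.mv u x j).right = X.ph (X.W j) := by
  intro j hj
  unfold AD.mv
  rw [dif_pos hj, SemidirectProduct.mul_right, il_right, one_mul]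
  exact hx j hj

omit [Fintype S] in
/-- the blocks are in `S` -/
private theorem bk_right (hX : X.Ok p k Mw q c Pi) {z : J → SP S P}
    (hz : ∀ j ∈ X.Jf, (z j).right = X.ph (X.W j)) {v : V} (hv : v ∈ X.l) :
    (X.bk z v).right = 1 := by
  have h1 : SemidirectProduct.rightHom (X.bk z v) = 1 := by
    unfold AD.bk
    rw [wd_hom]
    have h2 := hX.hb v hv
    rw [wd_hom] at h2
    rw [← h2]
    unfold wd
    congr 1
    refine List.map_congr_left fun i _ => ?_
    have h3 : X.ph (FreeGroup.of i) = (X.t i).right := by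
      unfold AD.ph
      rw [FreeGroup.lift_apply_of]
    beta_reduce
    rw [h3]
    by_cases hi : i ∈ X.Jf
    · show ⁅(X.t i).right, (z i).right⁆ = _
      rw [hz i hi]
    · rw [hX.t1 i hi]
      show ⁅(1 : P), (z i).right⁆ = ⁅(1 : P), X.ph (X.W i)⁆
      rw [commutatorElement_one_left, commutatorElement_one_left]
  exact h1

/-- the changes of the `u` -/
private def wv (x : J → SP S P) (τ : V → S) (κ : PV X → S) (j : X.Jf) : S :=
  if h : X.pj j ∈ PV X ∧ X.pp j then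
    (x j).left * ((τ (X.pj j))⁻¹ * κ ⟨X.pj j, h.1⟩ * τ (X.pj j)) * ((x j).left)⁻¹ else 1

omit [Fintype S] in
private theorem pj_mem {j : J} (h1 : j ∈ X.Jf) (h2 : X.pp j) : X.pj j ∈ PV X :=
  (mem_pv X).2 ⟨j, h1, h2, rfl⟩

omit [Fintype S] in
private theorem wv_mem {m : ℕ} (x : J → SP S P) (τ : V → S) {κ : PV X → S}
    (hκ : ∀ v, κ v ∈ gm S m) (j : X.Jf) : wv X x τ κ j ∈ gm S (if X.pp j then m else m + 1) := by
  unfold wv
  by_cases h : X.pj j ∈ PV X ∧ X.pp j
  · rw [dif_pos h, if_pos h.2]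
    refine (gm_normal m).conj_mem _ ?_ _
    have h3 := (gm_normal m).conj_mem _ (hκ ⟨X.pj j, h.1⟩) (τ (X.pj j))⁻¹
    rwa [inv_inv] at h3
  · rw [dif_neg h]
    exact one_mem _

omit [Fintype S] in
/-- the values at the letters `pp` -/
private theorem mv_pp (hX : X.Ok p k Mw q c Pi) {x : J → SP S P}
    (hx : ∀ j ∈ X.Jf, (x j).right = X.ph (X.W j)) (τ : V → S) (κ : PV X → S) (u : X.Jf → S)
    {j : J} (h1 : j ∈ X.Jf) (h2 : X.pp j) :
    X.mv (fun j => u j * wv X x τ κ j) x j =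
      X.mv u x j * il ((τ (X.pj j))⁻¹ * κ ⟨X.pj j, pj_mem X h1 h2⟩ * τ (X.pj j)) := by
  unfold AD.mv
  rw [dif_pos h1, dif_pos h1]
  have h3 : wv X x τ κ ⟨j, h1⟩ = (x j).left *
      ((τ (X.pj j))⁻¹ * κ ⟨X.pj j, pj_mem X h1 h2⟩ * τ (X.pj j)) * ((x j).left)⁻¹ := by
    unfold wv
    rw [dif_pos ⟨pj_mem X h1 h2, h2⟩]
  show il (u ⟨j, h1⟩ * wv X x τ κ ⟨j, h1⟩) * x j = _
  rw [h3]
  have h4 := x_il X hX hx h1 h2
  have h5 : il (x j).left = x j := h4.symm
  rw [il_mul, il_mul (_ * _) ((x j).left)⁻¹, il_mul (x j).left, il_inv (x j).left, h5]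
  group

omit [Fintype S] in
/-- the values at the other letters -/
private theorem mv_np (x : J → SP S P) (τ : V → S) (κ : PV X → S) (u : X.Jf → S)
    {j : J} (h : ¬(j ∈ X.Jf ∧ X.pp j)) :
    X.mv (fun j => u j * wv X x τ κ j) x j = X.mv u x j := by
  unfold AD.mv
  by_cases h1 : j ∈ X.Jf
  · rw [dif_pos h1, dif_pos h1]
    have h3 : wv X x τ κ ⟨j, h1⟩ = 1 := by
      unfold wv
      rw [dif_neg]
      exact fun h2 => h ⟨h1, h2.2⟩
    show il (u ⟨j, h1⟩ * wv X x τ κ ⟨j, h1⟩) * x j = _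
    rw [h3, mul_one]
  · rw [dif_neg h1, dif_neg h1]

omit [Fintype S] in
/-- the conditions do not change -/
private theorem g_iff (hX : X.Ok p k Mw q c Pi) {x : J → SP S P}
    (hx : ∀ j ∈ X.Jf, (x j).right = X.ph (X.W j)) (τ : V → S) {κ : PV X → S}
    (hκ : ∀ v, κ v ∈ Nk Pi) (u : X.Jf → S) :
    X.G (X.mv (fun j => u j * wv X x τ κ j) x) ↔ X.G (X.mv u x) := by
  have h1 : ∀ j ∈ X.Jf, Pi (X.mv (fun j => u j * wv X x τ κ j) x j) = Pi (X.mv u x j) := by
    intro j hj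
    by_cases h2 : X.pp j
    · rw [mv_pp X hX hx τ κ u hj h2, map_mul]
      have h3 := (nk_normal (Pi := Pi)).conj_mem _ (hκ ⟨X.pj j, pj_mem X hj h2⟩) (τ (X.pj j))⁻¹
      rw [inv_inv] at h3
      rw [mem_nk.1 h3, mul_one]
    · rw [mv_np X x τ κ u fun h => h2 h.2]
  exact ⟨hX.gi _ _ h1, hX.gi _ _ fun j hj => (h1 j hj).symm⟩

/-- the part in `S` of the block -/
private def bS (x : J → SP S P) (u : X.Jf → S) (v : V) : S := (X.bk (X.mv u x) v).left

omit [Fintype S] in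
private theorem bk_il (hX : X.Ok p k Mw q c Pi) {x : J → SP S P}
    (hx : ∀ j ∈ X.Jf, (x j).right = X.ph (X.W j)) (u : X.Jf → S) {v : V} (hv : v ∈ X.l) :
    X.bk (X.mv u x) v = il (bS X x u v) :=
  il_eq _ (bk_right X hX (mv_right X hx u) hv)

omit [Fintype S] in
private theorem bs_pp (hX : X.Ok p k Mw q c Pi) {x : J → SP S P}
    (hx : ∀ j ∈ X.Jf, (x j).right = X.ph (X.W j)) (u : X.Jf → S) {j : J} (h1 : j ∈ X.Jf)
    (h2 : X.pp j) : bS X x u (X.pj j) = ⁅X.y j, (X.mv u x j).left⁆ := by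
  have h3 : X.bk (X.mv u x) (X.pj j) = ⁅X.t j, X.mv u x j⁆ := by
    unfold AD.bk
    rw [hX.pb j h1 h2, wd_single]
  have h4 : X.mv u x j = il (X.mv u x j).left :=
    il_eq _ (by rw [mv_right X hx u j h1, hX.pw j h1 h2])
  refine il_inj (P := P) ?_
  rw [← bk_il X hX hx u (hX.jl j h1).1, h3, il_com, ← h4, ← hX.pt j h1 h2]

omit [Fintype S] in
/-- the relation as a product over the places -/
private theorem rr_rl (hX : X.Ok p k Mw q c Pi) {x : J → SP S P}
    (hx : ∀ j ∈ X.Jf, (x j).right = X.ph (X.W j)) (τ : V → S) (κ : PV X → S) (u : X.Jf → S) :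
    X.RR τ (X.mv (fun j => u j * wv X x τ κ j) x) =
      il (Nin.Rl X.l (PV X) (fun v => if h : v ∈ PV X then τ v * X.y (jv X ⟨v, h⟩) * (τ v)⁻¹ else 1)
        (fun v => if h : v ∈ PV X then τ v * (X.mv u x (jv X ⟨v, h⟩)).left * (τ v)⁻¹ else 1)
        (fun v => τ v * bS X x u v * (τ v)⁻¹) κ) := by
  unfold AD.RR Nin.Rl
  rw [il_prod, List.map_map]
  congr 1
  refine List.map_congr_left fun v hv => ?_
  show cj (τ v) _ = il _
  unfold cj
  beta_reduce
  by_cases h : v ∈ PV X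
  · rw [dif_pos h, dif_pos h, dif_pos h]
    obtain ⟨e1, e2, e3⟩ := jv_spec X ⟨v, h⟩
    obtain ⟨j, hj⟩ : ∃ j, j = jv X ⟨v, h⟩ := ⟨_, rfl⟩
    rw [← hj] at e1 e2 e3 ⊢
    have e3' : X.pj j = v := e3
    have h3 : X.bk (X.mv (fun j => u j * wv X x τ κ j) x) v =
        ⁅X.t j, X.mv (fun j => u j * wv X x τ κ j) x j⁆ := by
      unfold AD.bk
      rw [← e3', hX.pb j e1 e2, wd_single]
    have h4 : X.mv u x j = il (X.mv u x j).left :=
      il_eq _ (by rw [mv_right X hx u j e1, hX.pw j e1 e2])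
    obtain ⟨a, ha⟩ : ∃ a, a = (X.mv u x j).left := ⟨_, rfl⟩
    have h5 : X.mv (fun j => u j * wv X x τ κ j) x j =
        il (a * ((τ v)⁻¹ * κ ⟨v, h⟩ * τ v)) := by
      rw [mv_pp X hX hx τ κ u e1 e2, h4, ← ha, ← il_mul]
      congr 1
      subst e3'
      rfl
    rw [h3, h5, hX.pt j e1 e2, ← il_com, ← ha, ← il_inv, ← il_mul, ← il_mul]
    congr 1
    simp only [commutatorElement_def]
    group
  · rw [dif_neg h]
    have h3 : X.bk (X.mv (fun j => u j * wv X x τ κ j) x) v = X.bk (X.mv u x) v := by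
      unfold AD.bk
      refine wd_congr _ _ _ _ fun i hi => ?_
      rw [mv_np]
      rintro ⟨h4, h5⟩
      refine h ?_
      rw [← hX.bp v i hi]
      exact pj_mem X h4 h5
    rw [h3, bk_il X hX hx u hv, ← il_inv, ← il_mul, ← il_mul]

/-- the product of the blocks in `S` -/
private def rS (x : J → SP S P) (τ : V → S) (u : X.Jf → S) : S :=
  (X.l.map fun v => τ v * bS X x u v * (τ v)⁻¹).prod

omit [Fintype S] in
private theorem rl_one (hX : X.Ok p k Mw q c Pi) {x : J → SP S P}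
    (hx : ∀ j ∈ X.Jf, (x j).right = X.ph (X.W j)) (τ : V → S) (u : X.Jf → S) :
    Nin.Rl X.l (PV X) (fun v => if h : v ∈ PV X then τ v * X.y (jv X ⟨v, h⟩) * (τ v)⁻¹ else 1)
        (fun v => if h : v ∈ PV X then τ v * (X.mv u x (jv X ⟨v, h⟩)).left * (τ v)⁻¹ else 1)
        (fun v => τ v * bS X x u v * (τ v)⁻¹) (fun _ => 1) = rS X x τ u := by
  unfold Nin.Rl rS
  congr 1
  refine List.map_congr_left fun v hv => ?_
  by_cases h : v ∈ PV X
  · rw [dif_pos h]
    beta_reduce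
    rw [dif_pos h, dif_pos h, mul_one]
    obtain ⟨e1, e2, e3⟩ := jv_spec X ⟨v, h⟩
    have h1 := bs_pp X hX hx u e1 e2
    rw [e3] at h1
    show _ = τ v * bS X x u v * (τ v)⁻¹
    rw [h1]
    simp only [commutatorElement_def]
    group
  · rw [dif_neg h]

omit [Fintype S] in
/-- the blocks are in the kernel -/
private theorem bs_mem (hX : X.Ok p k Mw q c Pi) {x : J → SP S P}
    (hx : ∀ j ∈ X.Jf, (x j).right = X.ph (X.W j)) {u : X.Jf → S} (hG : X.G (X.mv u x)) {v : V}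
    (hv : v ∈ X.l) : bS X x u v ∈ Nk Pi := by
  rw [mem_nk, ← bk_il X hX hx u hv]
  exact hX.gb _ (mv_right X hx u) hG v hv

omit [Fintype S] in
/-- the change of the conjugators -/
private theorem rs_mk (hX : X.Ok p k Mw q c Pi) {m : ℕ} (hm : 1 ≤ m) {τ τ' : V → S}
    (hτ : ∀ j ∈ X.Jf, (τ (X.pj j))⁻¹ * τ' (X.pj j) ∈ gm S (if X.pp j then m - 1 else m))
    {x : J → SP S P} (hx : ∀ j ∈ X.Jf, (x j).right = X.ph (X.W j)) {u : X.Jf → S}
    (hG : X.G (X.mv u x)) :
    rS X x τ u ∈ (⁅Nk Pi ⊓ gm S m, ⊤⁆ : Subgroup S) ↔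
      rS X x τ' u ∈ (⁅Nk Pi ⊓ gm S m, ⊤⁆ : Subgroup S) := by
  obtain ⟨M, hM⟩ : ∃ M : Subgroup S, M = ⁅Nk Pi ⊓ gm S m, ⊤⁆ := ⟨_, rfl⟩
  have hMn : M.Normal := by
    rw [hM]
    infer_instance
  rw [← hM]
  have h1 : ∀ v ∈ X.l, QuotientGroup.mk' M (τ' v * bS X x u v * (τ' v)⁻¹) =
      QuotientGroup.mk' M (τ v * bS X x u v * (τ v)⁻¹) := by
    intro v hv
    have hb := bs_mem X hX hx hG hv
    have h2 : ⁅(τ v)⁻¹ * τ' v, bS X x u v⁆ ∈ M := by
      by_cases h3 : ∃ j ∈ X.Jf, X.pj j = v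
      · obtain ⟨j, hj, e⟩ := h3
        have h4 := hτ j hj
        rw [e] at h4
        by_cases h5 : X.pp j
        · rw [if_pos h5] at h4
          rw [hM]
          refine pp_le (Nk Pi) hm (Subgroup.commutator_mem_commutator h4 ⟨hb, ?_⟩)
          rw [← e, bs_pp X hX hx u hj h5]
          exact gm_comm 1 (Subgroup.mem_top _)
        · rw [if_neg h5] at h4
          rw [hM]
          exact np_le (Nk Pi) m (Subgroup.commutator_mem_commutator h4 hb)
      · have h4 : bS X x u v = 1 := by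
          refine il_inj (P := P) ?_
          rw [← bk_il X hX hx u hv, il_one]
          unfold AD.bk wd
          refine List.prod_eq_one fun y hy => ?_
          obtain ⟨i, hi, rfl⟩ := List.mem_map.1 hy
          have h5 : i ∉ X.Jf := fun h => h3 ⟨i, h, hX.bp v i hi⟩
          rw [hX.t1 i h5, commutatorElement_one_left]
        rw [h4, commutatorElement_one_right]
        exact one_mem _
    have h3 : τ' v * bS X x u v * (τ' v)⁻¹ =
        (τ v * ⁅(τ v)⁻¹ * τ' v, bS X x u v⁆ * (τ v)⁻¹) * (τ v * bS X x u v * (τ v)⁻¹) := by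
      simp only [commutatorElement_def]
      group
    have h4 := hMn.conj_mem _ h2 (τ v)
    have h5 : QuotientGroup.mk' M (τ v * ⁅(τ v)⁻¹ * τ' v, bS X x u v⁆ * (τ v)⁻¹) = 1 :=
      (QuotientGroup.eq_one_iff (N := M) _).2 h4
    rw [h3, map_mul, h5, one_mul]
  have h2 : QuotientGroup.mk' M (rS X x τ' u) = QuotientGroup.mk' M (rS X x τ u) := by
    unfold rS
    rw [map_list_prod, map_list_prod, List.map_map, List.map_map]
    congr 1
    exact List.map_congr_left h1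
  rw [← QuotientGroup.eq_one_iff (N := M), ← QuotientGroup.eq_one_iff (N := M)]
  have h3 : ((rS X x τ' u : S) : S ⧸ M) = ((rS X x τ u : S) : S ⧸ M) := h2
  rw [h3]

end cfg

section count

variable [Fintype S] (X : AD S P J V) {p k Mw q c : ℕ} {P' : Type} [Group P']
  {Pi : SP S P →* P'}

omit [Fintype S] in
private theorem gen' (hX : X.Ok p k Mw q c Pi) (τ : V → S) :
    Subgroup.closure ((fun v => if h : v ∈ PV X then τ v * X.y (jv X ⟨v, h⟩) * (τ v)⁻¹ else 1) ''
      (PV X : Set V)) ⊔ commutator S = ⊤ := by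
  rw [eq_top_iff, ← hX.gen]
  refine sup_le ?_ le_sup_right
  rw [Subgroup.closure_le]
  rintro _ ⟨j, h1, h2, rfl⟩
  have h3 : X.pj j ∈ PV X := pj_mem X h1 h2
  have h4 : jv X ⟨X.pj j, h3⟩ = j := jv_uniq X hX ⟨X.pj j, h3⟩ h1 h2 rfl
  have h5 : τ (X.pj j) * X.y j * (τ (X.pj j))⁻¹ ∈ Subgroup.closure ((fun v =>
      if h : v ∈ PV X then τ v * X.y (jv X ⟨v, h⟩) * (τ v)⁻¹ else 1) '' (PV X : Set V)) := by
    refine Subgroup.subset_closure ⟨X.pj j, h3, ?_⟩
    beta_reduce
    rw [dif_pos h3, h4]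
  have h6 : X.y j = ⁅X.y j, τ (X.pj j)⁆ * (τ (X.pj j) * X.y j * (τ (X.pj j))⁻¹) := by
    simp only [commutatorElement_def]
    group
  rw [h6]
  refine mul_mem (Subgroup.mem_sup_right ?_) (Subgroup.mem_sup_left h5)
  rw [commutator_def]
  exact Subgroup.commutator_mem_commutator (Subgroup.mem_top _) (Subgroup.mem_top _)

/-- the count for fixed `τ` -/
private theorem cnt_tau (hX : X.Ok p k Mw q c Pi) (m : ℕ) (τ : V → S) (x : J → SP S P)
    (hx : ∀ j ∈ X.Jf, (x j).right = X.ph (X.W j)) :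
    Nat.card (Nk Pi ⊓ gm S m : Subgroup S) ^ (PV X).card *
        Nat.card (⁅Nk Pi ⊓ gm S m, ⊤⁆ : Subgroup S) *
        ((X.Cg m).filter fun u => X.G (X.mv u x) ∧ X.RR τ (X.mv u x) = 1).card =
      Nat.card (Nk Pi ⊓ gm S m : Subgroup S) ^ (PV X).card *
        ((X.Cg m).filter fun u => X.G (X.mv u x) ∧
          rS X x τ u ∈ (⁅Nk Pi ⊓ gm S m, ⊤⁆ : Subgroup S)).card := by
  obtain ⟨N, hN⟩ : ∃ N : Subgroup S, N = Nk Pi ⊓ gm S m := ⟨_, rfl⟩
  have hNn : N.Normal := by
    rw [hN]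
    infer_instance
  have hfN : Fintype N := Fintype.ofFinite _
  have hNle : N ≤ Nk Pi ⊓ gm S m := hN.le
  rw [← hN]
  -- the shifted sums
  have h1 : ∀ κ : PV X → N,
      ((X.Cg m).filter fun u => X.G (X.mv u x) ∧ X.RR τ (X.mv u x) = 1).card =
        ∑ u ∈ X.Cg m, if X.G (X.mv u x) ∧
          X.RR τ (X.mv (fun j => u j * wv X x τ (fun v => (κ v : S)) j) x) = 1 then 1 else 0 := by
    intro κ
    have hκ : ∀ v, (κ v : S) ∈ gm S m := fun v => (hNle (κ v).2).2
    have hκ' : ∀ v, (κ v : S) ∈ Nk Pi := fun v => (hNle (κ v).2).1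
    rw [Finset.card_filter]
    symm
    refine Finset.sum_bij' (fun u _ => fun j => u j * wv X x τ (fun v => (κ v : S)) j)
      (fun u _ => fun j => u j * (wv X x τ (fun v => (κ v : S)) j)⁻¹) ?_ ?_ ?_ ?_ ?_
    · intro u hu
      unfold AD.Cg at hu ⊢
      rw [Finset.mem_filter] at hu ⊢
      exact ⟨Finset.mem_univ _, fun j => mul_mem (hu.2 j) (wv_mem X x τ hκ j)⟩
    · intro u hu
      unfold AD.Cg at hu ⊢
      rw [Finset.mem_filter] at hu ⊢
      exact ⟨Finset.mem_univ _, fun j => mul_mem (hu.2 j) (inv_mem (wv_mem X x τ hκ j))⟩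
    · intro u _
      funext j
      rw [mul_inv_cancel_right]
    · intro u _
      funext j
      rw [inv_mul_cancel_right]
    · intro u _
      have h2 := g_iff X hX hx τ hκ' u
      simp only [h2]
  have h2 : (Nat.card N) ^ (PV X).card *
      ((X.Cg m).filter fun u => X.G (X.mv u x) ∧ X.RR τ (X.mv u x) = 1).card =
      ∑ u ∈ X.Cg m, if X.G (X.mv u x) then
        Nat.card {κ : PV X → N // X.RR τ (X.mv (fun j => u j *
          wv X x τ (fun v => (κ v : S)) j) x) = 1} else 0 := by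
    have h3 : (Nat.card N) ^ (PV X).card *
        ((X.Cg m).filter fun u => X.G (X.mv u x) ∧ X.RR τ (X.mv u x) = 1).card =
        ∑ _κ : PV X → N, ((X.Cg m).filter fun u => X.G (X.mv u x) ∧
          X.RR τ (X.mv u x) = 1).card := by
      rw [Finset.sum_const, Finset.card_univ, Fintype.card_fun, Fintype.card_coe, smul_eq_mul,
        Nat.card_eq_fintype_card]
    rw [h3, Finset.sum_congr rfl fun κ _ => h1 κ, Finset.sum_comm]
    refine Finset.sum_congr rfl fun u _ => ?_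
    by_cases hG : X.G (X.mv u x)
    · rw [if_pos hG, Nat.card_eq_fintype_card, Fintype.card_subtype, Finset.card_filter]
      refine Finset.sum_congr rfl fun κ _ => ?_
      simp only [hG, true_and]
    · rw [if_neg hG]
      refine Finset.sum_eq_zero fun κ _ => ?_
      rw [if_neg fun h => hG h.1]
  have hJ : Nin.Nd N c = ⊥ := by
    rw [eq_bot_iff, ← hX.nil]
    exact Nin.nd_le_lcs N c
  have hPl : ∀ v ∈ PV X, v ∈ X.l := by
    intro v hv
    obtain ⟨j, h3, _, h5⟩ := (mem_pv X).1 hv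
    rw [← h5]
    exact (hX.jl j h3).1
  have h4 : ∀ u : X.Jf → S, Nat.card {κ : PV X → N // X.RR τ (X.mv (fun j => u j *
          wv X x τ (fun v => (κ v : S)) j) x) = 1} * Nat.card (⁅N, ⊤⁆ : Subgroup S) =
      if rS X x τ u ∈ (⁅N, ⊤⁆ : Subgroup S) then Nat.card N ^ (PV X).card else 0 := by
    intro u
    have h5 := Nin.nin_card hX.nd hPl
      (fun v => if h : v ∈ PV X then τ v * X.y (jv X ⟨v, h⟩) * (τ v)⁻¹ else 1)
      (fun v => if h : v ∈ PV X then τ v * (X.mv u x (jv X ⟨v, h⟩)).left * (τ v)⁻¹ else 1)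
      (fun v => τ v * bS X x u v * (τ v)⁻¹) N (gen' X hX τ) hJ 1
    rw [rl_one X hX hx τ u, mul_one] at h5
    have h6 : ∀ κ : PV X → N, X.RR τ (X.mv (fun j => u j *
          wv X x τ (fun v => (κ v : S)) j) x) = 1 ↔
        Nin.Rl X.l (PV X) (fun v => if h : v ∈ PV X then τ v * X.y (jv X ⟨v, h⟩) * (τ v)⁻¹ else 1)
        (fun v => if h : v ∈ PV X then τ v * (X.mv u x (jv X ⟨v, h⟩)).left * (τ v)⁻¹ else 1)
        (fun v => τ v * bS X x u v * (τ v)⁻¹) (fun v => (κ v : S)) = 1 := by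
      intro κ
      rw [rr_rl X hX hx τ (fun v => (κ v : S)) u]
      constructor
      · intro h7
        refine il_inj (P := P) ?_
        rw [h7, il_one]
      · intro h7
        rw [h7, il_one]
    have h7 : Nat.card {κ : PV X → N // X.RR τ (X.mv (fun j => u j *
          wv X x τ (fun v => (κ v : S)) j) x) = 1} = Nat.card {κ : PV X → N //
        Nin.Rl X.l (PV X) (fun v => if h : v ∈ PV X then τ v * X.y (jv X ⟨v, h⟩) * (τ v)⁻¹ else 1)
        (fun v => if h : v ∈ PV X then τ v * (X.mv u x (jv X ⟨v, h⟩)).left * (τ v)⁻¹ else 1)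
        (fun v => τ v * bS X x u v * (τ v)⁻¹) (fun v => (κ v : S)) = 1} :=
      Nat.card_congr (Equiv.subtypeEquivRight h6)
    rw [h7, h5]
    simp only [inv_mem_iff]
  calc Nat.card N ^ (PV X).card * Nat.card (⁅N, ⊤⁆ : Subgroup S) *
        ((X.Cg m).filter fun u => X.G (X.mv u x) ∧ X.RR τ (X.mv u x) = 1).card
      = (∑ u ∈ X.Cg m, if X.G (X.mv u x) then
        Nat.card {κ : PV X → N // X.RR τ (X.mv (fun j => u j *
          wv X x τ (fun v => (κ v : S)) j) x) = 1} else 0) *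
          Nat.card (⁅N, ⊤⁆ : Subgroup S) := by
        rw [← h2]
        ring
    _ = ∑ u ∈ X.Cg m, if X.G (X.mv u x) ∧ rS X x τ u ∈ (⁅N, ⊤⁆ : Subgroup S) then
          Nat.card N ^ (PV X).card else 0 := by
        rw [Finset.sum_mul]
        refine Finset.sum_congr rfl fun u _ => ?_
        by_cases hG : X.G (X.mv u x)
        · rw [if_pos hG, h4 u]
          simp only [hG, true_and]
        · rw [if_neg hG, if_neg fun h => hG h.1, zero_mul]
    _ = _ := by
        rw [← Finset.sum_filter, Finset.sum_const, smul_eq_mul, mul_comm]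

end count

theorem nnx [Fintype S] (X : AD S P J V) {p k Mw q c : ℕ} {P' : Type} [Group P'] {Pi : SP S P →* P'}
    (hX : X.Ok p k Mw q c Pi) (m : ℕ) (hm : 1 ≤ m) (τ τ' : V → S)
    (hτ : ∀ j ∈ X.Jf, (τ (X.pj j))⁻¹ * τ' (X.pj j) ∈ gm S (if X.pp j then m - 1 else m))
    (x : J → SP S P) (hx : ∀ j ∈ X.Jf, (x j).right = X.ph (X.W j)) :
    X.H m τ x = X.H m τ' x := by
  have h1 := cnt_tau X hX m τ x hx
  have h2 := cnt_tau X hX m τ' x hx
  have h3 : ((X.Cg m).filter fun u => X.G (X.mv u x) ∧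
          rS X x τ u ∈ (⁅Nk Pi ⊓ gm S m, ⊤⁆ : Subgroup S)) =
      ((X.Cg m).filter fun u => X.G (X.mv u x) ∧
          rS X x τ' u ∈ (⁅Nk Pi ⊓ gm S m, ⊤⁆ : Subgroup S)) := by
    refine Finset.filter_congr fun u _ => ?_
    constructor
    · rintro ⟨hG, h⟩
      exact ⟨hG, (rs_mk X hX hm hτ hx hG).1 h⟩
    · rintro ⟨hG, h⟩
      exact ⟨hG, (rs_mk X hX hm hτ hx hG).2 h⟩
  rw [h3, ← h2] at h1
  have hpos : 0 < Nat.card (Nk Pi ⊓ gm S m : Subgroup S) ^ (PV X).card *
      Nat.card (⁅Nk Pi ⊓ gm S m, ⊤⁆ : Subgroup S) :=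
    Nat.mul_pos (Nat.pow_pos Nat.card_pos) Nat.card_pos
  have h4 := Nat.eq_of_mul_eq_mul_left hpos h1
  unfold AD.H
  rw [h4]

section exact_h

variable {P' : Type} [Group P']

/-- the kernel of the projection on `S` -/
def Nks (Pi : SP S P →* P') : Subgroup S := (Pi.comp SemidirectProduct.inl).ker

instance nks_normal (Pi : SP S P →* P') : (Nks Pi).Normal := by
  unfold Nks
  infer_instance

theorem mem_nks {Pi : SP S P →* P'} {s : S} : s ∈ Nks Pi ↔ Pi (il s) = 1 := MonoidHom.mem_ker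

/-- the blocks are in the kernel -/
theorem blk_nks (X : AD S P J V) {p k Mw q c : ℕ} {Pi : SP S P →* P'}
    (hX : X.Ok p k Mw q c Pi) {x : J → SP S P} (hx : ∀ j ∈ X.Jf, (x j).right = X.ph (X.W j))
    {u : X.Jf → S} (hG : X.G (X.mv u x)) {v : V} (hv : v ∈ X.l) :
    (X.bk (X.mv u x) v).left ∈ Nks Pi := bs_mem X hX hx hG hv

/-- the exact value of `H m` -/
theorem h_cnt [Fintype S] (X : AD S P J V) {p k Mw q c : ℕ} {Pi : SP S P →* P'}
    (hX : X.Ok p k Mw q c Pi) (m : ℕ) (τ : V → S) (x : J → SP S P)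
    (hx : ∀ j ∈ X.Jf, (x j).right = X.ph (X.W j)) :
    Nat.card (⁅Nks Pi ⊓ gm S m, ⊤⁆ : Subgroup S) *
        ((X.Cg m).filter fun u => X.G (X.mv u x) ∧ X.RR τ (X.mv u x) = 1).card =
      ((X.Cg m).filter fun u => X.G (X.mv u x) ∧
        (X.l.map fun v => τ v * (X.bk (X.mv u x) v).left * (τ v)⁻¹).prod ∈
          (⁅Nks Pi ⊓ gm S m, ⊤⁆ : Subgroup S)).card := by
  have h1 := cnt_tau X hX m τ x hx
  rw [mul_assoc] at h1
  exact Nat.eq_of_mul_eq_mul_left (Nat.pow_pos Nat.card_pos) h1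

end exact_h

end H73.S3
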