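import Pool.Agent.H73.S3.Nnx
import Pool.Agent.H71.S3.Tvb

/-!
# [H73 S3 TVK] averaging over the conjugations (MP_b39724_nt, stage 3, chapter B; 7' of 1707, section 0 of 1715)

`rr_vl`: the relation for the actual values. `vl_rt`: the right part of the values.
`kx_ex`: for every family there is a crossed homomorphism `k` with `Kx η k` (H1/S3/Zet, transfer `FreeGroup J = FreeGroup (V' + I')`, `I' = {j ∈ Jf, not pp}`).
`tvk`: if not `Hk η` then the mean over `τ` of `Hh m τ (vl τ) η` is `0`.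
Proof. Multiply `τ` at the places of the letters by `z v`, `z v ∈ gam_(m+1)`, if the letters of `v` are not `pp`, and `z v ∈ gam_m`, if the letter is `pp`; the sum over all `τ` is the sum
over the cosets. `Hh m (τ z) x η = Hh m τ x η` (`nnx` for `m + 1`). `th (τ z) (w) = il (c w) * th τ w`, `c w ∈ gam_(m+1)`, `gk (m+1) (c ·) =: cc` a crossed homomorphism (`CHp`) with
`cc (of j) = gk z - ph (of j) gk z` for `j ∈ Jf` not `pp`, `cc (of j) = - br m (y j) (gk m z)` for `pp j` (`[z, y] = [y, z]⁻¹`), `cc (of j) = 0` for the other `j`. For `j` not `pp`: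
`vl (τ z) j = il (u j) * vl τ j`, `gk (m+1) (u j) = cc (W j) - (gk z - ph (W j) gk z)`; for `pp j`: `u j ∈ gam_(m+1)`. So
`Hh m (τ z) (vl (τ z)) η = ep (F z) Hh m τ (vl τ) η`, `F z = ∑_(j not pp) (η j).2 (gk (u j))`, additive in `z` (as a function of the classes of `z`).
By `Kx η k` and the relation (`rel` for the Heisenberg group `Hz` of `P`, `Du`, `Gr`, `ZMod q`):
`F z = ∑_(v not pp) k (W_v) (gk z_v - ∑_(v' after v) cc (W_v')) - ∑_(pp j) k (W j) (cc (of j))` (up to sign; `k ([t_j, W j]) = 0 = cc ([t_j, W j])` for `pp j`: no cross terms; `W_v = wd of W (bl v)`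
acts trivially). If `∑_z ep (F z) ≠ 0` then `F = 0`, so (take `z` at `pp` only) `k (W j) ∘ br (y j) = 0`, and `k (W_v) = 0` (`tm_bij`), i.e. `Hk η`.
-/

set_option autoImplicit false

open scoped commutatorElement
open scoped Classical

noncomputable section

namespace H73.S3

open H1.S3

attribute [local instance 50] Fintype.ofFinite

variable {S P : Type} [Group S] [Group P] [MulDistribMulAction P S] {J V : Type}

theorem vl_rt (X : AD S P J V) (τ : V → S) (j : J) : (X.vl τ j).right = X.ph (X.W j) :=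
  H71.S3.vl_rt X τ j

theorem rr_vl [Fintype S] (X : AD S P J V) {p k Mw q c : ℕ} [NeZero q] {P' : Type} [Group P']
    [Finite P] {Pi : SP S P →* P'} (hp : p.Prime) (hX : X.Ok p k Mw q c Pi) (τ : V → S) :
    X.RR τ (X.vl τ) = 1 :=
  H71.S3.rr_vl' X hp hX τ

theorem kx_ex [Fintype S] (X : AD S P J V) {p k Mw q c : ℕ} [NeZero q] {P' : Type} [Group P']
    [Finite P] {Pi : SP S P →* P'} (hp : p.Prime) (hX : X.Ok p k Mw q c Pi) (m : ℕ)
    (η : X.Jf → Du S q m × Du S q (m + 1)) : ∃ k, X.Kx η k :=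
  H71.S3.kx_ex' X hp hX m η

theorem tvk [Fintype S] (X : AD S P J V) {p k Mw q c : ℕ} [NeZero q] {P' : Type} [Group P']
    [Finite P] {Pi : SP S P →* P'} (hp : p.Prime) (hX : X.Ok p k Mw q c Pi) (m : ℕ) (_hm : 1 ≤ m)
    (η : X.Jf → Du S q m × Du S q (m + 1)) (_hη : X.Ff η) (hk : ¬X.Hk η) :
    X.Mn (fun τ => X.Hh m τ (X.vl τ) η) = 0 :=
  H71.S3.tvk' X hp hX m η hk

end H73.S3
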