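import Pool.Agent.H73.S3.Ker
import Pool.Agent.H73.S3.Tvk
import Pool.Agent.H71.S3.Tva

/-!
# [H73 S3 REI] from the sum `NX` to enriched configurations (MP_b39724_nt, stage 3, chapter B)

`kx_uniq`: the crossed homomorphism of a family is unique (H71/S3/Trf, H1/S3/Zet). `hk_iff`: `Hk` in terms of `kk`.
`rei`: `NX = EX`. Proof. For fixed `f : Pl K → Option (Px c)`: `Mn` is a sum over `τ : Vf → S` divided by `|S| ^ #Vf`; `Vf = sp Zc f ∪ V0` (disjoint), `Jf = inl (sp Zc f) ∪ J0`; insert `cell`.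
Families `(τ, η, x₀)` = data at `V0`, `J0` and the labels `(τ v, (η, x₀) (inl v))`, `v ∈ sp Zc f`. The label `κ v` is determined by `FX`; `Hk` is the condition of `FX` (first part) and the
condition of `AX` (second part) for `κ v = kk (Wv v)`. If `wt f = 0` nothing is needed; if `wt f ≠ 0` then `Ok` holds (hypothesis).
-/

set_option autoImplicit false

open scoped NumberField commutatorElement
open IsDedekindDomain
open scoped Classical

noncomputable section

namespace H73.S3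

open H63.MA H38.BB H38.BG H57.PC H57.BRA H77.WD H77.WE H77.PC3 H35.CF H35.UB H77.S3 H71.S3 H1.S3

attribute [local instance 50] Fintype.ofFinite

theorem kx_uniq {S P : Type} [Group S] [Group P] [MulDistribMulAction P S] {J V : Type}
    [Fintype S] (X : AD S P J V) {p k Mw q c : ℕ} [NeZero q] {P' : Type} [Group P']
    [Finite P] {Pi : SP S P →* P'} (hp : p.Prime) (hX : X.Ok p k Mw q c Pi) (m : ℕ)
    (η : X.Jf → Du S q m × Du S q (m + 1)) (k₁ k₂ : FreeGroup J → Du S q (m + 1))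
    (h₁ : X.Kx η k₁) (h₂ : X.Kx η k₂) : k₁ = k₂ := by
  let iN : DistribMulAction (FreeGroup J) (Du S q (m + 1)) := fact X.ph
  obtain ⟨Φ₀⟩ := filD (P := P) hp hX.pg hX.qe (m + 1)
  have Φ : Fil (FreeGroup J) (Du S q (m + 1)) := Φ₀.map X.ph fun x n => rfl
  have c₁ : CH k₁ := h₁.ch
  have c₂ : CH k₂ := h₂.ch
  have hc := c₁.sub c₂
  funext x
  have h := zinjU Φ hc (fun j => j ∈ X.Jf ∧ ¬ X.pp j) (fun j hj => by
      show k₁ (FreeGroup.of j) - k₂ (FreeGroup.of j) = 0
      rw [h₁.of j hj, h₂.of j hj, sub_zero]) X.W (fun j => X.bl (X.pj j)) (fun j hj => by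
      have e1 := h₁.ze ⟨j, hj.1⟩ hj.2
      have e2 := h₂.ze ⟨j, hj.1⟩ hj.2
      have e3 := zeta_sub k₁ k₂ FreeGroup.of X.W (X.bl (X.pj j)) j
      refine e3.trans ?_
      rw [sub_eq_zero]
      exact e1.trans e2.symm) x
  exact sub_eq_zero.1 h

theorem hk_iff {S P : Type} [Group S] [Group P] [MulDistribMulAction P S] {J V : Type}
    [Fintype S] (X : AD S P J V) {p k Mw q c : ℕ} [NeZero q] {P' : Type} [Group P']
    [Finite P] {Pi : SP S P →* P'} (hp : p.Prime) (hX : X.Ok p k Mw q c Pi) (m : ℕ)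
    (η : X.Jf → Du S q m × Du S q (m + 1)) :
    X.Kx η (X.kk η) ∧ (X.Hk η ↔ (∀ v ∈ X.l, X.kk η (wd FreeGroup.of X.W (X.bl v)) = 0) ∧
      ∀ j ∈ X.Jf, X.pp j → ∀ z : Gr S m, (X.kk η (X.W j)).ap (br m (X.y j) z) = 0) := by
  have hex : ∃ k, X.Kx η k := kx_ex X hp hX m η
  have hk : X.Kx η (X.kk η) := by
    unfold AD.kk
    rw [dif_pos hex]
    exact hex.choose_spec
  refine ⟨hk, ?_, ?_⟩
  · rintro ⟨k', h1, h2, h3⟩
    have h4 := kx_uniq X hp hX m η _ _ h1 hk
    rw [← h4]
    exact ⟨h2, h3⟩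
  · rintro ⟨h2, h3⟩
    exact ⟨_, hk, h2, h3⟩

section one

variable {K : Type} [Field K] [NumberField K] {Ω : Type} [Field Ω] [Algebra K Ω]
  {p N : ℕ} {ζ : K} {D : RD0 K p ζ} {Q : DP K Ω} {A : GS D Ω} {P : Type} [Group P]
  {c : CL p N P} {S : Type} [Group S] [MulDistribMulAction P S] {q m : ℕ}

theorem sp_lf (Zc : Finset (Pl K)) (F : Pl K → Option (Elb c S q m)) : sp Zc (lf F) = sp Zc F := by
  ext v
  rw [mem_sp, mem_sp]
  have h : lf F v = none ↔ F v = none := by
    show (F v).map _ = none ↔ _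
    rw [Option.map_eq_none_iff]
  exact and_congr_right fun _ => not_congr h

theorem lf_cf [Fintype S] [Fintype P] [NeZero q] {Zc : Finset (Pl K)} {F : Pl K → Option (Elb c S q m)}
    (hF : F ∈ Cf Zc (Elb c S q m)) : lf F ∈ Cf Zc (Px c) := by
  rw [mem_cf] at hF ⊢
  intro v hv
  show (F v).map _ = none
  rw [hF v hv]
  rfl

variable (G : SG c S) (B : SD D Q A) (X : FD A P S) (W : WF A)

/-- the term of a configuration -/
def Gx [Fintype S] (T : ℝ) (Zc : Finset (Pl K)) (f : Pl K → Option (Px c)) (t : Pl K → S)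
    (e : Pl K ⊕ Fin A.g → El S P q m) (κ : Pl K → Du S q (m + 1)) : ℂ :=
  (if (adf G B X W T Zc f).Ff ((adf G B X W T Zc f).et e) ∧
    (∀ v ∈ sp Zc f, PPc X W T v → ∀ z : Gr S m,
      (κ v).ap (br m ((adf G B X W T Zc f).y (Sum.inl v)) z) = 0) ∧
    ¬(adf G B X W T Zc f).Sv ((adf G B X W T Zc f).et e) then
    (adf G B X W T Zc f).Hh m t (fun j => (e j).2) ((adf G B X W T Zc f).et e) /
      (Fintype.card S : ℂ) ^ (adf G B X W T Zc f).Vf.card else 0) *
  (if (∀ v ∈ W.l, (adf G B X W T Zc f).kk ((adf G B X W T Zc f).et e)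
      (wd FreeGroup.of (adf G B X W T Zc f).W ((adf G B X W T Zc f).bl v)) = 0) ∧
    ∀ v ∈ sp Zc f, κ v = if PPc X W T v then
      (adf G B X W T Zc f).kk ((adf G B X W T Zc f).et e) (W.Wv v) else 0 then
    (adf G B X W T Zc f).Kr e ((adf G B X W T Zc f).vl t) else 0)

theorem gx_of [Fintype S] (T : ℝ) (Zc : Finset (Pl K)) (τ₀ : Pl K → S)
    (e₀ : Pl K ⊕ Fin A.g → El S P q m) (F : Pl K → Option (Elb c S q m)) :
    AX G B X W T Zc τ₀ e₀ F * FX G B X W T Zc τ₀ e₀ F =
      Gx G B X W T Zc (lf F) (tf τ₀ F) (ef e₀ F) (kf F) := by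
  unfold AX FX Gx
  rw [sp_lf]
  rfl

/-- extension of the data of the letters -/
def AD.ee {S P : Type} [Group S] [Group P] [MulDistribMulAction P S] {J V : Type} {q m : ℕ}
    (X : AD S P J V) (e : X.Jf → El S P q m) (j : J) : El S P q m :=
  if h : j ∈ X.Jf then e ⟨j, h⟩ else ((0, 0), 1)

/-- extension of the values -/
def k0 {V M : Type} [Zero M] (s : Finset V) (κ : s → M) (v : V) : M :=
  if h : v ∈ s then κ ⟨v, h⟩ else 0

theorem vf_iff (T : ℝ) (Zc : Finset (Pl K)) (f : Pl K → Option (Px c)) (v : Pl K) :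
    v ∈ (adf G B X W T Zc f).Vf ↔ v ∈ sp Zc f ∨ v ∈ V0 B X := by
  have hJ : (adf G B X W T Zc f).Jf = (sp Zc f ∪ X.E).disjSum Finset.univ := rfl
  unfold AD.Vf V0
  rw [Finset.mem_image, hJ, Finset.mem_union]
  constructor
  · rintro ⟨j, hj, rfl⟩
    rcases j with w | i
    · rw [Finset.inl_mem_disjSum, Finset.mem_union] at hj
      rcases hj with h | h
      · exact Or.inl h
      · exact Or.inr (Or.inl h)
    · right
      right
      exact Finset.mem_image.2 ⟨i, Finset.mem_univ _, rfl⟩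
  · rintro (h | h | h)
    · exact ⟨Sum.inl v, by rw [Finset.inl_mem_disjSum, Finset.mem_union]; exact Or.inl h, rfl⟩
    · exact ⟨Sum.inl v, by rw [Finset.inl_mem_disjSum, Finset.mem_union]; exact Or.inr h, rfl⟩
    · obtain ⟨i, -, rfl⟩ := Finset.mem_image.1 h
      exact ⟨Sum.inr i, by rw [Finset.inr_mem_disjSum]; exact Finset.mem_univ _, rfl⟩

theorem jf_iff (T : ℝ) (Zc : Finset (Pl K)) (f : Pl K → Option (Px c)) (j : Pl K ⊕ Fin A.g) :
    j ∈ (adf G B X W T Zc f).Jf ↔ (∃ v ∈ sp Zc f, j = Sum.inl v) ∨ j ∈ J0 X := by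
  have hJ : (adf G B X W T Zc f).Jf = (sp Zc f ∪ X.E).disjSum Finset.univ := rfl
  unfold J0
  rw [hJ]
  rcases j with w | i
  · rw [Finset.inl_mem_disjSum, Finset.mem_union, Finset.inl_mem_disjSum]
    constructor
    · rintro (h | h)
      · exact Or.inl ⟨w, h, rfl⟩
      · exact Or.inr h
    · rintro (⟨v, h, h'⟩ | h)
      · rw [Sum.inl_injective h']
        exact Or.inl h
      · exact Or.inr h
  · rw [Finset.inr_mem_disjSum, Finset.inr_mem_disjSum]
    exact ⟨fun h => Or.inr h, fun _ => Finset.mem_univ _⟩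

/-- the bijection -/
theorem rei_bij [Fintype S] [Fintype P] [NeZero q] (T : ℝ) (Zc : Finset (Pl K))
    (hZE : Disjoint Zc X.E) (hZ0 : Disjoint Zc D.S0) (f : Pl K → Option (Px c))
    (hf : f ∈ Cf Zc (Px c)) (H : (Pl K → S) → (Pl K ⊕ Fin A.g → El S P q m) →
      (Pl K → Du S q (m + 1)) → ℂ) :
    ∑ τ : V0 B X → S, ∑ e : J0 X → El S P q m, ∑ F ∈ (Cf Zc (Elb c S q m)).filter
        (fun F => lf F = f), H (tf (xt0 B X τ) F) (ef (xe0 X e) F) (kf F) =
      ∑ t : (adf G B X W T Zc f).Vf → S, ∑ e : (adf G B X W T Zc f).Jf → El S P q m,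
        ∑ κ : sp Zc f → Du S q (m + 1), H ((adf G B X W T Zc f).ex t)
          ((adf G B X W T Zc f).ee e) (k0 (sp Zc f) κ) := by
  have hV := vf_iff G B X W T Zc f
  have hJ := jf_iff G B X W T Zc f
  set Y := adf G B X W T Zc f with hY
  have hfn : ∀ v, v ∉ sp Zc f → f v = none := by
    intro v hv
    by_contra h
    by_cases hz : v ∈ Zc
    · exact hv (mem_sp.2 ⟨hz, h⟩)
    · exact h ((mem_cf.1 hf) v hz)
  have hV0 : ∀ v, v ∈ V0 B X → v ∉ sp Zc f := by
    intro v hv hs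
    have hz := (mem_sp.1 hs).1
    unfold V0 at hv
    rw [Finset.mem_union] at hv
    rcases hv with h | h
    · exact Finset.disjoint_left.1 hZE hz h
    · obtain ⟨i, -, rfl⟩ := Finset.mem_image.1 h
      exact Finset.disjoint_left.1 hZ0 hz (B.mem i)
  have hJ0 : ∀ v, Sum.inl v ∈ J0 X → v ∉ sp Zc f := by
    intro v hv hs
    unfold J0 at hv
    rw [Finset.inl_mem_disjSum] at hv
    exact Finset.disjoint_left.1 hZE (mem_sp.1 hs).1 hv
  have hJr : ∀ i, Sum.inr i ∈ J0 X := by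
    intro i
    unfold J0
    rw [Finset.inr_mem_disjSum]
    exact Finset.mem_univ _
  -- components of `F`
  have hFn : ∀ F : Pl K → Option (Elb c S q m), lf F = f → ∀ v, v ∉ sp Zc f → F v = none := by
    intro F hF v hv
    have h1 := congrFun hF v
    rw [hfn v hv] at h1
    exact Option.map_eq_none_iff.1 h1
  have hex : ∀ (τ : V0 B X → S) (F : Pl K → Option (Elb c S q m)), lf F = f →
      Y.ex (fun v => tf (xt0 B X τ) F v) = tf (xt0 B X τ) F := by
    intro τ F hF
    funext v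
    unfold AD.ex
    split_ifs with h
    · rfl
    · rw [hV, not_or] at h
      unfold tf
      rw [hFn F hF v h.1]
      show 1 = xt0 B X τ v
      unfold xt0
      rw [dif_neg h.2]
  have hee : ∀ (e : J0 X → El S P q m) (F : Pl K → Option (Elb c S q m)), lf F = f →
      Y.ee (fun j => ef (xe0 X e) F j) = ef (xe0 X e) F := by
    intro e F hF
    funext j
    unfold AD.ee
    split_ifs with h
    · rfl
    · rw [hJ, not_or] at h
      rcases j with v | i
      · have h1 : v ∉ sp Zc f := fun hv => h.1 ⟨v, hv, rfl⟩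
        unfold ef
        show _ = (F v).elim (xe0 X e (Sum.inl v)) fun a => a.2.2.1
        rw [hFn F hF v h1]
        show _ = xe0 X e (Sum.inl v)
        unfold xe0
        rw [dif_neg h.2]
      · exact absurd (hJr i) h.2
  have hkk : ∀ F : Pl K → Option (Elb c S q m), lf F = f →
      k0 (sp Zc f) (fun v => kf F v) = kf F := by
    intro F hF
    funext v
    unfold k0
    split_ifs with h
    · rfl
    · unfold kf
      rw [hFn F hF v h]
      rfl
  -- the inverse map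
  let mk : (Pl K → S) → (Pl K ⊕ Fin A.g → El S P q m) → (Pl K → Du S q (m + 1)) →
      Pl K → Option (Elb c S q m) := fun t e κ v =>
    (f v).map fun s => (s, t v, e (Sum.inl v), κ v)
  have mk_lf : ∀ t e κ, lf (mk t e κ) = f := by
    intro t e κ
    funext v
    show ((f v).map _).map _ = f v
    cases f v <;> rfl
  have mk_tf : ∀ (t : Y.Vf → S) e κ, tf (xt0 B X fun v => Y.ex t v) (mk (Y.ex t) e κ) = Y.ex t := by
    intro t e κ
    funext v
    unfold tf
    by_cases hv : v ∈ sp Zc f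
    · obtain ⟨s, hs⟩ := Option.ne_none_iff_exists'.1 (mem_sp.1 hv).2
      show ((f v).map _).elim _ _ = _
      rw [hs]
      rfl
    · show ((f v).map _).elim _ _ = _
      rw [hfn v hv]
      show xt0 B X (fun v => Y.ex t v) v = Y.ex t v
      unfold xt0
      split_ifs with h
      · rfl
      · unfold AD.ex
        rw [dif_neg (by rw [hV, not_or]; exact ⟨hv, h⟩)]
  have mk_ef : ∀ t (e : Y.Jf → El S P q m) κ,
      ef (xe0 X fun j => Y.ee e j) (mk t (Y.ee e) κ) = Y.ee e := by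
    intro t e κ
    funext j
    unfold ef
    rcases j with v | i
    · by_cases hv : v ∈ sp Zc f
      · obtain ⟨s, hs⟩ := Option.ne_none_iff_exists'.1 (mem_sp.1 hv).2
        show ((f v).map _).elim _ _ = _
        rw [hs]
        rfl
      · show ((f v).map _).elim _ _ = _
        rw [hfn v hv]
        show xe0 X (fun j => Y.ee e j) (Sum.inl v) = Y.ee e (Sum.inl v)
        unfold xe0
        split_ifs with h
        · rfl
        · unfold AD.ee
          rw [dif_neg (by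
            rw [hJ, not_or]
            refine ⟨?_, h⟩
            rintro ⟨w, hw, hw'⟩
            exact hv (Sum.inl_injective hw' ▸ hw))]
    · show xe0 X (fun j => Y.ee e j) (Sum.inr i) = Y.ee e (Sum.inr i)
      unfold xe0
      rw [dif_pos (hJr i)]
  have mk_kf : ∀ t e (κ : sp Zc f → Du S q (m + 1)),
      kf (mk t e (k0 (sp Zc f) κ)) = k0 (sp Zc f) κ := by
    intro t e κ
    funext v
    unfold kf
    by_cases hv : v ∈ sp Zc f
    · obtain ⟨s, hs⟩ := Option.ne_none_iff_exists'.1 (mem_sp.1 hv).2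
      show ((f v).map _).elim _ _ = _
      rw [hs]
      rfl
    · show ((f v).map _).elim _ _ = _
      rw [hfn v hv]
      unfold k0
      rw [dif_neg hv]
      rfl
  have mk_mk : ∀ (τ : V0 B X → S) (e : J0 X → El S P q m) (F : Pl K → Option (Elb c S q m)),
      lf F = f → mk (tf (xt0 B X τ) F) (ef (xe0 X e) F) (kf F) = F := by
    intro τ e F hF
    funext v
    show (f v).map _ = F v
    rw [← hF]
    show ((F v).map _).map _ = F v
    unfold tf ef kf
    show ((F v).map _).map (fun s => (s, (F v).elim _ _, (F v).elim _ _, (F v).elim _ _)) = F v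
    cases F v <;> rfl
  have h1 : ∑ τ : V0 B X → S, ∑ e : J0 X → El S P q m, ∑ F ∈ (Cf Zc (Elb c S q m)).filter
        (fun F => lf F = f), H (tf (xt0 B X τ) F) (ef (xe0 X e) F) (kf F) =
      ∑ z ∈ (Finset.univ : Finset (V0 B X → S)) ×ˢ ((Finset.univ : Finset (J0 X → El S P q m)) ×ˢ
        (Cf Zc (Elb c S q m)).filter (fun F => lf F = f)),
        H (tf (xt0 B X z.1) z.2.2) (ef (xe0 X z.2.1) z.2.2) (kf z.2.2) := by
    rw [Finset.sum_product]
    refine Finset.sum_congr rfl fun τ _ => ?_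
    rw [Finset.sum_product]
  have h2 : ∑ t : Y.Vf → S, ∑ e : Y.Jf → El S P q m, ∑ κ : sp Zc f → Du S q (m + 1),
        H (Y.ex t) (Y.ee e) (k0 (sp Zc f) κ) =
      ∑ z ∈ (Finset.univ : Finset (Y.Vf → S)) ×ˢ ((Finset.univ : Finset (Y.Jf → El S P q m)) ×ˢ
        (Finset.univ : Finset (sp Zc f → Du S q (m + 1)))),
        H (Y.ex z.1) (Y.ee z.2.1) (k0 (sp Zc f) z.2.2) := by
    rw [Finset.sum_product]
    refine Finset.sum_congr rfl fun τ _ => ?_
    rw [Finset.sum_product]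
  rw [h1, h2]
  refine Finset.sum_bij' (fun z _ => (fun v => tf (xt0 B X z.1) z.2.2 v,
      fun j => ef (xe0 X z.2.1) z.2.2 j, fun v => kf z.2.2 v))
    (fun z _ => (fun v => Y.ex z.1 v, fun j => Y.ee z.2.1 j,
      mk (Y.ex z.1) (Y.ee z.2.1) (k0 (sp Zc f) z.2.2))) ?_ ?_ ?_ ?_ ?_
  · intro z _
    simp only [Finset.mem_product, Finset.mem_univ, and_self]
  · intro z _
    simp only [Finset.mem_product, Finset.mem_univ, true_and, Finset.mem_filter]
    refine ⟨?_, mk_lf _ _ _⟩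
    rw [mem_cf]
    intro v hv
    show (f v).map _ = none
    rw [(mem_cf.1 hf) v hv]
    rfl
  · rintro ⟨τ, e, F⟩ hz
    have hF : lf F = f := by
      rw [Finset.mem_product, Finset.mem_product, Finset.mem_filter] at hz
      exact hz.2.2.2
    show ((fun v : V0 B X => Y.ex (fun v => tf (xt0 B X τ) F v) v),
      (fun j : J0 X => Y.ee (fun j => ef (xe0 X e) F j) j),
      mk (Y.ex (fun v => tf (xt0 B X τ) F v)) (Y.ee (fun j => ef (xe0 X e) F j))
        (k0 (sp Zc f) (fun v => kf F v))) = (τ, e, F)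
    rw [hex τ F hF, hee e F hF, hkk F hF, mk_mk τ e F hF]
    refine Prod.ext ?_ (Prod.ext ?_ rfl)
    · funext v
      show tf (xt0 B X τ) F v = τ v
      unfold tf
      rw [hFn F hF v (hV0 v v.2)]
      show xt0 B X τ v = _
      unfold xt0
      rw [dif_pos v.2]
    · funext j
      show ef (xe0 X e) F j = e j
      obtain ⟨j, hj⟩ := j
      rcases j with v | i
      · show (F v).elim (xe0 X e (Sum.inl v)) _ = _
        rw [hFn F hF v (hJ0 v hj)]
        show xe0 X e (Sum.inl v) = _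
        unfold xe0
        rw [dif_pos hj]
      · show xe0 X e (Sum.inr i) = _
        unfold xe0
        rw [dif_pos hj]
  · rintro ⟨t, e, κ⟩ _
    show ((fun v : Y.Vf => tf (xt0 B X fun v => Y.ex t v) (mk (Y.ex t) (Y.ee e) (k0 (sp Zc f) κ)) v),
      (fun j : Y.Jf => ef (xe0 X fun j => Y.ee e j) (mk (Y.ex t) (Y.ee e) (k0 (sp Zc f) κ)) j),
      (fun v : sp Zc f => kf (mk (Y.ex t) (Y.ee e) (k0 (sp Zc f) κ)) v)) = (t, e, κ)
    rw [mk_tf, mk_ef, mk_kf]
    refine Prod.ext ?_ (Prod.ext ?_ ?_)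
    · funext v
      show Y.ex t v = t v
      unfold AD.ex
      rw [dif_pos v.2]
    · funext j
      show Y.ee e j = e j
      unfold AD.ee
      rw [dif_pos j.2]
    · funext v
      show k0 (sp Zc f) κ v = κ v
      unfold k0
      rw [dif_pos v.2]
  · rintro ⟨τ, e, F⟩ hz
    have hF : lf F = f := by
      rw [Finset.mem_product, Finset.mem_product, Finset.mem_filter] at hz
      exact hz.2.2.2
    show H (tf (xt0 B X τ) F) (ef (xe0 X e) F) (kf F) =
      H (Y.ex (fun v => tf (xt0 B X τ) F v)) (Y.ee (fun j => ef (xe0 X e) F j))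
        (k0 (sp Zc f) (fun v => kf F v))
    rw [hex τ F hF, hee e F hF, hkk F hF]

section ee

variable {S P : Type} [Group S] [Group P] [MulDistribMulAction P S] {J V : Type} {q m : ℕ}
  (X : AD S P J V) (η : X.Jf → Du S q m × Du S q (m + 1)) (x₀ : X.Jf → SP S P)

theorem et_ee : X.et (X.ee fun j => (η j, x₀ j)) = η := by
  funext j
  unfold AD.et AD.ee
  rw [dif_pos j.2]

theorem ee_xj : (fun j => (X.ee (fun j => (η j, x₀ j)) j).2) = X.xj x₀ := by
  funext j
  unfold AD.ee AD.xj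
  split_ifs <;> rfl

theorem ee_je : (X.ee fun j => (η j, x₀ j)) = X.je η x₀ := rfl

end ee

/-- the sum over the values -/
theorem gx_sum [Fintype S] [Fintype P] [NeZero q] (hp : p.Prime) {k Mw c₀ : ℕ} (T : ℝ)
    (Zc : Finset (Pl K)) (f : Pl K → Option (Px c))
    (hok : (adf G B X W T Zc f).Ok p k Mw q c₀ G.Pi) (t : Pl K → S)
    (η : (adf G B X W T Zc f).Jf → Du S q m × Du S q (m + 1))
    (x₀ : (adf G B X W T Zc f).Jf → SP S P) :
    ∑ κ : sp Zc f → Du S q (m + 1), Gx G B X W T Zc f t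
        ((adf G B X W T Zc f).ee fun j => (η j, x₀ j)) (k0 (sp Zc f) κ) =
      if (adf G B X W T Zc f).Ff η ∧ (adf G B X W T Zc f).Hk η ∧ ¬(adf G B X W T Zc f).Sv η then
        (adf G B X W T Zc f).Hh m t ((adf G B X W T Zc f).xj x₀) η *
          (adf G B X W T Zc f).Kr ((adf G B X W T Zc f).je η x₀) ((adf G B X W T Zc f).vl t) /
          (Fintype.card S : ℂ) ^ (adf G B X W T Zc f).Vf.card else 0 := by
  obtain ⟨-, hk⟩ := hk_iff (adf G B X W T Zc f) hp hok m η
  have hl : (adf G B X W T Zc f).l = W.l := rfl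
  have hpp : ∀ v, (adf G B X W T Zc f).pp (Sum.inl v) ↔ v ∈ sp Zc f ∧ PPc X W T v :=
    fun v => Iff.rfl
  have hppr : ∀ i, ¬(adf G B X W T Zc f).pp (Sum.inr i) := fun i h => h
  have hWv : ∀ v, (adf G B X W T Zc f).W (Sum.inl v) = W.Wv v := fun v => rfl
  have hJi : ∀ v, v ∈ sp Zc f → Sum.inl v ∈ (adf G B X W T Zc f).Jf := fun v hv =>
    (jf_iff G B X W T Zc f _).2 (Or.inl ⟨v, hv, rfl⟩)
  unfold Gx
  rw [et_ee, ee_xj, ee_je]
  simp_rw [ite_zero_mul_ite_zero]
  rw [Finset.sum_eq_single fun v : sp Zc f => if PPc X W T v then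
    (adf G B X W T Zc f).kk η (W.Wv v) else 0]
  · have h1 : ∀ v ∈ sp Zc f, k0 (sp Zc f) (fun v : sp Zc f => if PPc X W T v then
        (adf G B X W T Zc f).kk η (W.Wv v) else 0) v =
          if PPc X W T v then (adf G B X W T Zc f).kk η (W.Wv v) else 0 := by
      intro v hv
      unfold k0
      rw [dif_pos hv]
    have h2 : ((adf G B X W T Zc f).Ff η ∧ (∀ v ∈ sp Zc f, PPc X W T v → ∀ z : Gr S m,
          (k0 (sp Zc f) (fun v : sp Zc f => if PPc X W T v then
            (adf G B X W T Zc f).kk η (W.Wv v) else 0) v).ap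
              (br m ((adf G B X W T Zc f).y (Sum.inl v)) z) = 0) ∧
            ¬(adf G B X W T Zc f).Sv η) ∧
        (∀ v ∈ W.l, (adf G B X W T Zc f).kk η (wd FreeGroup.of (adf G B X W T Zc f).W
          ((adf G B X W T Zc f).bl v)) = 0) ∧
        (∀ v ∈ sp Zc f, k0 (sp Zc f) (fun v : sp Zc f => if PPc X W T v then
          (adf G B X W T Zc f).kk η (W.Wv v) else 0) v =
            if PPc X W T v then (adf G B X W T Zc f).kk η (W.Wv v) else 0) ↔
          ((adf G B X W T Zc f).Ff η ∧ (adf G B X W T Zc f).Hk η ∧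
            ¬(adf G B X W T Zc f).Sv η) := by
      rw [hk]
      constructor
      · rintro ⟨⟨a1, a2, a3⟩, a4, -⟩
        refine ⟨a1, ⟨a4, fun j _ hpj z => ?_⟩, a3⟩
        rcases j with v | i
        · have h3 := a2 v ((hpp v).1 hpj).1 ((hpp v).1 hpj).2 z
          rw [h1 v ((hpp v).1 hpj).1, if_pos ((hpp v).1 hpj).2] at h3
          exact h3
        · exact absurd hpj (hppr i)
      · rintro ⟨a1, ⟨a4, a2⟩, a3⟩
        refine ⟨⟨a1, fun v hv hpv z => ?_, a3⟩, a4, h1⟩
        rw [h1 v hv, if_pos hpv]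
        exact a2 (Sum.inl v) (hJi v hv) ((hpp v).2 ⟨hv, hpv⟩) z
    by_cases h3 : (adf G B X W T Zc f).Ff η ∧ (adf G B X W T Zc f).Hk η ∧
      ¬(adf G B X W T Zc f).Sv η
    · rw [if_pos (h2.2 h3), if_pos h3]
      ring
    · rw [if_neg fun h => h3 (h2.1 h), if_neg h3]
  · intro κ _ hκ
    refine if_neg fun h => hκ ?_
    funext v
    have h1 := h.2.2 v v.2
    unfold k0 at h1
    rw [dif_pos v.2] at h1
    exact h1
  · intro h
    exact absurd (Finset.mem_univ _) h

end one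

variable {K : Type} [Field K] [NumberField K] {Ω : Type} [Field Ω] [Algebra K Ω]
  {p N : ℕ} {ζ : K} {D : RD0 K p ζ} {Q : DP K Ω} {A : GS D Ω} {P : Type} [Group P]
  {c : CL p N P} {S : Type} [Group S] [MulDistribMulAction P S] {q m : ℕ}

theorem rei [Fintype S] [Fintype P] [NeZero q] (hp : p.Prime) (G : SG c S) (B : SD D Q A)
    (X : FD A P S) (W : WF A) {k Mw c₀ : ℕ} (T : ℝ) (Zc : Finset (Pl K))
    (hZE : Disjoint Zc X.E) (hZ0 : Disjoint Zc D.S0) (hm : 1 ≤ m)
    (wt : (Pl K → Option (Px c)) → ℂ)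
    (hok : ∀ f ∈ Cf Zc (Px c), wt f ≠ 0 → (adf G B X W T Zc f).Ok p k Mw q c₀ G.Pi) :
    NX q G B X W T Zc wt m = EX (q := q) (m := m) G B X W T Zc wt := by
  unfold NX EX
  have h1 : ∀ (τ : V0 B X → S) (e : J0 X → El S P q m), ∑ F ∈ Cf Zc (Elb c S q m),
      wt (lf F) * AX G B X W T Zc (xt0 B X τ) (xe0 X e) F *
        FX G B X W T Zc (xt0 B X τ) (xe0 X e) F =
      ∑ f ∈ Cf Zc (Px c), ∑ F ∈ (Cf Zc (Elb c S q m)).filter (fun F => lf F = f),
        wt f * Gx G B X W T Zc f (tf (xt0 B X τ) F) (ef (xe0 X e) F) (kf F) := by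
    intro τ e
    rw [← Finset.sum_fiberwise_of_maps_to (fun F hF => lf_cf hF)]
    refine Finset.sum_congr rfl fun f _ => Finset.sum_congr rfl fun F hF => ?_
    rw [Finset.mem_filter] at hF
    rw [mul_assoc, gx_of, hF.2]
  simp_rw [h1]
  have h2 : ∑ τ : V0 B X → S, ∑ e : J0 X → El S P q m, ∑ f ∈ Cf Zc (Px c),
      ∑ F ∈ (Cf Zc (Elb c S q m)).filter (fun F => lf F = f),
        wt f * Gx G B X W T Zc f (tf (xt0 B X τ) F) (ef (xe0 X e) F) (kf F) =
      ∑ f ∈ Cf Zc (Px c), wt f * ∑ τ : V0 B X → S, ∑ e : J0 X → El S P q m,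
      ∑ F ∈ (Cf Zc (Elb c S q m)).filter (fun F => lf F = f),
        Gx G B X W T Zc f (tf (xt0 B X τ) F) (ef (xe0 X e) F) (kf F) := by
    simp_rw [Finset.mul_sum]
    rw [Finset.sum_comm (s := Cf Zc (Px c))]
    refine Finset.sum_congr rfl fun τ _ => ?_
    rw [Finset.sum_comm]
  rw [h2]
  refine Finset.sum_congr rfl fun f hf => ?_
  by_cases hw : wt f = 0
  · rw [hw, zero_mul, zero_mul]
  congr 1
  have hX := hok f hf hw
  rw [rei_bij G B X W T Zc hZE hZ0 f hf]
  -- the families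
  have h3 : ∀ t : Pl K → S, ∑ e : (adf G B X W T Zc f).Jf → El S P q m,
      ∑ κ : sp Zc f → Du S q (m + 1), Gx G B X W T Zc f t ((adf G B X W T Zc f).ee e)
        (k0 (sp Zc f) κ) =
      ∑ η : (adf G B X W T Zc f).Jf → Du S q m × Du S q (m + 1),
        if (adf G B X W T Zc f).Ff η ∧ (adf G B X W T Zc f).Hk η ∧ ¬(adf G B X W T Zc f).Sv η then
          (adf G B X W T Zc f).Hh m t ((adf G B X W T Zc f).vl t) η /
            (Fintype.card S : ℂ) ^ (adf G B X W T Zc f).Vf.card else 0 := by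
    intro t
    rw [← Fintype.sum_equiv (Equiv.arrowProdEquivProdArrow _ _ _).symm
      (fun z : ((adf G B X W T Zc f).Jf → Du S q m × Du S q (m + 1)) ×
        ((adf G B X W T Zc f).Jf → SP S P) => ∑ κ : sp Zc f → Du S q (m + 1),
          Gx G B X W T Zc f t ((adf G B X W T Zc f).ee fun j => (z.1 j, z.2 j))
        (k0 (sp Zc f) κ)) _ (fun z => rfl), Fintype.sum_prod_type]
    refine Finset.sum_congr rfl fun η _ => ?_
    simp_rw [gx_sum G B X W hp T Zc f hX t η]
    by_cases hc : (adf G B X W T Zc f).Ff η ∧ (adf G B X W T Zc f).Hk η ∧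
      ¬(adf G B X W T Zc f).Sv η
    · simp_rw [if_pos hc]
      rw [← Finset.sum_div]
      congr 1
      rw [cell (adf G B X W T Zc f) hX hm t ((adf G B X W T Zc f).vl t) η]
      exact Finset.sum_congr (by ext; simp) fun _ _ => rfl
    · simp_rw [if_neg hc]
      rw [Finset.sum_const_zero]
  simp_rw [h3]
  rw [Finset.sum_comm, Finset.sum_filter]
  refine Finset.sum_congr rfl fun η _ => ?_
  by_cases hc : (adf G B X W T Zc f).Ff η ∧ (adf G B X W T Zc f).Hk η ∧
      ¬(adf G B X W T Zc f).Sv η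
  · simp_rw [if_pos hc]
    rw [← Finset.sum_div]
    rfl
  · simp_rw [if_neg hc]
    rw [Finset.sum_const_zero]

end H73.S3
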