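import Pool.Agent.H73.S3.Bxq

/-!
# [H73 S3 BXF] the box inequality `BxF` from BLG (MP_b39724_nt, stage 3, chapter B)

`bxf`: if (O) fails, or `Ulk`, or `b` is not good: the summand is `0` (`kx_up`, `kx_iff`, `qp_up`, definition of `FX`). Otherwise `lgi` and `qbx` for every subgroup `Qs` (finitely many; the
`b` with `Qp b = Qs`); `C₂` from `qbx` with `A' + 1`.
-/

set_option autoImplicit false

open scoped NumberField commutatorElement
open IsDedekindDomain
open scoped Classical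

noncomputable section

namespace H73.S3

open H63.MA H38.BB H38.BG H57.PC H57.BRA H77.WD H77.WE H77.PC3 H35.CF H35.UB H77.S3 H71.S3 H1.S3
  H93.BX H93.BY H24.RK

attribute [local instance 50] Fintype.ofFinite

variable {K : Type} [Field K] [NumberField K] {Ω : Type} [Field Ω] [Algebra K Ω]
  {p N : ℕ} {ζ : K} {D : RD0 K p ζ} {Q : DP K Ω} {A : GS D Ω} {P : Type} [Group P]
  {c : CL p N P} {S : Type} [Group S] [MulDistribMulAction P S] {n : ℕ}

private theorem bf_zg2 (D : RD0 K p ζ) (Z E : Finset (Pl K)) : Disjoint (Zg D Z E) E := by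
  unfold Zg
  rw [Finset.disjoint_left]
  intro v hv hv'
  rw [Finset.mem_filter, Finset.mem_sdiff] at hv
  exact hv.1.2 hv'

/-- linkedness does not depend on the new places -/
private theorem bf_lk {q : ℕ} (G : SG c S) (B : SD D Q A) (X : FD A P S) (W : WF A) (T : ℝ)
    (Zc : Finset (Pl K)) (hZE : Disjoint Zc X.E) (e₀ : Pl K ⊕ Fin A.g → El S P q (n + 1))
    (l : Fin (n + 1 + 1) → Elb c S q (n + 1)) (b : Pl K → Option (Elb c S q (n + 1)))
    (v : Fin (n + 1 + 1) → Pl K) (hv : v ∈ H35.CF.Fr Zc (PPc X W T) b (n + 1 + 1)) :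
    Lk G B X W T Zc e₀ (up b v l) v ↔
      ¬Ulk ((adx G B X W T Zc b).Qp (kx G B X W T Zc e₀ b)) (fun k => G.y (l k).1)
        fun k => (l k).2.2.1.1.1 := by
  have hv' := mem_fr.1 hv
  have h1 : (fun k => (adx G B X W T Zc (up b v l)).y (Sum.inl (v k))) =
      fun k => G.y (l k).1 := by
    funext k
    have e1 : v k ∉ X.E := fun h2 => Finset.disjoint_left.1 hZE (hv'.1 k).1 h2
    have e2 : (adx G B X W T Zc (up b v l)).t (Sum.inl (v k)) = il (G.y (l k).1) := by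
      show (if v k ∈ X.E then (⟨X.sv (v k), X.φ (W.L.t (v k))⟩ : SP S P) else
        (if v k ∈ Zc then lf (up b v l) (v k) else none).elim 1 fun s => il (G.y s)) = _
      rw [if_neg e1, if_pos (hv'.1 k).1]
      unfold lf
      rw [up_of b v l hv'.2 k]
      rfl
    unfold AD.y
    rw [e2]
    rfl
  have h2 : (fun k => (ef e₀ (up b v l) (Sum.inl (v k))).1.1) = fun k => (l k).2.2.1.1.1 := by
    funext k
    show ((up b v l (v k)).elim (e₀ (Sum.inl (v k))) fun a => a.2.2.1).1.1 = _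
    rw [up_of b v l hv'.2 k]
    rfl
  unfold Lk
  rw [qp_up G B X W T Zc hZE e₀ l b v hv, h1, h2]

/-- the summand in terms of the fixed part -/
private theorem bf_sum {q : ℕ} (G : SG c S) (B : SD D Q A) (X : FD A P S) (W : WF A) (T : ℝ)
    (Zc : Finset (Pl K)) (hZE : Disjoint Zc X.E) (τ₀ : Pl K → S)
    (e₀ : Pl K ⊕ Fin A.g → El S P q (n + 1))
    (l : Fin (n + 1 + 1) → Elb c S q (n + 1))
    (hO : ∀ k, ∀ z : Gr S (n + 1), ((l k).2.2.2).ap (br (n + 1) (G.y (l k).1) z) = 0)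
    (b : Pl K → Option (Elb c S q (n + 1)))
    (v : Fin (n + 1 + 1) → Pl K) (hv : v ∈ H35.CF.Fr Zc (PPc X W T) b (n + 1 + 1))
    (Qs : Subgroup (Sd P (Du S q (n + 1 + 1))))
    (hQs : (adx G B X W T Zc b).Qp (kx G B X W T Zc e₀ b) = Qs) :
    FX G B X W T Zc τ₀ e₀ (up b v l) = 0 ∨
      (((adx G B X W T Zc (up b v l)).Kx ((adx G B X W T Zc (up b v l)).et
                (ef e₀ (up b v l))) (kx G B X W T Zc e₀ (up b v l)) ∧
              Lk G B X W T Zc e₀ (up b v l) v ∧ ∀ k, ∀ z : Gr S (n + 1),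
              ((l k).2.2.2).ap (br (n + 1) (G.y (l k).1) z) = 0) ↔
      Gdb G B X W T Zc e₀ Qs b ∧
        ¬Ulk Qs (fun k => G.y (l k).1) (fun k => (l k).2.2.1.1.1)) := by
  have hkc : (adx G B X W T Zc (up b v l)).Kx ((adx G B X W T Zc (up b v l)).et
        (ef e₀ (up b v l))) (kx G B X W T Zc e₀ (up b v l)) ↔
      (adx G B X W T Zc b).Kx ((adx G B X W T Zc b).et (ef e₀ b)) (kx G B X W T Zc e₀ b) := by
    rw [kx_up G B X W T Zc hZE e₀ l b v hv]
    exact kx_iff G B X W T Zc hZE e₀ l b v hv _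
  have hlk := bf_lk G B X W T Zc hZE e₀ l b v hv
  rw [hQs] at hlk
  by_cases h0 : FX G B X W T Zc τ₀ e₀ (up b v l) = 0
  · exact Or.inl h0
  · refine Or.inr ⟨fun h => ⟨⟨hkc.1 h.1, ?_, ?_, hQs⟩, hlk.1 h.2.1⟩,
      fun h => ⟨hkc.2 h.1.kc, hlk.2 h.2, hO⟩⟩
    · have h1 : ∀ w ∈ W.l, kx G B X W T Zc e₀ (up b v l) (wd FreeGroup.of
          (adx G B X W T Zc (up b v l)).W ((adx G B X W T Zc (up b v l)).bl w)) = 0 := by
        by_contra hc
        refine h0 ?_
        unfold FX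
        rw [if_neg]
        exact fun hh => hc hh.1
      rw [kx_up G B X W T Zc hZE e₀ l b v hv] at h1
      exact h1
    · have h1 : ∀ w ∈ sp Zc (up b v l), kf (up b v l) w =
          if PPc X W T w then kx G B X W T Zc e₀ (up b v l) (W.Wv w) else 0 := by
        by_contra hc
        refine h0 ?_
        unfold FX
        rw [if_neg]
        exact fun hh => hc hh.2
      intro w hw hpp
      have hv' := mem_fr.1 hv
      have hne : ∀ k, v k ≠ w := by
        rintro k rfl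
        exact (mem_sp.1 hw).2 (hv'.1 k).2.2
      have h2 : up b v l w = b w := H35.CF.up_ne b v l w hne
      have h3 := h1 w (by
        rw [mem_sp, h2]
        exact mem_sp.1 hw)
      rw [if_neg hpp] at h3
      unfold kf at h3 ⊢
      rw [h2] at h3
      exact h3

theorem bxf [IsAlgClosure K Ω] [Fintype S] [Fintype P] (hp : p.Prime) (hζ : IsPrimitiveRoot ζ p)
    {κ mm c₁ N₁ : ℕ} {z : K} [NeZero (p ^ κ)] (B : SD D Q A) (hB : BLG D Ω Q A B κ mm c₁ N₁ z)
    (G : SG c S) (hS : IsPGroup p S) (hP : IsPGroup p P) (hq : ∀ s : S, s ^ p ^ κ = 1)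
    (hn : n + 1 ≤ mm) (hg : A.g ≤ c₁)
    (h1 : Nat.card S * (Nat.card P * Nat.card (Du S (p ^ κ) (n + 1 + 1))) ≤ mm)
    (h2 : Nat.card (Px c) * Nat.card (Du S (p ^ κ) (n + 1)) ≤ mm) (C₁ A' ε : ℝ) (hε : 0 < ε) :
    ∃ C₂ : ℕ, ∀ C' : ℕ, ∃ Y₀ : ℝ, ∀ Y : ℝ, Y₀ ≤ Y → ∀ (k Mw : ℕ) (X : FD A P S) (W : WF A)
      (T : ℝ), BxH G B X W κ mm N₁ z C₁ C₂ C' ε Y k Mw T →
      BxF (q := p ^ κ) G B X W T (Zg D W.Z X.E) (n + 1) C₁ A' Y := by
  have hS1 : 1 ≤ Nat.card S := Nat.card_pos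
  have hc : Nat.card P * Nat.card (Du S (p ^ κ) (n + 1 + 1)) ≤ mm :=
    (Nat.le_mul_of_pos_left _ hS1).trans h1
  obtain ⟨C₂, hqb⟩ := qbx hp hζ B hB G hS hP hn hg hc C₁ (A' + 1) ε hε
  refine ⟨C₂, fun C' => ?_⟩
  obtain ⟨Y₀, hY₀⟩ := hqb C'
  obtain ⟨NQ, hNQ⟩ : ∃ NQ : ℕ, NQ = Fintype.card (Subgroup (Sd P (Du S (p ^ κ) (n + 1 + 1)))) :=
    ⟨_, rfl⟩
  refine ⟨max Y₀ (Real.exp (NQ + 1)), fun Y hY k Mw X W T hH => ?_⟩
  unfold BxF
  intro τ₀ e₀ l lo hi hlh
  have hYa := le_trans (le_max_left _ _) hY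
  have hYb := le_trans (le_max_right _ _) hY
  have hY0 : 0 < Y := lt_of_lt_of_le (Real.exp_pos _) hYb
  have hlN : (NQ : ℝ) + 1 ≤ Real.log Y := (Real.le_log_iff_exp_le hY0).2 hYb
  have hN0 : (0 : ℝ) ≤ NQ := Nat.cast_nonneg _
  have hl0 : 0 < Real.log Y := by linarith
  have hZ := bf_zg2 D W.Z X.E
  by_cases hO : ∀ k, ∀ z : Gr S (n + 1), ((l k).2.2.2).ap (br (n + 1) (G.y (l k).1) z) = 0
  swap
  · rw [Finset.sum_eq_zero]
    · exact (Real.rpow_pos_of_pos hl0 _).le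
    · intro b _
      rw [Finset.sum_eq_zero, norm_zero, mul_zero]
      intro v _
      exact if_neg fun h => hO h.2.2
  obtain ⟨Qb, hQb⟩ : ∃ Qb : (Pl K → Option (Elb c S (p ^ κ) (n + 1))) →
      Subgroup (Sd P (Du S (p ^ κ) (n + 1 + 1))), Qb = fun b =>
        (adx G B X W T (Zg D W.Z X.E) b).Qp (kx G B X W T (Zg D W.Z X.E) (xe0 X e₀) b) :=
    ⟨_, rfl⟩
  rw [← Finset.sum_fiberwise _ Qb]
  have hone : ∀ Qs : Subgroup (Sd P (Du S (p ^ κ) (n + 1 + 1))),
      ∑ b ∈ ((Cf (Zg D W.Z X.E) (Elb c S (p ^ κ) (n + 1))).filter (fun b =>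
        nr (sp (Zg D W.Z X.E) b) ≤ Y ^ C₁ ∧
        ((sp (Zg D W.Z X.E) b).card : ℝ) ≤ C₁ * (1 + Real.log (Real.log Y)))).filter
          (fun b => Qb b = Qs),
      (nr (sp (Zg D W.Z X.E) b))⁻¹ * (∏ k, lo k)⁻¹ *
        ‖∑ v ∈ (H35.CF.Fr (Zg D W.Z X.E) (PPc X W T) b (n + 1 + 1)).filter
        (fun v => ∀ k, lo k < nm (v k) ∧ (nm (v k) : ℝ) ≤ hi k),
          (if (adx G B X W T (Zg D W.Z X.E) (up b v l)).Kx
                ((adx G B X W T (Zg D W.Z X.E) (up b v l)).et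
                (ef (xe0 X e₀) (up b v l))) (kx G B X W T (Zg D W.Z X.E) (xe0 X e₀) (up b v l)) ∧
              Lk G B X W T (Zg D W.Z X.E) (xe0 X e₀) (up b v l) v ∧ ∀ k, ∀ z : Gr S (n + 1),
              ((l k).2.2.2).ap (br (n + 1) (G.y (l k).1) z) = 0 then
            FX G B X W T (Zg D W.Z X.E) (xt0 B X τ₀) (xe0 X e₀) (up b v l) else 0)‖ ≤
      Real.log Y ^ (-(A' + 1)) := by
    intro Qs
    by_cases hU : Ulk Qs (fun k => G.y (l k).1) (fun k => (l k).2.2.1.1.1)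
    · rw [Finset.sum_eq_zero]
      · exact (Real.rpow_pos_of_pos hl0 _).le
      · intro b hb
        have hb1 := (Finset.mem_filter.1 hb).2
        rw [hQb] at hb1
        rw [Finset.sum_eq_zero, norm_zero, mul_zero]
        intro v hv
        rcases bf_sum G B X W T _ hZ (xt0 B X τ₀) _ l hO b v (Finset.mem_filter.1 hv).1 Qs hb1
          with h | h
        · rw [h, ite_self]
        · exact if_neg fun hh => (h.1 hh).2 hU
    · obtain ⟨PQ, Lm, _, _, _, _, μ, lm, Dx, hI, hpq, hc1, hc2, hlk⟩ :=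
        lgi (q := p ^ κ) (n := n) hp G hS hP hq ⟨κ, rfl⟩ Qs
      have hmain := hY₀ Y hYa k Mw X W T hH Qs PQ Lm μ lm Dx hI hpq (hc1.trans h1)
        (hc2.trans h2) (xt0 B X τ₀) (xe0 X e₀) l hO (hlk _ _ hU) lo hi hlh
      refine le_trans (le_of_eq ?_) hmain
      rw [← Finset.sum_filter_of_ne (p := fun b =>
        Gdb G B X W T (Zg D W.Z X.E) (xe0 X e₀) Qs b)]
      · refine Finset.sum_congr ?_ fun b hb => ?_
        · have hk : ∀ (Z : Finset (Pl K)) (Λ : Type) (i1 i2 : Fintype Λ) (b : Pl K → Option Λ),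
              b ∈ @Cf (Pl K) Z Λ i1 → b ∈ @Cf (Pl K) Z Λ i2 := by
            intro Z Λ i1 i2 b h
            rw [Subsingleton.elim i2 i1]
            exact h
          ext b
          rw [Finset.mem_filter, Finset.mem_filter, Finset.mem_filter, Finset.mem_filter, hQb]
          constructor
          · rintro ⟨⟨⟨g1, g2⟩, g3⟩, g4⟩
            exact ⟨hk _ _ _ _ _ g1, g2, g4⟩
          · rintro ⟨g1, g2, g4⟩
            exact ⟨⟨⟨hk _ _ _ _ _ g1, g2⟩, g4.qp⟩, g4⟩
        · have hG := (Finset.mem_filter.1 hb).2.2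
          congr 2
          refine Finset.sum_congr rfl fun v hv => ?_
          rcases bf_sum G B X W T _ hZ (xt0 B X τ₀) _ l hO b v (Finset.mem_filter.1 hv).1 Qs hG.qp
            with h | h
          · rw [h, ite_self]
          · exact if_pos (h.2 ⟨hG, hU⟩)
      · intro b hb hne
        have hb1 := (Finset.mem_filter.1 hb).2
        rw [hQb] at hb1
        by_contra hG
        refine hne ?_
        rw [Finset.sum_eq_zero, norm_zero, mul_zero]
        intro v hv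
        rcases bf_sum G B X W T _ hZ (xt0 B X τ₀) _ l hO b v (Finset.mem_filter.1 hv).1 Qs hb1
          with h | h
        · rw [h, ite_self]
        · exact if_neg fun hh => hG (h.1 hh).1
  refine (Finset.sum_le_card_nsmul _ _ _ fun Qs _ => hone Qs).trans ?_
  rw [nsmul_eq_mul, Finset.card_univ, ← hNQ]
  calc (NQ : ℝ) * Real.log Y ^ (-(A' + 1)) ≤ Real.log Y * Real.log Y ^ (-(A' + 1)) :=
        mul_le_mul_of_nonneg_right (by linarith) (Real.rpow_pos_of_pos hl0 _).le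
    _ = Real.log Y ^ (1 + -(A' + 1)) := by rw [Real.rpow_add hl0, Real.rpow_one]
    _ = Real.log Y ^ (-A') := by
        congr 1
        ring

end H73.S3
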