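import Pool.Agent.H73.S3.Fr
import Pool.Agent.H77.INP.Df

/-!
# [H73 S3 WFX] the places and words of `Fx` (H77/INP/Df) satisfy `WF.Ok` (MP_b39724_nt, stage 3, chapter B)
-/

set_option autoImplicit false

open scoped NumberField commutatorElement
open IsDedekindDomain
open scoped Classical

noncomputable section

namespace H73.S3

open H63.MA H38.BB H38.BG H57.PC H57.BRA H77.WD H77.WE H77.PC3 H35.CF H35.UB H77.S3 H71.S3

variable {K : Type} [Field K] [NumberField K] {Ω : Type} [Field Ω] [Algebra K Ω]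
  {p : ℕ} {ζ : K} {D : RD0 K p ζ} {Q : DP K Ω} {A : GS D Ω}

theorem wf_ok {k j : ℕ} {z : K} {Mg Cg C' : ℕ} {C₁ Y : ℝ} (B : SD D Q A) (W : WF A)
    (h : H77.INP.Fx k j z Mg Cg C' C₁ Y W.Fr B W.Z W.l W.Wv W.Wi) : W.Ok B k (p ^ k) where
  zs := h.out
  nd := h.nd
  lz := h.ml
  rel := h.rel
  cm v hv H _ _ hH φ hφ := h.com v hv H hH φ hφ
  s0 v hv H _ _ hH φ hφ := h.loc v hv H hH φ hφ
  cr H _ _ hH θ h1 h2 h3 := h.crt H hH θ h1 h2 h3

end H73.S3
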