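import Pool.Agent.H73.S3.Bxc
import Pool.Agent.H73.S3.Adf

/-!
# [H73 S3 BXB] the honest homomorphism of the fixed part (MP_b39724_nt, stage 3, chapter B)

Proof of `hon_ex`. `θ := thk` (H73/S3/Bxa; `kx` is crossed for `ph0` by `Gdb.kc`, `ph_eq`), values in `Sd P (Du ..)`, a small group. Criterion `WF.Ok.cr`: `θ (of (inl v)) = 1` for `v ∉ Z` or `v ∈ S0` (`v ∉ Jf`:
`Gdb.kc.of`; `ph0`: `v ∉ E`); the commutators and the blocks: `Gdb.bl` for the component in `Du`, `cm`, `s0`, `ph_hat`, `ph_v` (Adf) for the component in `P`. So `hat Φ = θ` for `Φ : Gal → Sd`,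
unramified outside `sp Zc b ∪ E` (`hat_inl`, `θ (of (inl v)) = 1` for the other `v`). The range is `Qp` (`H77.WE.fraU`, `hat Φ = θ`, the image of a free group is the closure of the
values on the letters), `Gdb.qp`; restrict the codomain. `fr`, `bi`: `Wds` (`WF.Ok.rel`).
-/

set_option autoImplicit false

open scoped NumberField commutatorElement
open IsDedekindDomain
open scoped Classical

noncomputable section

namespace H73.S3

open H63.MA H38.BB H38.BG H57.PC H57.BRA H77.WD H77.WE H77.PC3 H35.CF H35.UB H77.S3 H71.S3 H1.S3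
  H93.BX H93.BY

attribute [local instance 50] Fintype.ofFinite

variable {K : Type} [Field K] [NumberField K] {Ω : Type} [Field Ω] [Algebra K Ω]
  {p N : ℕ} {ζ : K} {D : RD0 K p ζ} {Q : DP K Ω} {A : GS D Ω} {P : Type} [Group P]
  {c : CL p N P} {S : Type} [Group S] [MulDistribMulAction P S] {q n : ℕ}

private theorem bxb_card {P N : Type} [Group P] [AddCommGroup N] [DistribMulAction P N] :
    Nat.card (Sd P N) = Nat.card P * Nat.card N := by
  have e : Sd P N ≃ P × N :=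
    { toFun := fun a => (a.x, a.n)
      invFun := fun a => ⟨a.2, a.1⟩
      left_inv := fun _ => rfl
      right_inv := fun _ => rfl }
  rw [Nat.card_congr e, Nat.card_prod]

private theorem bxb_pow {P N : Type} [Group P] [AddCommGroup N] [DistribMulAction P N] (m : N) :
    ∀ j : ℕ, (⟨m, 1⟩ : Sd P N) ^ j = ⟨j • m, 1⟩
  | 0 => by
    rw [pow_zero, zero_smul]
    rfl
  | j + 1 => by
    rw [pow_succ, bxb_pow m j, sd_mul]
    simp only [one_smul, mul_one]
    rw [succ_nsmul]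

private theorem bxb_pg {P N : Type} [Group P] [AddCommGroup N] [DistribMulAction P N] {p r : ℕ}
    (hP : IsPGroup p P) (hN : ∀ m : N, p ^ r • m = 0) : IsPGroup p (Sd P N) := by
  intro z
  obtain ⟨a, ha⟩ := hP z.x
  refine ⟨a + r, ?_⟩
  have h1 : (z ^ p ^ a).x = 1 := by
    have h2 : Sd.pr (z ^ p ^ a) = (Sd.pr z) ^ p ^ a := map_pow _ _ _
    exact h2.trans ha
  have h2 : z ^ p ^ a = ⟨(z ^ p ^ a).n, 1⟩ := Sd.ext rfl h1
  rw [pow_add, pow_mul, h2, bxb_pow, hN]
  rfl

private theorem bxb_du {S : Type} [Group S] {q m : ℕ} (χ : Du S q m) : q • χ = 0 := by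
  have h2 : ∀ (j : ℕ) (a : Gr S m), (j • χ).ap a = j • χ.ap a := by
    intro j a
    induction j with
    | zero =>
      rw [zero_smul, zero_smul]
      rfl
    | succ j ih => rw [succ_nsmul, succ_nsmul, ap_add, ih]
  refine du_ext fun a => ?_
  rw [h2, ap_zero, nsmul_eq_mul, ZMod.natCast_self, zero_mul]

private theorem bxb_sp {V Λ M : Type} (Z : Finset V) (b : V → Option Λ) (f : Λ → M) :
    sp Z (fun v => (b v).map f) = sp Z b := by
  ext v
  rw [mem_sp, mem_sp]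
  cases b v with
  | none => exact ⟨fun h => absurd rfl h.2, fun h => absurd rfl h.2⟩
  | some a => exact ⟨fun h => ⟨h.1, Option.some_ne_none _⟩, fun h => ⟨h.1, Option.some_ne_none _⟩⟩

private theorem bxb_rng {J H : Type} [Group H] (θ : FreeGroup J →* H) :
    Subgroup.closure (Set.range fun j => θ (FreeGroup.of j)) = θ.range := by
  refine le_antisymm ?_ ?_
  · rw [Subgroup.closure_le]
    rintro _ ⟨j, rfl⟩
    exact ⟨_, rfl⟩
  · rintro _ ⟨x, rfl⟩
    refine FreeGroup.induction_on x ?_ ?_ ?_ ?_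
    · rw [map_one]
      exact one_mem _
    · intro j
      exact Subgroup.subset_closure ⟨j, rfl⟩
    · intro j h
      rw [map_inv]
      exact inv_mem h
    · intro x y hx hy
      rw [map_mul]
      exact mul_mem hx hy

theorem hon_ex [IsAlgClosure K Ω] [Finite S] [Finite P] [NeZero q] (hp : p.Prime)
    (hζ : IsPrimitiveRoot ζ p)
    (G : SG c S) (B : SD D Q A) (X : FD A P S) (W : WF A) {k Mw : ℕ} (hX : X.Ok G B W)
    (hW : W.Ok B k Mw) (T : ℝ) (Zc : Finset (Pl K)) (hZ : Disjoint Zc X.E) (hZc : Zc ⊆ W.Z)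
    (hE : X.E ⊆ W.Z) (hP : IsPGroup p P) (hS : IsPGroup p S) (hqp : ∃ r, q = p ^ r)
    (hk : Mw ≤ p ^ k) (hM : Nat.card P * Nat.card (Du S q (n + 1 + 1)) ≤ Mw)
    (e₀ : Pl K ⊕ Fin A.g → El S P q (n + 1)) (Qs : Subgroup (Sd P (Du S q (n + 1 + 1))))
    (b : Pl K → Option (Elb c S q (n + 1))) (h : Gdb G B X W T Zc e₀ Qs b) :
    ∃ Φ : Gal(Ω/K) →* Qs, Hon G B X W T Zc e₀ Qs b Φ := by
  have hpf : Fact p.Prime := ⟨hp⟩
  have _ := hS
  obtain ⟨r, hr⟩ := hqp
  have hPM : Nat.card P ≤ Mw := by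
    refine le_trans ?_ hM
    exact Nat.le_mul_of_pos_right _ Nat.card_pos
  have hPs : Sml p k Mw P := sml_of hp hk hP hPM
  have hpg : IsPGroup p (Sd P (Du S q (n + 1 + 1))) :=
    bxb_pg (r := r) hP fun m => by
      rw [← hr]
      exact bxb_du m
  have hSs : Sml p k Mw (Sd P (Du S q (n + 1 + 1))) := sml_of hp hk hpg (by
    rw [bxb_card]
    exact hM)
  obtain ⟨hpw, hpi⟩ := ph_v G B X W hX hW hPs T Zc hZ hE (lf b)
  have hhat := ph_hat G B X W hX T Zc (lf b)
  have h0 := ph_eq G B X W T Zc (lf b)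
  rw [h0] at hpw hpi hhat
  set κ := kx G B X W T Zc e₀ b with hκ
  have hch : ∀ x y, κ (x * y) = κ x + ph0 X W x • κ y := by
    intro x y
    have h1 := h.kc.ch x y
    rw [h0] at h1
    exact h1
  set θ : FW A →* Sd P (Du S q (n + 1 + 1)) := thk X W κ hch with hθ
  have hθx : ∀ x, θ x = ⟨κ x, ph0 X W x⟩ := fun x => rfl
  have hspe : sp Zc (lf b) = sp Zc b := bxb_sp Zc b _
  have hspZ : ∀ v, v ∈ sp Zc b → v ∈ W.Z := fun v hv => hZc (mem_sp.1 hv).1
  -- the letters which are killed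
  have hk1 : ∀ v, v ∉ sp Zc b ∪ X.E → θ (FreeGroup.of (Sum.inl v)) = 1 := by
    intro v hv
    rw [Finset.mem_union, not_or] at hv
    have h1 : κ (FreeGroup.of (Sum.inl v)) = 0 := by
      refine h.kc.of (Sum.inl v) fun h2 => ?_
      have h3 : Sum.inl v ∈ (sp Zc (lf b) ∪ X.E).disjSum
          (Finset.univ : Finset (Fin A.g)) := h2.1
      rw [Finset.inl_mem_disjSum, Finset.mem_union, hspe] at h3
      exact h3.elim hv.1 hv.2
    have h2 : ph0 X W (FreeGroup.of (Sum.inl v)) = 1 := by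
      unfold ph0
      rw [FreeGroup.lift_apply_of]
      exact if_neg hv.2
    rw [hθx, h1, h2]
    rfl
  have hk2 : ∀ v, v ∉ W.Z → θ (FreeGroup.of (Sum.inl v)) = 1 := by
    intro v hv
    refine hk1 v fun h1 => ?_
    rw [Finset.mem_union] at h1
    exact h1.elim (fun h2 => hv (hspZ v h2)) fun h2 => hv (hE h2)
  -- the blocks
  have hwr : ∀ v, θ (wd FreeGroup.of (adx G B X W T Zc b).W ((adx G B X W T Zc b).bl v)) =
      wrd B (fun v => θ (FreeGroup.of (Sum.inl v))) (fun v => θ (W.Wv v))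
        (fun i => θ (FreeGroup.of (Sum.inr i))) (fun i => θ (W.Wi i)) v := by
    intro v
    rw [wd_map, wrd_wd G B X W T Zc (lf b)]
    refine wd_congr fun j _ => ?_
    rcases j with w | i
    · exact ⟨rfl, rfl⟩
    · exact ⟨rfl, rfl⟩
  have hph : ∀ v ∈ W.l, ph0 X W (wd FreeGroup.of (adx G B X W T Zc b).W
      ((adx G B X W T Zc b).bl v)) = 1 := by
    intro v hv
    have h1 : ph0 X W (wd FreeGroup.of (adx G B X W T Zc b).W ((adx G B X W T Zc b).bl v)) =
        wrd B (fun v => X.φ (W.L.t v)) (fun v => ph0 X W (W.Wv v)) (fun i => X.φ (A.a i))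
          (fun i => X.φ (B.b i)) v := by
      rw [wd_map, wrd_wd G B X W T Zc (lf b)]
      refine wd_congr fun j _ => ?_
      rcases j with w | i
      · rw [hhat]
        exact ⟨hat_inl _ _ _ _, rfl⟩
      · refine ⟨?_, hpi i⟩
        rw [hhat]
        exact hat_inr _ _ _ _
    rw [h1]
    unfold wrd
    by_cases h2 : v ∈ D.S0
    · rw [if_pos h2]
      exact hW.s0 v h2 P hPs X.φ hX.unz.1
    · rw [if_neg h2]
      show ⁅X.φ (W.L.t v), ph0 X W (W.Wv v)⁆ = 1
      rw [hpw v (((hW.lz v).1 hv).resolve_right h2), commutatorElement_eq_one_iff_mul_comm]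
      exact (hW.cm v h2 P hPs X.φ hX.unz.1).symm
  have hbl : ∀ v ∈ W.l, wrd B (fun v => θ (FreeGroup.of (Sum.inl v))) (fun v => θ (W.Wv v))
      (fun i => θ (FreeGroup.of (Sum.inr i))) (fun i => θ (W.Wi i)) v = 1 := by
    intro v hv
    have h1 : κ (wd FreeGroup.of (adx G B X W T Zc b).W ((adx G B X W T Zc b).bl v)) = 0 :=
      h.bl v hv
    rw [← hwr v, hθx, hph v hv, h1]
    rfl
  obtain ⟨Φ₀, hu, hh⟩ := hW.cr (Sd P (Du S q (n + 1 + 1))) hSs θ
    (fun v hv => hk2 v (hv.elim id fun h1 h2 => hW.zs v h2 h1))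
    (fun v hv h1 => by
      have h2 := hbl v ((hW.lz v).2 (Or.inl hv))
      unfold wrd at h2
      rw [if_neg h1] at h2
      exact h2)
    (fun v hv => by
      have h2 := hbl v ((hW.lz v).2 (Or.inr hv))
      unfold wrd at h2
      rw [if_pos hv] at h2
      exact h2)
  -- the range
  have hr1 : θ.range = Φ₀.range := by
    refine le_antisymm ?_ ?_
    · rintro _ ⟨x, rfl⟩
      rw [← hh]
      exact hat_mem W.L A Φ₀ x
    · rw [← fraU hp hζ W.L A W.Z Φ₀ hu (hpg.to_subgroup _), hh]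
      rintro _ ⟨x, -, rfl⟩
      exact ⟨x, rfl⟩
  have hr2 : Qs = θ.range := by
    rw [← bxb_rng θ, ← h.qp]
    unfold AD.Qp
    rw [h0]
    rfl
  have hmem : ∀ σ, Φ₀ σ ∈ Qs := by
    intro σ
    rw [hr2, hr1]
    exact ⟨σ, rfl⟩
  have hun : ∀ v, v ∉ sp Zc b ∪ X.E → Φ₀ (W.L.t v) = 1 := by
    intro v hv
    rw [← hat_inl W.L A Φ₀ v, hh]
    exact hk1 v hv
  have hst : Qs.subtype.comp (Φ₀.codRestrict Qs hmem) = Φ₀ := MonoidHom.ext fun _ => rfl
  have hht : ∀ x : FW A, ((hat W.L A (Φ₀.codRestrict Qs hmem) x : Qs) :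
      Sd P (Du S q (n + 1 + 1))) = hat W.L A Φ₀ x := by
    intro x
    conv_rhs => rw [← hst, hat_comp]
    rfl
  obtain ⟨hf1, hf2⟩ := hW.rel.2.2.1 (Sd P (Du S q (n + 1 + 1))) hSs Φ₀ hu
  refine ⟨Φ₀.codRestrict Qs hmem,
    { unz := ⟨?_, fun v _ hv => ?_⟩
      sur := ?_
      ht := fun x => ?_
      fr := fun v hv => ?_
      bi := fun i => ?_ }⟩
  · obtain ⟨E, hE1, hE2⟩ := hu.1
    refine ⟨E, hE1, fun σ hσ => ?_⟩
    have h1 := MonoidHom.mem_ker.1 (hE2 hσ)
    rw [MonoidHom.mem_ker]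
    exact Subtype.ext h1
  · exact Subtype.ext (hun v hv)
  · rintro ⟨z, hz⟩
    rw [hr2, hr1] at hz
    obtain ⟨σ, rfl⟩ := hz
    exact ⟨σ, rfl⟩
  · rw [hht, hh]
    exact hθx x
  · refine Subtype.ext ?_
    rw [hht]
    exact (hf1 v hv).symm
  · refine Subtype.ext ?_
    rw [hht]
    exact (hf2 i).symm

end H73.S3
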