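import Pool.Agent.H73.S3.Enr

/-!
# [H73 S3 REM] removal of a tuple of places (MP_b39724_nt, stage 3, chapter B)

`rem`: if every configuration `f` with `G f ≠ 0` has a tuple with the property `R f`, then the sum of `G` is the sum over the configurations `b`, the labels `l` and the tuples `v` of new
places of `G (up b v l) / #(tuples with R)` over the `v` with `R (up b v l) v`. Proof: `G f = ∑_(v ∈ Tp f, R f v) G f / Nl f`, and `(f, v) ↦ (f off v, v, labels of v)` is a bijection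
(inverse `(b, v, l) ↦ (up b v l, v)`; H1/BD/Bad: `sp_up`, `up_mem`).
-/

set_option autoImplicit false

open scoped Classical

noncomputable section

namespace H73.S3

open H35.CF

private theorem rem_mem_tp {V Λ : Type} {Z : Finset V} {W : V → Prop} {f : V → Option Λ} {m : ℕ}
    {v : Fin m → V} : v ∈ Tp Z W f m ↔ (∀ k, v k ∈ Z ∧ f (v k) ≠ none ∧ W (v k)) ∧ Function.Injective v := by
  unfold Tp
  rw [Finset.mem_filter, Fintype.mem_piFinset]
  constructor
  · rintro ⟨h1, h2⟩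
    refine ⟨fun k => ?_, h2⟩
    have h3 := Finset.mem_filter.1 (h1 k)
    have h4 := mem_sp.1 h3.1
    exact ⟨h4.1, h4.2, h3.2⟩
  · rintro ⟨h1, h2⟩
    refine ⟨fun k => Finset.mem_filter.2 ⟨mem_sp.2 ⟨(h1 k).1, (h1 k).2.1⟩, (h1 k).2.2⟩, h2⟩

private theorem rem_up {V Λ : Type} [Fintype Λ] (Z : Finset V) (W : V → Prop) {m : ℕ} (c : V → Option Λ)
    (q : Fin m → V) (l : Fin m → Λ) (hc : c ∈ Cf Z Λ) (hq : q ∈ H35.CF.Fr Z W c m) :
    up c q l ∈ Cf Z Λ := by
  rw [mem_cf] at hc ⊢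
  rw [mem_fr] at hq
  intro v hv
  rw [up_ne c q l v]
  · exact hc v hv
  · rintro k rfl
    exact hv (hq.1 k).1

private theorem rem_bij {V Λ : Type} [Fintype Λ] (Z : Finset V) (W : V → Prop) (m : ℕ)
    (φ : (V → Option Λ) → (Fin m → V) → ℂ) :
    ∑ f ∈ Cf Z Λ, ∑ v ∈ Tp Z W f m, φ f v = ∑ l : Fin m → Λ, ∑ b ∈ Cf Z Λ,
      ∑ v ∈ H35.CF.Fr Z W b m, φ (up b v l) v := by
  have h1 : ∑ l : Fin m → Λ, ∑ b ∈ Cf Z Λ, ∑ v ∈ H35.CF.Fr Z W b m, φ (up b v l) v =
      ∑ x ∈ (Finset.univ : Finset (Fin m → Λ)).sigma fun _ =>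
        (Cf Z Λ).sigma fun b => H35.CF.Fr Z W b m, φ (up x.2.1 x.2.2 x.1) x.2.2 := by
    rw [Finset.sum_sigma]
    refine Finset.sum_congr rfl fun l _ => ?_
    rw [Finset.sum_sigma]
  rw [h1, Finset.sum_sigma']
  symm
  refine Finset.sum_bij (fun x _ => ⟨up x.2.1 x.2.2 x.1, x.2.2⟩) ?_ ?_ ?_ ?_
  · rintro ⟨l, b, v⟩ hx
    rw [Finset.mem_sigma, Finset.mem_sigma] at hx
    have hb : b ∈ Cf Z Λ := hx.2.1
    have hv : v ∈ H35.CF.Fr Z W b m := hx.2.2
    rw [Finset.mem_sigma]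
    refine ⟨rem_up Z W b v l hb hv, ?_⟩
    have hv' := mem_fr.1 hv
    refine rem_mem_tp.2 ⟨fun k => ⟨(hv'.1 k).1, ?_, (hv'.1 k).2.1⟩, hv'.2⟩
    show up b v l (v k) ≠ none
    rw [up_of b v l hv'.2 k]
    exact Option.some_ne_none _
  · rintro ⟨l, b, v⟩ hx ⟨l', b', v'⟩ hx' he
    rw [Finset.mem_sigma, Finset.mem_sigma] at hx hx'
    have hv := mem_fr.1 (show v ∈ H35.CF.Fr Z W b m from hx.2.2)
    have hv1 := mem_fr.1 (show v' ∈ H35.CF.Fr Z W b' m from hx'.2.2)
    have he1 : up b v l = up b' v' l' := congrArg Sigma.fst he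
    have he2 : v = v' := eq_of_heq (Sigma.mk.inj he).2
    subst he2
    have hl : l = l' := by
      funext k
      have h2 := congrFun he1 (v k)
      rw [up_of b v l hv.2 k, up_of b' v l' hv.2 k] at h2
      exact Option.some.inj h2
    subst hl
    have hb : b = b' := by
      funext w
      by_cases hw : ∃ k, v k = w
      · obtain ⟨k, rfl⟩ := hw
        rw [(hv.1 k).2.2, (hv1.1 k).2.2]
      · have h2 := congrFun he1 w
        rw [up_ne b v l w fun k hk => hw ⟨k, hk⟩, up_ne b' v l w fun k hk => hw ⟨k, hk⟩] at h2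
        exact h2
    subst hb
    rfl
  · rintro ⟨f, v⟩ hx
    rw [Finset.mem_sigma] at hx
    have hf : f ∈ Cf Z Λ := hx.1
    have hv := rem_mem_tp.1 (show v ∈ Tp Z W f m from hx.2)
    have h2 : ∀ k, ∃ x, f (v k) = some x := fun k => Option.ne_none_iff_exists'.1 (hv.1 k).2.1
    choose l hl using h2
    refine ⟨⟨l, fun w => if ∃ k, v k = w then none else f w, v⟩, ?_, ?_⟩
    · rw [Finset.mem_sigma, Finset.mem_sigma]
      refine ⟨Finset.mem_univ _, ?_, ?_⟩
      · show (fun w => if ∃ k, v k = w then none else f w) ∈ Cf Z Λ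
        rw [mem_cf]
        intro w hw
        show (if ∃ k, v k = w then none else f w) = none
        split_ifs
        · rfl
        · exact mem_cf.1 hf w hw
      · show v ∈ H35.CF.Fr Z W (fun w => if ∃ k, v k = w then none else f w) m
        rw [mem_fr]
        refine ⟨fun k => ⟨(hv.1 k).1, (hv.1 k).2.2, ?_⟩, hv.2⟩
        exact if_pos ⟨k, rfl⟩
    · have h3 : up (fun w => if ∃ k, v k = w then none else f w) v l = f := by
        funext w
        by_cases hw : ∃ k, v k = w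
        · obtain ⟨k, rfl⟩ := hw
          rw [up_of _ v l hv.2 k, hl k]
        · rw [up_ne _ v l w fun k hk => hw ⟨k, hk⟩]
          exact if_neg hw
      show (⟨up (fun w => if ∃ k, v k = w then none else f w) v l, v⟩ :
        (_ : V → Option Λ) × (Fin m → V)) = ⟨f, v⟩
      rw [h3]
  · intro x _
    rfl

theorem rem {V Λ : Type} [Fintype Λ] (Z : Finset V) (W : V → Prop) (m : ℕ)
    (R : (V → Option Λ) → (Fin m → V) → Prop) (G : (V → Option Λ) → ℂ)
    (hG : ∀ f ∈ Cf Z Λ, G f ≠ 0 → ∃ v ∈ Tp Z W f m, R f v) :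
    ∑ f ∈ Cf Z Λ, G f = ∑ l : Fin m → Λ, ∑ b ∈ Cf Z Λ, ∑ v ∈ H35.CF.Fr Z W b m,
      if R (up b v l) v then G (up b v l) / (Nl Z W m R (up b v l) : ℂ) else 0 := by
  have h1 : ∀ f ∈ Cf Z Λ, G f = ∑ v ∈ Tp Z W f m,
      if R f v then G f / (Nl Z W m R f : ℂ) else 0 := by
    intro f hf
    by_cases h0 : G f = 0
    · rw [h0]
      symm
      refine Finset.sum_eq_zero fun v _ => ?_
      rw [zero_div, ite_self]
    · have h2 : (Nl Z W m R f : ℂ) ≠ 0 := by
        obtain ⟨v, hv, hr⟩ := hG f hf h0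
        have h3 : 0 < Nl Z W m R f := Finset.card_pos.2 ⟨v, Finset.mem_filter.2 ⟨hv, hr⟩⟩
        exact_mod_cast h3.ne'
      rw [← Finset.sum_filter, Finset.sum_const, nsmul_eq_mul]
      change G f = ((Nl Z W m R f : ℕ) : ℂ) * (G f / (Nl Z W m R f : ℂ))
      rw [mul_div_cancel₀ _ h2]
  rw [Finset.sum_congr rfl h1]
  exact rem_bij Z W m fun f v => if R f v then G f / (Nl Z W m R f : ℂ) else 0

end H73.S3
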