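import Pool.Agent.H73.S3.Enr

/-!
# [H73 S3 KER] the expansion in cells (MP_b39724_nt, stage 3, chapter B)

`AD.je`: functionals and cells together. `hh_mv`: `Hh m τ (mv u x) η = ep (pr η u) Hh m τ x η` for `u ∈ Cg m` (translation of `Cg m`; `pr η` is additive on `Cg m`: `gk_mul`).
`hh_jf`: `Hh` depends only on the values at the letters in `Jf` (`t j = 1` for the others, `gi`).
`cell`: `Hh m τ x η = ∑_(x₀) Hh m τ x₀ η * Kr (η, x₀) x`: only `x₀ j = rp (x j)` contributes; `x j = il (u j) * rp (x j)`, `u j ∈ gam_m` for `pp j`, `gam_(m+1)` otherwise.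
`Ff η` is used for nothing but may be assumed. `kf_le`: `‖Kf‖ ≤ 1`, `kr_le`: `‖Kr‖ ≤ 1`.
-/

set_option autoImplicit false

open scoped commutatorElement
open scoped Classical

noncomputable section

namespace H73.S3

open H1.S3 H63.MA

attribute [local instance 50] Fintype.ofFinite

variable {S P : Type} [Group S] [Group P] [MulDistribMulAction P S] {J V : Type} {q m : ℕ}

/-- functionals and cells together -/
def AD.je (X : AD S P J V) (η : X.Jf → Du S q m × Du S q (m + 1)) (x₀ : X.Jf → SP S P) (j : J) :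
    El S P q m := if h : j ∈ X.Jf then (η ⟨j, h⟩, x₀ ⟨j, h⟩) else ((0, 0), 1)

private theorem ker_epa {q : ℕ} [NeZero q] (a b : ZMod q) : ep q (a + b) = ep q a * ep q b := by
  rw [rayc_std, rayc_std, rayc_std, AddChar.map_add_eq_mul]

private theorem ker_eps {q : ℕ} [NeZero q] {ι : Type} (s : Finset ι) (f : ι → ZMod q) :
    ep q (∑ i ∈ s, f i) = ∏ i ∈ s, ep q (f i) := by
  induction s using Finset.induction_on with
  | empty => rw [Finset.sum_empty, Finset.prod_empty, ep_zero]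
  | insert a s ha ih => rw [Finset.sum_insert ha, Finset.prod_insert ha, ker_epa, ih]

private theorem ker_mv (X : AD S P J V) (w u : X.Jf → S) (x : J → SP S P) :
    X.mv w (X.mv u x) = X.mv (w * u) x := by
  funext j
  unfold AD.mv
  split_ifs with h
  · rw [← mul_assoc]
    congr 1
    exact (map_mul (SemidirectProduct.inl : S →* SP S P) _ _).symm
  · rfl

private theorem ker_cgm [Fintype S] (X : AD S P J V) {m : ℕ} {w u : X.Jf → S} (hw : w ∈ X.Cg m)
    (hu : u ∈ X.Cg m) : w * u ∈ X.Cg m := by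
  unfold AD.Cg at *
  rw [Finset.mem_filter] at *
  exact ⟨Finset.mem_univ _, fun j => mul_mem (hw.2 j) (hu.2 j)⟩

private theorem ker_cgi [Fintype S] (X : AD S P J V) {m : ℕ} {u : X.Jf → S} (hu : u ∈ X.Cg m) :
    u⁻¹ ∈ X.Cg m := by
  unfold AD.Cg at *
  rw [Finset.mem_filter] at *
  exact ⟨Finset.mem_univ _, fun j => inv_mem (hu.2 j)⟩

private theorem ker_mem [Fintype S] (X : AD S P J V) {m : ℕ} {u : X.Jf → S} (hu : u ∈ X.Cg m)
    (j : X.Jf) : u j ∈ gm S (if X.pp j then m else m + 1) := by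
  unfold AD.Cg at hu
  rw [Finset.mem_filter] at hu
  exact hu.2 j

private theorem ker_pr [Fintype S] (X : AD S P J V) (η : X.Jf → Du S q m × Du S q (m + 1))
    {w u : X.Jf → S} (hw : w ∈ X.Cg m) (hu : u ∈ X.Cg m) :
    X.pr η (w * u) = X.pr η w + X.pr η u := by
  unfold AD.pr
  rw [← Finset.sum_add_distrib]
  refine Finset.sum_congr rfl fun j _ => ?_
  have h1 := ker_mem X hw j
  have h2 := ker_mem X hu j
  show (if X.pp j then (η j).1.ap (gk m (w j * u j)) else (η j).2.ap (gk (m + 1) (w j * u j))) = _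
  by_cases hp : X.pp j
  · rw [if_pos hp] at h1 h2
    rw [if_pos hp, if_pos hp, if_pos hp, gk_mul h1 h2, map_add]
  · rw [if_neg hp] at h1 h2
    rw [if_neg hp, if_neg hp, if_neg hp, gk_mul h1 h2, map_add]

private theorem ker_rr (X : AD S P J V) {p k Mw q c : ℕ} {P' : Type} [Group P']
    {Pi : SP S P →* P'} (hX : X.Ok p k Mw q c Pi) (τ : V → S) (x x' : J → SP S P)
    (h : ∀ j ∈ X.Jf, x j = x' j) : X.RR τ x = X.RR τ x' := by
  unfold AD.RR
  congr 1
  refine List.map_congr_left fun v _ => ?_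
  have h1 : X.bk x v = X.bk x' v := by
    unfold AD.bk wd
    congr 1
    refine List.map_congr_left fun i _ => ?_
    by_cases hi : i ∈ X.Jf
    · rw [h i hi]
    · rw [hX.t1 i hi, commutatorElement_one_left, commutatorElement_one_left]
  rw [h1]

private theorem ker_rp (d : ℕ) (x : SP S P) :
    x = il (x * (rp d x)⁻¹).left * rp d x ∧ (x * (rp d x)⁻¹).left ∈ gm S d := by
  have h1 : x * (rp d x)⁻¹ ∈ (gm S d).map (SemidirectProduct.inl : S →* SP S P) := by
    have h2 := Quotient.mk_out (s := QuotientGroup.rightRel ((gm S d).map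
      (SemidirectProduct.inl : S →* SP S P))) x
    exact QuotientGroup.rightRel_apply.1 h2
  obtain ⟨v, hv, hv2⟩ := h1
  have h3 : (x * (rp d x)⁻¹).left = v := by
    rw [← hv2]
    rfl
  rw [h3]
  refine ⟨?_, hv⟩
  have h4 : (il v : SP S P) = x * (rp d x)⁻¹ := hv2
  rw [h4, inv_mul_cancel_right]

private theorem ker_je (X : AD S P J V) (η : X.Jf → Du S q m × Du S q (m + 1))
    (z : X.Jf → SP S P) (j : X.Jf) : X.je η z (j : J) = (η j, z j) := by
  unfold AD.je
  rw [dif_pos j.2]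

private theorem ker_kr (X : AD S P J V) (η : X.Jf → Du S q m × Du S q (m + 1))
    (z : X.Jf → SP S P) (x : J → SP S P) :
    X.Kr (X.je η z) x = ∏ j : X.Jf, if X.pp j then Kf m (η j).1 (z j) (x j)
      else Kf (m + 1) (η j).2 (z j) (x j) := by
  unfold AD.Kr
  rw [← Finset.prod_coe_sort]
  refine Finset.prod_congr rfl fun j _ => ?_
  rw [ker_je]

theorem kf_le (d : ℕ) (χ : Du S q d) (x₀ x : SP S P) : ‖Kf d χ x₀ x‖ ≤ 1 := by
  unfold Kf
  split_ifs
  · rw [ep_norm]
  · rw [norm_zero]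
    exact zero_le_one

theorem kr_le (X : AD S P J V) (e : J → El S P q m) (x : J → SP S P) : ‖X.Kr e x‖ ≤ 1 := by
  unfold AD.Kr
  rw [norm_prod]
  refine Finset.prod_le_one (fun j _ => norm_nonneg _) fun j _ => ?_
  split_ifs
  · exact kf_le _ _ _ _
  · exact kf_le _ _ _ _

theorem hh_mv [Fintype S] [NeZero q] (X : AD S P J V) (hm : 1 ≤ m) (τ : V → S) (x : J → SP S P)
    (η : X.Jf → Du S q m × Du S q (m + 1)) (u : X.Jf → S) (hu : u ∈ X.Cg m) :
    X.Hh m τ (X.mv u x) η = ep q (X.pr η u) * X.Hh m τ x η := by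
  unfold AD.Hh
  rw [← mul_div_assoc]
  congr 1
  rw [Finset.mul_sum]
  refine Finset.sum_bij' (fun w _ => w * u) (fun w _ => w * u⁻¹) ?_ ?_ ?_ ?_ ?_
  · intro w hw
    exact ker_cgm X hw hu
  · intro w hw
    exact ker_cgm X hw (ker_cgi X hu)
  · intro w _
    exact mul_inv_cancel_right w u
  · intro w _
    exact inv_mul_cancel_right w u
  · intro w hw
    have h1 : ep q (X.pr η u) * ep q (-X.pr η u) = 1 := by
      rw [← ker_epa, add_neg_cancel, ep_zero]
    rw [ker_mv, ker_pr X η hw hu, neg_add, ker_epa]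
    linear_combination (-(X.H (m + 1) τ (X.mv (w * u) x) * ep q (-X.pr η w))) * h1

theorem hh_jf [Fintype S] (X : AD S P J V) {p k Mw c : ℕ} {P' : Type} [Group P']
    {Pi : SP S P →* P'} (hX : X.Ok p k Mw q c Pi) (τ : V → S) (x x' : J → SP S P)
    (h : ∀ j ∈ X.Jf, x j = x' j) (η : X.Jf → Du S q m × Du S q (m + 1)) :
    X.Hh m τ x η = X.Hh m τ x' η := by
  have hH : ∀ u : X.Jf → S, X.H (m + 1) τ (X.mv u x) = X.H (m + 1) τ (X.mv u x') := by
    intro u
    have key : ∀ w : X.Jf → S, (X.G (X.mv w (X.mv u x)) ∧ X.RR τ (X.mv w (X.mv u x)) = 1) ↔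
        (X.G (X.mv w (X.mv u x')) ∧ X.RR τ (X.mv w (X.mv u x')) = 1) := by
      intro w
      have h2 : ∀ j ∈ X.Jf, X.mv w (X.mv u x) j = X.mv w (X.mv u x') j := by
        intro j hj
        rw [ker_mv, ker_mv]
        unfold AD.mv
        rw [dif_pos hj, dif_pos hj, h j hj]
      rw [ker_rr X hX τ _ _ h2]
      constructor
      · rintro ⟨g, r⟩
        exact ⟨hX.gi _ _ (fun j hj => by rw [h2 j hj]) g, r⟩
      · rintro ⟨g, r⟩
        exact ⟨hX.gi _ _ (fun j hj => by rw [h2 j hj]) g, r⟩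
    unfold AD.H
    simp only [key]
  unfold AD.Hh
  simp only [hH]

theorem cell [Fintype S] [Finite P] [NeZero q] (X : AD S P J V) {p k Mw c : ℕ} {P' : Type}
    [Group P'] {Pi : SP S P →* P'} (hX : X.Ok p k Mw q c Pi) (hm : 1 ≤ m) (τ : V → S)
    (x : J → SP S P) (η : X.Jf → Du S q m × Du S q (m + 1)) :
    X.Hh m τ x η = ∑ x₀ : X.Jf → SP S P, X.Hh m τ (X.xj x₀) η * X.Kr (X.je η x₀) x := by
  obtain ⟨x₀, hx₀⟩ : ∃ x₀ : X.Jf → SP S P, ∀ j : X.Jf,
      x₀ j = rp (if X.pp j then m else m + 1) (x j) := ⟨_, fun _ => rfl⟩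
  obtain ⟨u, hu⟩ : ∃ u : X.Jf → S, ∀ j : X.Jf, u j = (x j * (x₀ j)⁻¹).left := ⟨_, fun _ => rfl⟩
  have hx : ∀ j : X.Jf, x j = il (u j) * x₀ j ∧ u j ∈ gm S (if X.pp j then m else m + 1) := by
    intro j
    rw [hu, hx₀]
    exact ker_rp _ _
  have huC : u ∈ X.Cg m := by
    unfold AD.Cg
    rw [Finset.mem_filter]
    exact ⟨Finset.mem_univ _, fun j => (hx j).2⟩
  have hKr : ∀ z : X.Jf → SP S P, z ≠ x₀ → X.Kr (X.je η z) x = 0 := by
    intro z hz
    obtain ⟨j, hj⟩ := Function.ne_iff.1 hz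
    rw [ker_kr]
    refine Finset.prod_eq_zero (Finset.mem_univ j) ?_
    rw [hx₀] at hj
    by_cases hp : X.pp j
    · rw [if_pos hp] at hj ⊢
      unfold Kf
      exact if_neg fun h => hj h.symm
    · rw [if_neg hp] at hj ⊢
      unfold Kf
      exact if_neg fun h => hj h.symm
  have h1 : X.Kr (X.je η x₀) x = ep q (X.pr η u) := by
    rw [ker_kr]
    unfold AD.pr
    rw [ker_eps]
    refine Finset.prod_congr rfl fun j _ => ?_
    have h2 := hx₀ j
    by_cases hp : X.pp j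
    · rw [if_pos hp] at h2
      rw [if_pos hp, if_pos hp, hu]
      unfold Kf
      rw [if_pos h2.symm]
    · rw [if_neg hp] at h2
      rw [if_neg hp, if_neg hp, hu]
      unfold Kf
      rw [if_pos h2.symm]
  have h2 : X.Hh m τ x η = X.Hh m τ (X.mv u (X.xj x₀)) η := by
    refine hh_jf X hX τ x _ (fun j hj => ?_) η
    unfold AD.mv AD.xj
    rw [dif_pos hj, dif_pos hj]
    exact (hx ⟨j, hj⟩).1
  rw [Finset.sum_eq_single x₀ (fun z _ hz => by rw [hKr z hz, mul_zero])
    (fun h => absurd (Finset.mem_univ _) h), h2, hh_mv X hm τ _ η u huC, h1, mul_comm]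

end H73.S3
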