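import Pool.Agent.H73.S3.Fou
import Pool.Agent.H1.S3.Nin

/-!
# [H73 S3 SUR] the survivors (MP_b39724_nt, stage 3, chapter B)

`rr_ch`: the change of the relation: for `u ∈ Cg m` and values `x` with the right parts in `P`, `RR τ (mv u x) = il r`, `RR τ x = il r'`, `r * r'⁻¹ ∈ gam_(m+1)` and
`lam (gk (m+1) (r * r'⁻¹)) = - pr η_lam u` for the survivor `η_lam` of `lam`.
Proof: off the places of `Jf` nothing changes (`t j = 1`). `pp j`: `[y, u x] = [y, u] · u [y, x] u⁻¹`, `[u, [y, x]] ∈ gam_(m+2)`. Other places: for a block `wd t x l` with values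
`A i = t i`, `D i = x i`: `[A, u D] = (A u A⁻¹) [A, D] u⁻¹ [A, D]⁻¹ [A, D]`: the change is `∑ p A u - p [A, D] u` (`p` the product before), and
`zeta (d lam) i = (p [A, D])⁻¹ lam - (p A)⁻¹ lam`, so `lam (change) = - ∑ zeta_i (u_i)`. Conjugation by `S` is trivial on `Gr`, the blocks are in `il S` (`hb`).
`Chg n b' b a`: `b' = il w * b`, `w ∈ gam_n`, `a` the class of `w`.
`sur`: if `RR τ x = 1` then `∑_(η ∈ Ff, Sv) Hh m τ x η = H m τ x`. Proof: `Hh m τ x η_lam = Hh m τ x 0`: if `H (m+1) τ (mv u x) ≠ 0` then `RR τ (mv u x) ∈ il gam_(m+2)` (`rr_ch` for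
`m + 1`: the changes in `Cg (m+1)` change `RR` by `gam_(m+2)`), so `pr η_lam u = 0` by `rr_ch`. `lam ↦ η_lam` is injective: if `lam ∘ br (y j) = 0` for all `pp j` then
`lam = 0` (`gen`: `{s : lam (gk [s, u]) = 0 for all u ∈ gam_m}` is a subgroup which contains the commutators). So the sum is `|Du S q (m+1)| Hh m τ x 0 = H m τ x` (`du_card`,
`|gam_(m+1)| = |Gr (m+1)| |gam_(m+2)|`, and `∑_(u ∈ Cg m) #{w ∈ Cg (m+1) : A (w u)} = |Cg (m+1)| #{w ∈ Cg m : A w}`).
-/

set_option autoImplicit false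

open scoped commutatorElement
open scoped Classical

noncomputable section

namespace H73.S3

open H1.S3

attribute [local instance 50] Fintype.ofFinite

variable {S P : Type} [Group S] [Group P] [MulDistribMulAction P S] {J V : Type}

theorem gm_two (m : ℕ) (hm : 1 ≤ m) {a b : S} (ha : a ∈ gm S m) (hb : b ∈ gm S 2) :
    ⁅a, b⁆ ∈ gm S (m + 2) := by
  obtain ⟨k, rfl⟩ : ∃ k, m = k + 1 := ⟨m - 1, by omega⟩
  have h1 := Nin.lcs_comm_nd (S := S) k ((⊤ : Subgroup S).lowerCentralSeries 1)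
  have h2 : ∀ j, Nin.Nd ((⊤ : Subgroup S).lowerCentralSeries 1) j =
      (⊤ : Subgroup S).lowerCentralSeries (j + 1) := by
    intro j
    induction j with
    | zero => rfl
    | succ j ih => rw [Nin.nd_succ, ih]; rfl
  rw [h2] at h1
  exact h1 (Subgroup.commutator_mem_commutator ha hb)

section chg

theorem il_mul (u v : S) : (il (u * v) : SP S P) = il u * il v := map_mul _ _ _

theorem il_inv (u : S) : (il u⁻¹ : SP S P) = (il u)⁻¹ := map_inv _ _

theorem il_one : (il 1 : SP S P) = 1 := map_one _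

theorem il_inj {u v : S} (h : (il u : SP S P) = il v) : u = v := SemidirectProduct.inl_injective h

/-- conjugation on `il S` -/
theorem il_conj (b : SP S P) (w : S) :
    b * il w * b⁻¹ = il (b.left * (b.right • w) * b.left⁻¹) := by
  refine SemidirectProduct.ext ?_ ?_
  · unfold il
    simp only [SemidirectProduct.mul_left, SemidirectProduct.left_inl, SemidirectProduct.right_inl,
      SemidirectProduct.mul_right, mul_one, SemidirectProduct.inv_left, MulDistribMulAction.toMulAut_apply, MulDistribMulAction.toMulEquiv_apply]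
    rw [smul_inv_smul]
  · unfold il
    simp only [SemidirectProduct.mul_right, SemidirectProduct.right_inl, mul_one,
      SemidirectProduct.inv_right, mul_inv_cancel]

/-- `b' = il w * b`, `w ∈ gam_n`, `a` the class of `w` -/
def Chg (n : ℕ) (b' b : SP S P) (a : Gr S n) : Prop :=
  ∃ w ∈ gm S n, b' = il w * b ∧ gk n w = a

variable {n : ℕ}

theorem chg_refl (b : SP S P) : Chg n b b 0 :=
  ⟨1, one_mem _, by rw [il_one, one_mul], gk_one n⟩

theorem chg_mul {b' b c' c : SP S P} {a a' : Gr S n} (h : Chg n b' b a) (h' : Chg n c' c a') :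
    Chg n (b' * c') (b * c) (a + b.right • a') := by
  obtain ⟨w, hw, rfl, rfl⟩ := h
  obtain ⟨w', hw', rfl, rfl⟩ := h'
  have h1 : b.right • w' ∈ gm S n := gm_smul _ hw'
  have h2 : b.left * (b.right • w') * b.left⁻¹ ∈ gm S n := (gm_normal n).conj_mem _ h1 _
  refine ⟨w * (b.left * (b.right • w') * b.left⁻¹), mul_mem hw h2, ?_, ?_⟩
  · rw [il_mul, ← il_conj]
    group
  · rw [gk_mul hw h2, gk_conj h1, smul_gk _ hw']

theorem chg_cj {b' b : SP S P} {a : Gr S n} (h : Chg n b' b a) (τ : S) :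
    Chg n (cj τ b') (cj τ b) a := by
  obtain ⟨w, hw, rfl, rfl⟩ := h
  refine ⟨τ * w * τ⁻¹, (gm_normal n).conj_mem _ hw _, ?_, gk_conj hw τ⟩
  unfold cj
  rw [il_mul, il_mul, il_inv]
  group

theorem chg_comm (A D : SP S P) {u : S} (hu : u ∈ gm S n) :
    Chg n ⁅A, il u * D⁆ ⁅A, D⁆ (A.right • gk n u - ⁅A, D⁆.right • gk n u) := by
  have h1 : A.left * (A.right • u) * A.left⁻¹ ∈ gm S n := (gm_normal n).conj_mem _ (gm_smul _ hu) _
  have h2 : ⁅A, D⁆.left * (⁅A, D⁆.right • u⁻¹) * ⁅A, D⁆.left⁻¹ ∈ gm S n :=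
    (gm_normal n).conj_mem _ (gm_smul _ (inv_mem hu)) _
  refine ⟨_, mul_mem h1 h2, ?_, ?_⟩
  · rw [il_mul, ← il_conj, ← il_conj, il_inv, commutatorElement_def, commutatorElement_def]
    group
  · rw [gk_mul h1 h2, gk_conj (gm_smul _ hu), gk_conj (gm_smul _ (inv_mem hu)), ← smul_gk _ hu,
      ← smul_gk _ (inv_mem hu), gk_inv hu, smul_neg, sub_eq_add_neg]

theorem chg_pp (m : ℕ) (hm : 1 ≤ m) (y s : S) {u : S} (hu : u ∈ gm S m) :
    Chg (m + 1) ⁅(il y : SP S P), (il u * il s : SP S P)⁆ ⁅(il y : SP S P), (il s : SP S P)⁆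
      (br m y (gk m u)) := by
  have h1 : ⁅y, u⁆ ∈ gm S (m + 1) := gm_comm' m hu
  have h2 : ⁅u, ⁅y, s⁆⁆ ∈ gm S (m + 2) := gm_two m hm hu (gm_comm 1 (by
    rw [gm_one]
    exact Subgroup.mem_top y))
  have h3 := gm_anti (m + 1) h2
  refine ⟨⁅y, u⁆ * ⁅u, ⁅y, s⁆⁆, mul_mem h1 h3, ?_, ?_⟩
  · simp only [commutatorElement_def, ← il_mul, ← il_inv]
    congr 1
    group
  · rw [gk_mul h1 h3, (gk_zero h3).2 h2, add_zero, br_gk y hu]

/-- products of elements with trivial part in `P` -/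
theorem chg_prod (l : List V) (b' b : V → SP S P) (a : V → Gr S n)
    (h : ∀ v ∈ l, Chg n (b' v) (b v) (a v)) (hb : ∀ v ∈ l, (b v).right = 1) :
    Chg n (l.map b').prod (l.map b).prod (l.map a).sum := by
  induction l with
  | nil =>
    rw [List.map_nil, List.map_nil, List.map_nil, List.prod_nil, List.sum_nil]
    exact chg_refl 1
  | cons v l ih =>
    rw [List.map_cons, List.map_cons, List.map_cons, List.prod_cons, List.prod_cons, List.sum_cons]
    have h1 := chg_mul (h v List.mem_cons_self)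
      (ih (fun w hw => h w (List.mem_cons_of_mem _ hw)) fun w hw => hb w (List.mem_cons_of_mem _ hw))
    rwa [hb v List.mem_cons_self, one_smul] at h1

end chg

variable (X : AD S P J V)

/-- the right part of a block -/
theorem bk_rt (x : J → SP S P) (hx : ∀ j, X.t j = 1 ∨ (x j).right = X.ph (X.W j)) (l : List J) :
    (wd X.t x l).right = X.ph (wd FreeGroup.of X.W l) := by
  induction l with
  | nil =>
    unfold wd
    rw [List.map_nil, List.map_nil, List.prod_nil, List.prod_nil, map_one, SemidirectProduct.one_right]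
  | cons i l ih =>
    unfold wd at ih ⊢
    rw [List.map_cons, List.map_cons, List.prod_cons, List.prod_cons, map_mul,
      SemidirectProduct.mul_right, ih]
    congr 1
    have h1 : X.ph (FreeGroup.of i) = (X.t i).right := by
      unfold AD.ph
      rw [FreeGroup.lift_apply_of]
    rw [map_commutatorElement, h1]
    rcases hx i with h | h
    · rw [h, commutatorElement_one_left, SemidirectProduct.one_right, commutatorElement_one_left]
    · simp only [commutatorElement_def, SemidirectProduct.mul_right, SemidirectProduct.inv_right, h]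

/-- the sum over the blocks is the sum over the letters -/
theorem sum_bl {R : Type} [AddCommMonoid R] (hnd : X.l.Nodup) (hbn : ∀ v ∈ X.l, (X.bl v).Nodup)
    (hbp : ∀ v, ∀ j ∈ X.bl v, X.pj j = v) (hjl : ∀ j ∈ X.Jf, X.pj j ∈ X.l ∧ j ∈ X.bl (X.pj j))
    (f : J → R) (hf : ∀ j, j ∉ X.Jf → f j = 0) :
    (X.l.map fun v => ((X.bl v).map f).sum).sum = ∑ j : X.Jf, f j := by
  have h1 : (X.l.map fun v => ((X.bl v).map f).sum).sum = ((X.l.flatMap X.bl).map f).sum := by
    generalize X.l = l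
    induction l with
    | nil => rfl
    | cons v l ih =>
      rw [List.map_cons, List.sum_cons, ih, List.flatMap_cons, List.map_append, List.sum_append]
  have h2 : (X.l.flatMap X.bl).Nodup := by
    rw [List.nodup_flatMap]
    refine ⟨hbn, hnd.imp fun {v w} hvw => ?_⟩
    intro j hj hj'
    exact hvw ((hbp v j hj).symm.trans (hbp w j hj'))
  rw [h1, ← List.sum_toFinset f h2, Finset.sum_coe_sort X.Jf f]
  refine (Finset.sum_subset (fun j hj => ?_) fun j _ hj => hf j hj).symm
  rw [List.mem_toFinset, List.mem_flatMap]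
  exact ⟨X.pj j, (hjl j hj).1, (hjl j hj).2⟩

theorem ph_of (j : J) : X.ph (FreeGroup.of j) = (X.t j).right := by
  unfold AD.ph
  rw [FreeGroup.lift_apply_of]

/-- `zeta` of the coboundary of `lam` -/
theorem zeta_dl {q m : ℕ} (lam : Du S q (m + 1)) (l1 l2 : List J) (i : J)
    (h : (l1 ++ i :: l2).Nodup) (a : Gr S (m + 1)) :
    (zeta (fun x => X.ph x • lam - lam) FreeGroup.of X.W (l1 ++ i :: l2) i).ap a =
      lam.ap (X.ph (wd FreeGroup.of X.W l1 * ⁅FreeGroup.of i, X.W i⁆) • a) -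
        lam.ap (X.ph (wd FreeGroup.of X.W l1 * FreeGroup.of i) • a) := by
  unfold zeta
  rw [pre_append l1 l2 i h, ap_sub, ap_sub, ap_sub, ap_smul, ap_smul, map_inv, map_inv, inv_inv,
    inv_inv]
  abel

/-- a block without letters `pp` -/
theorem blk_chg [Fintype S] {q m : ℕ} (u : X.Jf → S) (hu : u ∈ X.Cg m) (x : J → SP S P)
    (hx : ∀ j ∈ X.Jf, (x j).right = X.ph (X.W j)) (ht : ∀ j, j ∉ X.Jf → X.t j = 1) {L : List J}
    (hL : L.Nodup) (l2 : List J) : ∀ l1 : List J, L = l1 ++ l2 → (∀ i ∈ l2, i ∈ X.Jf → ¬X.pp i) →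
      ∃ a, Chg (m + 1) (wd X.t (X.mv u x) l2) (wd X.t x l2) a ∧ ∀ lam : Du S q (m + 1),
        lam.ap (X.ph (wd FreeGroup.of X.W l1) • a) = -(l2.map fun i => if h : i ∈ X.Jf then
          (zeta (fun x => X.ph x • lam - lam) FreeGroup.of X.W L i).ap (gk (m + 1) (u ⟨i, h⟩))
            else 0).sum := by
  induction l2 with
  | nil =>
    intro l1 _ _
    refine ⟨0, chg_refl _, fun lam => ?_⟩
    rw [smul_zero, map_zero, List.map_nil, List.sum_nil, neg_zero]
  | cons i l2 ih =>
    intro l1 hl hpp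
    have hl' : L = (l1 ++ [i]) ++ l2 := by rw [hl, List.append_assoc]; rfl
    obtain ⟨a', ha', hlam'⟩ := ih (l1 ++ [i]) hl' fun j hj => hpp j (List.mem_cons_of_mem _ hj)
    have hw : ∀ y : J → SP S P, wd X.t y (i :: l2) = ⁅X.t i, y i⁆ * wd X.t y l2 := fun y => by
      unfold wd
      rw [List.map_cons, List.prod_cons]
    have hp1 : wd FreeGroup.of X.W (l1 ++ [i]) =
        wd FreeGroup.of X.W l1 * ⁅FreeGroup.of i, X.W i⁆ := by
      rw [wd_append, wd_single]
    by_cases hi : i ∈ X.Jf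
    · have hui : u ⟨i, hi⟩ ∈ gm S (m + 1) := by
        have h1 := (Finset.mem_filter.1 hu).2 ⟨i, hi⟩
        rwa [if_neg (hpp i List.mem_cons_self hi)] at h1
      have hC : ⁅X.t i, x i⁆.right = X.ph ⁅FreeGroup.of i, X.W i⁆ := by
        rw [map_commutatorElement, ph_of]
        simp only [commutatorElement_def, SemidirectProduct.mul_right, SemidirectProduct.inv_right,
          hx i hi]
      have h1 := chg_mul (chg_comm (X.t i) (x i) hui) ha'
      refine ⟨(X.t i).right • gk (m + 1) (u ⟨i, hi⟩) -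
        ⁅X.t i, x i⁆.right • gk (m + 1) (u ⟨i, hi⟩) + ⁅X.t i, x i⁆.right • a', ?_, fun lam => ?_⟩
      · rw [hw, hw]
        have h2 : X.mv u x i = il (u ⟨i, hi⟩) * x i := dif_pos hi
        rw [h2]
        exact h1
      · have h3 := hlam' lam
        rw [hp1, map_mul, mul_smul] at h3
        rw [smul_add, map_add, hC, h3, smul_sub, map_sub, List.map_cons, List.sum_cons, dif_pos hi]
        have h4 := zeta_dl X lam l1 l2 i (hl ▸ hL) (gk (m + 1) (u ⟨i, hi⟩))
        rw [← hl] at h4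
        rw [h4, map_mul, map_mul, mul_smul, mul_smul, ph_of]
        abel
    · have hti := ht i hi
      refine ⟨a', ?_, fun lam => ?_⟩
      · have h1 := chg_mul (chg_refl (n := m + 1) ⁅X.t i, x i⁆) ha'
        have h2 : X.mv u x i = x i := dif_neg hi
        rw [hw, hw, h2]
        rw [hti, commutatorElement_one_left] at h1 ⊢
        rwa [SemidirectProduct.one_right, one_smul, zero_add] at h1
      · have h3 := hlam' lam
        have h4 : X.ph ⁅FreeGroup.of i, X.W i⁆ = 1 := by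
          rw [map_commutatorElement, ph_of, hti, SemidirectProduct.one_right,
            commutatorElement_one_left]
        rw [hp1, map_mul, h4, mul_one] at h3
        rw [h3, List.map_cons, List.sum_cons, dif_neg hi, zero_add]

/-- the value at a letter -/
def prf {q m : ℕ} (η : X.Jf → Du S q m × Du S q (m + 1)) (u : X.Jf → S) (i : J) : ZMod q :=
  if h : i ∈ X.Jf then (if X.pp i then (η ⟨i, h⟩).1.ap (gk m (u ⟨i, h⟩)) else
    (η ⟨i, h⟩).2.ap (gk (m + 1) (u ⟨i, h⟩))) else 0

theorem rr_ch [Fintype S] (X : AD S P J V) {p k Mw q c : ℕ} [NeZero q] {P' : Type} [Group P']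
    {Pi : SP S P →* P'} (hX : X.Ok p k Mw q c Pi) (m : ℕ) (hm : 1 ≤ m) (τ : V → S)
    (x : J → SP S P) (hx : ∀ j ∈ X.Jf, (x j).right = X.ph (X.W j)) (u : X.Jf → S) (hu : u ∈ X.Cg m) :
    ∃ r r' : S, X.RR τ (X.mv u x) = il r ∧ X.RR τ x = il r' ∧ r * r'⁻¹ ∈ gm S (m + 1) ∧
      ∀ (lam : Du S q (m + 1)) (η : X.Jf → Du S q m × Du S q (m + 1)),
        (∀ j : X.Jf, X.pp j → ∀ z, (η j).1.ap z = -lam.ap (br m (X.y j) z)) →
        X.Kx η (fun x => X.ph x • lam - lam) → lam.ap (gk (m + 1) (r * r'⁻¹)) = -X.pr η u := by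
  have hxa : ∀ j, X.t j = 1 ∨ (x j).right = X.ph (X.W j) := fun j => by
    by_cases hj : j ∈ X.Jf
    · exact Or.inr (hx j hj)
    · exact Or.inl (hX.t1 j hj)
  have hbl : ∀ v ∈ X.l, ∃ a, Chg (m + 1) (X.bk (X.mv u x) v) (X.bk x v) a ∧
      ∀ (lam : Du S q (m + 1)) (η : X.Jf → Du S q m × Du S q (m + 1)),
        (∀ j : X.Jf, X.pp j → ∀ z, (η j).1.ap z = -lam.ap (br m (X.y j) z)) →
        X.Kx η (fun x => X.ph x • lam - lam) → lam.ap a = -((X.bl v).map (prf X η u)).sum := by
    intro v hv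
    by_cases hp : ∃ j ∈ X.bl v, j ∈ X.Jf ∧ X.pp j
    · obtain ⟨j, hjv, hj, hpj⟩ := hp
      have hb := hX.pb j hj hpj
      rw [hX.bp v j hjv] at hb
      have huj : u ⟨j, hj⟩ ∈ gm S m := by
        have h1 := (Finset.mem_filter.1 hu).2 ⟨j, hj⟩
        rwa [if_pos hpj] at h1
      have hxj : x j = il (x j).left := by
        refine SemidirectProduct.ext rfl ?_
        rw [hx j hj, hX.pw j hj hpj]
        rfl
      have h1 := chg_pp (P := P) m hm (X.y j) (x j).left huj
      rw [← hxj, ← hX.pt j hj hpj] at h1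
      refine ⟨br m (X.y j) (gk m (u ⟨j, hj⟩)), ?_, fun lam η hη _ => ?_⟩
      · have h2 : X.mv u x j = il (u ⟨j, hj⟩) * x j := dif_pos hj
        have h3 : ∀ y : J → SP S P, X.bk y v = ⁅X.t j, y j⁆ := fun y => by
          unfold AD.bk
          rw [hb, wd_single]
        rw [h3, h3, h2]
        exact h1
      · rw [hb, List.map_cons, List.map_nil, List.sum_cons, List.sum_nil, add_zero]
        unfold prf
        rw [dif_pos hj, if_pos hpj, hη ⟨j, hj⟩ hpj, neg_neg]
    · have hp' : ∀ i ∈ X.bl v, i ∈ X.Jf → ¬X.pp i := fun i hi hi' hi'' => hp ⟨i, hi, hi', hi''⟩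
      obtain ⟨a, ha, hlam⟩ := blk_chg (q := q) X u hu x hx hX.t1 (hX.bn v hv) (X.bl v) [] rfl hp'
      refine ⟨a, ha, fun lam η _ hK => ?_⟩
      have h1 := hlam lam
      have h2 : wd FreeGroup.of X.W ([] : List J) = 1 := by
        unfold wd
        rw [List.map_nil, List.prod_nil]
      rw [h2, map_one, one_smul] at h1
      rw [h1]
      congr 2
      refine List.map_congr_left fun i hi => ?_
      unfold prf
      by_cases hi' : i ∈ X.Jf
      · rw [dif_pos hi', dif_pos hi', if_neg (hp' i hi hi')]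
        have h3 := hK.ze ⟨i, hi'⟩ (hp' i hi hi')
        rw [← h3]
        have h4 : X.pj i = v := hX.bp v i hi
        simp only [h4]
      · rw [dif_neg hi', dif_neg hi']
  choose! a ha hlam using hbl
  have hcj : ∀ (s : S) (b : SP S P), (cj s b).right = b.right := fun s b => by
    unfold cj il
    simp only [SemidirectProduct.mul_right, SemidirectProduct.inv_right, SemidirectProduct.right_inl,
      one_mul, inv_one, mul_one]
  have hbr : ∀ v ∈ X.l, (cj (τ v) (X.bk x v)).right = 1 := fun v hv => by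
    rw [hcj, AD.bk, bk_rt X x hxa, hX.hb v hv]
  have hch := chg_prod X.l (fun v => cj (τ v) (X.bk (X.mv u x) v)) (fun v => cj (τ v) (X.bk x v)) a
    (fun v hv => chg_cj (ha v hv) (τ v)) hbr
  obtain ⟨w, hw, h1, h2⟩ := hch
  have hRr : (X.RR τ x).right = 1 := by
    have h3 : (X.RR τ x).right = (X.l.map fun v => (cj (τ v) (X.bk x v)).right).prod := by
      unfold AD.RR
      have h4 := map_list_prod (SemidirectProduct.rightHom (φ := MulDistribMulAction.toMulAut P S))
        (X.l.map fun v => cj (τ v) (X.bk x v))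
      rw [List.map_map] at h4
      exact h4
    rw [h3]
    apply List.prod_eq_one
    intro y hy
    obtain ⟨v, hv, rfl⟩ := List.mem_map.1 hy
    exact hbr v hv
  have hRl : X.RR τ x = il (X.RR τ x).left := SemidirectProduct.ext rfl hRr
  refine ⟨w * (X.RR τ x).left, (X.RR τ x).left, ?_, hRl, ?_, fun lam η hη hK => ?_⟩
  · rw [il_mul, ← hRl]
    exact h1
  · rwa [mul_inv_cancel_right]
  · rw [mul_inv_cancel_right, h2]
    have h3 : lam.ap (X.l.map a).sum = (X.l.map fun v => lam.ap (a v)).sum := by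
      rw [map_list_sum, List.map_map]
      rfl
    rw [h3, List.map_congr_left (g := fun v => -((X.bl v).map (prf X η u)).sum) fun v hv =>
      hlam v hv lam η hη hK]
    have h4 : (X.l.map fun v => -((X.bl v).map (prf X η u)).sum).sum =
        -(X.l.map fun v => ((X.bl v).map (prf X η u)).sum).sum := by
      generalize X.l = l
      induction l with
      | nil => rw [List.map_nil, List.map_nil, List.sum_nil, neg_zero]
      | cons v l ih => rw [List.map_cons, List.map_cons, List.sum_cons, List.sum_cons, ih, neg_add]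
    rw [h4, sum_bl X hX.nd hX.bn hX.bp hX.jl (prf X η u) fun j hj => dif_neg hj]
    congr 1
    refine Finset.sum_congr rfl fun j _ => ?_
    unfold prf
    rw [dif_pos j.2]

section inj

variable {q m : ℕ}

omit [MulDistribMulAction P S] [Group P] in
theorem br_mull (s s' : S) (z : Gr S m) : br m (s * s') z = br m s z + br m s' z := by
  obtain ⟨u, hu, rfl⟩ := gk_surj m z
  have h1 : ⁅s * s', u⁆ = s * ⁅s', u⁆ * s⁻¹ * ⁅s, u⁆ := by
    simp only [commutatorElement_def]
    group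
  rw [br_gk _ hu, br_gk _ hu, br_gk _ hu, h1,
    gk_mul ((gm_normal (m + 1)).conj_mem _ (gm_comm' m hu) s) (gm_comm' m hu),
    gk_conj (gm_comm' m hu)]
  exact add_comm _ _

omit [MulDistribMulAction P S] [Group P] in
theorem br_onel (z : Gr S m) : br m (1 : S) z = 0 := by
  obtain ⟨u, hu, rfl⟩ := gk_surj m z
  rw [br_gk _ hu, commutatorElement_one_left, gk_one]

omit [MulDistribMulAction P S] [Group P] in
/-- the functionals are determined by the brackets with generators -/
theorem sep_br (hm : 1 ≤ m) {T : Set S} (hT : Subgroup.closure T ⊔ commutator S = ⊤)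
    (μ : Du S q (m + 1)) (h : ∀ s ∈ T, ∀ z, μ.ap (br m s z) = 0) : μ = 0 := by
  let H : Subgroup S :=
    { carrier := {s | ∀ z : Gr S m, μ.ap (br m s z) = 0}
      mul_mem' := fun {a b} ha hb z => by rw [br_mull, map_add, ha z, hb z, add_zero]
      one_mem' := fun z => by rw [br_onel, map_zero]
      inv_mem' := fun {a} ha z => by
        have h1 := br_mull a a⁻¹ z
        rw [mul_inv_cancel, br_onel] at h1
        have h2 := congrArg μ.ap h1
        rw [map_zero, map_add, ha z, zero_add] at h2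
        exact h2.symm }
  have hH : H = ⊤ := by
    rw [eq_top_iff, ← hT, sup_le_iff, Subgroup.closure_le]
    refine ⟨fun s hs => h s hs, fun s hs z => ?_⟩
    obtain ⟨u, hu, rfl⟩ := gk_surj m z
    have h1 : ⁅u, s⁆ ∈ gm S (m + 2) := gm_two m hm hu hs
    have h2 : ⁅s, u⁆ ∈ gm S (m + 1 + 1) := by
      rw [← commutatorElement_inv]
      exact inv_mem h1
    rw [br_gk _ hu, (gk_zero (gm_anti _ h2)).2 h2, map_zero]
  have hall : ∀ (s : S) (z : Gr S m), μ.ap (br m s z) = 0 := fun s => by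
    have h1 : s ∈ H := by
      rw [hH]
      exact Subgroup.mem_top s
    exact h1
  let H2 : Subgroup S :=
    { carrier := {w | w ∈ gm S (m + 1) ∧ μ.ap (gk (m + 1) w) = 0}
      mul_mem' := fun {a b} ha hb => ⟨mul_mem ha.1 hb.1, by
        rw [gk_mul ha.1 hb.1, map_add, ha.2, hb.2, add_zero]⟩
      one_mem' := ⟨one_mem _, by rw [gk_one, map_zero]⟩
      inv_mem' := fun {a} ha => ⟨inv_mem ha.1, by rw [gk_inv ha.1, map_neg, ha.2, neg_zero]⟩ }
  have hH2 : gm S (m + 1) ≤ H2 := by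
    rw [gm_succ m hm, Subgroup.commutator_le]
    intro u hu s _
    have h1 := gm_comm' m (v := s) hu
    have h2 : ⁅u, s⁆ = ⁅s, u⁆⁻¹ := (commutatorElement_inv s u).symm
    refine ⟨gm_comm m hu, ?_⟩
    rw [h2, gk_inv h1, map_neg, ← br_gk s hu, hall, neg_zero]
  refine du_ext fun a => ?_
  obtain ⟨w, hw, rfl⟩ := gk_surj (m + 1) a
  rw [(hH2 hw).2, ap_zero]

end inj

/-- the survivor of `lam` -/
def etl {q m : ℕ} (lam : Du S q (m + 1)) (j : X.Jf) : Du S q m × Du S q (m + 1) :=
  if X.pp j then (-(show Du S q m from lam.ap.comp (br m (X.y j))), 0)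
  else (0, zeta (fun x => X.ph x • lam - lam) FreeGroup.of X.W (X.bl (X.pj j)) j)

theorem etl_ff {q m : ℕ} (lam : Du S q (m + 1)) : X.Ff (etl X lam) := by
  intro j
  unfold etl
  by_cases h : X.pp j
  · rw [if_pos h, if_pos h]
  · rw [if_neg h, if_neg h]

theorem etl_pp {q m : ℕ} (lam : Du S q (m + 1)) (j : X.Jf) (h : X.pp j) (z : Gr S m) :
    (etl X lam j).1.ap z = -lam.ap (br m (X.y j) z) := by
  unfold etl
  rw [if_pos h, ap_neg]
  rfl

theorem etl_kx {p k Mw q c : ℕ} {P' : Type} [Group P'] {Pi : SP S P →* P'}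
    (hX : X.Ok p k Mw q c Pi) {m : ℕ} (lam : Du S q (m + 1)) :
    X.Kx (etl X lam) fun x => X.ph x • lam - lam where
  ch a b := by
    show X.ph (a * b) • lam - lam = X.ph a • lam - lam + X.ph a • (X.ph b • lam - lam)
    rw [map_mul, mul_smul, smul_sub]
    abel
  of j hj := by
    beta_reduce
    have h1 : (X.t j).right = 1 := by
      by_cases h : j ∈ X.Jf
      · have h2 : X.pp j := by
          by_contra h3
          exact hj ⟨h, h3⟩
        rw [hX.pt j h h2]
        rfl
      · rw [hX.t1 j h]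
        rfl
    rw [ph_of, h1, one_smul, sub_self]
  ze j hj := by
    unfold etl
    rw [if_neg hj]

theorem etl_of {q m : ℕ} (η : X.Jf → Du S q m × Du S q (m + 1)) (hη : X.Ff η)
    (lam : Du S q (m + 1)) (h1 : ∀ j : X.Jf, X.pp j → ∀ z, (η j).1.ap z = -lam.ap (br m (X.y j) z))
    (h2 : X.Kx η fun x => X.ph x • lam - lam) : η = etl X lam := by
  funext j
  have h3 := hη j
  by_cases h : X.pp j
  · rw [if_pos h] at h3
    refine Prod.ext (du_ext fun z => ?_) ?_
    · rw [h1 j h z, etl_pp X lam j h]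
    · rw [h3]
      unfold etl
      rw [if_pos h]
  · rw [if_neg h] at h3
    unfold etl
    rw [if_neg h, h2.ze j h, ← h3]

theorem mv_mv_s (w u : X.Jf → S) (x : J → SP S P) :
    X.mv w (X.mv u x) = X.mv (fun j => w j * u j) x := by
  funext j
  unfold AD.mv
  by_cases h : j ∈ X.Jf
  · rw [dif_pos h, dif_pos h, dif_pos h, il_mul, mul_assoc]
  · rw [dif_neg h, dif_neg h, dif_neg h]

theorem cg_mul_s [Fintype S] {m : ℕ} {w u : X.Jf → S} (hw : w ∈ X.Cg m) (hu : u ∈ X.Cg m) :
    (fun j => w j * u j) ∈ X.Cg m :=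
  Finset.mem_filter.2 ⟨Finset.mem_univ _, fun j =>
    mul_mem ((Finset.mem_filter.1 hw).2 j) ((Finset.mem_filter.1 hu).2 j)⟩

theorem cg_inv_s [Fintype S] {m : ℕ} {u : X.Jf → S} (hu : u ∈ X.Cg m) :
    (fun j => (u j)⁻¹) ∈ X.Cg m :=
  Finset.mem_filter.2 ⟨Finset.mem_univ _, fun j => inv_mem ((Finset.mem_filter.1 hu).2 j)⟩

theorem cg_anti [Fintype S] {m : ℕ} {u : X.Jf → S} (hu : u ∈ X.Cg (m + 1)) : u ∈ X.Cg m := by
  refine Finset.mem_filter.2 ⟨Finset.mem_univ _, fun j => ?_⟩
  have h1 := (Finset.mem_filter.1 hu).2 j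
  by_cases h : X.pp j
  · rw [if_pos h] at h1 ⊢
    exact gm_anti m h1
  · rw [if_neg h] at h1 ⊢
    exact gm_anti (m + 1) h1

theorem cg_one [Fintype S] (m : ℕ) : (fun _ => 1) ∈ X.Cg m :=
  Finset.mem_filter.2 ⟨Finset.mem_univ _, fun _ => one_mem _⟩

/-- double counting -/
theorem cg_cnt [Fintype S] (m : ℕ) (A : (X.Jf → S) → Prop) :
    ∑ u ∈ X.Cg m, (((X.Cg (m + 1)).filter fun w => A fun j => w j * u j).card : ℂ) =
      ((X.Cg (m + 1)).card : ℂ) * (((X.Cg m).filter A).card : ℂ) := by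
  simp only [Finset.card_filter, Nat.cast_sum]
  rw [Finset.sum_comm, ← nsmul_eq_mul, ← Finset.sum_const]
  refine Finset.sum_congr rfl fun w hw => ?_
  have hw' := cg_anti X hw
  refine Finset.sum_bij (fun u _ j => w j * u j) (fun u hu => cg_mul_s X hw' hu)
    (fun u _ u' _ h => ?_) (fun u hu => ⟨fun j => (w j)⁻¹ * u j, cg_mul_s X (cg_inv_s X hw') hu, ?_⟩)
    fun u _ => rfl
  · funext j
    exact mul_left_cancel (congrFun h j)
  · funext j
    exact mul_inv_cancel_left _ _

/-- the order of a layer -/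
theorem gr_card_s [Finite S] (m : ℕ) :
    Nat.card (gm S m) = Nat.card (Gr S m) * Nat.card (gm S (m + 1)) := by
  have h1 := Subgroup.card_eq_card_quotient_mul_card_subgroup
    ((gm S (m + 1)).subgroupOf (gm S m))
  rw [Nat.card_congr (Subgroup.subgroupOfEquivOfLe (gm_anti m)).toEquiv] at h1
  exact h1

theorem sur [Fintype S] (X : AD S P J V) {p k Mw q c : ℕ} [NeZero q] {P' : Type} [Group P']
    {Pi : SP S P →* P'} (hX : X.Ok p k Mw q c Pi) (m : ℕ) (hm : 1 ≤ m) (τ : V → S)
    (x : J → SP S P) (hx : ∀ j ∈ X.Jf, (x j).right = X.ph (X.W j)) (hR : X.RR τ x = 1) :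
    ∑ η ∈ Finset.univ.filter (fun η : X.Jf → Du S q m × Du S q (m + 1) => X.Ff η ∧ X.Sv η),
      X.Hh m τ x η = X.H m τ x := by
  have hinj : Function.Injective (fun lam : Du S q (m + 1) => etl X lam) := by
    intro lam lam' h
    rw [← sub_eq_zero]
    refine sep_br hm (T := {u | ∃ j ∈ X.Jf, X.pp j ∧ u = X.y j}) hX.gen _ ?_
    rintro _ ⟨j, hj, hpj, rfl⟩ z
    have h1 := etl_pp X lam ⟨j, hj⟩ hpj z
    have h2 := etl_pp X lam' ⟨j, hj⟩ hpj z
    have h3 : etl X lam = etl X lam' := h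
    rw [h3, h2] at h1
    rw [ap_sub, sub_eq_zero]
    exact (neg_injective h1).symm
  have himg : (Finset.univ.filter fun η : X.Jf → Du S q m × Du S q (m + 1) => X.Ff η ∧ X.Sv η) =
      Finset.univ.image fun lam : Du S q (m + 1) => etl X lam := by
    ext η
    rw [Finset.mem_filter, Finset.mem_image]
    constructor
    · rintro ⟨-, h1, lam, h2, h3⟩
      exact ⟨lam, Finset.mem_univ _, (etl_of X η h1 lam h2 h3).symm⟩
    · rintro ⟨lam, -, rfl⟩
      exact ⟨Finset.mem_univ _, etl_ff X lam, lam, fun j hj z => etl_pp X lam j hj z,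
        etl_kx X hX lam⟩
  rw [himg, Finset.sum_image fun a _ b _ h => hinj h]
  have hmv : ∀ u : X.Jf → S, ∀ j ∈ X.Jf, (X.mv u x j).right = X.ph (X.W j) := by
    intro u j hj
    unfold AD.mv
    rw [dif_pos hj, SemidirectProduct.mul_right, hx j hj]
    show 1 * _ = _
    rw [one_mul]
  have hHh : ∀ lam : Du S q (m + 1), X.Hh m τ x (etl X lam) =
      (∑ u ∈ X.Cg m, X.H (m + 1) τ (X.mv u x)) / ((X.Cg m).card : ℂ) := by
    intro lam
    unfold AD.Hh
    congr 1
    refine Finset.sum_congr rfl fun u hu => ?_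
    by_cases h0 : X.H (m + 1) τ (X.mv u x) = 0
    · rw [h0, zero_mul]
    obtain ⟨r, r', h1, h2, h3, h4⟩ := rr_ch (q := q) X hX m hm τ x hx u hu
    have h5 : (((X.Cg (m + 1)).filter fun w => X.G (X.mv w (X.mv u x)) ∧
        X.RR τ (X.mv w (X.mv u x)) = 1).card : ℂ) ≠ 0 := by
      intro h6
      apply h0
      unfold AD.H
      rw [h6, mul_zero, zero_div]
    have h6 : ((X.Cg (m + 1)).filter fun w => X.G (X.mv w (X.mv u x)) ∧
        X.RR τ (X.mv w (X.mv u x)) = 1).card ≠ 0 := fun h7 => h5 (by rw [h7, Nat.cast_zero])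
    obtain ⟨w, hw⟩ := Finset.card_ne_zero.1 h6
    obtain ⟨hw1, -, hw2⟩ := Finset.mem_filter.1 hw
    obtain ⟨s, s', h7, h8, h9, -⟩ := rr_ch (q := q) X hX (m + 1) (by omega) τ (X.mv u x) (hmv u) w
      hw1
    have hr' : r' = 1 := il_inj (P := P) (by rw [← h2, hR, il_one])
    have hs : s = 1 := il_inj (P := P) (by rw [← h7, hw2, il_one])
    have hs' : s' = r := il_inj (P := P) (by rw [← h8, h1])
    rw [hs, hs', one_mul] at h9
    have h10 : r ∈ gm S (m + 1 + 1) := by
      rw [← inv_inv r]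
      exact inv_mem h9
    have h11 := h4 lam (etl X lam) (fun j hj z => etl_pp X lam j hj z) (etl_kx X hX lam)
    rw [hr', inv_one, mul_one, (gk_zero (gm_anti _ h10)).2 h10, map_zero] at h11
    rw [← h11]
    unfold H63.MA.ep
    rw [ZMod.val_zero, Nat.cast_zero, zero_div, mul_zero, Complex.exp_zero, mul_one]
  simp only [hHh]
  rw [Finset.sum_const, Finset.card_univ, ← Nat.card_eq_fintype_card, du_card hX.qe, nsmul_eq_mul]
  obtain ⟨A, hA⟩ : ∃ A : (X.Jf → S) → Prop, ∀ u, A u ↔ X.G (X.mv u x) ∧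
    X.RR τ (X.mv u x) = 1 := ⟨_, fun _ => Iff.rfl⟩
  have hH : ∀ u ∈ X.Cg m, X.H (m + 1) τ (X.mv u x) = (Nat.card (gm S (m + 1 + 1)) : ℂ) /
      ((X.Cg (m + 1)).card : ℂ) * (((X.Cg (m + 1)).filter fun w =>
        A fun j => w j * u j).card : ℂ) := by
    intro u _
    have h1 : ((X.Cg (m + 1)).filter fun w => A fun j => w j * u j) =
        (X.Cg (m + 1)).filter fun w => X.G (X.mv w (X.mv u x)) ∧
          X.RR τ (X.mv w (X.mv u x)) = 1 := by
      ext w
      rw [Finset.mem_filter, Finset.mem_filter, hA, mv_mv_s]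
    rw [h1]
    unfold AD.H
    ring
  have hH0 : X.H m τ x = (Nat.card (gm S (m + 1)) : ℂ) * (((X.Cg m).filter A).card : ℂ) /
      ((X.Cg m).card : ℂ) := by
    have h1 : (X.Cg m).filter A =
        (X.Cg m).filter fun u => X.G (X.mv u x) ∧ X.RR τ (X.mv u x) = 1 := by
      ext w
      rw [Finset.mem_filter, Finset.mem_filter, hA]
    rw [h1]
    rfl
  rw [Finset.sum_congr rfl hH, ← Finset.mul_sum, cg_cnt, hH0, gr_card_s (m + 1)]
  have hc : ((X.Cg (m + 1)).card : ℂ) ≠ 0 :=
    Nat.cast_ne_zero.2 (Finset.card_ne_zero.2 ⟨_, cg_one X (m + 1)⟩)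
  have hc' : ((X.Cg m).card : ℂ) ≠ 0 :=
    Nat.cast_ne_zero.2 (Finset.card_ne_zero.2 ⟨_, cg_one X m⟩)
  push_cast
  field_simp

end H73.S3
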