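import Pool.Agent.H73.S3.Sur
import Pool.Agent.H73.S3.Tvk

/-!
# [H73 S3 EXA] the exact part of the stage theorem (MP_b39724_nt, stage 3, chapter B)

`exa`: the mean of `H (m+1)` at the actual values is the mean of `H m` plus the Fourier terms of the families `η` with `Hk η` which are not survivors.
-/

set_option autoImplicit false

open scoped commutatorElement
open scoped Classical

noncomputable section

namespace H73.S3

open H1.S3

attribute [local instance 50] Fintype.ofFinite

variable {S P : Type} [Group S] [Group P] [MulDistribMulAction P S] {J V : Type}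

theorem mn_add [Fintype S] (X : AD S P J V) (f g : (V → S) → ℂ) :
    X.Mn (fun τ => f τ + g τ) = X.Mn f + X.Mn g := by
  unfold AD.Mn
  rw [Finset.sum_add_distrib, add_div]

theorem mn_sum [Fintype S] (X : AD S P J V) {ι : Type} (s : Finset ι) (f : ι → (V → S) → ℂ) :
    X.Mn (fun τ => ∑ i ∈ s, f i τ) = ∑ i ∈ s, X.Mn (f i) := by
  unfold AD.Mn
  rw [Finset.sum_comm, Finset.sum_div]

theorem exa [Fintype S] (X : AD S P J V) {p k Mw q c : ℕ} [NeZero q] {P' : Type} [Group P']
    [Finite P] {Pi : SP S P →* P'} (hp : p.Prime) (hX : X.Ok p k Mw q c Pi) (m : ℕ) (hm : 1 ≤ m) :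
    X.Mn (fun τ => X.H (m + 1) τ (X.vl τ)) = X.Mn (fun τ => X.H m τ (X.vl τ)) +
      ∑ η ∈ Finset.univ.filter (fun η : X.Jf → Du S q m × Du S q (m + 1) =>
        X.Ff η ∧ X.Hk η ∧ ¬X.Sv η), X.Mn fun τ => X.Hh m τ (X.vl τ) η := by
  have h1 : ∀ τ : V → S, X.H (m + 1) τ (X.vl τ) = X.H m τ (X.vl τ) +
      ∑ η ∈ Finset.univ.filter (fun η : X.Jf → Du S q m × Du S q (m + 1) => X.Ff η ∧ ¬X.Sv η),
        X.Hh m τ (X.vl τ) η := by
    intro τ
    rw [four X hX.qe m hm, ← sur X hX m hm τ (X.vl τ) (fun j _ => vl_rt X τ j) (rr_vl X hp hX τ),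
      ← Finset.sum_filter_add_sum_filter_not (Finset.univ.filter
        fun η : X.Jf → Du S q m × Du S q (m + 1) => X.Ff η) (fun η => X.Sv η),
      Finset.filter_filter, Finset.filter_filter]
  simp only [h1]
  rw [mn_add, mn_sum]
  congr 1
  rw [← Finset.sum_filter_add_sum_filter_not (Finset.univ.filter
        fun η : X.Jf → Du S q m × Du S q (m + 1) => X.Ff η ∧ ¬X.Sv η) (fun η => X.Hk η),
      Finset.filter_filter, Finset.filter_filter]
  rw [Finset.sum_eq_zero (s := Finset.univ.filter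
    fun η : X.Jf → Du S q m × Du S q (m + 1) => (X.Ff η ∧ ¬X.Sv η) ∧ ¬X.Hk η), add_zero]
  · refine Finset.sum_congr ?_ fun _ _ => rfl
    ext η
    simp only [Finset.mem_filter, Finset.mem_univ, true_and]
    tauto
  · intro η hη
    rw [Finset.mem_filter] at hη
    exact tvk X hp hX m hm η hη.2.1.1 hη.2.2

end H73.S3
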