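import Pool.Agent.H73.S3.Enr
import Pool.Agent.H73.S3.Bdo

/-!
# [H73 S3 ORD] the amplitude depends on the order of the places only (MP_b39724_nt, stage 3, chapter B)

`WF.Srt`: the order of the relation: places of `Z` with increasing norm, then the other ones.
`ord`: for `v`, `v' ∈ Fr Zc PPc b (m + 1)` with `Oe Zc b v v'` (and the places of `E` below `T`): the crossed homomorphism, linkedness, the number of linked tuples, the amplitude, richness
are the same for `up b v l` and `up b v' l`.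
Proof. Let `X₁`, `X₂` be the data. `ph`, `Kx`, `Sv` involve only the letters in `Jf` which are not `pp`: they are the same ones (`v k`, `v' k` are `pp`: `PPc`), so `kk` is the same function.
`Qp` is generated by the same elements (`k (of j) = 0`, `ph (of j) = 1` at the letters `pp` and at the dead ones). Let `s` be the bijection of the living places (`v k ↦ v' k`, identity on
`sp Zc b`, `E`, `S0`). By `Oe`, `Srt` and `nm ≤ T` on `E` the list of the living places of `X₂` is the image under `s` of the list for `X₁` (both are sublists of the nodup list `W.l`;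
`List.Perm` + sorted by the position in `W.l`), and dead places contribute `1` to `RR`. So `RR`, `G`, `mv`, `Cg`, `H`, `Hh` correspond under `X₁.Jf ≃ X₂.Jf`, `#Vf` is the same.
-/

set_option autoImplicit false

open scoped NumberField commutatorElement
open IsDedekindDomain
open scoped Classical

noncomputable section

namespace H73.S3

open H63.MA H38.BB H38.BG H57.PC H57.BRA H77.WD H77.WE H77.PC3 H35.CF H35.UB H77.S3 H71.S3 H1.S3

attribute [local instance 50] Fintype.ofFinite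

private theorem ex_perm {α : Type} {n : ℕ} (v v' : Fin n → α) (hv : Function.Injective v)
    (hv' : Function.Injective v') : ∃ s : Equiv.Perm α, (∀ k, s (v k) = v' k) ∧
      (∀ w, (∀ k, v k ≠ w) → (∀ k, v' k ≠ w) → s w = w) ∧
      ∀ w, ((∃ k, v k = w) ∨ ∃ k, v' k = w) → ((∃ k, v k = s w) ∨ ∃ k, v' k = s w) := by
  obtain ⟨p, hp⟩ : ∃ p : α → Prop, ∀ w, p w ↔ ((∃ k, v k = w) ∨ ∃ k, v' k = w) :=
    ⟨_, fun w => Iff.rfl⟩
  let x : Fin n ↪ {w // p w} :=
    ⟨fun k => ⟨v k, (hp _).2 (Or.inl ⟨k, rfl⟩)⟩, fun i j hij => hv (congrArg Subtype.val hij)⟩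
  let y : Fin n ↪ {w // p w} :=
    ⟨fun k => ⟨v' k, (hp _).2 (Or.inr ⟨k, rfl⟩)⟩, fun i j hij => hv' (congrArg Subtype.val hij)⟩
  obtain ⟨g, hg⟩ := MulAction.isMultiplyPretransitive_iff.1
    (Equiv.Perm.isMultiplyPretransitive {w // p w} n) x y
  refine ⟨Equiv.Perm.ofSubtype g, fun k => ?_, fun w h1 h2 => ?_, fun w h => ?_⟩
  · show Equiv.Perm.ofSubtype g ((x k : {w // p w}) : α) = v' k
    rw [Equiv.Perm.ofSubtype_apply_of_mem g (x k).2]
    have h1 := DFunLike.congr_fun hg k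
    exact congrArg Subtype.val h1
  · refine Equiv.Perm.ofSubtype_apply_of_not_mem g fun h3 => ?_
    rcases (hp w).1 h3 with ⟨k, hk⟩ | ⟨k, hk⟩
    · exact h1 k hk
    · exact h2 k hk
  · rw [← hp] at h ⊢
    rw [Equiv.Perm.ofSubtype_apply_of_mem g h]
    exact (g ⟨w, h⟩).2

private theorem prod_filt {α M : Type} [Monoid M] (p : α → Prop) [DecidablePred p] (g : α → M)
    (l : List α)
    (h : ∀ v ∈ l, ¬p v → g v = 1) :
    (l.map g).prod = ((l.filter fun v => decide (p v)).map g).prod := by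
  induction l with
  | nil => rfl
  | cons a l ih =>
    have h1 := ih fun v hv => h v (List.mem_cons_of_mem _ hv)
    rw [List.map_cons, List.prod_cons, List.filter_cons]
    by_cases ha : p a
    · rw [if_pos (decide_eq_true ha), List.map_cons, List.prod_cons, h1]
    · rw [if_neg (by rw [decide_eq_true_eq]; exact ha), h a List.mem_cons_self ha, one_mul, h1]

private theorem list_eq {α : Type} (l : List α) (hl : l.Nodup) (p₁ p₂ : α → Prop)
    [DecidablePred p₁] [DecidablePred p₂] (s : Equiv.Perm α) (hp : ∀ w, p₂ (s w) ↔ p₁ w) (hm : ∀ w, p₁ w → (s w ∈ l ↔ w ∈ l))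
    (R : α → α → Prop) (hR : l.Pairwise R)
    (hc : ∀ a ∈ l, ∀ b ∈ l, p₁ a → p₁ b → a ≠ b → R a b → (s a = a ∧ s b = b) ∨ ¬R (s b) (s a)) :
    (l.filter fun v => decide (p₂ v)) = (l.filter fun v => decide (p₁ v)).map s := by
  have hr : ∀ a ∈ l, ∀ b ∈ l, l.idxOf a < l.idxOf b → R a b := by
    intro a ha b hb hab
    have h1 := List.pairwise_iff_getElem.1 hR _ _ (List.idxOf_lt_length_of_mem ha)
      (List.idxOf_lt_length_of_mem hb) hab
    rwa [List.getElem_idxOf, List.getElem_idxOf] at h1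
  have hi : l.Pairwise fun a b => l.idxOf a < l.idxOf b := by
    rw [List.pairwise_iff_getElem]
    intro i j hi hj hij
    rw [hl.idxOf_getElem, hl.idxOf_getElem]
    exact hij
  have hirr : Std.Irrefl fun a b : α => l.idxOf a < l.idxOf b := ⟨fun a => lt_irrefl _⟩
  have hant : Std.Antisymm fun a b : α => l.idxOf a < l.idxOf b :=
    ⟨fun a b h1 h2 => absurd h2 (lt_asymm h1)⟩
  refine List.Pairwise.eq_of_mem_iff (r := fun a b : α => l.idxOf a < l.idxOf b) (hi.filter _) ?_ ?_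
  · rw [List.pairwise_map]
    refine (hi.filter (fun v => decide (p₁ v))).imp_of_mem ?_
    intro a b ha hb hab
    rw [List.mem_filter, decide_eq_true_eq] at ha hb
    have hne : a ≠ b := fun h => by rw [h] at hab; exact lt_irrefl _ hab
    have hsa := (hm a ha.2).2 ha.1
    have hsb := (hm b hb.2).2 hb.1
    rcases hc a ha.1 b hb.1 ha.2 hb.2 hne (hr a ha.1 b hb.1 hab) with h | h
    · rw [h.1, h.2]
      exact hab
    · by_contra h2
      rcases lt_or_eq_of_le (not_lt.1 h2) with h3 | h3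
      · exact h (hr _ hsb _ hsa h3)
      · have h4 : l.idxOf (s b) = l.idxOf (s a) := h3
        have h5 : s b = s a := (List.idxOf_inj hsb).1 h4
        exact hne (s.injective h5).symm
  · intro a
    rw [List.mem_map]
    constructor
    · intro h
      rw [List.mem_filter, decide_eq_true_eq] at h
      have h1 : p₁ (s.symm a) := by
        rw [← hp, Equiv.apply_symm_apply]
        exact h.2
      refine ⟨s.symm a, ?_, s.apply_symm_apply a⟩
      rw [List.mem_filter, decide_eq_true_eq]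
      refine ⟨?_, h1⟩
      rw [← hm _ h1, Equiv.apply_symm_apply]
      exact h.1
    · rintro ⟨b, hb, rfl⟩
      rw [List.mem_filter, decide_eq_true_eq] at hb ⊢
      exact ⟨(hm b hb.2).2 hb.1, (hp b).2 hb.2⟩

section tr

variable {S P : Type} [Group S] [Group P] [MulDistribMulAction P S] {J V : Type}

/-- transport of the data -/
private structure Tr (X₁ X₂ : AD S P J V) (σ : Equiv.Perm J) (τ₁ τ₂ : V → S) : Prop where
  jf : ∀ j, j ∈ X₁.Jf ↔ σ j ∈ X₂.Jf
  pp : ∀ j ∈ X₁.Jf, (X₂.pp (σ j) ↔ X₁.pp j)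
  G : ∀ x₁ x₂ : J → SP S P, (∀ j ∈ X₁.Jf, x₂ (σ j) = x₁ j) → (X₂.G x₂ ↔ X₁.G x₁)
  RR : ∀ x₁ x₂ : J → SP S P, (∀ j ∈ X₁.Jf, x₂ (σ j) = x₁ j) → X₂.RR τ₂ x₂ = X₁.RR τ₁ x₁

variable {X₁ X₂ : AD S P J V} {σ : Equiv.Perm J} {τ₁ τ₂ : V → S}

private def ej (h : Tr X₁ X₂ σ τ₁ τ₂) : X₁.Jf ≃ X₂.Jf := σ.subtypeEquiv h.jf

private theorem ej_coe (h : Tr X₁ X₂ σ τ₁ τ₂) (j : X₁.Jf) : ((ej h j : X₂.Jf) : J) = σ j := rfl

private def eu (h : Tr X₁ X₂ σ τ₁ τ₂) : (X₁.Jf → S) ≃ (X₂.Jf → S) :=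
  Equiv.arrowCongr (ej h) (Equiv.refl S)

private theorem eu_ap (h : Tr X₁ X₂ σ τ₁ τ₂) (u : X₁.Jf → S) (j : X₁.Jf) :
    eu h u (ej h j) = u j := by
  show u ((ej h).symm (ej h j)) = u j
  rw [Equiv.symm_apply_apply]

private theorem mem_cg [Fintype S] (h : Tr X₁ X₂ σ τ₁ τ₂) (m : ℕ) (u : X₁.Jf → S) :
    u ∈ X₁.Cg m ↔ eu h u ∈ X₂.Cg m := by
  have e : ∀ j : X₁.Jf, (if X₂.pp (ej h j : X₂.Jf) then m else m + 1) =
      if X₁.pp j then m else m + 1 := fun j => if_congr (h.pp j j.2) rfl rfl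
  unfold AD.Cg
  simp only [Finset.mem_filter, Finset.mem_univ, true_and]
  constructor
  · intro hu j₂
    obtain ⟨j, rfl⟩ := (ej h).surjective j₂
    rw [eu_ap, e]
    exact hu j
  · intro hu j
    have h1 := hu (ej h j)
    rw [eu_ap, e] at h1
    exact h1

private theorem mv_tr (h : Tr X₁ X₂ σ τ₁ τ₂) (u : X₁.Jf → S) {x₁ x₂ : J → SP S P}
    (hx : ∀ j ∈ X₁.Jf, x₂ (σ j) = x₁ j) :
    ∀ j ∈ X₁.Jf, X₂.mv (eu h u) x₂ (σ j) = X₁.mv u x₁ j := by
  intro j hj
  unfold AD.mv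
  rw [dif_pos ((h.jf j).1 hj), dif_pos hj, hx j hj]
  have h1 : eu h u ⟨σ j, (h.jf j).1 hj⟩ = u ⟨j, hj⟩ := eu_ap h u ⟨j, hj⟩
  rw [h1]

private theorem h_tr [Fintype S] (h : Tr X₁ X₂ σ τ₁ τ₂) (m : ℕ) {x₁ x₂ : J → SP S P}
    (hx : ∀ j ∈ X₁.Jf, x₂ (σ j) = x₁ j) : X₂.H m τ₂ x₂ = X₁.H m τ₁ x₁ := by
  have h1 : ((X₁.Cg m).filter fun u => X₁.G (X₁.mv u x₁) ∧ X₁.RR τ₁ (X₁.mv u x₁) = 1).card =
      ((X₂.Cg m).filter fun u => X₂.G (X₂.mv u x₂) ∧ X₂.RR τ₂ (X₂.mv u x₂) = 1).card := by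
    refine Finset.card_equiv (eu h) fun u => ?_
    rw [Finset.mem_filter, Finset.mem_filter, ← mem_cg h, h.G _ _ (mv_tr h u hx),
      h.RR _ _ (mv_tr h u hx)]
  have h2 : (X₁.Cg m).card = (X₂.Cg m).card := Finset.card_equiv (eu h) fun u => mem_cg h m u
  unfold AD.H
  rw [h1, h2]

private theorem pr_tr {q m : ℕ} (h : Tr X₁ X₂ σ τ₁ τ₂) (u : X₁.Jf → S)
    {η₁ : X₁.Jf → Du S q m × Du S q (m + 1)} {η₂ : X₂.Jf → Du S q m × Du S q (m + 1)}
    (hη : ∀ j, η₂ (ej h j) = η₁ j) : X₂.pr η₂ (eu h u) = X₁.pr η₁ u := by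
  unfold AD.pr
  symm
  refine Fintype.sum_equiv (ej h) _ _ fun j => ?_
  rw [eu_ap, hη]
  exact if_congr (h.pp j j.2).symm rfl rfl

private theorem hh_tr [Fintype S] {q m : ℕ} (h : Tr X₁ X₂ σ τ₁ τ₂) {x₁ x₂ : J → SP S P}
    (hx : ∀ j ∈ X₁.Jf, x₂ (σ j) = x₁ j)
    {η₁ : X₁.Jf → Du S q m × Du S q (m + 1)} {η₂ : X₂.Jf → Du S q m × Du S q (m + 1)}
    (hη : ∀ j, η₂ (ej h j) = η₁ j) : X₂.Hh m τ₂ x₂ η₂ = X₁.Hh m τ₁ x₁ η₁ := by
  have h1 : ∑ u ∈ X₁.Cg m, X₁.H (m + 1) τ₁ (X₁.mv u x₁) * H63.MA.ep q (-X₁.pr η₁ u) =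
      ∑ u ∈ X₂.Cg m, X₂.H (m + 1) τ₂ (X₂.mv u x₂) * H63.MA.ep q (-X₂.pr η₂ u) := by
    refine Finset.sum_equiv (eu h) (fun u => mem_cg h m u) fun u _ => ?_
    rw [h_tr h (m + 1) (mv_tr h u hx), pr_tr h u hη]
  have h2 : (X₁.Cg m).card = (X₂.Cg m).card := Finset.card_equiv (eu h) fun u => mem_cg h m u
  unfold AD.Hh
  rw [h1, h2]

/-- the chosen function with the property `Pr` -/
private def ck {M : Type} [Zero M] (Pr : (FreeGroup J → M) → Prop) : FreeGroup J → M :=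
  if h : ∃ k, Pr k then h.choose else 0

private theorem kk_ck {q m : ℕ} (X : AD S P J V) (η : X.Jf → Du S q m × Du S q (m + 1)) :
    X.kk η = ck (X.Kx η) := rfl

end tr

variable {K : Type} [Field K] [NumberField K] {Ω : Type} [Field Ω] [Algebra K Ω]
  {p N : ℕ} {ζ : K} {D : RD0 K p ζ} {Q : DP K Ω} {A : GS D Ω} {P : Type} [Group P]
  {c : CL p N P} {S : Type} [Group S] [MulDistribMulAction P S] {q m : ℕ}

/-- symmetry of two configurations -/
private structure Sy (X : FD A P S) (W : WF A) (T : ℝ) (Zc : Finset (Pl K))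
    (f₁ f₂ : Pl K → Option (Elb c S q m)) (s : Equiv.Perm (Pl K)) : Prop where
  f : ∀ w, f₂ (s w) = f₁ w
  z : ∀ w, (s w ∈ Zc ↔ w ∈ Zc)
  e : ∀ w ∈ X.E, s w = w
  s0 : ∀ w ∈ D.S0, s w = w
  n : ∀ w ∈ sp Zc f₁, ¬PPc X W T w → s w = w
  p : ∀ w ∈ sp Zc f₁, (PPc X W T (s w) ↔ PPc X W T w)
  l : (W.l.filter fun w => decide (w ∈ sp Zc f₂ ∨ w ∈ X.E ∨ w ∈ D.S0)) =
    (W.l.filter fun w => decide (w ∈ sp Zc f₁ ∨ w ∈ X.E ∨ w ∈ D.S0)).map s
  ze : Disjoint Zc X.E

private theorem sp_lf (Zc : Finset (Pl K)) (f : Pl K → Option (Elb c S q m)) :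
    sp Zc (lf f) = sp Zc f := by
  ext v
  rw [mem_sp, mem_sp]
  unfold lf
  rw [ne_eq, Option.map_eq_none_iff]

section sy

variable {X : FD A P S} {W : WF A} {T : ℝ} {Zc : Finset (Pl K)}
  {f₁ f₂ : Pl K → Option (Elb c S q m)} {s : Equiv.Perm (Pl K)}

private theorem Sy.sp (h : Sy X W T Zc f₁ f₂ s) (w : Pl K) :
    s w ∈ H35.CF.sp Zc f₂ ↔ w ∈ H35.CF.sp Zc f₁ := by
  rw [mem_sp, mem_sp, h.z, h.f]

private theorem Sy.ei (h : Sy X W T Zc f₁ f₂ s) (w : Pl K) : s w ∈ X.E ↔ w ∈ X.E := by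
  constructor
  · intro h1
    have h2 := s.injective (h.e _ h1)
    rwa [h2] at h1
  · intro h1
    rw [h.e w h1]
    exact h1

private theorem Sy.si (h : Sy X W T Zc f₁ f₂ s) (w : Pl K) : s w ∈ D.S0 ↔ w ∈ D.S0 := by
  constructor
  · intro h1
    have h2 := s.injective (h.s0 _ h1)
    rwa [h2] at h1
  · intro h1
    rw [h.s0 w h1]
    exact h1

private theorem Sy.lf (h : Sy X W T Zc f₁ f₂ s) (w : Pl K) :
    H73.S3.lf f₂ (s w) = H73.S3.lf f₁ w := by
  unfold H73.S3.lf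
  rw [h.f]

variable (A) in
/-- the permutation of the letters -/
private def sg (s : Equiv.Perm (Pl K)) : Equiv.Perm (Pl K ⊕ Fin A.g) :=
  Equiv.sumCongr s (Equiv.refl _)

private theorem sg_inl (s : Equiv.Perm (Pl K)) (w : Pl K) :
    sg A s (Sum.inl w) = Sum.inl (s w) := rfl

private theorem sg_inr (s : Equiv.Perm (Pl K)) (i : Fin A.g) :
    sg A s (Sum.inr i) = Sum.inr i := rfl

private theorem Sy.t (h : Sy X W T Zc f₁ f₂ s) (G : SG c S) (B : SD D Q A)
    (j : Pl K ⊕ Fin A.g) : (adf G B X W T Zc (H73.S3.lf f₂)).t (sg A s j) =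
      (adf G B X W T Zc (H73.S3.lf f₁)).t j := by
  rcases j with w | i
  · show (if s w ∈ X.E then (⟨X.sv (s w), X.φ (W.L.t (s w))⟩ : SP S P) else
      (if s w ∈ Zc then H73.S3.lf f₂ (s w) else none).elim 1 fun a => il (G.y a)) =
      (if w ∈ X.E then (⟨X.sv w, X.φ (W.L.t w)⟩ : SP S P) else
      (if w ∈ Zc then H73.S3.lf f₁ w else none).elim 1 fun a => il (G.y a))
    by_cases hw : w ∈ X.E
    · rw [h.e w hw, if_pos hw, if_pos hw]
    · rw [if_neg (mt (h.ei w).1 hw), if_neg hw]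
      by_cases hz : w ∈ Zc
      · rw [if_pos ((h.z w).2 hz), if_pos hz, h.lf]
      · rw [if_neg (mt (h.z w).1 hz), if_neg hz]
  · rfl

private theorem ph_eq (G : SG c S) (B : SD D Q A) (X : FD A P S) (W : WF A) (T : ℝ)
    (Zc : Finset (Pl K)) (f f' : Pl K → Option (Px c)) :
    (adf G B X W T Zc f).ph = (adf G B X W T Zc f').ph := by
  unfold AD.ph
  congr 1
  funext j
  have ho : ∀ o : Option (Px c), ((o.elim 1 fun a => il (G.y a)) : SP S P).right = 1 := by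
    intro o
    cases o <;> rfl
  rcases j with w | i
  · show ((if w ∈ X.E then (⟨X.sv w, X.φ (W.L.t w)⟩ : SP S P) else
      (if w ∈ Zc then f w else none).elim 1 fun a => il (G.y a))).right =
      ((if w ∈ X.E then (⟨X.sv w, X.φ (W.L.t w)⟩ : SP S P) else
      (if w ∈ Zc then f' w else none).elim 1 fun a => il (G.y a))).right
    by_cases hw : w ∈ X.E
    · rw [if_pos hw, if_pos hw]
    · rw [if_neg hw, if_neg hw, ho, ho]
  · rfl

private theorem mem_jf (G : SG c S) (B : SD D Q A) (X : FD A P S) (W : WF A) (T : ℝ)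
    (Zc : Finset (Pl K)) (f : Pl K → Option (Elb c S q m)) (w : Pl K) :
    (Sum.inl w : Pl K ⊕ Fin A.g) ∈ (adf G B X W T Zc (H73.S3.lf f)).Jf ↔
      w ∈ H35.CF.sp Zc f ∨ w ∈ X.E := by
  show (Sum.inl w : Pl K ⊕ Fin A.g) ∈ (H35.CF.sp Zc (H73.S3.lf f) ∪ X.E).disjSum Finset.univ ↔ _
  rw [Finset.inl_mem_disjSum, Finset.mem_union, sp_lf]

private theorem mem_jr (G : SG c S) (B : SD D Q A) (X : FD A P S) (W : WF A) (T : ℝ)
    (Zc : Finset (Pl K)) (f : Pl K → Option (Px c)) (i : Fin A.g) :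
    (Sum.inr i : Pl K ⊕ Fin A.g) ∈ (adf G B X W T Zc f).Jf := by
  show (Sum.inr i : Pl K ⊕ Fin A.g) ∈ (H35.CF.sp Zc f ∪ X.E).disjSum Finset.univ
  rw [Finset.inr_mem_disjSum]
  exact Finset.mem_univ _

private theorem pp_inl (G : SG c S) (B : SD D Q A) (X : FD A P S) (W : WF A) (T : ℝ)
    (Zc : Finset (Pl K)) (f : Pl K → Option (Elb c S q m)) (w : Pl K) :
    (adf G B X W T Zc (H73.S3.lf f)).pp (Sum.inl w) ↔ w ∈ H35.CF.sp Zc f ∧ PPc X W T w := by
  show w ∈ H35.CF.sp Zc (H73.S3.lf f) ∧ PPc X W T w ↔ _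
  rw [sp_lf]

private theorem Sy.pp (h : Sy X W T Zc f₁ f₂ s) (G : SG c S) (B : SD D Q A)
    (j : Pl K ⊕ Fin A.g) : (adf G B X W T Zc (H73.S3.lf f₂)).pp (sg A s j) ↔
      (adf G B X W T Zc (H73.S3.lf f₁)).pp j := by
  rcases j with w | i
  · rw [sg_inl, pp_inl, pp_inl, h.sp]
    constructor
    · rintro ⟨h1, h2⟩
      exact ⟨h1, (h.p w h1).1 h2⟩
    · rintro ⟨h1, h2⟩
      exact ⟨h1, (h.p w h1).2 h2⟩
  · exact Iff.rfl

private theorem Sy.jf (h : Sy X W T Zc f₁ f₂ s) (G : SG c S) (B : SD D Q A)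
    (j : Pl K ⊕ Fin A.g) : j ∈ (adf G B X W T Zc (H73.S3.lf f₁)).Jf ↔
      sg A s j ∈ (adf G B X W T Zc (H73.S3.lf f₂)).Jf := by
  rcases j with w | i
  · rw [sg_inl, mem_jf, mem_jf, h.sp, h.ei]
  · exact ⟨fun _ => mem_jr G B X W T Zc _ i, fun _ => mem_jr G B X W T Zc _ i⟩

private theorem Sy.tf (h : Sy X W T Zc f₁ f₂ s) (τ₀ : Pl K → S) (w : Pl K)
    (hw : w ∈ H35.CF.sp Zc f₁ ∨ w ∈ X.E ∨ w ∈ D.S0) :
    H73.S3.tf τ₀ f₂ (s w) = H73.S3.tf τ₀ f₁ w := by
  unfold H73.S3.tf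
  rw [h.f]
  rcases hw with hw | hw | hw
  · obtain ⟨a, ha⟩ := Option.ne_none_iff_exists'.1 (mem_sp.1 hw).2
    rw [ha]
    rfl
  · rw [h.e w hw]
  · rw [h.s0 w hw]

private theorem Sy.ef (h : Sy X W T Zc f₁ f₂ s) (G : SG c S) (B : SD D Q A)
    (e₀ : Pl K ⊕ Fin A.g → El S P q m) (j : Pl K ⊕ Fin A.g)
    (hj : j ∈ (adf G B X W T Zc (H73.S3.lf f₁)).Jf) :
    H73.S3.ef e₀ f₂ (sg A s j) = H73.S3.ef e₀ f₁ j := by
  rcases j with w | i
  · rw [mem_jf] at hj
    show (f₂ (s w)).elim (e₀ (Sum.inl (s w))) (fun a => a.2.2.1) =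
      (f₁ w).elim (e₀ (Sum.inl w)) fun a => a.2.2.1
    rw [h.f]
    rcases hj with hw | hw
    · obtain ⟨a, ha⟩ := Option.ne_none_iff_exists'.1 (mem_sp.1 hw).2
      rw [ha]
      rfl
    · rw [h.e w hw]
  · rfl

private theorem bk_dead (G : SG c S) (B : SD D Q A) (X : FD A P S) (W : WF A) (T : ℝ)
    (Zc : Finset (Pl K)) (f : Pl K → Option (Elb c S q m)) (x : Pl K ⊕ Fin A.g → SP S P)
    (v : Pl K) (hv : ¬(v ∈ H35.CF.sp Zc f ∨ v ∈ X.E ∨ v ∈ D.S0)) :
    (adf G B X W T Zc (H73.S3.lf f)).bk x v = 1 := by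
  push Not at hv
  obtain ⟨h1, h2, h3⟩ := hv
  have ht : (adf G B X W T Zc (H73.S3.lf f)).t (Sum.inl v) = 1 := by
    show (if v ∈ X.E then (⟨X.sv v, X.φ (W.L.t v)⟩ : SP S P) else
      (if v ∈ Zc then H73.S3.lf f v else none).elim 1 fun a => il (G.y a)) = 1
    rw [if_neg h2]
    by_cases hz : v ∈ Zc
    · rw [if_pos hz]
      have h4 : H73.S3.lf f v = none := by
        by_contra h5
        rw [← sp_lf] at h1
        exact h1 (mem_sp.2 ⟨hz, h5⟩)
      rw [h4]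
      rfl
    · rw [if_neg hz]
      rfl
  have hb : (adf G B X W T Zc (H73.S3.lf f)).bl v = [Sum.inl v] := if_neg h3
  unfold AD.bk H1.S3.wd
  rw [hb, List.map_cons, List.map_nil, List.prod_cons, List.prod_nil, mul_one, ht,
    commutatorElement_one_left]

private theorem Sy.bk (h : Sy X W T Zc f₁ f₂ s) (G : SG c S) (B : SD D Q A)
    (x₁ x₂ : Pl K ⊕ Fin A.g → SP S P)
    (hx : ∀ j ∈ (adf G B X W T Zc (H73.S3.lf f₁)).Jf, x₂ (sg A s j) = x₁ j) (w : Pl K)
    (hw : w ∈ H35.CF.sp Zc f₁ ∨ w ∈ X.E ∨ w ∈ D.S0) :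
    (adf G B X W T Zc (H73.S3.lf f₂)).bk x₂ (s w) =
      (adf G B X W T Zc (H73.S3.lf f₁)).bk x₁ w := by
  unfold AD.bk H1.S3.wd
  by_cases h0 : w ∈ D.S0
  · rw [h.s0 w h0]
    have hb : ∀ f : Pl K → Option (Px c), (adf G B X W T Zc f).bl w =
        ((List.finRange A.g).filter fun i => B.pl i = w).map Sum.inr := fun f => if_pos h0
    rw [hb, hb, List.map_map, List.map_map]
    congr 1
    refine List.map_congr_left fun i _ => ?_
    have h1 := hx (Sum.inr i) (mem_jr G B X W T Zc _ i)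
    rw [sg_inr] at h1
    show ⁅(adf G B X W T Zc (H73.S3.lf f₂)).t (Sum.inr i), x₂ (Sum.inr i)⁆ =
      ⁅(adf G B X W T Zc (H73.S3.lf f₁)).t (Sum.inr i), x₁ (Sum.inr i)⁆
    rw [h1]
    rfl
  · have hb : ∀ f : Pl K → Option (Px c), ∀ v, v ∉ D.S0 →
        (adf G B X W T Zc f).bl v = [Sum.inl v] := fun f v hv => if_neg hv
    rw [hb _ _ (mt (h.si w).1 h0), hb _ _ h0]
    have hj : (Sum.inl w : Pl K ⊕ Fin A.g) ∈ (adf G B X W T Zc (H73.S3.lf f₁)).Jf := by
      rw [mem_jf]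
      rcases hw with hw | hw | hw
      · exact Or.inl hw
      · exact Or.inr hw
      · exact absurd hw h0
    have h1 := hx _ hj
    have h2 := h.t G B (Sum.inl w)
    rw [sg_inl] at h1 h2
    rw [List.map_cons, List.map_nil, List.map_cons, List.map_nil, h1, h2]

private theorem Sy.tr (h : Sy X W T Zc f₁ f₂ s) (G : SG c S) (B : SD D Q A) (τ₀ : Pl K → S) :
    Tr (adf G B X W T Zc (H73.S3.lf f₁)) (adf G B X W T Zc (H73.S3.lf f₂)) (sg A s)
      (H73.S3.tf τ₀ f₁) (H73.S3.tf τ₀ f₂) where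
  jf := h.jf G B
  pp j _ := h.pp G B j
  G := by
    intro x₁ x₂ hx
    show ((∀ v ∈ H35.CF.sp Zc (H73.S3.lf f₂), ∀ a, H73.S3.lf f₂ v = some a →
        Commute a.1 (G.Pi (x₂ (Sum.inl v)))) ∧
      (∀ v ∈ X.E, G.Pi (x₂ (Sum.inl v)) = X.l.F v) ∧ ∀ i, G.Pi (x₂ (Sum.inr i)) = X.l.b i) ↔
      ((∀ v ∈ H35.CF.sp Zc (H73.S3.lf f₁), ∀ a, H73.S3.lf f₁ v = some a →
        Commute a.1 (G.Pi (x₁ (Sum.inl v)))) ∧
      (∀ v ∈ X.E, G.Pi (x₁ (Sum.inl v)) = X.l.F v) ∧ ∀ i, G.Pi (x₁ (Sum.inr i)) = X.l.b i)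
    have hi : ∀ v, (v ∈ H35.CF.sp Zc f₁ ∨ v ∈ X.E) → x₂ (Sum.inl (s v)) = x₁ (Sum.inl v) := by
      intro v hv
      have h1 := hx (Sum.inl v) ((mem_jf G B X W T Zc f₁ v).2 hv)
      rwa [sg_inl] at h1
    have hr : ∀ i : Fin A.g, x₂ (Sum.inr i) = x₁ (Sum.inr i) := by
      intro i
      have h1 := hx (Sum.inr i) (mem_jr G B X W T Zc _ i)
      rwa [sg_inr] at h1
    refine and_congr ?_ (and_congr ?_ ?_)
    · rw [sp_lf, sp_lf]
      constructor
      · intro h1 v hv a ha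
        have h2 := h1 (s v) ((h.sp v).2 hv) a ((h.lf v).trans ha)
        rwa [hi v (Or.inl hv)] at h2
      · intro h1 v hv a ha
        obtain ⟨w, rfl⟩ := s.surjective v
        have hw := (h.sp w).1 hv
        rw [hi w (Or.inl hw)]
        exact h1 w hw a ((h.lf w).symm.trans ha)
    · refine forall₂_congr fun v hv => ?_
      have h1 := hi v (Or.inr hv)
      rw [h.e v hv] at h1
      rw [h1]
    · refine forall_congr' fun i => ?_
      rw [hr]
  RR := by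
    intro x₁ x₂ hx
    have key : ∀ (f : Pl K → Option (Elb c S q m)) (τ : Pl K → S)
        (x : Pl K ⊕ Fin A.g → SP S P), (adf G B X W T Zc (H73.S3.lf f)).RR τ x =
        ((W.l.filter fun w => decide (w ∈ H35.CF.sp Zc f ∨ w ∈ X.E ∨ w ∈ D.S0)).map
          fun v => cj (τ v) ((adf G B X W T Zc (H73.S3.lf f)).bk x v)).prod := by
      intro f τ x
      refine prod_filt (fun w => w ∈ H35.CF.sp Zc f ∨ w ∈ X.E ∨ w ∈ D.S0)
        (fun v => cj (τ v) ((adf G B X W T Zc (H73.S3.lf f)).bk x v)) W.l fun v _ hv => ?_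
      show cj (τ v) ((adf G B X W T Zc (H73.S3.lf f)).bk x v) = 1
      rw [bk_dead G B X W T Zc f x v hv]
      unfold cj
      group
    rw [key, key, h.l, List.map_map]
    congr 1
    refine List.map_congr_left fun w hw => ?_
    rw [List.mem_filter, decide_eq_true_eq] at hw
    show cj (H73.S3.tf τ₀ f₂ (s w)) ((adf G B X W T Zc (H73.S3.lf f₂)).bk x₂ (s w)) = _
    rw [h.tf τ₀ w hw.2, h.bk G B x₁ x₂ hx w hw.2]

private theorem Sy.np (h : Sy X W T Zc f₁ f₂ s) (G : SG c S) (B : SD D Q A)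
    (j : Pl K ⊕ Fin A.g) : (j ∈ (adf G B X W T Zc (H73.S3.lf f₁)).Jf ∧
        ¬(adf G B X W T Zc (H73.S3.lf f₁)).pp j) ↔
      (j ∈ (adf G B X W T Zc (H73.S3.lf f₂)).Jf ∧
        ¬(adf G B X W T Zc (H73.S3.lf f₂)).pp j) := by
  rcases j with w | i
  · rw [mem_jf, mem_jf, pp_inl, pp_inl]
    constructor
    · rintro ⟨h1 | h1, h2⟩
      · have h3 : ¬PPc X W T w := fun h4 => h2 ⟨h1, h4⟩
        have h5 := (h.sp w).2 h1
        rw [h.n w h1 h3] at h5
        exact ⟨Or.inl h5, fun h6 => h3 h6.2⟩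
      · exact ⟨Or.inr h1, fun h6 => Finset.disjoint_left.1 h.ze (mem_sp.1 h6.1).1 h1⟩
    · rintro ⟨h1 | h1, h2⟩
      · have h3 : ¬PPc X W T w := fun h4 => h2 ⟨h1, h4⟩
        obtain ⟨w', rfl⟩ := s.surjective w
        have h5 := (h.sp w').1 h1
        have h6 : ¬PPc X W T w' := fun h7 => h3 ((h.p w' h5).2 h7)
        have h8 := h.n w' h5 h6
        rw [h8]
        exact ⟨Or.inl h5, fun h9 => h6 h9.2⟩
      · exact ⟨Or.inr h1, fun h6 => Finset.disjoint_left.1 h.ze (mem_sp.1 h6.1).1 h1⟩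
  · exact ⟨fun _ => ⟨mem_jr G B X W T Zc _ i, not_false⟩,
      fun _ => ⟨mem_jr G B X W T Zc _ i, not_false⟩⟩

private theorem Sy.npe (h : Sy X W T Zc f₁ f₂ s) (G : SG c S) (B : SD D Q A)
    (e₀ : Pl K ⊕ Fin A.g → El S P q m) (j : Pl K ⊕ Fin A.g)
    (hj : j ∈ (adf G B X W T Zc (H73.S3.lf f₁)).Jf)
    (hp : ¬(adf G B X W T Zc (H73.S3.lf f₁)).pp j) :
    H73.S3.ef e₀ f₂ j = H73.S3.ef e₀ f₁ j := by
  rcases j with w | i
  · rw [mem_jf] at hj
    rw [pp_inl] at hp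
    have h1 : s w = w := by
      rcases hj with h2 | h2
      · exact h.n w h2 fun h4 => hp ⟨h2, h4⟩
      · exact h.e w h2
    have h2 := h.f w
    rw [h1] at h2
    show (f₂ w).elim (e₀ (Sum.inl w)) (fun a => a.2.2.1) =
      (f₁ w).elim (e₀ (Sum.inl w)) fun a => a.2.2.1
    rw [h2]
  · rfl

private theorem Sy.kx (h : Sy X W T Zc f₁ f₂ s) (G : SG c S) (B : SD D Q A)
    (e₀ : Pl K ⊕ Fin A.g → El S P q m) (k : FreeGroup (Pl K ⊕ Fin A.g) → Du S q (m + 1)) :
    (adf G B X W T Zc (H73.S3.lf f₁)).Kx ((adf G B X W T Zc (H73.S3.lf f₁)).et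
      (H73.S3.ef e₀ f₁)) k ↔ (adf G B X W T Zc (H73.S3.lf f₂)).Kx
        ((adf G B X W T Zc (H73.S3.lf f₂)).et (H73.S3.ef e₀ f₂)) k := by
  constructor
  · intro hk
    refine ⟨fun a b => ?_, fun j hj => hk.of j (mt (h.np G B j).1 hj), fun j hj => ?_⟩
    · rw [ph_eq G B X W T Zc (H73.S3.lf f₂) (H73.S3.lf f₁)]
      exact hk.ch a b
    · have h1 := (h.np G B j).2 ⟨j.2, hj⟩
      have h2 := hk.ze ⟨j, h1.1⟩ h1.2
      have h3 := h.npe G B e₀ j h1.1 h1.2
      exact h2.trans (congrArg (fun e : El S P q m => e.1.2) h3).symm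
  · intro hk
    refine ⟨fun a b => ?_, fun j hj => hk.of j (mt (h.np G B j).2 hj), fun j hj => ?_⟩
    · rw [ph_eq G B X W T Zc (H73.S3.lf f₁) (H73.S3.lf f₂)]
      exact hk.ch a b
    · have h1 := (h.np G B j).1 ⟨j.2, hj⟩
      have h2 := hk.ze ⟨j, h1.1⟩ h1.2
      have h3 := h.npe G B e₀ j j.2 hj
      exact h2.trans (congrArg (fun e : El S P q m => e.1.2) h3)

private theorem Sy.kxe (h : Sy X W T Zc f₁ f₂ s) (G : SG c S) (B : SD D Q A)
    (e₀ : Pl K ⊕ Fin A.g → El S P q m) :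
    H73.S3.kx G B X W T Zc e₀ f₁ = H73.S3.kx G B X W T Zc e₀ f₂ := by
  show (adf G B X W T Zc (H73.S3.lf f₁)).kk _ = (adf G B X W T Zc (H73.S3.lf f₂)).kk _
  rw [kk_ck, kk_ck]
  congr 1
  funext k
  exact propext (h.kx G B e₀ k)

private theorem Sy.y (h : Sy X W T Zc f₁ f₂ s) (G : SG c S) (B : SD D Q A) (w : Pl K) :
    (adf G B X W T Zc (H73.S3.lf f₂)).y (Sum.inl (s w)) =
      (adf G B X W T Zc (H73.S3.lf f₁)).y (Sum.inl w) := by
  unfold AD.y
  rw [← h.t G B (Sum.inl w)]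
  rfl

private theorem Sy.lk (h : Sy X W T Zc f₁ f₂ s) (G : SG c S) (B : SD D Q A)
    (e₀ : Pl K ⊕ Fin A.g → El S P q m) (v : Fin (m + 1) → Pl K)
    (hv : ∀ k, v k ∈ H35.CF.sp Zc f₁) :
    Lk G B X W T Zc e₀ f₁ v ↔ Lk G B X W T Zc e₀ f₂ fun k => s (v k) := by
  have h1 : (adf G B X W T Zc (H73.S3.lf f₂)).Qp (H73.S3.kx G B X W T Zc e₀ f₂) =
      (adf G B X W T Zc (H73.S3.lf f₁)).Qp (H73.S3.kx G B X W T Zc e₀ f₁) := by
    unfold AD.Qp
    rw [h.kxe, ph_eq G B X W T Zc (H73.S3.lf f₂) (H73.S3.lf f₁)]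
  have h2 : (fun k => (adf G B X W T Zc (H73.S3.lf f₂)).y (Sum.inl (s (v k)))) =
      fun k => (adf G B X W T Zc (H73.S3.lf f₁)).y (Sum.inl (v k)) := by
    funext k
    exact h.y G B (v k)
  have h3 : (fun k => (H73.S3.ef e₀ f₂ (Sum.inl (s (v k)))).1.1) =
      fun k => (H73.S3.ef e₀ f₁ (Sum.inl (v k))).1.1 := by
    funext k
    have h4 := h.ef G B e₀ (Sum.inl (v k)) ((mem_jf G B X W T Zc f₁ (v k)).2 (Or.inl (hv k)))
    rw [sg_inl] at h4
    rw [h4]
  unfold Lk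
  rw [h1, h2, h3]

private theorem Sy.nl (h : Sy X W T Zc f₁ f₂ s) (G : SG c S) (B : SD D Q A)
    (e₀ : Pl K ⊕ Fin A.g → El S P q m) :
    Nl Zc (PPc X W T) (m + 1) (Lk G B X W T Zc e₀) f₁ =
      Nl Zc (PPc X W T) (m + 1) (Lk G B X W T Zc e₀) f₂ := by
  unfold Nl
  refine Finset.card_equiv (Equiv.arrowCongr (Equiv.refl _) s) fun v => ?_
  have h0 : (Equiv.arrowCongr (Equiv.refl (Fin (m + 1))) s) v = fun k => s (v k) := rfl
  have h1 : (fun k => s (v k)) ∈ Tp Zc (PPc X W T) f₂ (m + 1) ↔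
      v ∈ Tp Zc (PPc X W T) f₁ (m + 1) := by
    unfold Tp
    simp only [Finset.mem_filter, Fintype.mem_piFinset]
    refine and_congr ?_ ?_
    · refine forall_congr' fun k => ?_
      rw [h.sp]
      exact and_congr_right fun h2 => h.p _ h2
    · constructor
      · intro h2 i j hij
        exact h2 (congrArg s hij)
      · intro h2 i j hij
        exact h2 (s.injective hij)
  rw [Finset.mem_filter, Finset.mem_filter, h0, h1]
  refine and_congr_right fun h2 => h.lk G B e₀ v fun k => ?_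
  unfold Tp at h2
  rw [Finset.mem_filter, Fintype.mem_piFinset] at h2
  exact (Finset.mem_filter.1 (h2.1 k)).1

private theorem Sy.vf (h : Sy X W T Zc f₁ f₂ s) (G : SG c S) (B : SD D Q A) :
    (adf G B X W T Zc (H73.S3.lf f₁)).Vf.card = (adf G B X W T Zc (H73.S3.lf f₂)).Vf.card := by
  have h1 : (adf G B X W T Zc (H73.S3.lf f₂)).Vf =
      (adf G B X W T Zc (H73.S3.lf f₁)).Vf.image s := by
    unfold AD.Vf
    rw [Finset.image_image]
    have hpj : ∀ j : Pl K ⊕ Fin A.g, (adf G B X W T Zc (H73.S3.lf f₂)).pj (sg A s j) =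
        s ((adf G B X W T Zc (H73.S3.lf f₁)).pj j) := by
      intro j
      rcases j with w | i
      · rfl
      · show B.pl i = s (B.pl i)
        rw [h.s0 _ (B.mem i)]
    ext v
    simp only [Finset.mem_image, Function.comp_apply]
    constructor
    · rintro ⟨j, hj, rfl⟩
      obtain ⟨j', rfl⟩ := (sg A s).surjective j
      exact ⟨j', (h.jf G B j').2 hj, (hpj j').symm⟩
    · rintro ⟨j, hj, rfl⟩
      exact ⟨sg A s j, (h.jf G B j).1 hj, hpj j⟩
  rw [h1, Finset.card_image_of_injective _ s.injective]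

private theorem Sy.kf (h : Sy X W T Zc f₁ f₂ s) (w : Pl K) :
    H73.S3.kf f₂ (s w) = H73.S3.kf f₁ w := by
  unfold H73.S3.kf
  rw [h.f]

private theorem Sy.et (h : Sy X W T Zc f₁ f₂ s) (G : SG c S) (B : SD D Q A)
    (e₀ : Pl K ⊕ Fin A.g → El S P q m) (τ₀ : Pl K → S)
    (j : (adf G B X W T Zc (H73.S3.lf f₁)).Jf) :
    (adf G B X W T Zc (H73.S3.lf f₂)).et (H73.S3.ef e₀ f₂) (ej (h.tr G B τ₀) j) =
      (adf G B X W T Zc (H73.S3.lf f₁)).et (H73.S3.ef e₀ f₁) j := by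
  show (H73.S3.ef e₀ f₂ (sg A s j)).1 = (H73.S3.ef e₀ f₁ j).1
  rw [h.ef G B e₀ j j.2]

private theorem Sy.ax [Fintype S] (h : Sy X W T Zc f₁ f₂ s) (G : SG c S) (B : SD D Q A)
    (τ₀ : Pl K → S) (e₀ : Pl K ⊕ Fin A.g → El S P q m) :
    AX G B X W T Zc τ₀ e₀ f₁ = AX G B X W T Zc τ₀ e₀ f₂ := by
  obtain ⟨ht, -⟩ : ∃ t : Tr (adf G B X W T Zc (H73.S3.lf f₁)) (adf G B X W T Zc (H73.S3.lf f₂))
    (sg A s) (H73.S3.tf τ₀ f₁) (H73.S3.tf τ₀ f₂), True := ⟨h.tr G B τ₀, trivial⟩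
  have hη : ∀ j, (adf G B X W T Zc (H73.S3.lf f₂)).et (H73.S3.ef e₀ f₂) (ej ht j) =
      (adf G B X W T Zc (H73.S3.lf f₁)).et (H73.S3.ef e₀ f₁) j := h.et G B e₀ τ₀
  have c1 : (adf G B X W T Zc (H73.S3.lf f₁)).Ff ((adf G B X W T Zc (H73.S3.lf f₁)).et
      (H73.S3.ef e₀ f₁)) ↔ (adf G B X W T Zc (H73.S3.lf f₂)).Ff
        ((adf G B X W T Zc (H73.S3.lf f₂)).et (H73.S3.ef e₀ f₂)) := by
    unfold AD.Ff
    constructor
    · intro h1 j
      obtain ⟨j, rfl⟩ := (ej ht).surjective j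
      have h2 := h1 j
      rw [← hη] at h2
      have h3 := h.pp G B j
      rw [ej_coe]
      by_cases h4 : (adf G B X W T Zc (H73.S3.lf f₁)).pp j
      · rw [if_pos h4] at h2
        rw [if_pos (h3.2 h4)]
        exact h2
      · rw [if_neg h4] at h2
        rw [if_neg (mt h3.1 h4)]
        exact h2
    · intro h1 j
      have h2 := h1 (ej ht j)
      rw [hη, ej_coe] at h2
      have h3 := h.pp G B j
      by_cases h4 : (adf G B X W T Zc (H73.S3.lf f₁)).pp j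
      · rw [if_pos (h3.2 h4)] at h2
        rw [if_pos h4]
        exact h2
      · rw [if_neg (mt h3.1 h4)] at h2
        rw [if_neg h4]
        exact h2
  have c2 : (∀ v ∈ H35.CF.sp Zc f₁, PPc X W T v → ∀ z : Gr S m, (H73.S3.kf f₁ v).ap
      (br m ((adf G B X W T Zc (H73.S3.lf f₁)).y (Sum.inl v)) z) = 0) ↔
      ∀ v ∈ H35.CF.sp Zc f₂, PPc X W T v → ∀ z : Gr S m, (H73.S3.kf f₂ v).ap
      (br m ((adf G B X W T Zc (H73.S3.lf f₂)).y (Sum.inl v)) z) = 0 := by
    constructor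
    · intro h1 v hv hp z
      obtain ⟨w, rfl⟩ := s.surjective v
      have hw := (h.sp w).1 hv
      rw [h.kf, h.y]
      exact h1 w hw ((h.p w hw).1 hp) z
    · intro h1 v hv hp z
      have h2 := h1 (s v) ((h.sp v).2 hv) ((h.p v hv).2 hp) z
      rwa [h.kf, h.y] at h2
  have c3 : (adf G B X W T Zc (H73.S3.lf f₁)).Sv ((adf G B X W T Zc (H73.S3.lf f₁)).et
      (H73.S3.ef e₀ f₁)) ↔ (adf G B X W T Zc (H73.S3.lf f₂)).Sv
        ((adf G B X W T Zc (H73.S3.lf f₂)).et (H73.S3.ef e₀ f₂)) := by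
    unfold AD.Sv
    refine exists_congr fun lam => and_congr ?_ ?_
    · constructor
      · intro h1 j hj z
        obtain ⟨j, rfl⟩ := (ej ht).surjective j
        rw [ej_coe] at hj ⊢
        rw [hη]
        have h3 := h1 j ((h.pp G B j).1 hj) z
        have h4 : (adf G B X W T Zc (H73.S3.lf f₂)).y (sg A s j) =
            (adf G B X W T Zc (H73.S3.lf f₁)).y j := by
          unfold AD.y
          rw [h.t]
        rw [h4]
        exact h3
      · intro h1 j hj z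
        have h3 := h1 (ej ht j) ((h.pp G B j).2 hj) z
        rw [hη, ej_coe] at h3
        have h4 : (adf G B X W T Zc (H73.S3.lf f₂)).y (sg A s j) =
            (adf G B X W T Zc (H73.S3.lf f₁)).y j := by
          unfold AD.y
          rw [h.t]
        rw [h4] at h3
        exact h3
    · rw [ph_eq G B X W T Zc (H73.S3.lf f₁) (H73.S3.lf f₂)]
      exact h.kx G B e₀ _
  have c4 : (adf G B X W T Zc (H73.S3.lf f₁)).Hh m (H73.S3.tf τ₀ f₁)
      (fun j => (H73.S3.ef e₀ f₁ j).2) ((adf G B X W T Zc (H73.S3.lf f₁)).et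
        (H73.S3.ef e₀ f₁)) =
      (adf G B X W T Zc (H73.S3.lf f₂)).Hh m (H73.S3.tf τ₀ f₂)
      (fun j => (H73.S3.ef e₀ f₂ j).2) ((adf G B X W T Zc (H73.S3.lf f₂)).et
        (H73.S3.ef e₀ f₂)) := by
    refine (hh_tr ht (fun j hj => ?_) hη).symm
    show (H73.S3.ef e₀ f₂ (sg A s j)).2 = (H73.S3.ef e₀ f₁ j).2
    rw [h.ef G B e₀ j hj]
  unfold AX
  rw [c4, h.vf G B]
  exact if_congr (and_congr c1 (and_congr c2 (not_congr c3))) rfl rfl

private theorem Sy.rich (h : Sy X W T Zc f₁ f₂ s) (M : ℕ) :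
    Rich X W T Zc M (H73.S3.lf f₁) ↔ Rich X W T Zc M (H73.S3.lf f₂) := by
  unfold Rich
  refine forall_congr' fun a => ?_
  have h1 : (Zc.filter fun v => H73.S3.lf f₁ v = some a ∧ PPc X W T v).card =
      (Zc.filter fun v => H73.S3.lf f₂ v = some a ∧ PPc X W T v).card := by
    refine Finset.card_equiv s fun v => ?_
    rw [Finset.mem_filter, Finset.mem_filter, h.z, h.lf]
    refine and_congr_right fun h2 => and_congr_right fun h3 => ?_
    refine (h.p v (mem_sp.2 ⟨h2, fun h4 => ?_⟩)).symm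
    unfold H73.S3.lf at h3
    rw [h4] at h3
    exact absurd h3 (Option.some_ne_none a).symm
  rw [h1]

end sy

/-- the order of the places: those of `Z` with increasing norm, then the other ones -/
def WF.Srt (W : WF A) : Prop := W.l.Pairwise fun v w => w ∈ W.Z → v ∈ W.Z ∧ nm v ≤ nm w

theorem ord [Fintype S] [Fintype P] [NeZero q] (G : SG c S) (B : SD D Q A)
    (X : FD A P S) (W : WF A) (T : ℝ) (Zc : Finset (Pl K)) (hZc : Zc ⊆ W.Z) (hE : X.E ⊆ W.Z)
    (hZs : ∀ v ∈ W.Z, v ∉ D.S0) (hnd : W.l.Nodup) (hlz : ∀ v, v ∈ W.l ↔ v ∈ W.Z ∨ v ∈ D.S0)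
    (hZE : Disjoint Zc X.E) (hET : ∀ v ∈ X.E, (nm v : ℝ) ≤ T) (hsrt : W.Srt)
    (τ₀ : Pl K → S) (e₀ : Pl K ⊕ Fin A.g → El S P q m) (l : Fin (m + 1) → Elb c S q m)
    (b : Pl K → Option (Elb c S q m)) (hb : b ∈ Cf Zc (Elb c S q m)) (v v' : Fin (m + 1) → Pl K)
    (hv : v ∈ H35.CF.Fr Zc (PPc X W T) b (m + 1)) (hv' : v' ∈ H35.CF.Fr Zc (PPc X W T) b (m + 1))
    (ho : Oe Zc b v v') :
    kx G B X W T Zc e₀ (up b v l) = kx G B X W T Zc e₀ (up b v' l) ∧
    (Lk G B X W T Zc e₀ (up b v l) v ↔ Lk G B X W T Zc e₀ (up b v' l) v') ∧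
    Nl Zc (PPc X W T) (m + 1) (Lk G B X W T Zc e₀) (up b v l) =
      Nl Zc (PPc X W T) (m + 1) (Lk G B X W T Zc e₀) (up b v' l) ∧
    AX G B X W T Zc τ₀ e₀ (up b v l) = AX G B X W T Zc τ₀ e₀ (up b v' l) ∧
    ∀ M, Rich X W T Zc M (lf (up b v l)) ↔ Rich X W T Zc M (lf (up b v' l)) := by
  have hfr : ∀ v ∈ H35.CF.Fr Zc (PPc X W T) b (m + 1), (∀ k, v k ∈ Zc ∧ PPc X W T (v k) ∧
      b (v k) = none) ∧ Function.Injective v := by
    intro v hv
    unfold H35.CF.Fr at hv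
    rw [Finset.mem_filter, Fintype.mem_piFinset] at hv
    exact ⟨fun k => Finset.mem_filter.1 (hv.1 k), hv.2⟩
  obtain ⟨a1, a2⟩ := hfr v hv
  obtain ⟨b1, b2⟩ := hfr v' hv'
  obtain ⟨s, s1, s2, s3⟩ := ex_perm v v' a2 b2
  have hb0 := mem_cf.1 hb
  -- the places in `T`
  have hT : ∀ w, ((∃ k, v k = w) ∨ ∃ k, v' k = w) → w ∈ Zc ∧ PPc X W T w ∧ b w = none := by
    rintro w (⟨k, rfl⟩ | ⟨k, rfl⟩)
    · exact a1 k
    · exact b1 k
  have hF : ∀ w, ¬(w ∈ Zc ∧ PPc X W T w ∧ b w = none) → s w = w := by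
    intro w hw
    refine s2 w (fun k hk => hw (hT w (Or.inl ⟨k, hk⟩))) fun k hk => hw (hT w (Or.inr ⟨k, hk⟩))
  have hup : ∀ w, up b v' l (s w) = up b v l w := by
    intro w
    by_cases h1 : ∃ k, v k = w
    · obtain ⟨k, rfl⟩ := h1
      rw [s1, up_of b v' l b2 k, up_of b v l a2 k]
    · push Not at h1
      have h2 : ∀ k, v' k ≠ s w := fun k hk => h1 k (s.injective ((s1 k).trans hk))
      rw [up_ne b v' l _ h2, up_ne b v l _ h1]
      by_cases h3 : ∃ k, v' k = w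
      · have h4 := hT w (Or.inr h3)
        have h5 := hT (s w) (s3 w (Or.inr h3))
        rw [h4.2.2, h5.2.2]
      · push Not at h3
        rw [s2 w h1 h3]
  have hsz : ∀ w, (s w ∈ Zc ↔ w ∈ Zc) := by
    intro w
    by_cases h1 : (∃ k, v k = w) ∨ ∃ k, v' k = w
    · exact iff_of_true (hT _ (s3 w h1)).1 (hT w h1).1
    · push Not at h1
      rw [s2 w h1.1 h1.2]
  have hsp : ∀ w, w ∈ H35.CF.sp Zc (up b v l) → (∃ k, v k = w) ∨ w ∈ H35.CF.sp Zc b := by
    intro w hw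
    by_cases h1 : ∃ k, v k = w
    · exact Or.inl h1
    · push Not at h1
      rw [mem_sp, up_ne b v l _ h1] at hw
      exact Or.inr (mem_sp.2 hw)
  have hspb : ∀ w ∈ H35.CF.sp Zc b, s w = w := fun w hw =>
    hF w fun h1 => (mem_sp.1 hw).2 h1.2.2
  have hEf : ∀ w ∈ X.E, s w = w := fun w hw =>
    hF w fun h1 => Finset.disjoint_left.1 hZE h1.1 hw
  have hSf : ∀ w ∈ D.S0, s w = w := fun w hw => hF w fun h1 => hZs w (hZc h1.1) hw
  have hpp : ∀ k, T < (nm (v k) : ℝ) ∧ T < (nm (v' k) : ℝ) := fun k =>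
    ⟨(a1 k).2.1.1, (b1 k).2.1.1⟩
  have hsy : Sy X W T Zc (up b v l) (up b v' l) s :=
    { f := hup
      z := hsz
      e := hEf
      s0 := hSf
      n := by
        intro w hw h1
        rcases hsp w hw with ⟨k, rfl⟩ | h2
        · exact absurd (a1 k).2.1 h1
        · exact hspb w h2
      p := by
        intro w hw
        rcases hsp w hw with ⟨k, rfl⟩ | h2
        · rw [s1]
          exact iff_of_true (b1 k).2.1 (a1 k).2.1
        · rw [hspb w h2]
      l := by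
        refine list_eq W.l hnd (fun w => w ∈ H35.CF.sp Zc (up b v l) ∨ w ∈ X.E ∨ w ∈ D.S0)
          (fun w => w ∈ H35.CF.sp Zc (up b v' l) ∨ w ∈ X.E ∨ w ∈ D.S0) s ?_ ?_ _ hsrt ?_
        · intro w
          refine or_congr ?_ (or_congr ?_ ?_)
          · rw [mem_sp, mem_sp, hsz, hup]
          · constructor
            · intro h1
              have h2 := s.injective (hEf _ h1)
              rwa [h2] at h1
            · intro h1
              rw [hEf w h1]
              exact h1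
          · constructor
            · intro h1
              have h2 := s.injective (hSf _ h1)
              rwa [h2] at h1
            · intro h1
              rw [hSf w h1]
              exact h1
        · rintro w (h1 | h1 | h1)
          · have h2 := (mem_sp.1 h1).1
            exact iff_of_true ((hlz _).2 (Or.inl (hZc ((hsz w).2 h2)))) ((hlz _).2 (Or.inl (hZc h2)))
          · rw [hEf w h1]
          · rw [hSf w h1]
        · intro x hx y hy px py hne hxy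
          -- the cases
          have cs : ∀ w, (w ∈ H35.CF.sp Zc (up b v l) ∨ w ∈ X.E ∨ w ∈ D.S0) →
              (∃ k, v k = w) ∨ (w ∈ H35.CF.sp Zc b ∨ w ∈ X.E) ∨ w ∈ D.S0 := by
            rintro w (h1 | h1 | h1)
            · rcases hsp w h1 with h2 | h2
              · exact Or.inl h2
              · exact Or.inr (Or.inl (Or.inl h2))
            · exact Or.inr (Or.inl (Or.inr h1))
            · exact Or.inr (Or.inr h1)
          have fixw : ∀ w, (w ∈ H35.CF.sp Zc b ∨ w ∈ X.E) → s w = w := by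
            rintro w (h1 | h1)
            · exact hspb w h1
            · exact hEf w h1
          have inZ : ∀ w, (w ∈ H35.CF.sp Zc b ∨ w ∈ X.E) → w ∈ W.Z := by
            rintro w (h1 | h1)
            · exact hZc (mem_sp.1 h1).1
            · exact hE h1
          rcases cs y py with ⟨j, rfl⟩ | h1 | h1
          · -- `y = v j`
            obtain ⟨h2, h3⟩ := hxy (hZc (a1 j).1)
            rcases cs x px with ⟨i, rfl⟩ | h4 | h4
            · right
              intro h5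
              rw [s1, s1] at h5
              have h6 := (h5 (hZc (b1 i).1)).2
              have hij : i ≠ j := fun h => hne (by rw [h])
              rcases ho.2 i j hij with h7 | h7
              · omega
              · omega
            · right
              intro h5
              rw [s1, fixw x h4] at h5
              have h6 := (h5 h2).2
              rcases h4 with h4 | h4
              · rcases ho.1 j x h4 with h7 | h7
                · omega
                · omega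
              · have h7 := hET x h4
                have h8 := (hpp j).2
                have h9 : (nm (v' j) : ℝ) ≤ nm x := by exact_mod_cast h6
                linarith
            · exact absurd h4 (hZs x h2)
          · -- `y` is fixed and in `Z`
            obtain ⟨h2, h3⟩ := hxy (inZ y h1)
            rcases cs x px with ⟨i, rfl⟩ | h4 | h4
            · right
              intro h5
              rw [s1, fixw y h1] at h5
              have h6 := (h5 (hZc (b1 i).1)).2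
              rcases h1 with h1 | h1
              · rcases ho.1 i y h1 with h7 | h7
                · omega
                · omega
              · have h7 := hET y h1
                have h8 := (hpp i).1
                have h9 : (nm (v i) : ℝ) ≤ nm y := by exact_mod_cast h3
                linarith
            · exact Or.inl ⟨fixw x h4, fixw y h1⟩
            · exact absurd h4 (hZs x h2)
          · -- `y ∈ S0`
            rcases cs x px with ⟨i, rfl⟩ | h4 | h4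
            · right
              intro h5
              rw [s1, hSf y h1] at h5
              exact hZs y (h5 (hZc (b1 i).1)).1 h1
            · exact Or.inl ⟨fixw x h4, hSf y h1⟩
            · exact Or.inl ⟨hSf x h4, hSf y h1⟩
      ze := hZE }
  have hvs : (fun k => s (v k)) = v' := by
    funext k
    exact s1 k
  refine ⟨hsy.kxe G B e₀, ?_, hsy.nl G B e₀, hsy.ax G B τ₀ e₀, fun M => hsy.rich M⟩
  have h1 := hsy.lk G B e₀ v fun k => by
    rw [mem_sp, up_of b v l a2 k]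
    exact ⟨(a1 k).1, Option.some_ne_none _⟩
  rw [hvs] at h1
  exact h1

end H73.S3
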