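import Pool.Agent.H73.S3.Rei
import Pool.Agent.H73.S3.Rem
import Pool.Agent.H73.S3.Ord
import Pool.Agent.H73.S3.Uns
import Pool.Agent.H73.S3.Exa
import Pool.Agent.H73.S3.Adf

/-!
# [H73 S3 NEG] the negligible part and the stage theorem (MP_b39724_nt, stage 3, chapter B)

`stg_eq`: `Mm (m + 1) = Mm m + NX` (`exa`). `neg`: `NX` is negligible if the box inequality `BxF` holds. `stg`: the stage theorem.
Proof of `neg`: `rei`; for fixed `τ₀`, `e₀`: `rem` with `R = Lk` and `G f = wt * AX * FX` (`uns`); for fixed `l`: `bdo` with `ε`, `b = 1`, `W = PPc`,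
`g b v = [Lk, Rich] AX / Nl / |S|` (`ord`; `‖Hh‖ ≤ |S|`, `1 ≤ Nl` if linked), `F b v = [Kx, Lk, (O)] FX` (`kr_le`, `hk_iff`, `neg_ax`). The number of the `τ₀`, `e₀`, `l` is bounded.
-/

set_option autoImplicit false

open scoped NumberField commutatorElement
open IsDedekindDomain
open scoped Classical

noncomputable section

namespace H73.S3

open H63.MA H38.BB H38.BG H57.PC H57.BRA H77.WD H77.WE H77.PC3 H35.CF H35.UB H77.S3 H71.S3 H1.S3

attribute [local instance 50] Fintype.ofFinite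

variable {K : Type} [Field K] [NumberField K] {Ω : Type} [Field Ω] [Algebra K Ω]
  {p N : ℕ} {ζ : K} {D : RD0 K p ζ} {Q : DP K Ω} {A : GS D Ω} {P : Type} [Group P]
  {c : CL p N P} {S : Type} [Group S] [MulDistribMulAction P S] {q m : ℕ}

/-- the weight: cut-off and richness -/
def wR (X : FD A P S) (W : WF A) (T : ℝ) (Zc : Finset (Pl K)) (M : ℕ) (ψ : ℝ → ℝ) (Y : ℝ)
    (f : Pl K → Option (Px c)) : ℂ :=
  if Rich X W T Zc M f then ((ψ (nr (sp Zc f) / Y) : ℝ) : ℂ) else 0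

theorem stg_eq [Fintype S] [Fintype P] [NeZero q] (hp : p.Prime) (G : SG c S) (B : SD D Q A)
    (X : FD A P S) (W : WF A) {k Mw c₀ : ℕ} (T : ℝ) (Zc : Finset (Pl K)) (hm : 1 ≤ m)
    (wt : (Pl K → Option (Px c)) → ℂ)
    (hok : ∀ f ∈ Cf Zc (Px c), wt f ≠ 0 → (adf G B X W T Zc f).Ok p k Mw q c₀ G.Pi) :
    Mm G B X W T Zc wt (m + 1) = Mm G B X W T Zc wt m + NX q G B X W T Zc wt m := by
  unfold Mm NX
  rw [← Finset.sum_add_distrib]
  refine Finset.sum_congr rfl fun f hf => ?_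
  by_cases hw : wt f = 0
  · rw [hw, zero_mul, zero_mul, zero_mul, add_zero]
  · rw [← mul_add]
    refine congrArg _ ?_
    have hk : ∀ (α : Type) (i1 i2 : Fintype α) (Q : α → Prop) (d1 d2 : DecidablePred Q)
        (F : α → ℂ), @Finset.sum _ _ _ (@Finset.filter _ Q d1 (@Finset.univ _ i1)) F =
          @Finset.sum _ _ _ (@Finset.filter _ Q d2 (@Finset.univ _ i2)) F := by
      intro α i1 i2 Q d1 d2 F
      rw [Subsingleton.elim i1 i2, Subsingleton.elim d1 d2]
    refine (exa (q := q) (adf G B X W T Zc f) hp (hok f hf hw) m hm).trans ?_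
    refine congrArg _ ?_
    exact hk _ _ _ _ _ _ _

/-- the hypotheses of the negligible part -/
structure NgOk (G : SG c S) (B : SD D Q A) (X : FD A P S) (W : WF A) (k Mw q c₀ : ℕ) (T : ℝ)
    (Zc : Finset (Pl K)) : Prop where
  okX : X.Ok G B W
  okW : W.Ok B k Mw
  srt : W.Srt
  zc : Zc ⊆ W.Z
  ez : X.E ⊆ W.Z
  ze : Disjoint Zc X.E
  et : ∀ v ∈ X.E, (nm v : ℝ) ≤ T
  pP : IsPGroup p P
  pS : IsPGroup p S
  nil : gm S (c₀ + 1) = ⊥
  qe : ∀ s : S, s ^ q = 1
  kM : Mw ≤ p ^ k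
  mx : Nat.card P * Nat.card S ^ 2 * q ≤ Mw
  qp : ∃ r, q = p ^ r

section aux

variable {S' P' : Type} [Group S'] [Group P'] [MulDistribMulAction P' S'] {J V : Type}

private theorem neg_h [Fintype S'] (X : AD S' P' J V) (m : ℕ) (τ : V → S') (x : J → SP S' P') :
    ‖X.H m τ x‖ ≤ Fintype.card S' := by
  unfold AD.H
  rw [norm_div, norm_mul, Complex.norm_natCast, Complex.norm_natCast, Complex.norm_natCast]
  refine div_le_of_le_mul₀ (Nat.cast_nonneg _) (Nat.cast_nonneg _) ?_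
  refine mul_le_mul ?_ ?_ (Nat.cast_nonneg _) (Nat.cast_nonneg _)
  · have h1 : Nat.card (gm S' (m + 1)) ≤ Nat.card S' := Subgroup.card_le_card_group _
    rw [Nat.card_eq_fintype_card (α := S')] at h1
    exact_mod_cast h1
  · exact_mod_cast Finset.card_filter_le _ _

private theorem neg_hh [Fintype S'] {q m : ℕ} (X : AD S' P' J V) (τ : V → S')
    (x : J → SP S' P') (η : X.Jf → Du S' q m × Du S' q (m + 1)) :
    ‖X.Hh m τ x η‖ ≤ Fintype.card S' := by
  unfold AD.Hh
  rw [norm_div, Complex.norm_natCast]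
  refine div_le_of_le_mul₀ (Nat.cast_nonneg _) (Nat.cast_nonneg _) ?_
  refine (norm_sum_le _ _).trans ?_
  refine (Finset.sum_le_card_nsmul _ _ (Fintype.card S' : ℝ) fun u _ => ?_).trans ?_
  · rw [norm_mul, ep_norm, mul_one]
    exact neg_h X _ _ _
  · rw [nsmul_eq_mul, mul_comm]

end aux

private theorem neg_sp (Zc : Finset (Pl K)) (f : Pl K → Option (Elb c S q m)) :
    sp Zc (lf f) = sp Zc f := by
  unfold sp lf
  refine Finset.filter_congr fun v _ => ?_
  rw [Ne, Option.map_eq_none_iff]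

private theorem neg_y (G : SG c S) (B : SD D Q A) (X : FD A P S) (W : WF A) (T : ℝ)
    (Zc : Finset (Pl K)) (hZE : Disjoint Zc X.E) (f : Pl K → Option (Elb c S q m)) (v : Pl K)
    (hv : v ∈ Zc) (a : Elb c S q m) (h : f v = some a) :
    (adx G B X W T Zc f).y (Sum.inl v) = G.y a.1 := by
  have h1 : v ∉ X.E := fun h2 => Finset.disjoint_left.1 hZE hv h2
  have h2 : (adx G B X W T Zc f).t (Sum.inl v) = il (G.y a.1) := by
    show (if v ∈ X.E then (⟨X.sv v, X.φ (W.L.t v)⟩ : SP S P) else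
      (if v ∈ Zc then lf f v else none).elim 1 fun s => il (G.y s)) = _
    rw [if_neg h1, if_pos hv]
    unfold lf
    rw [h]
    rfl
  unfold AD.y
  rw [h2]
  rfl

/-- the conditions of the amplitude at the new places -/
private theorem neg_ax [Fintype S] [Fintype P] [NeZero q] (G : SG c S) (B : SD D Q A)
    (X : FD A P S) (W : WF A) (T : ℝ)
    (Zc : Finset (Pl K)) (hZE : Disjoint Zc X.E) (τ₀ : Pl K → S) (e₀ : Pl K ⊕ Fin A.g → El S P q m)
    (b : Pl K → Option (Elb c S q m)) (v : Fin (m + 1) → Pl K)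
    (hv : v ∈ H35.CF.Fr Zc (PPc X W T) b (m + 1)) (l : Fin (m + 1) → Elb c S q m)
    (h : AX G B X W T Zc τ₀ e₀ (up b v l) ≠ 0) :
    ∀ k, ∀ z : Gr S m, ((l k).2.2.2).ap (br m (G.y (l k).1) z) = 0 := by
  intro k z
  have h1 : (∀ w ∈ sp Zc (up b v l), PPc X W T w → ∀ z : Gr S m,
      (kf (up b v l) w).ap (br m ((adx G B X W T Zc (up b v l)).y (Sum.inl w)) z) = 0) := by
    by_contra hc
    refine h ?_
    unfold AX
    rw [if_neg]
    exact fun hh => hc hh.2.1
  rw [mem_fr] at hv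
  have h2 : up b v l (v k) = some (l k) := up_of b v l hv.2 k
  have h3 := h1 (v k) (by
    rw [mem_sp, h2]
    exact ⟨(hv.1 k).1, Option.some_ne_none _⟩) (hv.1 k).2.1 z
  rw [neg_y G B X W T Zc hZE (up b v l) (v k) (hv.1 k).1 (l k) h2] at h3
  have h4 : kf (up b v l) (v k) = (l k).2.2.2 := by
    unfold kf
    rw [h2]
    rfl
  rw [h4] at h3
  exact h3

private theorem neg_axle [Fintype S] [Fintype P] [NeZero q] (G : SG c S) (B : SD D Q A)
    (X : FD A P S) (W : WF A) (T : ℝ)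
    (Zc : Finset (Pl K)) (τ₀ : Pl K → S) (e₀ : Pl K ⊕ Fin A.g → El S P q m)
    (f : Pl K → Option (Elb c S q m)) :
    ‖AX G B X W T Zc τ₀ e₀ f‖ ≤ Fintype.card S := by
  unfold AX
  split_ifs with h
  · rw [norm_div, norm_pow, Complex.norm_natCast]
    refine (div_le_self (norm_nonneg _) (one_le_pow₀ ?_)).trans (neg_hh _ _ _ _)
    exact_mod_cast Fintype.card_pos
  · rw [norm_zero]
    exact Nat.cast_nonneg _

private theorem neg_fxle [Fintype S] [Fintype P] [NeZero q] (G : SG c S) (B : SD D Q A)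
    (X : FD A P S) (W : WF A) (T : ℝ)
    (Zc : Finset (Pl K)) (τ₀ : Pl K → S) (e₀ : Pl K ⊕ Fin A.g → El S P q m)
    (f : Pl K → Option (Elb c S q m)) :
    ‖FX G B X W T Zc τ₀ e₀ f‖ ≤ 1 := by
  unfold FX
  split_ifs with h
  · exact kr_le _ _ _
  · rw [norm_zero]
    exact zero_le_one

theorem neg (hp : p.Prime) [Fintype S] [Fintype P] [NeZero q] (G : SG c S) (B : SD D Q A)
    (m : ℕ) (hm : 1 ≤ m) (hF : Fre G q m) (M : ℕ) (hM : m + 2 ≤ M) (c₀ g₀ : ℕ) (A₁ ε : ℝ)
    (hA : 0 ≤ A₁) (hε : 0 < ε) :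
    ∃ C₁ A' C : ℝ, 3 ≤ C₁ ∧ 0 ≤ A' ∧ 0 < C ∧ ∀ Y : ℝ, 3 ≤ Y →
      ∀ (k Mw : ℕ) (X : FD A P S) (W : WF A) (Zc : Finset (Pl K)), X.E.card ≤ g₀ →
        NgOk G B X W k Mw q c₀ (Real.exp (Real.log Y ^ ε)) Zc →
      ∀ ψ : ℝ → ℝ, (∀ t, |ψ t| ≤ 1) → (∀ t, 2 ≤ t → ψ t = 0) → (∀ s t, |ψ s - ψ t| ≤ |s - t|) →
      BxF (q := q) G B X W (Real.exp (Real.log Y ^ ε)) Zc m C₁ A' Y →
      ‖NX q G B X W (Real.exp (Real.log Y ^ ε)) Zc
        (wR X W (Real.exp (Real.log Y ^ ε)) Zc M ψ Y) m‖ ≤ C * Y * Real.log Y ^ (-A₁) := by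
  have hnS : (1 : ℝ) ≤ (Fintype.card S : ℝ) := by
    exact_mod_cast Fintype.card_pos
  have hnE : (1 : ℝ) ≤ (Fintype.card (El S P q m) : ℝ) := by
    have h1 : 0 < Fintype.card (El S P q m) := Fintype.card_pos_iff.2 ⟨((0, 0), 1)⟩
    exact_mod_cast h1
  obtain ⟨C₁, A', C₀, h1, h2, h3, hb⟩ := bdo K (Elb c S q m) (m + 1) 1 A₁ ε zero_le_one hA hε
  have hC : (0 : ℝ) < (Fintype.card S : ℝ) ^ (g₀ + A.g) *
      ((Fintype.card (El S P q m) : ℝ) ^ (g₀ + A.g) *
        (((Fintype.card (Elb c S q m) : ℝ) ^ (m + 1) + 1) * ((Fintype.card S : ℝ) * C₀))) := by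
    have a1 : (0 : ℝ) < (Fintype.card S : ℝ) := by linarith
    have a2 : (0 : ℝ) < (Fintype.card (El S P q m) : ℝ) := by linarith
    positivity
  refine ⟨C₁, A', _, h1, h2, hC, fun Y hY k Mw X W Zc hg hok ψ hψ1 hψ2 hψ3 hbx => ?_⟩
  obtain ⟨T, hT⟩ : ∃ T, T = Real.exp (Real.log Y ^ ε) := ⟨_, rfl⟩
  rw [← hT] at hok hbx ⊢
  obtain ⟨wt, hwt⟩ : ∃ wt, wt = wR X W T Zc M ψ Y := ⟨_, rfl⟩
  rw [← hwt]
  have hZ0 : Disjoint Zc D.S0 :=
    Finset.disjoint_left.2 fun v hv hv' => hok.okW.zs v (hok.zc hv) hv'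
  have hrich : ∀ f : Pl K → Option (Px c), wt f ≠ 0 → Rich X W T Zc M f := by
    intro f hf
    by_contra hc
    refine hf ?_
    rw [hwt]
    exact if_neg hc
  have hOkR : ∀ f : Pl K → Option (Px c), Rich X W T Zc M f →
      (adf G B X W T Zc f).Ok p k Mw q c₀ G.Pi := fun f hf =>
    adf_ok hp G B X W hok.okX hok.okW T Zc hok.ze hok.zc hok.ez f
      (fun s => le_trans (by omega) (hf s)) hok.pP hok.pS hok.nil hok.qe hok.kM hok.mx
      hok.qp
  have hOk : ∀ f : Pl K → Option (Px c), wt f ≠ 0 →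
      (adf G B X W T Zc f).Ok p k Mw q c₀ G.Pi := fun f hf => hOkR f (hrich f hf)
  rw [rei (q := q) (k := k) (Mw := Mw) (c₀ := c₀) hp G B X W T Zc hok.ze hZ0 hm wt
    fun f _ hf => hOk f hf]
  have hlogY : (0 : ℝ) ≤ Real.log Y ^ (-A₁) :=
    Real.rpow_nonneg (Real.log_nonneg (by linarith)) _
  -- one family at the fixed places
  have key : ∀ (τ : V0 B X → S) (e : J0 X → El S P q m),
      ‖∑ f ∈ Cf Zc (Elb c S q m), wt (lf f) * AX G B X W T Zc (xt0 B X τ) (xe0 X e) f *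
        FX G B X W T Zc (xt0 B X τ) (xe0 X e) f‖ ≤
      ((Fintype.card (Elb c S q m) : ℝ) ^ (m + 1) + 1) *
        ((Fintype.card S : ℝ) * (C₀ * Y * Real.log Y ^ (-A₁))) := by
    intro τ e
    rw [rem Zc (PPc X W T) (m + 1) (Lk G B X W T Zc (xe0 X e))
      (fun f => wt (lf f) * AX G B X W T Zc (xt0 B X τ) (xe0 X e) f *
        FX G B X W T Zc (xt0 B X τ) (xe0 X e) f) (fun f hf hne => by
        have a1 := left_ne_zero_of_mul (left_ne_zero_of_mul hne)
        have a2 := right_ne_zero_of_mul (left_ne_zero_of_mul hne)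
        have a3 := right_ne_zero_of_mul hne
        exact uns (k := k) (Mw := Mw) (c₀ := c₀) hp G B X W T Zc hok.ze hm hF M hM
          (xt0 B X τ) (xe0 X e) f hf (hrich _ a1) (hOk _ a1) a2 a3)]
    have hl : ∀ l : Fin (m + 1) → Elb c S q m, ‖∑ b ∈ Cf Zc (Elb c S q m),
        ∑ v ∈ H35.CF.Fr Zc (PPc X W T) b (m + 1),
          if Lk G B X W T Zc (xe0 X e) (up b v l) v then
            (wt (lf (up b v l)) * AX G B X W T Zc (xt0 B X τ) (xe0 X e) (up b v l) *
              FX G B X W T Zc (xt0 B X τ) (xe0 X e) (up b v l)) /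
              (Nl Zc (PPc X W T) (m + 1) (Lk G B X W T Zc (xe0 X e)) (up b v l) : ℂ) else 0‖ ≤
        (Fintype.card S : ℝ) * (C₀ * Y * Real.log Y ^ (-A₁)) := by
      intro l
      obtain ⟨g, hgd⟩ : ∃ g : (Pl K → Option (Elb c S q m)) → (Fin (m + 1) → Pl K) → ℂ,
          g = fun b v => if Lk G B X W T Zc (xe0 X e) (up b v l) v ∧
            Rich X W T Zc M (lf (up b v l)) then
            AX G B X W T Zc (xt0 B X τ) (xe0 X e) (up b v l) /
              ((Nl Zc (PPc X W T) (m + 1) (Lk G B X W T Zc (xe0 X e)) (up b v l) : ℂ) *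
                (Fintype.card S : ℂ)) else 0 := ⟨_, rfl⟩
      obtain ⟨F, hFd⟩ : ∃ F : (Pl K → Option (Elb c S q m)) → (Fin (m + 1) → Pl K) → ℂ,
          F = fun b v => if (adx G B X W T Zc (up b v l)).Kx ((adx G B X W T Zc (up b v l)).et
                (ef (xe0 X e) (up b v l))) (kx G B X W T Zc (xe0 X e) (up b v l)) ∧
              Lk G B X W T Zc (xe0 X e) (up b v l) v ∧ ∀ k, ∀ z : Gr S m,
              ((l k).2.2.2).ap (br m (G.y (l k).1) z) = 0 then
            FX G B X W T Zc (xt0 B X τ) (xe0 X e) (up b v l) else 0 := ⟨_, rfl⟩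
      have hS0 : (Fintype.card S : ℂ) ≠ 0 := by
        exact_mod_cast Fintype.card_ne_zero
      have hsum : (∑ b ∈ Cf Zc (Elb c S q m),
        ∑ v ∈ H35.CF.Fr Zc (PPc X W T) b (m + 1),
          if Lk G B X W T Zc (xe0 X e) (up b v l) v then
            (wt (lf (up b v l)) * AX G B X W T Zc (xt0 B X τ) (xe0 X e) (up b v l) *
              FX G B X W T Zc (xt0 B X τ) (xe0 X e) (up b v l)) /
              (Nl Zc (PPc X W T) (m + 1) (Lk G B X W T Zc (xe0 X e)) (up b v l) : ℂ) else 0) =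
        (Fintype.card S : ℂ) * ∑ b ∈ Cf Zc (Elb c S q m),
          ∑ v ∈ H35.CF.Fr Zc (PPc X W T) b (m + 1), g b v *
            ((ψ (nr (sp Zc b) * (∏ k, (nm (v k) : ℝ)) / Y) : ℝ) : ℂ) * F b v := by
        rw [Finset.mul_sum]
        refine Finset.sum_congr rfl fun b _ => ?_
        rw [Finset.mul_sum]
        refine Finset.sum_congr rfl fun v hv => ?_
        rw [hgd, hFd]
        beta_reduce
        by_cases c1 : Lk G B X W T Zc (xe0 X e) (up b v l) v
        · rw [if_pos c1]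
          by_cases c2 : Rich X W T Zc M (lf (up b v l))
          · rw [if_pos ⟨c1, c2⟩]
            have hw : wt (lf (up b v l)) =
                ((ψ (nr (sp Zc b) * (∏ k, (nm (v k) : ℝ)) / Y) : ℝ) : ℂ) := by
              rw [hwt]
              unfold wR
              rw [if_pos c2, neg_sp]
              have e1 : nr (sp Zc (up b v l)) = nr (sp Zc b) * ∏ k, (nm (v k) : ℝ) :=
                H1.BD.sp_up_prod Zc (PPc X W T) b v l hv fun v => (nm v : ℝ)
              rw [e1]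
            rw [hw]
            by_cases c3 : AX G B X W T Zc (xt0 B X τ) (xe0 X e) (up b v l) = 0
            · rw [c3]
              simp
            · rw [if_pos ⟨(hk_iff (adx G B X W T Zc (up b v l)) hp (hOkR _ c2) m _).1, c1,
                neg_ax G B X W T Zc hok.ze _ _ b v hv l c3⟩]
              field_simp
          · have hw : wt (lf (up b v l)) = 0 := by
              rw [hwt]
              exact if_neg c2
            rw [hw, if_neg fun h => c2 h.2]
            simp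
        · rw [if_neg c1, if_neg fun h => c1 h.1, if_neg fun h => c1 h.2.1]
          simp
      rw [hsum, norm_mul, Complex.norm_natCast]
      refine mul_le_mul_of_nonneg_left ?_ (Nat.cast_nonneg _)
      refine hb Y hY Zc (PPc X W T) (fun v hv => by rw [← hT]; exact hv.1) ψ hψ1 hψ2 hψ3 g F
        ?_ ?_ ?_ ?_
      · intro b _ v hv
        rw [hgd]
        beta_reduce
        split_ifs with c1
        · rw [norm_div, norm_mul, Complex.norm_natCast, Complex.norm_natCast]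
          have hN : (1 : ℝ) ≤
              (Nl Zc (PPc X W T) (m + 1) (Lk G B X W T Zc (xe0 X e)) (up b v l) : ℝ) := by
            have a1 : 0 < Nl Zc (PPc X W T) (m + 1) (Lk G B X W T Zc (xe0 X e)) (up b v l) := by
              unfold Nl
              rw [Finset.card_pos]
              refine ⟨v, Finset.mem_filter.2 ⟨?_, c1.1⟩⟩
              unfold Tp
              rw [mem_fr] at hv
              rw [Finset.mem_filter, Fintype.mem_piFinset]
              refine ⟨fun k => ?_, hv.2⟩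
              rw [Finset.mem_filter, mem_sp, up_of b v l hv.2 k]
              exact ⟨⟨(hv.1 k).1, Option.some_ne_none _⟩, (hv.1 k).2.1⟩
            exact_mod_cast a1
          refine div_le_one_of_le₀ ?_ (by positivity)
          refine (neg_axle G B X W T Zc _ _ _).trans ?_
          nlinarith
        · rw [norm_zero]
          exact zero_le_one
      · intro b hbm v hv v' hv' ho
        obtain ⟨_, o2, o3, o4, o5⟩ := ord G B X W T Zc hok.zc hok.ez hok.okW.zs hok.okW.nd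
          hok.okW.lz hok.ze hok.et hok.srt (xt0 B X τ) (xe0 X e) l b hbm v v' hv hv' ho
        rw [hgd]
        beta_reduce
        rw [o3, o4]
        refine if_congr ?_ rfl rfl
        rw [o2, o5 M]
      · intro b _ v _
        rw [hFd, one_pow]
        beta_reduce
        split_ifs with c1
        · exact neg_fxle G B X W T Zc _ _ _
        · rw [norm_zero]
          exact zero_le_one
      · intro lo hi hlh
        rw [← hT] at hlh
        have h5 := hbx τ e l lo hi hlh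
        rw [hFd]
        exact h5
    refine (norm_sum_le _ _).trans ?_
    refine (Finset.sum_le_card_nsmul _ _ _ fun l _ => hl l).trans ?_
    rw [nsmul_eq_mul, Finset.card_univ, Fintype.card_fun, Fintype.card_fin]
    push_cast
    refine mul_le_mul_of_nonneg_right (by linarith) ?_
    have : (0 : ℝ) < Y := by linarith
    positivity
  have hcV : (V0 B X).card ≤ g₀ + A.g := by
    unfold V0
    refine (Finset.card_union_le _ _).trans (Nat.add_le_add hg ?_)
    refine Finset.card_image_le.trans ?_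
    rw [Finset.card_univ, Fintype.card_fin]
  have hcJ : (J0 X).card ≤ g₀ + A.g := by
    unfold J0
    rw [Finset.card_disjSum, Finset.card_univ, Fintype.card_fin]
    exact Nat.add_le_add_right hg _
  unfold EX
  have hR : (0 : ℝ) ≤ ((Fintype.card (Elb c S q m) : ℝ) ^ (m + 1) + 1) *
        ((Fintype.card S : ℝ) * (C₀ * Y * Real.log Y ^ (-A₁))) := by
    have : (0 : ℝ) < Y := by linarith
    positivity
  have hE : ∀ τ : V0 B X → S, ‖∑ e : J0 X → El S P q m, ∑ f ∈ Cf Zc (Elb c S q m),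
      wt (lf f) * AX G B X W T Zc (xt0 B X τ) (xe0 X e) f *
        FX G B X W T Zc (xt0 B X τ) (xe0 X e) f‖ ≤
      (Fintype.card (El S P q m) : ℝ) ^ (g₀ + A.g) *
        (((Fintype.card (Elb c S q m) : ℝ) ^ (m + 1) + 1) *
          ((Fintype.card S : ℝ) * (C₀ * Y * Real.log Y ^ (-A₁)))) := by
    intro τ
    refine (norm_sum_le _ _).trans ?_
    refine (Finset.sum_le_card_nsmul _ _ _ fun e _ => key τ e).trans ?_
    rw [nsmul_eq_mul, Finset.card_univ, Fintype.card_fun, Fintype.card_coe]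
    push_cast
    exact mul_le_mul_of_nonneg_right (pow_le_pow_right₀ hnE hcJ) hR
  refine (norm_sum_le _ _).trans ?_
  refine (Finset.sum_le_card_nsmul _ _ _ fun τ _ => hE τ).trans ?_
  rw [nsmul_eq_mul, Finset.card_univ, Fintype.card_fun, Fintype.card_coe]
  push_cast
  refine (mul_le_mul_of_nonneg_right (pow_le_pow_right₀ hnS hcV)
    (mul_nonneg (by positivity) hR)).trans (le_of_eq ?_)
  ring

/-- THE STAGE THEOREM -/
theorem stg (hp : p.Prime) [Fintype S] [Fintype P] [NeZero q] (G : SG c S) (B : SD D Q A)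
    (m : ℕ) (hm : 1 ≤ m) (hF : Fre G q m) (M : ℕ) (hM : m + 2 ≤ M) (c₀ g₀ : ℕ) (A₁ ε : ℝ)
    (hA : 0 ≤ A₁) (hε : 0 < ε) :
    ∃ C₁ A' C : ℝ, 3 ≤ C₁ ∧ 0 ≤ A' ∧ 0 < C ∧ ∀ Y : ℝ, 3 ≤ Y →
      ∀ (k Mw : ℕ) (X : FD A P S) (W : WF A) (Zc : Finset (Pl K)), X.E.card ≤ g₀ →
        NgOk G B X W k Mw q c₀ (Real.exp (Real.log Y ^ ε)) Zc →
      ∀ ψ : ℝ → ℝ, (∀ t, |ψ t| ≤ 1) → (∀ t, 2 ≤ t → ψ t = 0) → (∀ s t, |ψ s - ψ t| ≤ |s - t|) →
      BxF (q := q) G B X W (Real.exp (Real.log Y ^ ε)) Zc m C₁ A' Y →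
      ‖Mm G B X W (Real.exp (Real.log Y ^ ε)) Zc
          (wR X W (Real.exp (Real.log Y ^ ε)) Zc M ψ Y) (m + 1) -
        Mm G B X W (Real.exp (Real.log Y ^ ε)) Zc
          (wR X W (Real.exp (Real.log Y ^ ε)) Zc M ψ Y) m‖ ≤ C * Y * Real.log Y ^ (-A₁) := by
  obtain ⟨C₁, A', C, h1, h2, h3, h⟩ := neg (q := q) hp G B m hm hF M hM c₀ g₀ A₁ ε hA hε
  refine ⟨C₁, A', C, h1, h2, h3, fun Y hY k Mw X W Zc hg hok ψ hψ1 hψ2 hψ3 hb => ?_⟩
  have hkey := h Y hY k Mw X W Zc hg hok ψ hψ1 hψ2 hψ3 hb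
  rw [stg_eq (q := q) (k := k) (Mw := Mw) (c₀ := c₀) hp G B X W _ Zc hm, add_sub_cancel_left]
  · exact hkey
  · intro f _ hw
    have hr : Rich X W (Real.exp (Real.log Y ^ ε)) Zc M f := by
      by_contra hc
      exact hw (if_neg hc)
    exact adf_ok hp G B X W hok.okX hok.okW _ Zc hok.ze hok.zc hok.ez f
      (fun s => le_trans (by omega) (hr s)) hok.pP hok.pS hok.nil hok.qe hok.kM hok.mx hok.qp

end H73.S3
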