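import Pool.Agent.H77.S3.Def
import Pool.Agent.H63.MA.RayC
import Pool.Agent.H1.S3.Prz

/-!
# H73-S3-AL: the exact part of the stage theorem (MP_b39724_nt, stage 3, chapter B; think 1688, 1707, 1715), abstract frame

`S` a finite group with an action of `P`, `SP = S ⋊ P`. Everything is stated for one configuration, for a free group on letters `J`; `V` the places.
* `gm S m`: `gam_m(S)`, `gm S 1 = ⊤`. `Gr S m = gam_m / gam_(m+1)`, additive, `gk m u` the class of `u ∈ gm S m` (`0` for the other `u`); `P` acts on `Gr S m`.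
  `br m s : Gr S m → Gr S (m+1)`, the class of `u` goes to the class of `⁅s, u⁆`. `Du S q m`: the homomorphisms `Gr S m → ZMod q`, `P` acts by
  `(g χ)(u) = χ (g⁻¹ u)`.
* `AD`: the data: `pj j` the place of the letter `j`, `bl v` the letters of the place `v`, `l` the list of the places (in the order of the relation), `W j` the words,
  `Jf` the letters which are not killed, `pp j`: split and large (`t j ∈ S`), `t j` the value of `j` before conjugation, `G` the conditions.
* `th τ : FreeGroup J → SP`: `j ↦ τ (t j) τ⁻¹`, `τ` at the place of `j`. `vl τ j`: the value of the word `W j`, conjugated back. `ph`: the part in `P`.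
  `RR τ x`: the left side of the relation for the values `x`. `mv u x`: the values `u j * x j`, `j ∈ Jf`.
* `H m τ x` (`m ≥ 1`): `|gam_(m+1)|` times the probability of `G` and `RR = 1` for `mv u x`, `u` random with `u j ∈ gam_m` if `pp j`, `u j ∈ gam_(m+1)` otherwise.
* `Hh m τ x χ ξ`: the Fourier coefficients of `H (m+1)` for the changes with `u j ∈ gam_m` (`pp j`), `u j ∈ gam_(m+1)` (otherwise); `χ j : Du S q m`, `ξ j : Du S q (m+1)`.
* `Hk`: the pairs `(χ, ξ)` which survive the averaging over the conjugations: there is a crossed homomorphism `k` with values in `Du S q (m+1)`, `k = 0` at the letters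
  which are killed or `pp`, `ζ_j(k) = ξ j` at the other ones, `k (W_v) = 0` for all places `v`, `k (W j) ∘ br (t j) = 0` for `pp j`.
* `Sv`: the survivors `χ j = - lam ∘ br (t j)`, `ξ j = ζ_j (d lam)`.
* `AD.Ok`: the hypotheses. `Pi : SP → P'` the projection, `N = ker (Pi | S)`.
-/

set_option autoImplicit false

open scoped commutatorElement
open scoped Classical

noncomputable section

namespace H73.S3

open H1.S3

/-- the lower central series, `gm S 1 = ⊤` -/
def gm (S : Type) [Group S] (m : ℕ) : Subgroup S := (⊤ : Subgroup S).lowerCentralSeries (m - 1)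

section lay

variable {S : Type} [Group S]

instance gm_normal (m : ℕ) : (gm S m).Normal := by
  unfold gm
  infer_instance

theorem gm_one : gm S 1 = ⊤ := rfl

theorem gm_succ (m : ℕ) (hm : 1 ≤ m) : gm S (m + 1) = ⁅gm S m, ⊤⁆ := by
  obtain ⟨k, rfl⟩ : ∃ k, m = k + 1 := ⟨m - 1, by omega⟩
  rfl

theorem gm_anti (m : ℕ) : gm S (m + 1) ≤ gm S m := by
  rcases Nat.eq_zero_or_pos m with h | h
  · subst h
    exact le_refl _
  · rw [gm_succ m h]
    exact Subgroup.commutator_le_left _ _

theorem gm_comm (m : ℕ) {u v : S} (hu : u ∈ gm S m) : ⁅u, v⁆ ∈ gm S (m + 1) := by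
  rcases Nat.eq_zero_or_pos m with h | h
  · subst h
    exact Subgroup.mem_top _
  · rw [gm_succ m h]
    exact Subgroup.commutator_mem_commutator hu (Subgroup.mem_top v)

theorem gm_comm' (m : ℕ) {u v : S} (hu : u ∈ gm S m) : ⁅v, u⁆ ∈ gm S (m + 1) := by
  rw [← commutatorElement_inv]
  exact inv_mem (gm_comm m hu)

variable (S) in
/-- the layer `gam_m / gam_(m+1)` -/
def Gr (m : ℕ) : Type := Additive (gm S m ⧸ (gm S (m + 1)).subgroupOf (gm S m))

instance gr_group (m : ℕ) : AddGroup (Gr S m) := by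
  unfold Gr
  infer_instance

instance gr_comm (m : ℕ) : AddCommGroup (Gr S m) :=
  { gr_group m with
    add_comm := by
      intro a b
      induction a using QuotientGroup.induction_on with
      | _ a =>
        induction b using QuotientGroup.induction_on with
        | _ b =>
          refine (QuotientGroup.eq (s := (gm S (m + 1)).subgroupOf (gm S m))).2 ?_
          rw [Subgroup.mem_subgroupOf]
          have h := gm_comm m (v := (a : S)⁻¹) ((gm S m).inv_mem b.2)
          have h2 : (((a * b)⁻¹ * (b * a) : gm S m) : S) = ⁅(b : S)⁻¹, (a : S)⁻¹⁆ := by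
            simp only [Subgroup.coe_mul, Subgroup.coe_inv, commutatorElement_def]
            group
          rw [h2]
          exact h }

instance gr_finite [Finite S] (m : ℕ) : Finite (Gr S m) := by
  unfold Gr
  infer_instance

/-- the class of an element of `gm S m` -/
def gmk (m : ℕ) (u : gm S m) : Gr S m :=
  (Additive.ofMul (QuotientGroup.mk u) : Additive (gm S m ⧸ (gm S (m + 1)).subgroupOf (gm S m)))

/-- the class of an element -/
def gk (m : ℕ) (u : S) : Gr S m := if h : u ∈ gm S m then gmk m ⟨u, h⟩ else 0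

theorem gk_of {m : ℕ} {u : S} (hu : u ∈ gm S m) : gk m u = gmk m ⟨u, hu⟩ := dif_pos hu

theorem gk_mul {m : ℕ} {u v : S} (hu : u ∈ gm S m) (hv : v ∈ gm S m) :
    gk m (u * v) = gk m u + gk m v := by
  rw [gk_of hu, gk_of hv, gk_of (mul_mem hu hv)]
  rfl

theorem gk_zero {m : ℕ} {u : S} (hu : u ∈ gm S m) : gk m u = 0 ↔ u ∈ gm S (m + 1) := by
  rw [gk_of hu]
  have h := QuotientGroup.eq_one_iff (N := (gm S (m + 1)).subgroupOf (gm S m)) (⟨u, hu⟩ : gm S m)
  rw [Subgroup.mem_subgroupOf] at h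
  exact h

theorem gk_surj (m : ℕ) (a : Gr S m) : ∃ u ∈ gm S m, gk m u = a := by
  obtain ⟨u, hu⟩ := QuotientGroup.mk_surjective (s := (gm S (m + 1)).subgroupOf (gm S m)) a
  refine ⟨u.1, u.2, ?_⟩
  rw [gk_of u.2]
  exact hu

/-- lifting of functions on `gm S m` -/
theorem gr_lift {A : Type} [AddCommGroup A] (m : ℕ) (f : S → A)
    (h : ∀ u ∈ gm S m, ∀ v ∈ gm S m, f (u * v) = f u + f v) (h1 : ∀ u ∈ gm S (m + 1), f u = 0) :
    ∃ F : Gr S m →+ A, ∀ u ∈ gm S m, F (gk m u) = f u := by
  let g : gm S m →* Multiplicative A :=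
    { toFun := fun u => Multiplicative.ofAdd (f u)
      map_one' := by
        show Multiplicative.ofAdd (f 1) = 1
        rw [h1 1 (one_mem _)]
        rfl
      map_mul' := fun u v => by
        show Multiplicative.ofAdd (f (u * v)) = _
        rw [h u.1 u.2 v.1 v.2]
        rfl }
  have hg : (gm S (m + 1)).subgroupOf (gm S m) ≤ g.ker := by
    intro u hu
    rw [Subgroup.mem_subgroupOf] at hu
    rw [MonoidHom.mem_ker]
    show Multiplicative.ofAdd (f u) = 1
    rw [h1 _ hu]
    rfl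
  let F : Gr S m →+ A :=
    { toFun := fun a => (Multiplicative.toAdd (QuotientGroup.lift _ g hg
        (Additive.toMul (α := gm S m ⧸ (gm S (m + 1)).subgroupOf (gm S m)) a)) : A)
      map_zero' := by
        show Multiplicative.toAdd (QuotientGroup.lift _ g hg 1) = 0
        rw [map_one]
        rfl
      map_add' := fun a b => by
        show Multiplicative.toAdd (QuotientGroup.lift _ g hg (Additive.toMul
          (α := gm S m ⧸ (gm S (m + 1)).subgroupOf (gm S m)) a * Additive.toMul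
          (α := gm S m ⧸ (gm S (m + 1)).subgroupOf (gm S m)) b)) = _
        rw [map_mul]
        rfl }
  refine ⟨F, fun u hu => ?_⟩
  rw [gk_of hu]
  rfl

theorem gk_one (m : ℕ) : gk m (1 : S) = 0 := (gk_zero (one_mem _)).2 (one_mem _)

theorem gk_inv {m : ℕ} {u : S} (hu : u ∈ gm S m) : gk m u⁻¹ = -gk m u := by
  have h := gk_mul hu (inv_mem hu)
  rw [mul_inv_cancel, gk_one] at h
  exact (neg_eq_of_add_eq_zero_right h.symm).symm

theorem gk_conj {m : ℕ} {u : S} (hu : u ∈ gm S m) (s : S) : gk m (s * u * s⁻¹) = gk m u := by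
  have h1 : s * u * s⁻¹ = ⁅s, u⁆ * u := by
    rw [commutatorElement_def]
    group
  have h2 := gm_comm' m (v := s) hu
  rw [h1, gk_mul (gm_anti m h2) hu, (gk_zero (gm_anti m h2)).2 h2, zero_add]

/-- the bracket with an element -/
theorem br_ex (m : ℕ) (s : S) :
    ∃ F : Gr S m →+ Gr S (m + 1), ∀ u ∈ gm S m, F (gk m u) = gk (m + 1) ⁅s, u⁆ := by
  refine gr_lift m (fun u => gk (m + 1) ⁅s, u⁆) (fun u hu v hv => ?_) fun u hu => ?_
  · have h1 : ⁅s, u * v⁆ = ⁅s, u⁆ * (u * ⁅s, v⁆ * u⁻¹) := by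
      simp only [commutatorElement_def]
      group
    rw [h1, gk_mul (gm_comm' m hu) ((gm_normal (m + 1)).conj_mem _ (gm_comm' m hv) u),
      gk_conj (gm_comm' m hv)]
  · exact (gk_zero (gm_anti _ (gm_comm' (m + 1) hu))).2 (gm_comm' (m + 1) hu)

/-- the class of `u` goes to the class of `⁅s, u⁆` -/
def br (m : ℕ) (s : S) : Gr S m →+ Gr S (m + 1) := (br_ex m s).choose

theorem br_gk {m : ℕ} (s : S) {u : S} (hu : u ∈ gm S m) : br m s (gk m u) = gk (m + 1) ⁅s, u⁆ :=
  (br_ex m s).choose_spec u hu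

variable {P : Type} [Group P] [MulDistribMulAction P S]

theorem gm_smul (g : P) {m : ℕ} {u : S} (hu : u ∈ gm S m) : g • u ∈ gm S m := by
  have hc : (gm S m).Characteristic := by
    unfold gm
    infer_instance
  have h : (gm S m).comap (MulDistribMulAction.toMulEquiv S g).toMonoidHom = gm S m :=
    hc.fixed (MulDistribMulAction.toMulEquiv S g)
  rw [← h] at hu
  exact hu

theorem gra_ex (m : ℕ) (g : P) :
    ∃ F : Gr S m →+ Gr S m, ∀ u ∈ gm S m, F (gk m u) = gk m (g • u) := by
  refine gr_lift m (fun u => gk m (g • u)) (fun u hu v hv => ?_) fun u hu => ?_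
  · rw [smul_mul', gk_mul (gm_smul g hu) (gm_smul g hv)]
  · exact (gk_zero (gm_smul g (gm_anti m hu))).2 (gm_smul g hu)

instance gr_act (m : ℕ) : DistribMulAction P (Gr S m) where
  smul g a := (gra_ex m g).choose a
  one_smul a := by
    obtain ⟨u, hu, rfl⟩ := gk_surj m a
    exact ((gra_ex m (1 : P)).choose_spec u hu).trans (by rw [one_smul])
  mul_smul g h a := by
    obtain ⟨u, hu, rfl⟩ := gk_surj m a
    refine ((gra_ex m (g * h)).choose_spec u hu).trans ?_
    rw [mul_smul]
    refine (((gra_ex m g).choose_spec _ (gm_smul h hu)).symm).trans ?_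
    exact congrArg _ ((gra_ex m h).choose_spec u hu).symm
  smul_zero g := map_zero _
  smul_add g a b := map_add _ a b

theorem smul_gk (g : P) {m : ℕ} {u : S} (hu : u ∈ gm S m) : g • gk m u = gk m (g • u) :=
  (gra_ex m g).choose_spec u hu

theorem smul_br (g : P) (m : ℕ) (s : S) (a : Gr S m) : g • br m s a = br m (g • s) (g • a) := by
  obtain ⟨u, hu, rfl⟩ := gk_surj m a
  rw [br_gk s hu, smul_gk g (gm_comm' m hu), smul_gk g hu, br_gk _ (gm_smul g hu)]
  simp only [commutatorElement_def, smul_mul', smul_inv']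

variable (S) in
/-- the functionals -/
def Du (q m : ℕ) : Type := Gr S m →+ ZMod q

instance du_group (q m : ℕ) : AddCommGroup (Du S q m) := by
  unfold Du
  infer_instance

instance du_finite [Finite S] (q m : ℕ) [NeZero q] : Finite (Du S q m) := by
  unfold Du
  exact DFunLike.finite _

/-- the value -/
def Du.ap {q m : ℕ} (χ : Du S q m) : Gr S m →+ ZMod q := χ

theorem du_ext {q m : ℕ} {χ ξ : Du S q m} (h : ∀ a, χ.ap a = ξ.ap a) : χ = ξ :=
  AddMonoidHom.ext h

theorem ap_add {q m : ℕ} (χ ξ : Du S q m) (a : Gr S m) : (χ + ξ).ap a = χ.ap a + ξ.ap a := rfl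
theorem ap_zero {q m : ℕ} (a : Gr S m) : (0 : Du S q m).ap a = 0 := rfl
theorem ap_neg {q m : ℕ} (χ : Du S q m) (a : Gr S m) : (-χ).ap a = -χ.ap a := rfl
theorem ap_sub {q m : ℕ} (χ ξ : Du S q m) (a : Gr S m) : (χ - ξ).ap a = χ.ap a - ξ.ap a := rfl

instance du_act (q m : ℕ) : DistribMulAction P (Du S q m) where
  smul g χ := (χ.ap.comp (DistribSMul.toAddMonoidHom (Gr S m) g⁻¹) : Gr S m →+ ZMod q)
  one_smul χ := by
    refine du_ext fun a => ?_
    show χ.ap ((1 : P)⁻¹ • a) = χ.ap a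
    rw [inv_one, one_smul]
  mul_smul g h χ := by
    refine du_ext fun a => ?_
    show χ.ap ((g * h)⁻¹ • a) = χ.ap (h⁻¹ • g⁻¹ • a)
    rw [mul_inv_rev, mul_smul]
  smul_zero g := rfl
  smul_add g χ ξ := rfl

theorem ap_smul {q m : ℕ} (g : P) (χ : Du S q m) (a : Gr S m) : (g • χ).ap a = χ.ap (g⁻¹ • a) := rfl

end lay

section fr

/-- `S ⋊ P` -/
abbrev SP (S P : Type) [Group S] [Group P] [MulDistribMulAction P S] : Type :=
  S ⋊[MulDistribMulAction.toMulAut P S] P

variable {S P : Type} [Group S] [Group P] [MulDistribMulAction P S]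

/-- the element of `S` in `SP` -/
def il (u : S) : SP S P := SemidirectProduct.inl u

/-- conjugation by an element of `S` -/
def cj (u : S) (x : SP S P) : SP S P := il u * x * (il u)⁻¹

variable (S P) in
/-- the data of a configuration -/
structure AD (J V : Type) where
  pj : J → V
  bl : V → List J
  l : List V
  W : J → FreeGroup J
  Jf : Finset J
  pp : J → Prop
  t : J → SP S P
  G : (J → SP S P) → Prop

variable {J V : Type} (X : AD S P J V)

/-- the label of a letter in `S` -/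
def AD.y (j : J) : S := (X.t j).left

/-- the part in `P` of the evaluation -/
def AD.ph : FreeGroup J →* P := FreeGroup.lift fun j => (X.t j).right

/-- the evaluation -/
def AD.th (τ : V → S) : FreeGroup J →* SP S P := FreeGroup.lift fun j => cj (τ (X.pj j)) (X.t j)

/-- the values of the words -/
def AD.vl (τ : V → S) (j : J) : SP S P := cj (τ (X.pj j))⁻¹ (X.th τ (X.W j))

/-- the block of a place -/
def AD.bk (x : J → SP S P) (v : V) : SP S P := wd X.t x (X.bl v)

/-- the left side of the relation -/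
def AD.RR (τ : V → S) (x : J → SP S P) : SP S P := (X.l.map fun v => cj (τ v) (X.bk x v)).prod

/-- the changed values -/
def AD.mv (u : X.Jf → S) (x : J → SP S P) (j : J) : SP S P :=
  if h : j ∈ X.Jf then il (u ⟨j, h⟩) * x j else x j

/-- the changes: `gam_m` at the letters `pp`, `gam_(m+1)` at the other ones -/
def AD.Cg [Fintype S] (m : ℕ) : Finset (X.Jf → S) :=
  Finset.univ.filter fun u => ∀ j : X.Jf, u j ∈ gm S (if X.pp j then m else m + 1)

/-- the function `H_m` -/
def AD.H [Fintype S] (m : ℕ) (τ : V → S) (x : J → SP S P) : ℂ :=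
  (Nat.card (gm S (m + 1)) : ℂ) *
    (((X.Cg m).filter fun u => X.G (X.mv u x) ∧ X.RR τ (X.mv u x) = 1).card : ℂ) /
    ((X.Cg m).card : ℂ)

/-- the value of a family of functionals at a change: `(η j).1` at the letters `pp`, `(η j).2` at the other ones -/
def AD.pr {q m : ℕ} (η : X.Jf → Du S q m × Du S q (m + 1)) (u : X.Jf → S) : ZMod q :=
  ∑ j : X.Jf, if X.pp j then (η j).1.ap (gk m (u j)) else (η j).2.ap (gk (m + 1) (u j))

/-- the Fourier coefficients of `H (m + 1)` -/
def AD.Hh [Fintype S] {q : ℕ} (m : ℕ) (τ : V → S) (x : J → SP S P)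
    (η : X.Jf → Du S q m × Du S q (m + 1)) : ℂ :=
  (∑ u ∈ X.Cg m, X.H (m + 1) τ (X.mv u x) * H63.MA.ep q (-X.pr η u)) / ((X.Cg m).card : ℂ)

/-- crossed homomorphism for the action through `ph` -/
def AD.CHp {M : Type} [AddCommGroup M] [DistribMulAction P M] (k : FreeGroup J → M) : Prop :=
  ∀ a b, k (a * b) = k a + X.ph a • k b

/-- the superfluous components are `0` -/
def AD.Ff {q m : ℕ} (η : X.Jf → Du S q m × Du S q (m + 1)) : Prop :=
  ∀ j : X.Jf, if X.pp j then (η j).2 = 0 else (η j).1 = 0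

/-- the crossed homomorphism `k` belongs to the family `η` -/
structure AD.Kx {q m : ℕ} (η : X.Jf → Du S q m × Du S q (m + 1))
    (k : FreeGroup J → Du S q (m + 1)) : Prop where
  ch : X.CHp k
  of : ∀ j, ¬(j ∈ X.Jf ∧ ¬X.pp j) → k (FreeGroup.of j) = 0
  ze : ∀ j : X.Jf, ¬X.pp j → zeta k FreeGroup.of X.W (X.bl (X.pj j)) j = (η j).2

/-- the families which survive the averaging over the conjugations -/
def AD.Hk {q m : ℕ} (η : X.Jf → Du S q m × Du S q (m + 1)) : Prop :=
  ∃ k, X.Kx η k ∧ (∀ v ∈ X.l, k (wd FreeGroup.of X.W (X.bl v)) = 0) ∧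
    ∀ j ∈ X.Jf, X.pp j → ∀ z : Gr S m, (k (X.W j)).ap (br m (X.y j) z) = 0

/-- the survivors -/
def AD.Sv {q m : ℕ} (η : X.Jf → Du S q m × Du S q (m + 1)) : Prop :=
  ∃ lam : Du S q (m + 1), (∀ j : X.Jf, X.pp j → ∀ z, (η j).1.ap z = -lam.ap (br m (X.y j) z)) ∧
    X.Kx η fun x => X.ph x • lam - lam

/-- the places of the letters -/
def AD.Vf : Finset V := X.Jf.image X.pj

/-- conjugators at the places, extended by `1` -/
def AD.ex (τ : X.Vf → S) (v : V) : S := if h : v ∈ X.Vf then τ ⟨v, h⟩ else 1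

/-- the mean over the conjugators -/
def AD.Mn [Fintype S] (f : (V → S) → ℂ) : ℂ :=
  (∑ τ : X.Vf → S, f (X.ex τ)) / (Fintype.card S : ℂ) ^ X.Vf.card

/-- the hypotheses; `Pi : SP → P'` the projection -/
structure AD.Ok (p k Mw q c : ℕ) {P' : Type} [Group P'] (Pi : SP S P →* P') : Prop where
  nd : X.l.Nodup
  bn : ∀ v ∈ X.l, (X.bl v).Nodup
  bp : ∀ v, ∀ j ∈ X.bl v, X.pj j = v
  jl : ∀ j ∈ X.Jf, X.pj j ∈ X.l ∧ j ∈ X.bl (X.pj j)
  al : ∀ j ∈ X.Jf, ∀ i ∈ X.bl (X.pj j), i ∈ X.Jf
  t1 : ∀ j, j ∉ X.Jf → X.t j = 1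
  pb : ∀ j ∈ X.Jf, X.pp j → X.bl (X.pj j) = [j]
  pt : ∀ j ∈ X.Jf, X.pp j → X.t j = il (X.y j)
  pw : ∀ j ∈ X.Jf, X.pp j → X.ph (X.W j) = 1
  hb : ∀ v ∈ X.l, X.ph (wd FreeGroup.of X.W (X.bl v)) = 1
  rel : ∀ (H : Type) [Group H] [Finite H], H77.S3.Sml p k Mw H → ∀ θ : FreeGroup J →* H,
    (∀ j, j ∉ X.Jf → θ (FreeGroup.of j) = 1) →
    (X.l.map fun v => wd (fun j => θ (FreeGroup.of j)) (fun j => θ (X.W j)) (X.bl v)).prod = 1
  gi : ∀ x x' : J → SP S P, (∀ j ∈ X.Jf, Pi (x j) = Pi (x' j)) → X.G x → X.G x'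
  gb : ∀ x : J → SP S P, (∀ j ∈ X.Jf, (x j).right = X.ph (X.W j)) → X.G x → ∀ v ∈ X.l,
    Pi (X.bk x v) = 1
  gs : ∀ j ∈ X.Jf, X.pp j → ∀ x : J → SP S P, X.G x → X.G (Function.update x j (x j * X.t j))
  gen : Subgroup.closure {u | ∃ j ∈ X.Jf, X.pp j ∧ u = X.y j} ⊔ commutator S = ⊤
  nil : gm S (c + 1) = ⊥
  pg : IsPGroup p (SP S P)
  qe : ∀ s : S, s ^ q = 1
  qp : ∃ r, q = p ^ r
  kM : Mw ≤ p ^ k
  mx : Nat.card P * Nat.card S ^ 2 * q ≤ Mw

end fr

end H73.S3
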