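import Pool.Agent.H73.S3.Enr

/-!
# [H73 S3 BXA] the box inequality for `FX`, part 1: the crossed homomorphism of the fixed part (MP_b39724_nt, stage 3, chapter B)

`ph0`: the part in `P` of the evaluation, it does not depend on the configuration (`ph_eq`). `kx_up`: the crossed homomorphism of `up b v l` (`v` large split places) is that of `b`.
`qp_up`: the same for `Qp`. `thk`: the homomorphism `x ↦ (k x, ph x)`. `hon_ex`: the honest homomorphism.
-/

set_option autoImplicit false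

open scoped NumberField commutatorElement
open IsDedekindDomain
open scoped Classical

noncomputable section

namespace H73.S3

open H63.MA H38.BB H38.BG H57.PC H57.BRA H77.WD H77.WE H77.PC3 H35.CF H35.UB H77.S3 H71.S3 H1.S3

attribute [local instance 50] Fintype.ofFinite

variable {K : Type} [Field K] [NumberField K] {Ω : Type} [Field Ω] [Algebra K Ω]
  {p N : ℕ} {ζ : K} {D : RD0 K p ζ} {Q : DP K Ω} {A : GS D Ω} {P : Type} [Group P]
  {c : CL p N P} {S : Type} [Group S] [MulDistribMulAction P S] {q m : ℕ}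

/-- the part in `P` of the evaluation -/
def ph0 (X : FD A P S) (W : WF A) : FW A →* P :=
  FreeGroup.lift (Sum.elim (fun v => if v ∈ X.E then X.φ (W.L.t v) else 1) fun i => X.φ (A.a i))

theorem ph_eq (G : SG c S) (B : SD D Q A) (X : FD A P S) (W : WF A) (T : ℝ) (Zc : Finset (Pl K))
    (f : Pl K → Option (Px c)) : (adf G B X W T Zc f).ph = ph0 X W := by
  refine FreeGroup.ext_hom _ _ fun j => ?_
  unfold AD.ph ph0
  rw [FreeGroup.lift_apply_of, FreeGroup.lift_apply_of]
  rcases j with v | i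
  · show (if v ∈ X.E then (⟨X.sv v, X.φ (W.L.t v)⟩ : SP S P) else
      (if v ∈ Zc then f v else none).elim 1 fun s => il (G.y s)).right =
      if v ∈ X.E then X.φ (W.L.t v) else 1
    split_ifs
    · rfl
    · rcases f v with _ | s
      · rfl
      · rfl
    · rfl
  · rfl

/-- the letters which are not `pp` -/
theorem bb_up (G : SG c S) (B : SD D Q A) (X : FD A P S) (W : WF A) (T : ℝ) (Zc : Finset (Pl K))
    (hZE : Disjoint Zc X.E) (l : Fin (m + 1) → Elb c S q m) (b : Pl K → Option (Elb c S q m))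
    (v : Fin (m + 1) → Pl K) (hv : v ∈ H35.CF.Fr Zc (PPc X W T) b (m + 1))
    (j : Pl K ⊕ Fin A.g) :
    (j ∈ (adx G B X W T Zc (up b v l)).Jf ∧ ¬(adx G B X W T Zc (up b v l)).pp j) ↔
      (j ∈ (adx G B X W T Zc b).Jf ∧ ¬(adx G B X W T Zc b).pp j) := by
  rw [mem_fr] at hv
  rcases j with w | i
  · show (Sum.inl w ∈ (sp Zc (lf (up b v l)) ∪ X.E).disjSum Finset.univ ∧
      ¬(w ∈ sp Zc (lf (up b v l)) ∧ PPc X W T w)) ↔
      (Sum.inl w ∈ (sp Zc (lf b) ∪ X.E).disjSum Finset.univ ∧ ¬(w ∈ sp Zc (lf b) ∧ PPc X W T w))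
    rw [Finset.inl_mem_disjSum, Finset.inl_mem_disjSum, Finset.mem_union, Finset.mem_union]
    by_cases h : ∃ k, v k = w
    · obtain ⟨k, rfl⟩ := h
      have h1 : v k ∈ sp Zc (lf (up b v l)) := by
        rw [mem_sp]
        refine ⟨(hv.1 k).1, ?_⟩
        show (up b v l (v k)).map _ ≠ none
        rw [up_of b v l hv.2 k]
        exact Option.some_ne_none _
      have h2 : v k ∉ sp Zc (lf b) := by
        rw [mem_sp]
        rintro ⟨-, h3⟩
        apply h3
        show (b (v k)).map _ = none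
        rw [(hv.1 k).2.2]
        rfl
      have h3 : v k ∉ X.E := Finset.disjoint_left.1 hZE (hv.1 k).1
      constructor
      · rintro ⟨-, h4⟩
        exact absurd ⟨h1, (hv.1 k).2.1⟩ h4
      · rintro ⟨h4 | h4, -⟩
        · exact absurd h4 h2
        · exact absurd h4 h3
    · have h1 : up b v l w = b w := up_ne b v l w fun k hk => h ⟨k, hk⟩
      have h2 : w ∈ sp Zc (lf (up b v l)) ↔ w ∈ sp Zc (lf b) := by
        rw [mem_sp, mem_sp]
        show (w ∈ Zc ∧ (up b v l w).map _ ≠ none) ↔ (w ∈ Zc ∧ (b w).map _ ≠ none)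
        rw [h1]
      rw [h2]
  · show (Sum.inr i ∈ (sp Zc (lf (up b v l)) ∪ X.E).disjSum Finset.univ ∧ ¬False) ↔
      (Sum.inr i ∈ (sp Zc (lf b) ∪ X.E).disjSum Finset.univ ∧ ¬False)
    rw [Finset.inr_mem_disjSum, Finset.inr_mem_disjSum]

/-- the crossed homomorphism, as a function of the predicate `Kx` -/
def kq {J : Type} (R : (FreeGroup J → Du S q (m + 1)) → Prop) : FreeGroup J → Du S q (m + 1) :=
  if h : ∃ k, R k then h.choose else 0

theorem kx_iff (G : SG c S) (B : SD D Q A) (X : FD A P S) (W : WF A) (T : ℝ) (Zc : Finset (Pl K))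
    (hZE : Disjoint Zc X.E) (e₀ : Pl K ⊕ Fin A.g → El S P q m) (l : Fin (m + 1) → Elb c S q m)
    (b : Pl K → Option (Elb c S q m))
    (v : Fin (m + 1) → Pl K) (hv : v ∈ H35.CF.Fr Zc (PPc X W T) b (m + 1))
    (k : FW A → Du S q (m + 1)) :
    (adx G B X W T Zc (up b v l)).Kx ((adx G B X W T Zc (up b v l)).et (ef e₀ (up b v l))) k ↔
      (adx G B X W T Zc b).Kx ((adx G B X W T Zc b).et (ef e₀ b)) k := by
  have hbb := bb_up G B X W T Zc hZE l b v hv
  have hne : ∀ j, (j ∈ (adx G B X W T Zc b).Jf ∧ ¬(adx G B X W T Zc b).pp j) →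
      ef e₀ (up b v l) j = ef e₀ b j := by
    rw [mem_fr] at hv
    rintro (w | i) hj
    · have h1 : ∀ k, v k ≠ w := by
        rintro k rfl
        have h2 := (Finset.inl_mem_disjSum.1 hj.1)
        rw [Finset.mem_union, mem_sp] at h2
        rcases h2 with h2 | h2
        · apply h2.2
          show (b (v k)).map _ = none
          rw [(hv.1 k).2.2]
          rfl
        · exact Finset.disjoint_left.1 hZE (hv.1 k).1 h2
      show (up b v l w).elim _ _ = (b w).elim _ _
      rw [up_ne b v l w h1]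
    · rfl
  have hph : (adx G B X W T Zc (up b v l)).ph = (adx G B X W T Zc b).ph := by
    rw [ph_eq, ph_eq]
  constructor
  · rintro ⟨h1, h2, h3⟩
    refine ⟨?_, fun j hj => h2 j fun h => hj ((hbb j).1 h), fun j hj => ?_⟩
    · intro x y
      rw [h1 x y, hph]
    · have h4 := (hbb j).2 ⟨j.2, hj⟩
      have h5 := h3 ⟨j, h4.1⟩ h4.2
      refine h5.trans ?_
      show (ef e₀ (up b v l) j).1.2 = (ef e₀ b j).1.2
      rw [hne j ⟨j.2, hj⟩]
  · rintro ⟨h1, h2, h3⟩
    refine ⟨?_, fun j hj => h2 j fun h => hj ((hbb j).2 h), fun j hj => ?_⟩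
    · intro x y
      rw [h1 x y, hph]
    · have h4 := (hbb j).1 ⟨j.2, hj⟩
      have h5 := h3 ⟨j, h4.1⟩ h4.2
      refine h5.trans ?_
      show (ef e₀ b j).1.2 = (ef e₀ (up b v l) j).1.2
      rw [hne j h4]

theorem kx_up (G : SG c S) (B : SD D Q A) (X : FD A P S) (W : WF A) (T : ℝ) (Zc : Finset (Pl K))
    (hZE : Disjoint Zc X.E) (e₀ : Pl K ⊕ Fin A.g → El S P q m) (l : Fin (m + 1) → Elb c S q m)
    (b : Pl K → Option (Elb c S q m))
    (v : Fin (m + 1) → Pl K) (hv : v ∈ H35.CF.Fr Zc (PPc X W T) b (m + 1)) :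
    kx G B X W T Zc e₀ (up b v l) = kx G B X W T Zc e₀ b := by
  have h : (fun k => (adx G B X W T Zc (up b v l)).Kx
      ((adx G B X W T Zc (up b v l)).et (ef e₀ (up b v l))) k) =
      fun k => (adx G B X W T Zc b).Kx ((adx G B X W T Zc b).et (ef e₀ b)) k :=
    funext fun k => propext (kx_iff G B X W T Zc hZE e₀ l b v hv k)
  exact congrArg (kq (S := S) (q := q) (m := m)) h

theorem qp_up (G : SG c S) (B : SD D Q A) (X : FD A P S) (W : WF A) (T : ℝ) (Zc : Finset (Pl K))
    (hZE : Disjoint Zc X.E) (e₀ : Pl K ⊕ Fin A.g → El S P q m) (l : Fin (m + 1) → Elb c S q m)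
    (b : Pl K → Option (Elb c S q m))
    (v : Fin (m + 1) → Pl K) (hv : v ∈ H35.CF.Fr Zc (PPc X W T) b (m + 1)) :
    (adx G B X W T Zc (up b v l)).Qp (kx G B X W T Zc e₀ (up b v l)) =
      (adx G B X W T Zc b).Qp (kx G B X W T Zc e₀ b) := by
  rw [kx_up G B X W T Zc hZE e₀ l b v hv]
  unfold AD.Qp
  rw [ph_eq, ph_eq]

/-- the homomorphism `x ↦ (k x, ph x)` -/
def thk (X : FD A P S) (W : WF A) (k : FW A → Du S q (m + 1))
    (hk : ∀ x y, k (x * y) = k x + ph0 X W x • k y) : FW A →* Sd P (Du S q (m + 1)) where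
  toFun x := ⟨k x, ph0 X W x⟩
  map_one' := by
    have h := hk 1 1
    rw [mul_one, map_one, one_smul] at h
    rw [map_one, left_eq_add.1 h]
    rfl
  map_mul' x y := by
    rw [sd_mul, hk x y, map_mul]

end H73.S3
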