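import Pool.Agent.H73.S3.Bxa
import Pool.Agent.H93.BY.Df

/-!
# [H73 S3 BXC] the box inequality for `FX`: from BLG, definitions (MP_b39724_nt, stage 3, chapter B)

Stage `m = n + 1`. `Sd P N` acts on `S` through `P` (`sd_act`). `Q ≤ Sd P (Du S q (n + 2))`, `SP S Q = S ⋊ Q`, `pq : SP S Q → SP S P`.
* `LgI`: the instance of `LGx` (H93/BY/Df): `μ : SP S Q → PQ` the quotient modulo `gam_(n+3)`, `lm a χ` the labels. `lgi`: it exists (helper82).
* `dsc μ F`: the function of `PQ` with `dsc μ F (μ z) = F z`.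
* `wy`: the words. `vdl`: the variables. `Gdb`: the conditions on the fixed part `b`. `rdb`: the fixed part, `Φ` the honest homomorphism.
-/

set_option autoImplicit false

open scoped NumberField commutatorElement
open IsDedekindDomain
open scoped Classical

noncomputable section

namespace H73.S3

open H63.MA H38.BB H38.BG H57.PC H57.BRA H77.WD H77.WE H77.PC3 H35.CF H35.UB H77.S3 H71.S3 H1.S3
  H93.BX H93.BY

attribute [local instance 50] Fintype.ofFinite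

section grp

variable {S P N : Type} [Group S] [Group P] [MulDistribMulAction P S] [AddCommGroup N]
  [DistribMulAction P N]

/-- the action through `P` -/
instance sd_act : MulDistribMulAction (Sd P N) S :=
  MulDistribMulAction.compHom S (Sd.pr : Sd P N →* P)

theorem sd_smul (z : Sd P N) (u : S) : z • u = z.x • u := rfl

theorem sub_smul (Q : Subgroup (Sd P N)) (z : Q) (u : S) : z • u = (z : Sd P N).x • u := rfl

instance sd_fin [Finite P] [Finite N] : Finite (Sd P N) :=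
  Finite.of_injective (fun a : Sd P N => (a.n, a.x)) fun a b h => by
    simp only [Prod.mk.injEq] at h
    exact Sd.ext h.1 h.2

/-- the projection -/
def pq (Q : Subgroup (Sd P N)) : SP S Q →* SP S P where
  toFun z := ⟨z.left, (z.right : Sd P N).x⟩
  map_one' := rfl
  map_mul' _ _ := rfl

theorem pq_left (Q : Subgroup (Sd P N)) (z : SP S Q) : (pq Q z).left = z.left := rfl
theorem pq_right (Q : Subgroup (Sd P N)) (z : SP S Q) : (pq Q z).right = (z.right : Sd P N).x := rfl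
theorem pq_il (Q : Subgroup (Sd P N)) (u : S) : pq Q (il u) = il u := rfl

theorem pq_cj (Q : Subgroup (Sd P N)) (u : S) (z : SP S Q) : pq Q (cj u z) = cj u (pq Q z) := by
  unfold cj
  rw [map_mul, map_mul, map_inv, pq_il]

/-- the function of the quotient -/
def dsc {G H : Type} [Group G] [Group H] (μ : G →* H) (F : G → ℂ) (x : H) : ℂ :=
  if h : ∃ z, μ z = x then F h.choose else 0

theorem dsc_mk {G H : Type} [Group G] [Group H] (μ : G →* H) (F : G → ℂ)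
    (hF : ∀ z u, μ u = 1 → F (u * z) = F z) (z : G) : dsc μ F (μ z) = F z := by
  have h : ∃ z', μ z' = μ z := ⟨z, rfl⟩
  unfold dsc
  rw [dif_pos h]
  have h1 : h.choose = (h.choose * z⁻¹) * z := by rw [inv_mul_cancel_right]
  rw [h1]
  refine hF z _ ?_
  rw [map_mul, map_inv, h.choose_spec, mul_inv_cancel]

end grp

section lg

variable {p N : ℕ} {P : Type} [Group P] {c : CL p N P} {S : Type} [Group S]
  [MulDistribMulAction P S] {q n : ℕ}

/-- the instance of `LGx` for the stage `m = n + 1` -/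
structure LgI (G : SG c S) (Q : Subgroup (Sd P (Du S q (n + 1 + 1)))) {PQ Lm : Type} [Group PQ]
    [MulAction Q Lm] (μ : SP S Q →* PQ) (lm : Px c → Du S q (n + 1) → Lm)
    (Dx : LGx q n PQ Q Lm) : Prop where
  sur : Function.Surjective μ
  ker : ∀ x, μ x = 1 ↔ ∃ u ∈ gm S (n + 3), x = il u
  f : ∀ i, 1 ≤ i → ∀ x, x ∈ Dx.D.f i ↔ ∃ u ∈ gm S i, x = μ (il u)
  pi : ∀ x, Dx.D.pi (μ x) = x.right
  s : ∀ a χ, Dx.D.s (lm a χ) = μ (il (G.y a))
  ch : ∀ a χ, ∀ u ∈ gm S (n + 1), Dx.ch (lm a χ) (μ (il u)) = χ.ap (gk (n + 1) u)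
  ka : ∀ (g : Q), ∀ u ∈ gm S (n + 2), Dx.ka g (μ (il u)) =
    (g : Sd P (Du S q (n + 1 + 1))).n.ap (gk (n + 1 + 1) u)
  act : ∀ g : Q, (g : Sd P (Du S q (n + 1 + 1))).x = 1 → ∀ a χ,
    (∀ z, (g : Sd P (Du S q (n + 1 + 1))).n.ap (br (n + 1) (G.y a) z) = 0) → g • lm a χ = lm a χ

/-- the variables -/
def vdl (G : SG c S) (Q : Subgroup (Sd P (Du S q (n + 1 + 1)))) {PQ Lm : Type} [Group PQ]
    (μ : SP S Q →* PQ) (lm : Px c → Du S q (n + 1) → Lm)
    (l : Fin (n + 1 + 1) → Elb c S q (n + 1)) : H62.BL.Vd n PQ Q Lm where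
  g k := μ (cj (l k).2.1 (il (G.y (l k).1)))
  lam k := lm (l k).1 (l k).2.2.1.1.1
  f k := if h : (⟨(l k).2.2.2, 1⟩ : Sd P (Du S q (n + 1 + 1))) ∈ Q then ⟨_, h⟩ else 1
  G k := dsc μ fun z => if (z.right : Sd P (Du S q (n + 1 + 1))) = ⟨(l k).2.2.2, 1⟩ then
    Kf (n + 1) (l k).2.2.1.1.1 (l k).2.2.1.2 (cj (l k).2.1⁻¹ (pq Q z)) else 0

end lg

section nt

variable {K : Type} [Field K] [NumberField K] {Ω : Type} [Field Ω] [Algebra K Ω]
  {p N : ℕ} {ζ : K} {D : RD0 K p ζ} {Q : DP K Ω} {A : GS D Ω} {P : Type} [Group P]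
  {c : CL p N P} {S : Type} [Group S] [MulDistribMulAction P S] {q n : ℕ}

/-- the words -/
def wy (B : SD D Q A) (W : WF A) (M : ℕ) : Wy D A (Fin A.g) where
  L := W.L
  Fr := W.Fr
  M := M
  Z := W.Z
  wv := W.Wv
  sj := B.b
  wj := W.Wi

/-- the conditions on the fixed part -/
structure Gdb (G : SG c S) (B : SD D Q A) (X : FD A P S) (W : WF A) (T : ℝ) (Zc : Finset (Pl K))
    (e₀ : Pl K ⊕ Fin A.g → El S P q (n + 1)) (Qs : Subgroup (Sd P (Du S q (n + 1 + 1))))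
    (b : Pl K → Option (Elb c S q (n + 1))) : Prop where
  kc : (adx G B X W T Zc b).Kx ((adx G B X W T Zc b).et (ef e₀ b)) (kx G B X W T Zc e₀ b)
  bl : ∀ v ∈ W.l, kx G B X W T Zc e₀ b (wd FreeGroup.of (adx G B X W T Zc b).W
    ((adx G B X W T Zc b).bl v)) = 0
  nk : ∀ v ∈ sp Zc b, ¬PPc X W T v → kf b v = 0
  qp : (adx G B X W T Zc b).Qp (kx G B X W T Zc e₀ b) = Qs

/-- the honest homomorphism of the fixed part -/
structure Hon (G : SG c S) (B : SD D Q A) (X : FD A P S) (W : WF A) (T : ℝ) (Zc : Finset (Pl K))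
    (e₀ : Pl K ⊕ Fin A.g → El S P q (n + 1)) (Qs : Subgroup (Sd P (Du S q (n + 1 + 1))))
    (b : Pl K → Option (Elb c S q (n + 1))) (Φ : Gal(Ω/K) →* Qs) : Prop where
  unz : Unz W.L (sp Zc b ∪ X.E) Φ
  sur : Function.Surjective Φ
  ht : ∀ x : FW A, ((hat W.L A Φ x : Qs) : Sd P (Du S q (n + 1 + 1))) =
    ⟨kx G B X W T Zc e₀ b x, ph0 X W x⟩
  fr : ∀ v ∈ W.Z, Φ (W.Fr.F v) = hat W.L A Φ (W.Wv v)
  bi : ∀ i, Φ (B.b i) = hat W.L A Φ (W.Wi i)

/-- the fixed part -/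
def rdb (G : SG c S) (B : SD D Q A) (X : FD A P S) (W : WF A) (T : ℝ) (Zc : Finset (Pl K))
    (τ₀ : Pl K → S) (e₀ : Pl K ⊕ Fin A.g → El S P q (n + 1))
    (Qs : Subgroup (Sd P (Du S q (n + 1 + 1)))) {PQ : Type} [Group PQ] (μ : SP S Qs →* PQ)
    (b : Pl K → Option (Elb c S q (n + 1))) (Φ : Gal(Ω/K) →* Qs) : Rd A (Fin A.g) PQ Qs where
  T := sp Zc b ∪ X.E
  lab v := if v ∈ sp Zc b ∪ X.E then
    μ (cj (tf τ₀ b v) ⟨((adx G B X W T Zc b).t (Sum.inl v)).left, Φ (W.L.t v)⟩) else 1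
  al i := μ (cj (tf τ₀ b (B.pl i)) ⟨X.si i, Φ (A.a i)⟩)
  phi := Φ
  G v := dsc μ fun z => if v ∈ sp Zc b ∧ PPc X W T v then
      (if (z.right : Sd P (Du S q (n + 1 + 1))).n = kf b v then
        Kf (n + 1) (ef e₀ b (Sum.inl v)).1.1 (ef e₀ b (Sum.inl v)).2
          (cj (tf τ₀ b v)⁻¹ (pq Qs z)) else 0)
    else Kf (n + 1 + 1) (ef e₀ b (Sum.inl v)).1.2 (ef e₀ b (Sum.inl v)).2
      (cj (tf τ₀ b v)⁻¹ (pq Qs z))
  H i := dsc μ fun z => Kf (n + 1 + 1) (ef e₀ b (Sum.inr i)).1.2 (ef e₀ b (Sum.inr i)).2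
    (cj (tf τ₀ b (B.pl i))⁻¹ (pq Qs z))

end nt

end H73.S3
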