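import Pool.Agent.H73.S3.Bxc
import Pool.Agent.H73.S3.Adf

/-!
# [H73 S3 BXD] variables and fixed part satisfy `VOx`, `ROx` (MP_b39724_nt, stage 3, chapter B)

`kf_il`: `Kf d χ x₀ (il u * x) = ep (χ (class u)) * Kf d χ x₀ x`, `u ∈ gam_d`; `kf_inv`: invariance under `gam_j`, `j ≥ d + 1`. So the functions under `dsc μ` are invariant under the kernel of `μ`
(`LgI.ker`; `cj τ⁻¹ (il u * x) = il (τ⁻¹ u τ) * cj τ⁻¹ x`, `gk_conj`), `dsc_mk` (Bxc). Elements `u ∈ Dx.D.f i` are `μ (il u')`, `u' ∈ gam_i` (`LgI.f`).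
`vox`: `f`: `LgI.act`; `sup`: if `(κ, 1) ∉ Q` the function is `0`; `eq`: `LgI.ch`.
`rox`: `lab`, `al`: `LgI.pi`, `Φ (L.t v) = 1` for `v ∉ T`. `Gz`: `ztv = ka (⁅Φ t, Φ F⁆⁻¹) - ka ((Φ t)⁻¹)`, `Φ t = hat Φ (of (inl v))`, `Φ F = hat Φ (Wv v)` (`Hon.fr`), so by `Hon.ht` and `LgI.ka` it is
`(zeta kx FreeGroup.of W [inl v] (inl v)) (class u)`, by `Gdb.kc.ze` it is `(ef e₀ b (inl v)).1.2`, if `v` is not large split; for large split `v ∈ sp Zc b`: `Φ (L.t v) = 1` (`Gdb.kc.of`, `ph0`: `v ∉ E`), `ztv = 0`.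
`Hz`: the same with `Hon.bi` (`bl B v` of H93/BY/Df and `(adx ..).bl v`: `List.map Sum.inr`, injective; `B.mem`). `Hn`: void (`jb = id`).
`wy_val`, `wy_rlk`: `WF.Ok.rel`, `lz`, `nd`, `s0`; a `p`-group of order at most `M ≤ Mw ≤ p ^ k` is small (`sml_of`).
-/

set_option autoImplicit false

open scoped NumberField commutatorElement
open IsDedekindDomain
open scoped Classical

noncomputable section

namespace H73.S3

open H63.MA H38.BB H38.BG H57.PC H57.BRA H77.WD H77.WE H77.PC3 H35.CF H35.UB H77.S3 H71.S3 H1.S3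
  H93.BX H93.BY

attribute [local instance 50] Fintype.ofFinite

section ker

variable {S P : Type} [Group S] [Group P] [MulDistribMulAction P S] {q : ℕ}

private theorem bxd_epa {q : ℕ} (a b : ZMod q) : ep q (a + b) = ep q a * ep q b := by
  rcases Nat.eq_zero_or_pos q with h | h
  · subst h
    unfold ep
    simp
  · have hq : NeZero q := ⟨h.ne'⟩
    rw [rayc_std, rayc_std, rayc_std, AddChar.map_add_eq_mul]

private theorem bxd_mono {i j : ℕ} (h : i ≤ j) : gm S j ≤ gm S i := by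
  induction h with
  | refl => exact le_refl _
  | step _ ih => exact (gm_anti _).trans ih

private theorem bxd_ill (u : S) (x : SP S P) : (il u * x).left = u * x.left := by
  rw [SemidirectProduct.mul_left]
  show u * (MulDistribMulAction.toMulAut P S 1) x.left = u * x.left
  rw [map_one]
  rfl

private theorem bxd_rp (d : ℕ) {u : S} (hu : u ∈ gm S d) (x : SP S P) :
    rp d (il u * x) = rp d x := by
  unfold rp
  congr 1
  refine Quotient.sound (QuotientGroup.rightRel_apply.2 ⟨u⁻¹, inv_mem hu, ?_⟩)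
  show (SemidirectProduct.inl u⁻¹ : SP S P) = x * (il u * x)⁻¹
  rw [map_inv, mul_inv_rev, mul_inv_cancel_left]
  rfl

private theorem bxd_mem (d : ℕ) (x : SP S P) : (x * (rp d x)⁻¹).left ∈ gm S d := by
  have h1 : x * (rp d x)⁻¹ ∈ (gm S d).map (SemidirectProduct.inl : S →* SP S P) := by
    have h2 := Quotient.mk_out (s := QuotientGroup.rightRel ((gm S d).map
      (SemidirectProduct.inl : S →* SP S P))) x
    exact QuotientGroup.rightRel_apply.1 h2
  obtain ⟨v, hv, hv2⟩ := h1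
  rw [← hv2]
  exact hv

theorem kf_il (d : ℕ) (χ : Du S q d) (x₀ x : SP S P) {u : S} (hu : u ∈ gm S d) :
    Kf d χ x₀ (il u * x) = ep q (χ.ap (gk d u)) * Kf d χ x₀ x := by
  unfold Kf
  rw [bxd_rp d hu]
  by_cases h : rp d x = x₀
  · have h1 := bxd_mem d x
    rw [h] at h1
    rw [if_pos h, if_pos h, mul_assoc, bxd_ill, gk_mul hu h1, map_add, bxd_epa]
  · rw [if_neg h, if_neg h, mul_zero]

private theorem bxd_le (d : ℕ) (χ : Du S q d) (x₀ x : SP S P) : ‖Kf d χ x₀ x‖ ≤ 1 := by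
  unfold Kf
  split_ifs
  · rw [ep_norm]
  · rw [norm_zero]
    exact zero_le_one

private theorem bxd_cj (u w : S) (x : SP S P) : cj u (il w * x) = il (u * w * u⁻¹) * cj u x := by
  unfold cj
  have h : (il (u * w * u⁻¹) : SP S P) = il u * il w * (il u)⁻¹ := by
    unfold il
    rw [map_mul, map_mul, map_inv]
  rw [h]
  group

private theorem bxd_cjr (u : S) (x : SP S P) : (cj u x).right = x.right := by
  unfold cj
  show 1 * x.right * (1 : P)⁻¹ = x.right
  rw [one_mul, inv_one, mul_one]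

private theorem bxd_kcj (d : ℕ) (χ : Du S q d) (x₀ x : SP S P) (τ : S) {w : S}
    (hw : w ∈ gm S d) :
    Kf d χ x₀ (cj τ⁻¹ (il w * x)) = ep q (χ.ap (gk d w)) * Kf d χ x₀ (cj τ⁻¹ x) := by
  rw [bxd_cj, kf_il d χ x₀ _ ((gm_normal d).conj_mem _ hw _), gk_conj hw]

private theorem bxd_gk {d e : ℕ} (h : d + 1 ≤ e) (χ : Du S q d) {w : S} (hw : w ∈ gm S e) :
    χ.ap (gk d w) = 0 := by
  have h1 : w ∈ gm S (d + 1) := bxd_mono h hw
  rw [(gk_zero (gm_anti d h1)).2 h1, map_zero]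

end ker

section lg

variable {p N : ℕ} {P : Type} [Group P] {c : CL p N P} {S : Type} [Group S]
  [MulDistribMulAction P S] {q n : ℕ}

/-- the function under `dsc` descends -/
theorem dsc_kf {Q : Subgroup (Sd P (Du S q (n + 1 + 1)))} {PQ Lm : Type} [Group PQ]
    [MulAction Q Lm] {G : SG c S} {μ : SP S Q →* PQ} {lm : Px c → Du S q (n + 1) → Lm}
    {Dx : LGx q n PQ Q Lm} (hI : LgI G Q μ lm Dx) (R : Sd P (Du S q (n + 1 + 1)) → Prop) (d : ℕ)
    (hd : d ≤ n + 2) (χ : Du S q d) (x₀ : SP S P) (τ : S) (z : SP S Q) :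
    dsc μ (fun z => if R z.right then Kf d χ x₀ (cj τ⁻¹ (pq Q z)) else 0) (μ z) =
      if R z.right then Kf d χ x₀ (cj τ⁻¹ (pq Q z)) else 0 := by
  refine dsc_mk μ (fun z => if R z.right then Kf d χ x₀ (cj τ⁻¹ (pq Q z)) else 0)
    (fun z u hu => ?_) z
  obtain ⟨w, hw, rfl⟩ := (hI.ker u).1 hu
  have h1 : (il w * z).right = z.right := by
    rw [SemidirectProduct.mul_right]
    exact one_mul _
  show (if R ((il w * z).right : Q) then Kf d χ x₀ (cj τ⁻¹ (pq Q (il w * z))) else 0) =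
    if R z.right then Kf d χ x₀ (cj τ⁻¹ (pq Q z)) else 0
  rw [h1, map_mul, pq_il, bxd_kcj d χ x₀ _ τ (bxd_mono (by omega) hw),
    bxd_gk (by omega) χ hw, ep_zero, one_mul]

private theorem bxd_il {Q : Subgroup (Sd P (Du S q (n + 1 + 1)))} {PQ Lm : Type} [Group PQ]
    [MulAction Q Lm] {G : SG c S} {μ : SP S Q →* PQ} {lm : Px c → Du S q (n + 1) → Lm}
    {Dx : LGx q n PQ Q Lm} (hI : LgI G Q μ lm Dx) (R : Sd P (Du S q (n + 1 + 1)) → Prop) (d : ℕ)
    (hd : d ≤ n + 2) (χ : Du S q d) (x₀ : SP S P) (τ : S) {w : S} (hw : w ∈ gm S d)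
    (x : PQ) :
    dsc μ (fun z => if R z.right then Kf d χ x₀ (cj τ⁻¹ (pq Q z)) else 0) (μ (il w) * x) =
      ep q (χ.ap (gk d w)) *
        dsc μ (fun z => if R z.right then Kf d χ x₀ (cj τ⁻¹ (pq Q z)) else 0) x := by
  obtain ⟨z, rfl⟩ := hI.sur x
  have h1 : (il w * z).right = z.right := by
    rw [SemidirectProduct.mul_right]
    exact one_mul _
  rw [← map_mul, dsc_kf hI R d hd χ x₀ τ, dsc_kf hI R d hd χ x₀ τ, h1, map_mul, pq_il,
    bxd_kcj d χ x₀ _ τ hw, mul_ite, mul_zero]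

private theorem bxd_dle {G' H' : Type} [Group G'] [Group H'] (μ : G' →* H') (F : G' → ℂ)
    (hF : ∀ z, ‖F z‖ ≤ 1) (x : H') : ‖dsc μ F x‖ ≤ 1 := by
  unfold dsc
  split_ifs
  · exact hF _
  · rw [norm_zero]
    exact zero_le_one

theorem vox {Q : Subgroup (Sd P (Du S q (n + 1 + 1)))} {PQ Lm : Type} [Group PQ]
    [MulAction Q Lm] {G : SG c S} {μ : SP S Q →* PQ} {lm : Px c → Du S q (n + 1) → Lm}
    {Dx : LGx q n PQ Q Lm} (hI : LgI G Q μ lm Dx) (l : Fin (n + 1 + 1) → Elb c S q (n + 1))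
    (hO : ∀ k, ∀ z : Gr S (n + 1), ((l k).2.2.2).ap (br (n + 1) (G.y (l k).1) z) = 0) :
    VOx (vdl G Q μ lm l) Dx := by
  refine ⟨fun k => ?_, fun k => ?_, fun k x => ?_, fun k x hx => ?_, fun k u hu x => ?_⟩
  · show μ (cj (l k).2.1 (il (G.y (l k).1))) * (Dx.D.s (lm (l k).1 (l k).2.2.1.1.1))⁻¹ ∈ Dx.D.f 2
    rw [hI.s, ← map_inv, ← map_mul]
    refine (hI.f 2 (by omega) _).2 ⟨⁅(l k).2.1, G.y (l k).1⁆,
      gm_comm 1 (by rw [gm_one]; exact Subgroup.mem_top _), ?_⟩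
    congr 1
    unfold cj il
    rw [commutatorElement_def, map_mul, map_mul, map_mul, map_inv, map_inv]
  · show (if h : (⟨(l k).2.2.2, 1⟩ : Sd P (Du S q (n + 1 + 1))) ∈ Q then (⟨_, h⟩ : Q) else 1) •
      lm (l k).1 (l k).2.2.1.1.1 = lm (l k).1 (l k).2.2.1.1.1
    split_ifs with h
    · exact hI.act ⟨_, h⟩ rfl _ _ (hO k)
    · exact one_smul _ _
  · refine bxd_dle μ _ (fun z => ?_) x
    split_ifs
    · exact bxd_le _ _ _ _
    · rw [norm_zero]
      exact zero_le_one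
  · obtain ⟨z, rfl⟩ := hI.sur x
    have h1 : (vdl G Q μ lm l).G k (μ z) = _ :=
      dsc_kf hI (fun r => r = ⟨(l k).2.2.2, 1⟩) (n + 1) (by omega) (l k).2.2.1.1.1
        (l k).2.2.1.2 (l k).2.1 z
    rw [h1] at hx
    have h2 : (z.right : Sd P (Du S q (n + 1 + 1))) = ⟨(l k).2.2.2, 1⟩ := by
      by_contra h
      exact hx (if_neg h)
    have h3 : (⟨(l k).2.2.2, 1⟩ : Sd P (Du S q (n + 1 + 1))) ∈ Q := by
      rw [← h2]
      exact z.right.2
    rw [hI.pi]
    show z.right = if h : (⟨(l k).2.2.2, 1⟩ : Sd P (Du S q (n + 1 + 1))) ∈ Q then ⟨_, h⟩ else 1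
    rw [dif_pos h3]
    exact Subtype.ext h2
  · obtain ⟨w, hw, rfl⟩ := (hI.f (n + 1) (by omega) u).1 hu
    have h1 := bxd_il hI (fun r => r = ⟨(l k).2.2.2, 1⟩) (n + 1) (by omega) (l k).2.2.1.1.1
        (l k).2.2.1.2 (l k).2.1 hw x
    refine h1.trans ?_
    rw [← hI.ch (l k).1 _ w hw]
    rfl

end lg

section nt

variable {K : Type} [Field K] [NumberField K] {Ω : Type} [Field Ω] [Algebra K Ω]
  {p N : ℕ} {ζ : K} {D : RD0 K p ζ} {Q : DP K Ω} {A : GS D Ω} {P : Type} [Group P]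
  {c : CL p N P} {S : Type} [Group S] [MulDistribMulAction P S] {q n : ℕ}

theorem wy_val (hp : p.Prime) (B : SD D Q A) (W : WF A) {k Mw M : ℕ} (hW : W.Ok B k Mw)
    (hM : M ≤ Mw) (hk : Mw ≤ p ^ k) : (wy B W M).Val := by
  refine ⟨fun H _ _ hH hc φ hφ => ?_, fun H _ _ hH hc φ hφ => ?_⟩
  · exact (hW.rel.2.2.1 H (sml_of hp hk hH (hc.trans hM)) φ hφ).1
  · exact (hW.rel.2.2.1 H (sml_of hp hk hH (hc.trans hM)) φ hφ).2

theorem wy_rlk (hp : p.Prime) (B : SD D Q A) (W : WF A) {k Mw M : ℕ} (hW : W.Ok B k Mw)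
    (hM : M ≤ Mw) (hk : Mw ≤ p ^ k) : Rlk (wy B W M) B id W.l where
  inj := Function.injective_id
  sj _ := rfl
  nd := hW.nd
  mem := hW.lz
  rl H _ _ hH hc θ hθ := hW.rel.2.2.2 H (sml_of hp hk hH (hc.trans hM)) θ hθ
  loc H _ _ hH hc φ hφ v hv := hW.s0 v hv H (sml_of hp hk hH (hc.trans hM)) φ hφ

private theorem bxd_pre {I J : Type} (e : I → J) (he : Function.Injective e) (l : List I) (i : I) :
    H1.S3.pre (l.map e) (e i) = (H1.S3.pre l i).map e := by
  unfold H1.S3.pre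
  induction l with
  | nil => rfl
  | cons a l ih =>
    by_cases h : a = i
    · subst h
      rw [List.map_cons, List.takeWhile_cons_of_neg (by simp),
        List.takeWhile_cons_of_neg (by simp)]
      rfl
    · rw [List.map_cons, List.takeWhile_cons_of_pos (by simpa using fun h' => h (he h')),
        List.takeWhile_cons_of_pos (by simpa using h), List.map_cons, ih]

private theorem bxd_wd {I J F F' : Type} [Group F] [Group F'] (f : F →* F') (e : I → J)
    (a d : J → F) (a' d' : I → F') (l : List I)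
    (h : ∀ j ∈ l, f (a (e j)) = a' j ∧ f (d (e j)) = d' j) :
    f (H1.S3.wd a d (l.map e)) = H1.S3.wd a' d' l := by
  rw [wd_map]
  unfold H1.S3.wd
  rw [List.map_map]
  congr 1
  apply List.map_congr_left
  intro j hj
  show ⁅f (a (e j)), f (d (e j))⁆ = _
  rw [(h j hj).1, (h j hj).2]

private theorem bxd_zt {I J F F' PQ : Type} [Group F] [Group F'] {m : ℕ} (f : F →* F')
    (k : F → Du S q m) (ka : F' → PQ → ZMod q) (e : I → J) (he : Function.Injective e)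
    (a d : J → F) (a' d' : I → F') (l : List I) (i : I) (hi : i ∈ l)
    (h : ∀ j ∈ l, f (a (e j)) = a' j ∧ f (d (e j)) = d' j) (u : PQ) (g : Gr S m)
    (hk : ∀ x, ka (f x) u = (k x).ap g) :
    H1.S3.zeta ka a' d' l i u = (H1.S3.zeta k a d (l.map e) (e i)).ap g := by
  have hs : ∀ j ∈ H1.S3.pre l i, j ∈ l := fun j hj => (List.takeWhile_prefix _).subset hj
  have h1 : f (H1.S3.wd a d (H1.S3.pre (l.map e) (e i))) = H1.S3.wd a' d' (H1.S3.pre l i) := by
    rw [bxd_pre e he]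
    exact bxd_wd f e a d a' d' _ fun j hj => h j (hs j hj)
  unfold H1.S3.zeta
  rw [Pi.sub_apply, ap_sub, ← hk, ← hk, map_inv, map_inv, map_mul, map_mul, h1,
    map_commutatorElement, (h i hi).1, (h i hi).2]

private theorem bxd_sp (Zc : Finset (Pl K)) (b : Pl K → Option (Elb c S q (n + 1))) :
    sp Zc (lf b) = sp Zc b := by
  ext w
  rw [mem_sp, mem_sp]
  show (w ∈ Zc ∧ (b w).map _ ≠ none) ↔ _
  rw [ne_eq, ne_eq, Option.map_eq_none_iff]

theorem rox (G : SG c S) (B : SD D Q A) (X : FD A P S) (W : WF A) {k Mw : ℕ} (hX : X.Ok G B W)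
    (hW : W.Ok B k Mw) (T : ℝ) (Zc : Finset (Pl K)) (hZ : Disjoint Zc X.E) (hZc : Zc ⊆ W.Z)
    (hE : X.E ⊆ W.Z) (τ₀ : Pl K → S) (e₀ : Pl K ⊕ Fin A.g → El S P q (n + 1))
    (Qs : Subgroup (Sd P (Du S q (n + 1 + 1)))) (b : Pl K → Option (Elb c S q (n + 1)))
    (h : Gdb G B X W T Zc e₀ Qs b) {PQ Lm : Type} [Group PQ]
    [MulAction Qs Lm] {μ : SP S Qs →* PQ} {lm : Px c → Du S q (n + 1) → Lm}
    {Dx : LGx q n PQ Qs Lm} (hI : LgI G Qs μ lm Dx) (Φ : Gal(Ω/K) →* Qs)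
    (hΦ : Hon G B X W T Zc e₀ Qs b Φ) (M : ℕ) :
    ROx (rdb G B X W T Zc τ₀ e₀ Qs μ b Φ) (wy B W M) B id Dx := by
  have hTZ : sp Zc b ∪ X.E ⊆ W.Z := by
    intro v hv
    rcases Finset.mem_union.1 hv with h1 | h1
    · exact hZc (mem_sp.1 h1).1
    · exact hE h1
  have hone : ∀ v, v ∉ sp Zc b ∪ X.E → Φ (W.L.t v) = 1 := by
    intro v hv
    by_cases h0 : v ∈ D.S0
    · rw [Pool.Agent.H19.AB.t_S0 W.L h0, map_one]
    · exact hΦ.unz.2 v h0 hv
  -- the functional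
  have hka : ∀ w ∈ gm S (n + 2), ∀ x : FW A, Dx.ka (hat W.L A Φ x) (μ (il w)) =
      (kx G B X W T Zc e₀ b x).ap (gk (n + 1 + 1) w) := by
    intro w hw x
    rw [hI.ka _ w hw, hΦ.ht x]
  have hTr : ∀ (R : Prop) (hR : R) (χ : Du S q (n + 1 + 1)) (x₀ : SP S P) (τ w : S),
      w ∈ gm S (n + 2) → ∀ x, dsc μ (fun z => Kf (n + 1 + 1) χ x₀ (cj τ⁻¹ (pq Qs z)))
        (μ (il w) * x) = ep q (χ.ap (gk (n + 1 + 1) w)) *
        dsc μ (fun z => Kf (n + 1 + 1) χ x₀ (cj τ⁻¹ (pq Qs z))) x := by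
    intro R hR χ x₀ τ w hw x
    have h1 := bxd_il hI (fun _ => True) (n + 1 + 1) (by omega) χ x₀ τ hw x
    simpa only [if_true] using h1
  refine
    { sub := hTZ
      one := fun v hv => if_neg hv
      hon := hΦ.unz
      sur := hΦ.sur
      lab := fun v => ?_
      al := fun i => ?_
      G := fun v x => ?_
      H := fun j x => ?_
      Gz := fun v hv u hu x => ?_
      Hz := fun i u hu x => ?_
      Hn := fun j hj => absurd rfl (hj j) }
  · show Φ (W.L.t v) = Dx.D.pi (if v ∈ sp Zc b ∪ X.E then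
      μ (cj (tf τ₀ b v) ⟨((adx G B X W T Zc b).t (Sum.inl v)).left, Φ (W.L.t v)⟩) else 1)
    by_cases hv : v ∈ sp Zc b ∪ X.E
    · rw [if_pos hv, hI.pi, bxd_cjr]
    · rw [if_neg hv, map_one, hone v hv]
  · show Φ (A.a i) = Dx.D.pi (μ (cj (tf τ₀ b (B.pl i)) ⟨X.si i, Φ (A.a i)⟩))
    rw [hI.pi, bxd_cjr]
  · refine bxd_dle μ _ (fun z => ?_) x
    split_ifs
    · exact bxd_le _ _ _ _
    · rw [norm_zero]
      exact zero_le_one
    · exact bxd_le _ _ _ _
  · exact bxd_dle μ _ (fun z => bxd_le _ _ _ _) x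
  · obtain ⟨w, hw, rfl⟩ := (hI.f (n + 2) (by omega) u).1 hu
    by_cases hc : v ∈ sp Zc b ∧ PPc X W T v
    · have hG : (rdb G B X W T Zc τ₀ e₀ Qs μ b Φ).G v = dsc μ (fun z : SP S Qs =>
          if (fun r : Sd P (Du S q (n + 1 + 1)) => r.n = kf b v) z.right then
            Kf (n + 1) (ef e₀ b (Sum.inl v)).1.1 (ef e₀ b (Sum.inl v)).2
              (cj (tf τ₀ b v)⁻¹ (pq Qs z)) else 0) := by
        unfold rdb
        dsimp only
        simp only [if_pos hc]
      have h1 : Φ (W.L.t v) = 1 := by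
        have h2 := hΦ.ht (FreeGroup.of (Sum.inl v))
        rw [hat_inl] at h2
        refine Subtype.ext (h2.trans ?_)
        have h3 : kx G B X W T Zc e₀ b (FreeGroup.of (Sum.inl v)) = 0 := by
          refine h.kc.of (Sum.inl v) fun h4 => h4.2 ?_
          show v ∈ sp Zc (lf b) ∧ PPc X W T v
          rw [bxd_sp]
          exact hc
        have h5 : v ∉ X.E := Finset.disjoint_left.1 hZ (mem_sp.1 hc.1).1
        have h6 : ph0 X W (FreeGroup.of (Sum.inl v)) = 1 := by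
          unfold ph0
          rw [FreeGroup.lift_apply_of]
          exact if_neg h5
        rw [h3, h6]
        rfl
      have h7 : ztv Dx (wy B W M) Φ v (μ (il w)) = 0 := by
        unfold ztv H1.S3.zeta
        show (Dx.ka ((_ * ⁅Φ (W.L.t v), _⁆)⁻¹) - Dx.ka ((_ * Φ (W.L.t v))⁻¹)) (μ (il w)) = 0
        rw [h1, commutatorElement_one_left, Pi.sub_apply, sub_self]
      rw [hG]
      show _ = ep q (ztv Dx (wy B W M) Φ v (μ (il w))) * _
      rw [h7, ep_zero, one_mul, bxd_il hI (fun r => r.n = kf b v) (n + 1) (by omega)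
        (ef e₀ b (Sum.inl v)).1.1 (ef e₀ b (Sum.inl v)).2 (tf τ₀ b v)
        (bxd_mono (by omega) hw) x, bxd_gk (by omega) _ hw, ep_zero, one_mul]
    · have hG : (rdb G B X W T Zc τ₀ e₀ Qs μ b Φ).G v = dsc μ (fun z : SP S Qs =>
          Kf (n + 1 + 1) (ef e₀ b (Sum.inl v)).1.2 (ef e₀ b (Sum.inl v)).2
              (cj (tf τ₀ b v)⁻¹ (pq Qs z))) := by
        unfold rdb
        dsimp only
        simp only [if_neg hc]
      have hvZ : v ∈ W.Z := hTZ hv
      have hj : Sum.inl v ∈ (adx G B X W T Zc b).Jf := by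
        show Sum.inl v ∈ (sp Zc (lf b) ∪ X.E).disjSum Finset.univ
        rw [bxd_sp, Finset.inl_mem_disjSum]
        exact hv
      have h2 := h.kc.ze ⟨Sum.inl v, hj⟩ (by
        show ¬(v ∈ sp Zc (lf b) ∧ PPc X W T v)
        rw [bxd_sp]
        exact hc)
      have hbl : (adx G B X W T Zc b).bl v = [Sum.inl v] := if_neg (hW.zs v hvZ)
      have h3 : H1.S3.zeta (kx G B X W T Zc e₀ b) FreeGroup.of (adx G B X W T Zc b).W
          ([v].map Sum.inl) (Sum.inl v) = (ef e₀ b (Sum.inl v)).1.2 := by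
        refine Eq.trans ?_ h2
        show _ = H1.S3.zeta (kx G B X W T Zc e₀ b) FreeGroup.of (adx G B X W T Zc b).W
          ((adx G B X W T Zc b).bl v) (Sum.inl v)
        rw [hbl]
        rfl
      have h7 : ztv Dx (wy B W M) Φ v (μ (il w)) =
          (ef e₀ b (Sum.inl v)).1.2.ap (gk (n + 1 + 1) w) := by
        rw [← h3]
        refine bxd_zt (hat W.L A Φ) _ _ Sum.inl Sum.inl_injective _ _ _ _ [v] v
          (List.mem_singleton.2 rfl) (fun j hj => ?_) _ _ (hka w hw)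
        rw [List.mem_singleton] at hj
        subst hj
        exact ⟨hat_inl _ _ _ _, (hΦ.fr j hvZ).symm⟩
      rw [hG]
      show _ = ep q (ztv Dx (wy B W M) Φ v (μ (il w))) * _
      rw [h7]
      exact hTr True trivial _ _ _ w hw x
  · obtain ⟨w, hw, rfl⟩ := (hI.f (n + 2) (by omega) u).1 hu
    have hj : Sum.inr i ∈ (adx G B X W T Zc b).Jf := by
      show Sum.inr i ∈ (sp Zc (lf b) ∪ X.E).disjSum Finset.univ
      rw [Finset.inr_mem_disjSum]
      exact Finset.mem_univ _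
    have h2 := h.kc.ze ⟨Sum.inr i, hj⟩ id
    have hbl : (adx G B X W T Zc b).bl (B.pl i) = (bl B (B.pl i)).map Sum.inr :=
      if_pos (B.mem i)
    have h3 : H1.S3.zeta (kx G B X W T Zc e₀ b) FreeGroup.of (adx G B X W T Zc b).W
        ((bl B (B.pl i)).map Sum.inr) (Sum.inr i) = (ef e₀ b (Sum.inr i)).1.2 := by
      refine Eq.trans ?_ h2
      show _ = H1.S3.zeta (kx G B X W T Zc e₀ b) FreeGroup.of (adx G B X W T Zc b).W
        ((adx G B X W T Zc b).bl (B.pl i)) (Sum.inr i)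
      rw [hbl]
    have h7 : zta Dx B Φ i (μ (il w)) = (ef e₀ b (Sum.inr i)).1.2.ap (gk (n + 1 + 1) w) := by
      rw [← h3]
      refine bxd_zt (hat W.L A Φ) _ _ Sum.inr Sum.inr_injective _ _ _ _ (bl B (B.pl i)) i
        ?_ (fun j hj => ?_) _ _ (hka w hw)
      · unfold H93.BY.bl
        exact List.mem_filter.2 ⟨List.mem_finRange _, by simp⟩
      · exact ⟨hat_inr _ _ _ _, (hΦ.bi j).symm⟩
    show _ = ep q (zta Dx B Φ i (μ (il w))) * _
    rw [h7]
    exact hTr True trivial _ _ _ w hw x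

end nt

end H73.S3
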