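import Pool.Agent.H73.S3.Bxd
import Pool.Agent.H62.BL.Vx

/-!
# [H73 S3 BXE] `FX` is the summand of BLG (MP_b39724_nt, stage 3, chapter B)

`tq`: the evaluation with values in `S ⋊ Qs`: `j ↦ cj (τ (pj j)) ⟨(t j).left, Φ_j⟩`, `Φ_(inl v) = Φ (L.t v)`, `Φ_(inr i) = Φ (a i)`; `(τ, t)` the data of `up b x l`. Then
`pq (tq w) = th τ w` (letters: `ph_eq`, `Hon.ht`), `(tq w).right = hat Φ w` (`Hon.ht`), `μ (tq w) = thq (rdb ..) (vdl ..) x w` (letters: `lbq`; `up_of`, `up_ne`; at `x k`: `Φ (L.t (x k)) = 1`, `t = il (y ..)`;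
at the other places: the value is `1` outside `sp Zc b ∪ E`).
`fxe`: `kx` of `up b x l` is `kx` of `b` (`kx_up`), the first condition of `FX` is `Gdb.bl`; `Jf = (sp Zc b ∪ image x ∪ E).disjSum univ`, the product over `Jf` splits (`Finset.prod_disjSum`,
`Finset.prod_union`, `Finset.prod_image`); at `v ∈ sp Zc b`: `kf (up b x l) v = kf b v`, at `x k`: `kf = (l k).2.2.2`, `pp`, `Gdb.nk` for the places which are not large split; values of `dsc`: `dsc_kf`.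
`fqz`: the factor at `x k` is `0` if `(tq (Wv (x k))).right.x = ph0 (Wv (x k)) = φ (F (x k))` (`ph_v`) is not `1`.
-/

set_option autoImplicit false

open scoped NumberField commutatorElement
open IsDedekindDomain
open scoped Classical

noncomputable section

namespace H73.S3

open H63.MA H38.BB H38.BG H57.PC H57.BRA H77.WD H77.WE H77.PC3 H35.CF H35.UB H77.S3 H71.S3 H1.S3
  H93.BX H93.BY

attribute [local instance 50] Fintype.ofFinite

variable {K : Type} [Field K] [NumberField K] {Ω : Type} [Field Ω] [Algebra K Ω]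
  {p N : ℕ} {ζ : K} {D : RD0 K p ζ} {Q : DP K Ω} {A : GS D Ω} {P : Type} [Group P]
  {c : CL p N P} {S : Type} [Group S] [MulDistribMulAction P S] {q n : ℕ}

/-- the evaluation with values in `S ⋊ Qs` -/
def tq (G : SG c S) (B : SD D Q A) (X : FD A P S) (W : WF A) (T : ℝ) (Zc : Finset (Pl K))
    (τ₀ : Pl K → S) {Qs : Subgroup (Sd P (Du S q (n + 1 + 1)))}
    (f : Pl K → Option (Elb c S q (n + 1))) (Φ : Gal(Ω/K) →* Qs) : FW A →* SP S Qs :=
  FreeGroup.lift (Sum.elim (fun v => cj (tf τ₀ f v)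
    ⟨((adx G B X W T Zc f).t (Sum.inl v)).left, Φ (W.L.t v)⟩)
    fun i => cj (tf τ₀ f (B.pl i)) ⟨X.si i, Φ (A.a i)⟩)

theorem cj_right {S' Q' : Type} [Group S'] [Group Q'] [MulDistribMulAction Q' S'] (u : S')
    (x : SP S' Q') : (cj u x).right = x.right := by
  show 1 * x.right * (1 : Q')⁻¹ = x.right
  rw [one_mul, inv_one, mul_one]

theorem cj_one {S' Q' : Type} [Group S'] [Group Q'] [MulDistribMulAction Q' S'] (u : S') :
    cj u (1 : SP S' Q') = 1 := by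
  unfold cj
  rw [mul_one, mul_inv_cancel]

theorem il_one {S' Q' : Type} [Group S'] [Group Q'] [MulDistribMulAction Q' S'] :
    (il (1 : S') : SP S' Q') = 1 := map_one _

theorem tq_right (G : SG c S) (B : SD D Q A) (X : FD A P S) (W : WF A) (T : ℝ) (Zc : Finset (Pl K))
    (τ₀ : Pl K → S) {Qs : Subgroup (Sd P (Du S q (n + 1 + 1)))}
    (f : Pl K → Option (Elb c S q (n + 1))) (Φ : Gal(Ω/K) →* Qs) (w : FW A) :
    (tq G B X W T Zc τ₀ f Φ w).right = hat W.L A Φ w := by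
  have h : (SemidirectProduct.rightHom : SP S Qs →* Qs).comp (tq G B X W T Zc τ₀ f Φ) =
      hat W.L A Φ := by
    refine FreeGroup.ext_hom _ _ fun j => ?_
    rw [MonoidHom.comp_apply]
    unfold tq
    rw [FreeGroup.lift_apply_of]
    rcases j with v | i
    · rw [hat_inl]
      exact cj_right _ _
    · rw [hat_inr]
      exact cj_right _ _
  exact DFunLike.congr_fun h w

theorem t_ht {G : SG c S} {B : SD D Q A} {X : FD A P S} {W : WF A} {T : ℝ} {Zc : Finset (Pl K)}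
    {e₀ : Pl K ⊕ Fin A.g → El S P q (n + 1)} {Qs : Subgroup (Sd P (Du S q (n + 1 + 1)))}
    {b : Pl K → Option (Elb c S q (n + 1))} {Φ : Gal(Ω/K) →* Qs}
    (hΦ : Hon G B X W T Zc e₀ Qs b Φ) (f : Pl K → Option (Elb c S q (n + 1)))
    (j : Pl K ⊕ Fin A.g) : ((hat W.L A Φ (FreeGroup.of j) : Qs) : Sd P (Du S q (n + 1 + 1))).x =
      ((adx G B X W T Zc f).t j).right := by
  rw [hΦ.ht]
  show ph0 X W (FreeGroup.of j) = _
  rw [← ph_eq G B X W T Zc (lf f)]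
  unfold AD.ph
  rw [FreeGroup.lift_apply_of]

theorem tq_pq {G : SG c S} {B : SD D Q A} {X : FD A P S} {W : WF A} {T : ℝ} {Zc : Finset (Pl K)}
    (τ₀ : Pl K → S) {e₀ : Pl K ⊕ Fin A.g → El S P q (n + 1)}
    {Qs : Subgroup (Sd P (Du S q (n + 1 + 1)))}
    {b : Pl K → Option (Elb c S q (n + 1))} {Φ : Gal(Ω/K) →* Qs}
    (hΦ : Hon G B X W T Zc e₀ Qs b Φ) (f : Pl K → Option (Elb c S q (n + 1))) (w : FW A) :
    pq Qs (tq G B X W T Zc τ₀ f Φ w) = (adx G B X W T Zc f).th (tf τ₀ f) w := by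
  have h : (pq Qs).comp (tq G B X W T Zc τ₀ f Φ) = (adx G B X W T Zc f).th (tf τ₀ f) := by
    refine FreeGroup.ext_hom _ _ fun j => ?_
    rw [MonoidHom.comp_apply]
    unfold tq AD.th
    rw [FreeGroup.lift_apply_of, FreeGroup.lift_apply_of]
    have h1 := t_ht hΦ f j
    rcases j with v | i
    · rw [hat_inl] at h1
      show pq Qs (cj (tf τ₀ f v) ⟨((adx G B X W T Zc f).t (Sum.inl v)).left, Φ (W.L.t v)⟩) =
        cj (tf τ₀ f v) ((adx G B X W T Zc f).t (Sum.inl v))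
      rw [pq_cj]
      congr 1
      refine SemidirectProduct.ext rfl ?_
      exact h1
    · rw [hat_inr] at h1
      show pq Qs (cj (tf τ₀ f (B.pl i)) ⟨X.si i, Φ (A.a i)⟩) =
        cj (tf τ₀ f (B.pl i)) ((adx G B X W T Zc f).t (Sum.inr i))
      rw [pq_cj]
      congr 1
      refine SemidirectProduct.ext rfl ?_
      exact h1
  exact DFunLike.congr_fun h w

theorem tq_mu {G : SG c S} {B : SD D Q A} {X : FD A P S} {W : WF A} {k Mw : ℕ}
    (hW : W.Ok B k Mw) {T : ℝ} {Zc : Finset (Pl K)} (hZ : Disjoint Zc X.E) (hZc : Zc ⊆ W.Z)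
    (τ₀ : Pl K → S) {e₀ : Pl K ⊕ Fin A.g → El S P q (n + 1)}
    {Qs : Subgroup (Sd P (Du S q (n + 1 + 1)))} {b : Pl K → Option (Elb c S q (n + 1))}
    {PQ Lm : Type} [Group PQ] [MulAction Qs Lm] {μ : SP S Qs →* PQ}
    {lm : Px c → Du S q (n + 1) → Lm} {Φ : Gal(Ω/K) →* Qs}
    (hΦ : Hon G B X W T Zc e₀ Qs b Φ) (l : Fin (n + 1 + 1) → Elb c S q (n + 1))
    {x : Fin (n + 1 + 1) → Pl K} (hx : x ∈ H35.CF.Fr Zc (PPc X W T) b (n + 1 + 1)) (w : FW A) :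
    μ (tq G B X W T Zc τ₀ (up b x l) Φ w) =
      H93.BX.thq (rdb G B X W T Zc τ₀ e₀ Qs μ b Φ) (vdl G Qs μ lm l) x w := by
  rw [mem_fr] at hx
  have h : μ.comp (tq G B X W T Zc τ₀ (up b x l) Φ) =
      H93.BX.thq (rdb G B X W T Zc τ₀ e₀ Qs μ b Φ) (vdl G Qs μ lm l) x := by
    refine FreeGroup.ext_hom _ _ fun j => ?_
    rw [MonoidHom.comp_apply]
    unfold tq H93.BX.thq
    rw [FreeGroup.lift_apply_of, FreeGroup.lift_apply_of]
    rcases j with v | i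
    · show μ (cj (tf τ₀ (up b x l) v) ⟨((adx G B X W T Zc (up b x l)).t (Sum.inl v)).left, Φ (W.L.t v)⟩) =
        H62.BL.lbq x (fun k => μ (cj (l k).2.1 (il (G.y (l k).1)))) (fun v => if v ∈ sp Zc b ∪ X.E then
          μ (cj (tf τ₀ b v) ⟨((adx G B X W T Zc b).t (Sum.inl v)).left, Φ (W.L.t v)⟩) else 1) v
      by_cases hv : ∃ k, x k = v
      · obtain ⟨k, rfl⟩ := hv
        rw [H62.BL.lbq_eq hx.2]
        have h1 : tf τ₀ (up b x l) (x k) = (l k).2.1 := by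
          unfold tf
          rw [up_of b x l hx.2 k]
          rfl
        have hxE : x k ∉ X.E := Finset.disjoint_left.1 hZ (hx.1 k).1
        have h2 : Φ (W.L.t (x k)) = 1 := by
          refine hΦ.unz.2 _ (hW.zs _ (hZc (hx.1 k).1)) ?_
          rw [Finset.mem_union, not_or, mem_sp]
          refine ⟨?_, hxE⟩
          rintro ⟨-, h3⟩
          exact h3 (hx.1 k).2.2
        have h3 : (adx G B X W T Zc (up b x l)).t (Sum.inl (x k)) = il (G.y (l k).1) := by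
          show (if x k ∈ X.E then (⟨X.sv (x k), X.φ (W.L.t (x k))⟩ : SP S P) else
            (if x k ∈ Zc then lf (up b x l) (x k) else none).elim 1 fun s => il (G.y s)) = _
          rw [if_neg hxE, if_pos (hx.1 k).1]
          unfold lf
          rw [up_of b x l hx.2 k]
          rfl
        rw [h1, h2, h3]
        rfl
      · have hv' : ∀ k, x k ≠ v := fun k hk => hv ⟨k, hk⟩
        rw [H62.BL.lbq_ne _ _ hv']
        have h1 : up b x l v = b v := H35.CF.up_ne b x l v hv'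
        have h2 : tf τ₀ (up b x l) v = tf τ₀ b v := by
          unfold tf
          rw [h1]
        have h3 : (adx G B X W T Zc (up b x l)).t (Sum.inl v) = (adx G B X W T Zc b).t (Sum.inl v) := by
          show (if v ∈ X.E then (⟨X.sv v, X.φ (W.L.t v)⟩ : SP S P) else
            (if v ∈ Zc then lf (up b x l) v else none).elim 1 fun s => il (G.y s)) =
            (if v ∈ X.E then (⟨X.sv v, X.φ (W.L.t v)⟩ : SP S P) else
            (if v ∈ Zc then lf b v else none).elim 1 fun s => il (G.y s))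
          unfold lf
          rw [h1]
        rw [h2, h3]
        by_cases hm : v ∈ sp Zc b ∪ X.E
        · rw [if_pos hm]
        · rw [if_neg hm]
          have hm' := hm
          rw [Finset.mem_union, not_or, mem_sp] at hm'
          have h4 : Φ (W.L.t v) = 1 := by
            by_cases h0 : v ∈ D.S0
            · rw [Pool.Agent.H19.AB.t_S0 W.L h0, map_one]
            · exact hΦ.unz.2 _ h0 hm
          have h5 : (adx G B X W T Zc b).t (Sum.inl v) = 1 := by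
            show (if v ∈ X.E then (⟨X.sv v, X.φ (W.L.t v)⟩ : SP S P) else
              (if v ∈ Zc then lf b v else none).elim 1 fun s => il (G.y s)) = 1
            rw [if_neg hm'.2]
            by_cases hz : v ∈ Zc
            · have h6 : b v = none := by
                by_contra h7
                exact hm'.1 ⟨hz, h7⟩
              rw [if_pos hz]
              unfold lf
              rw [h6]
              rfl
            · rw [if_neg hz]
              rfl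
          rw [h4, h5]
          have h6 : (⟨(1 : SP S P).left, 1⟩ : SP S Qs) = 1 := rfl
          rw [h6, cj_one, map_one]
    · show μ (cj (tf τ₀ (up b x l) (B.pl i)) ⟨X.si i, Φ (A.a i)⟩) =
        μ (cj (tf τ₀ b (B.pl i)) ⟨X.si i, Φ (A.a i)⟩)
      have h1 : up b x l (B.pl i) = b (B.pl i) := H35.CF.up_ne b x l _ fun k hk =>
        hW.zs _ (hZc (hx.1 k).1) (by rw [hk]; exact B.mem i)
      unfold tf
      rw [h1]
  exact DFunLike.congr_fun h w

/-- the values of the word of a letter -/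
theorem tq_vl {G : SG c S} {B : SD D Q A} {X : FD A P S} {W : WF A} {T : ℝ} {Zc : Finset (Pl K)}
    (τ₀ : Pl K → S) {e₀ : Pl K ⊕ Fin A.g → El S P q (n + 1)}
    {Qs : Subgroup (Sd P (Du S q (n + 1 + 1)))}
    {b : Pl K → Option (Elb c S q (n + 1))} {Φ : Gal(Ω/K) →* Qs}
    (hΦ : Hon G B X W T Zc e₀ Qs b Φ) (f : Pl K → Option (Elb c S q (n + 1)))
    (j : Pl K ⊕ Fin A.g) :
    cj (tf τ₀ f ((adx G B X W T Zc f).pj j))⁻¹ (pq Qs (tq G B X W T Zc τ₀ f Φ ((adx G B X W T Zc f).W j))) =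
      (adx G B X W T Zc f).vl (tf τ₀ f) j := by
  rw [tq_pq τ₀ hΦ f]
  rfl

/-- the part of the word on the right -/
theorem tq_rt {G : SG c S} {B : SD D Q A} {X : FD A P S} {W : WF A} {T : ℝ} {Zc : Finset (Pl K)}
    (τ₀ : Pl K → S) {e₀ : Pl K ⊕ Fin A.g → El S P q (n + 1)}
    {Qs : Subgroup (Sd P (Du S q (n + 1 + 1)))}
    {b : Pl K → Option (Elb c S q (n + 1))} {Φ : Gal(Ω/K) →* Qs}
    (hΦ : Hon G B X W T Zc e₀ Qs b Φ) (f : Pl K → Option (Elb c S q (n + 1))) (w : FW A) :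
    ((tq G B X W T Zc τ₀ f Φ w).right : Sd P (Du S q (n + 1 + 1))) =
      ⟨kx G B X W T Zc e₀ b w, ph0 X W w⟩ := by
  rw [tq_right, hΦ.ht]

/-- the factor of a variable -/
theorem vdl_val {G : SG c S} {B : SD D Q A} {X : FD A P S} {W : WF A} {k Mw : ℕ}
    (hW : W.Ok B k Mw) {T : ℝ} {Zc : Finset (Pl K)} (hZ : Disjoint Zc X.E) (hZc : Zc ⊆ W.Z)
    (τ₀ : Pl K → S) {e₀ : Pl K ⊕ Fin A.g → El S P q (n + 1)}
    {Qs : Subgroup (Sd P (Du S q (n + 1 + 1)))} {b : Pl K → Option (Elb c S q (n + 1))}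
    {PQ Lm : Type} [Group PQ] [MulAction Qs Lm] {μ : SP S Qs →* PQ}
    {lm : Px c → Du S q (n + 1) → Lm} {Dx : LGx q n PQ Qs Lm} (hI : LgI G Qs μ lm Dx)
    {Φ : Gal(Ω/K) →* Qs}
    (hΦ : Hon G B X W T Zc e₀ Qs b Φ) (l : Fin (n + 1 + 1) → Elb c S q (n + 1))
    {x : Fin (n + 1 + 1) → Pl K} (hx : x ∈ H35.CF.Fr Zc (PPc X W T) b (n + 1 + 1))
    (j : Fin (n + 1 + 1)) :
    (vdl G Qs μ lm l).G j (H93.BX.thq (rdb G B X W T Zc τ₀ e₀ Qs μ b Φ) (vdl G Qs μ lm l) x (W.Wv (x j))) =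
      if kx G B X W T Zc e₀ b (W.Wv (x j)) = (l j).2.2.2 ∧ ph0 X W (W.Wv (x j)) = 1 then
        Kf (n + 1) (l j).2.2.1.1.1 (l j).2.2.1.2
          ((adx G B X W T Zc (up b x l)).vl (tf τ₀ (up b x l)) (Sum.inl (x j))) else 0 := by
  rw [← tq_mu hW hZ hZc τ₀ hΦ l hx]
  have hx' := mem_fr.1 hx
  have h1 := dsc_kf hI (fun z : Sd P (Du S q (n + 1 + 1)) => z = ⟨(l j).2.2.2, 1⟩) (n + 1) (by omega)
    (l j).2.2.1.1.1 (l j).2.2.1.2 (l j).2.1 (tq G B X W T Zc τ₀ (up b x l) Φ (W.Wv (x j)))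
  refine h1.trans ?_
  have h2 := tq_vl τ₀ hΦ (up b x l) (Sum.inl (x j))
  have h3 : tf τ₀ (up b x l) (x j) = (l j).2.1 := by
    unfold tf
    rw [up_of b x l hx'.2 j]
    rfl
  have h4 : cj (l j).2.1⁻¹ (pq Qs (tq G B X W T Zc τ₀ (up b x l) Φ (W.Wv (x j)))) =
      (adx G B X W T Zc (up b x l)).vl (tf τ₀ (up b x l)) (Sum.inl (x j)) := by
    rw [← h3]
    exact h2
  rw [h4, tq_rt τ₀ hΦ]
  have h5 : ((⟨kx G B X W T Zc e₀ b (W.Wv (x j)), ph0 X W (W.Wv (x j))⟩ : Sd P (Du S q (n + 1 + 1))) =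
      ⟨(l j).2.2.2, 1⟩) ↔ (kx G B X W T Zc e₀ b (W.Wv (x j)) = (l j).2.2.2 ∧ ph0 X W (W.Wv (x j)) = 1) := by
    constructor
    · intro h
      exact ⟨congrArg Sd.n h, congrArg Sd.x h⟩
    · rintro ⟨h6, h7⟩
      exact Sd.ext h6 h7
  by_cases h6 : kx G B X W T Zc e₀ b (W.Wv (x j)) = (l j).2.2.2 ∧ ph0 X W (W.Wv (x j)) = 1
  · rw [if_pos (h5.2 h6), if_pos h6]
  · rw [if_neg fun h => h6 (h5.1 h), if_neg h6]

/-- the factor of a fixed place -/
theorem rdb_val {G : SG c S} {B : SD D Q A} {X : FD A P S} {W : WF A} {k Mw : ℕ}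
    (hW : W.Ok B k Mw) {T : ℝ} {Zc : Finset (Pl K)} (hZ : Disjoint Zc X.E) (hZc : Zc ⊆ W.Z)
    (τ₀ : Pl K → S) {e₀ : Pl K ⊕ Fin A.g → El S P q (n + 1)}
    {Qs : Subgroup (Sd P (Du S q (n + 1 + 1)))} {b : Pl K → Option (Elb c S q (n + 1))}
    {PQ Lm : Type} [Group PQ] [MulAction Qs Lm] {μ : SP S Qs →* PQ}
    {lm : Px c → Du S q (n + 1) → Lm} {Dx : LGx q n PQ Qs Lm} (hI : LgI G Qs μ lm Dx)
    {Φ : Gal(Ω/K) →* Qs}
    (hΦ : Hon G B X W T Zc e₀ Qs b Φ) (l : Fin (n + 1 + 1) → Elb c S q (n + 1))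
    {x : Fin (n + 1 + 1) → Pl K} (hx : x ∈ H35.CF.Fr Zc (PPc X W T) b (n + 1 + 1))
    {v : Pl K} (hv : ∀ k, x k ≠ v) :
    (rdb G B X W T Zc τ₀ e₀ Qs μ b Φ).G v
        (H93.BX.thq (rdb G B X W T Zc τ₀ e₀ Qs μ b Φ) (vdl G Qs μ lm l) x (W.Wv v)) =
      if v ∈ sp Zc b ∧ PPc X W T v then (if kx G B X W T Zc e₀ b (W.Wv v) = kf b v then
        Kf (n + 1) (ef e₀ b (Sum.inl v)).1.1 (ef e₀ b (Sum.inl v)).2
          ((adx G B X W T Zc (up b x l)).vl (tf τ₀ (up b x l)) (Sum.inl v)) else 0) else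
        Kf (n + 1 + 1) (ef e₀ b (Sum.inl v)).1.2 (ef e₀ b (Sum.inl v)).2
          ((adx G B X W T Zc (up b x l)).vl (tf τ₀ (up b x l)) (Sum.inl v)) := by
  rw [← tq_mu hW hZ hZc τ₀ hΦ l hx]
  have h1 : up b x l v = b v := H35.CF.up_ne b x l v hv
  have h3 : tf τ₀ (up b x l) v = tf τ₀ b v := by
    unfold tf
    rw [h1]
  have h2 := tq_vl τ₀ hΦ (up b x l) (Sum.inl v)
  have h4 : cj (tf τ₀ b v)⁻¹ (pq Qs (tq G B X W T Zc τ₀ (up b x l) Φ (W.Wv v))) =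
      (adx G B X W T Zc (up b x l)).vl (tf τ₀ (up b x l)) (Sum.inl v) := by
    rw [← h3]
    exact h2
  by_cases hc : v ∈ sp Zc b ∧ PPc X W T v
  · rw [if_pos hc]
    have h5 := dsc_kf hI (fun z : Sd P (Du S q (n + 1 + 1)) => z.n = kf b v) (n + 1) (by omega)
      (ef e₀ b (Sum.inl v)).1.1 (ef e₀ b (Sum.inl v)).2 (tf τ₀ b v)
      (tq G B X W T Zc τ₀ (up b x l) Φ (W.Wv v))
    have h6 : (rdb G B X W T Zc τ₀ e₀ Qs μ b Φ).G v = dsc μ fun z : SP S Qs =>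
        if (z.right : Sd P (Du S q (n + 1 + 1))).n = kf b v then
        Kf (n + 1) (ef e₀ b (Sum.inl v)).1.1 (ef e₀ b (Sum.inl v)).2
          (cj (tf τ₀ b v)⁻¹ (pq Qs z)) else 0 := by
      unfold rdb
      dsimp only
      congr 1
      funext z
      exact if_pos hc
    rw [h6]
    refine h5.trans ?_
    rw [h4, tq_rt τ₀ hΦ]
  · rw [if_neg hc]
    have h5 := dsc_kf hI (fun _ : Sd P (Du S q (n + 1 + 1)) => True) (n + 1 + 1) (by omega)
      (ef e₀ b (Sum.inl v)).1.2 (ef e₀ b (Sum.inl v)).2 (tf τ₀ b v)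
      (tq G B X W T Zc τ₀ (up b x l) Φ (W.Wv v))
    have h6 : (rdb G B X W T Zc τ₀ e₀ Qs μ b Φ).G v = dsc μ fun z : SP S Qs =>
        Kf (n + 1 + 1) (ef e₀ b (Sum.inl v)).1.2 (ef e₀ b (Sum.inl v)).2
          (cj (tf τ₀ b v)⁻¹ (pq Qs z)) := by
      unfold rdb
      dsimp only
      congr 1
      funext z
      exact if_neg hc
    simp only [if_true] at h5
    rw [h6]
    refine h5.trans ?_
    rw [h4]

/-- the factor of a letter of `S0` -/
theorem rdb_vali {G : SG c S} {B : SD D Q A} {X : FD A P S} {W : WF A} {k Mw : ℕ}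
    (hW : W.Ok B k Mw) {T : ℝ} {Zc : Finset (Pl K)} (hZ : Disjoint Zc X.E) (hZc : Zc ⊆ W.Z)
    (τ₀ : Pl K → S) {e₀ : Pl K ⊕ Fin A.g → El S P q (n + 1)}
    {Qs : Subgroup (Sd P (Du S q (n + 1 + 1)))} {b : Pl K → Option (Elb c S q (n + 1))}
    {PQ Lm : Type} [Group PQ] [MulAction Qs Lm] {μ : SP S Qs →* PQ}
    {lm : Px c → Du S q (n + 1) → Lm} {Dx : LGx q n PQ Qs Lm} (hI : LgI G Qs μ lm Dx)
    {Φ : Gal(Ω/K) →* Qs}
    (hΦ : Hon G B X W T Zc e₀ Qs b Φ) (l : Fin (n + 1 + 1) → Elb c S q (n + 1))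
    {x : Fin (n + 1 + 1) → Pl K} (hx : x ∈ H35.CF.Fr Zc (PPc X W T) b (n + 1 + 1))
    (i : Fin A.g) :
    (rdb G B X W T Zc τ₀ e₀ Qs μ b Φ).H i
        (H93.BX.thq (rdb G B X W T Zc τ₀ e₀ Qs μ b Φ) (vdl G Qs μ lm l) x (W.Wi i)) =
      Kf (n + 1 + 1) (ef e₀ b (Sum.inr i)).1.2 (ef e₀ b (Sum.inr i)).2
        ((adx G B X W T Zc (up b x l)).vl (tf τ₀ (up b x l)) (Sum.inr i)) := by
  rw [← tq_mu hW hZ hZc τ₀ hΦ l hx]
  have hx' := mem_fr.1 hx
  have h1 : up b x l (B.pl i) = b (B.pl i) := H35.CF.up_ne b x l _ fun k hk =>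
    hW.zs _ (hZc (hx'.1 k).1) (by rw [hk]; exact B.mem i)
  have h3 : tf τ₀ (up b x l) (B.pl i) = tf τ₀ b (B.pl i) := by
    unfold tf
    rw [h1]
  have h2 := tq_vl τ₀ hΦ (up b x l) (Sum.inr i)
  have h4 : cj (tf τ₀ b (B.pl i))⁻¹ (pq Qs (tq G B X W T Zc τ₀ (up b x l) Φ (W.Wi i))) =
      (adx G B X W T Zc (up b x l)).vl (tf τ₀ (up b x l)) (Sum.inr i) := by
    rw [← h3]
    exact h2
  have h5 := dsc_kf hI (fun _ : Sd P (Du S q (n + 1 + 1)) => True) (n + 1 + 1) (by omega)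
    (ef e₀ b (Sum.inr i)).1.2 (ef e₀ b (Sum.inr i)).2 (tf τ₀ b (B.pl i))
    (tq G B X W T Zc τ₀ (up b x l) Φ (W.Wi i))
  have h6 : (rdb G B X W T Zc τ₀ e₀ Qs μ b Φ).H i = dsc μ fun z : SP S Qs =>
      Kf (n + 1 + 1) (ef e₀ b (Sum.inr i)).1.2 (ef e₀ b (Sum.inr i)).2
        (cj (tf τ₀ b (B.pl i))⁻¹ (pq Qs z)) := by
    unfold rdb
    dsimp only
  simp only [if_true] at h5
  rw [h6]
  refine h5.trans ?_
  rw [h4]

theorem fxe [Finite P] (G : SG c S) (B : SD D Q A) (X : FD A P S) (W : WF A) {k Mw : ℕ} (hX : X.Ok G B W)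
    (hW : W.Ok B k Mw) (hP : Sml p k Mw P) (T : ℝ) (Zc : Finset (Pl K)) (hZ : Disjoint Zc X.E) (hZc : Zc ⊆ W.Z)
    (hE : X.E ⊆ W.Z) (τ₀ : Pl K → S) (e₀ : Pl K ⊕ Fin A.g → El S P q (n + 1))
    (Qs : Subgroup (Sd P (Du S q (n + 1 + 1)))) (b : Pl K → Option (Elb c S q (n + 1)))
    (h : Gdb G B X W T Zc e₀ Qs b) {PQ Lm : Type} [Group PQ]
    [MulAction Qs Lm] {μ : SP S Qs →* PQ} {lm : Px c → Du S q (n + 1) → Lm}
    {Dx : LGx q n PQ Qs Lm} (hI : LgI G Qs μ lm Dx) (Φ : Gal(Ω/K) →* Qs)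
    (hΦ : Hon G B X W T Zc e₀ Qs b Φ) (M : ℕ) (l : Fin (n + 1 + 1) → Elb c S q (n + 1))
    (x : Fin (n + 1 + 1) → Pl K) (hx : x ∈ H35.CF.Fr Zc (PPc X W T) b (n + 1 + 1)) :
    FX G B X W T Zc τ₀ e₀ (up b x l) =
      H93.BX.Fq (wy B W M) (rdb G B X W T Zc τ₀ e₀ Qs μ b Φ) (vdl G Qs μ lm l) x := by
  have hx' := mem_fr.1 hx
  have hkx := kx_up G B X W T Zc hZ e₀ l b x hx
  have hxE : ∀ k, x k ∉ X.E := fun k => Finset.disjoint_left.1 hZ (hx'.1 k).1
  have hxb : ∀ k, x k ∉ sp Zc b := fun k hk => (mem_sp.1 hk).2 (hx'.1 k).2.2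
  have hadm : H62.BL.Adm (rdb G B X W T Zc τ₀ e₀ Qs μ b Φ).T x := by
    refine ⟨hx'.2, fun k hk => ?_⟩
    rcases Finset.mem_union.1 hk with h1 | h1
    · exact hxb k h1
    · exact hxE k h1
  have hph : ∀ k, ph0 X W (W.Wv (x k)) = 1 := fun k => by
    have h1 := (ph_v G B X W hX hW hP T Zc hZ hE (lf b)).1 (x k) (hZc (hx'.1 k).1)
    rw [ph_eq] at h1
    rw [h1]
    exact (hx'.1 k).2.1.2
  have hlf : ∀ v, lf (up b x l) v ≠ none ↔ up b x l v ≠ none := fun v => by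
    unfold lf
    rw [ne_eq, Option.map_eq_none_iff]
  have hsp : sp Zc (lf (up b x l)) = sp Zc (up b x l) := by
    ext v
    rw [mem_sp, mem_sp, hlf]
  have hsu : sp Zc (up b x l) = sp Zc b ∪ Finset.univ.image x := by
    ext v
    rw [Finset.mem_union, mem_sp, mem_sp, Finset.mem_image]
    by_cases hv : ∃ k, x k = v
    · obtain ⟨k, rfl⟩ := hv
      rw [up_of b x l hx'.2 k]
      constructor
      · intro _
        exact Or.inr ⟨k, Finset.mem_univ _, rfl⟩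
      · intro _
        exact ⟨(hx'.1 k).1, Option.some_ne_none _⟩
    · rw [H35.CF.up_ne b x l v fun k hk => hv ⟨k, hk⟩]
      constructor
      · intro h1
        exact Or.inl h1
      · rintro (h1 | ⟨k, -, hk⟩)
        · exact h1
        · exact absurd ⟨k, hk⟩ hv
  -- the product over the letters
  have hT : (rdb G B X W T Zc τ₀ e₀ Qs μ b Φ).T = sp Zc b ∪ X.E := rfl
  have hJ : (adx G B X W T Zc (up b x l)).Jf =
      ((sp Zc b ∪ X.E) ∪ Finset.univ.image x).disjSum Finset.univ := by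
    show (sp Zc (lf (up b x l)) ∪ X.E).disjSum Finset.univ = _
    rw [hsp, hsu, Finset.union_right_comm]
  have hdj : Disjoint (sp Zc b ∪ X.E) (Finset.univ.image x) := by
    rw [Finset.disjoint_left]
    intro v hv hv'
    obtain ⟨k, -, rfl⟩ := Finset.mem_image.1 hv'
    exact hadm.2 k hv
  have hef : ∀ v, (∀ k, x k ≠ v) → ef e₀ (up b x l) (Sum.inl v) = ef e₀ b (Sum.inl v) := fun v hv => by
    show (up b x l v).elim _ _ = (b v).elim _ _
    rw [H35.CF.up_ne b x l v hv]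
  have hkf : ∀ v, (∀ k, x k ≠ v) → kf (up b x l) v = kf b v := fun v hv => by
    unfold kf
    rw [H35.CF.up_ne b x l v hv]
  have hnx : ∀ v ∈ sp Zc b ∪ X.E, ∀ k, x k ≠ v := fun v hv k hk => hadm.2 k (by rw [hk]; exact hv)
  have hex : ∀ k, ef e₀ (up b x l) (Sum.inl (x k)) = (l k).2.2.1 := fun k => by
    show (up b x l (x k)).elim _ _ = _
    rw [up_of b x l hx'.2 k]
    rfl
  have hkx' : ∀ k, kf (up b x l) (x k) = (l k).2.2.2 := fun k => by
    unfold kf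
    rw [up_of b x l hx'.2 k]
    rfl
  have hpp : ∀ v, (adx G B X W T Zc (up b x l)).pp (Sum.inl v) ↔
      v ∈ sp Zc (up b x l) ∧ PPc X W T v := fun v => by
    show (v ∈ sp Zc (lf (up b x l)) ∧ PPc X W T v) ↔ _
    rw [hsp]
  have hKr : (adx G B X W T Zc (up b x l)).Kr (ef e₀ (up b x l))
        ((adx G B X W T Zc (up b x l)).vl (tf τ₀ (up b x l))) =
      (∏ v ∈ sp Zc b ∪ X.E, if v ∈ sp Zc b ∧ PPc X W T v then
          Kf (n + 1) (ef e₀ b (Sum.inl v)).1.1 (ef e₀ b (Sum.inl v)).2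
            ((adx G B X W T Zc (up b x l)).vl (tf τ₀ (up b x l)) (Sum.inl v)) else
          Kf (n + 1 + 1) (ef e₀ b (Sum.inl v)).1.2 (ef e₀ b (Sum.inl v)).2
            ((adx G B X W T Zc (up b x l)).vl (tf τ₀ (up b x l)) (Sum.inl v))) *
        (∏ i, Kf (n + 1 + 1) (ef e₀ b (Sum.inr i)).1.2 (ef e₀ b (Sum.inr i)).2
          ((adx G B X W T Zc (up b x l)).vl (tf τ₀ (up b x l)) (Sum.inr i))) *
        ∏ k, Kf (n + 1) (l k).2.2.1.1.1 (l k).2.2.1.2
          ((adx G B X W T Zc (up b x l)).vl (tf τ₀ (up b x l)) (Sum.inl (x k))) := by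
    unfold AD.Kr
    rw [hJ, Finset.prod_disjSum, Finset.prod_union hdj, Finset.prod_image fun i _ j _ hij => hx'.2 hij]
    have e1 : ∀ v ∈ sp Zc b ∪ X.E, (if (adx G B X W T Zc (up b x l)).pp (Sum.inl v) then
        Kf (n + 1) (ef e₀ (up b x l) (Sum.inl v)).1.1 (ef e₀ (up b x l) (Sum.inl v)).2
          ((adx G B X W T Zc (up b x l)).vl (tf τ₀ (up b x l)) (Sum.inl v)) else
        Kf (n + 1 + 1) (ef e₀ (up b x l) (Sum.inl v)).1.2 (ef e₀ (up b x l) (Sum.inl v)).2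
          ((adx G B X W T Zc (up b x l)).vl (tf τ₀ (up b x l)) (Sum.inl v))) =
        if v ∈ sp Zc b ∧ PPc X W T v then
          Kf (n + 1) (ef e₀ b (Sum.inl v)).1.1 (ef e₀ b (Sum.inl v)).2
            ((adx G B X W T Zc (up b x l)).vl (tf τ₀ (up b x l)) (Sum.inl v)) else
          Kf (n + 1 + 1) (ef e₀ b (Sum.inl v)).1.2 (ef e₀ b (Sum.inl v)).2
            ((adx G B X W T Zc (up b x l)).vl (tf τ₀ (up b x l)) (Sum.inl v)) := by
      intro v hv
      have h1 : (adx G B X W T Zc (up b x l)).pp (Sum.inl v) ↔ (v ∈ sp Zc b ∧ PPc X W T v) := by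
        rw [hpp, hsu, Finset.mem_union]
        refine and_congr_left fun _ => or_iff_left ?_
        rintro h2
        obtain ⟨k, -, hk⟩ := Finset.mem_image.1 h2
        exact hnx v hv k hk
      rw [hef v (hnx v hv)]
      by_cases h2 : v ∈ sp Zc b ∧ PPc X W T v
      · rw [if_pos (h1.2 h2), if_pos h2]
      · rw [if_neg fun h3 => h2 (h1.1 h3), if_neg h2]
    rw [Finset.prod_congr rfl e1]
    have e2 : ∀ k : Fin (n + 1 + 1), (if (adx G B X W T Zc (up b x l)).pp (Sum.inl (x k)) then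
        Kf (n + 1) (ef e₀ (up b x l) (Sum.inl (x k))).1.1 (ef e₀ (up b x l) (Sum.inl (x k))).2
          ((adx G B X W T Zc (up b x l)).vl (tf τ₀ (up b x l)) (Sum.inl (x k))) else
        Kf (n + 1 + 1) (ef e₀ (up b x l) (Sum.inl (x k))).1.2 (ef e₀ (up b x l) (Sum.inl (x k))).2
          ((adx G B X W T Zc (up b x l)).vl (tf τ₀ (up b x l)) (Sum.inl (x k)))) =
        Kf (n + 1) (l k).2.2.1.1.1 (l k).2.2.1.2
          ((adx G B X W T Zc (up b x l)).vl (tf τ₀ (up b x l)) (Sum.inl (x k))) := by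
      intro k
      rw [if_pos ((hpp _).2 ⟨by
        rw [hsu, Finset.mem_union]
        exact Or.inr (Finset.mem_image_of_mem _ (Finset.mem_univ _)), (hx'.1 k).2.1⟩), hex k]
    rw [Finset.prod_congr rfl fun k _ => e2 k]
    have e3 : ∀ i : Fin A.g, (if (adx G B X W T Zc (up b x l)).pp (Sum.inr i) then
        Kf (n + 1) (ef e₀ (up b x l) (Sum.inr i)).1.1 (ef e₀ (up b x l) (Sum.inr i)).2
          ((adx G B X W T Zc (up b x l)).vl (tf τ₀ (up b x l)) (Sum.inr i)) else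
        Kf (n + 1 + 1) (ef e₀ (up b x l) (Sum.inr i)).1.2 (ef e₀ (up b x l) (Sum.inr i)).2
          ((adx G B X W T Zc (up b x l)).vl (tf τ₀ (up b x l)) (Sum.inr i))) =
        Kf (n + 1 + 1) (ef e₀ b (Sum.inr i)).1.2 (ef e₀ b (Sum.inr i)).2
          ((adx G B X W T Zc (up b x l)).vl (tf τ₀ (up b x l)) (Sum.inr i)) := by
      intro i
      exact if_neg fun h => h
    rw [Finset.prod_congr rfl fun i _ => e3 i]
    ring
  unfold FX H93.BX.Fq
  rw [if_pos hadm]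
  have hr1 : ∀ v ∈ sp Zc b ∪ X.E, (rdb G B X W T Zc τ₀ e₀ Qs μ b Φ).G v
      (H93.BX.thq (rdb G B X W T Zc τ₀ e₀ Qs μ b Φ) (vdl G Qs μ lm l) x ((wy B W M).wv v)) = _ :=
    fun v hv => rdb_val hW hZ hZc τ₀ hI hΦ l hx (hnx v hv)
  have hr2 : ∀ i ∈ (Finset.univ : Finset (Fin A.g)), (rdb G B X W T Zc τ₀ e₀ Qs μ b Φ).H i
      (H93.BX.thq (rdb G B X W T Zc τ₀ e₀ Qs μ b Φ) (vdl G Qs μ lm l) x ((wy B W M).wj i)) = _ :=
    fun i _ => rdb_vali hW hZ hZc τ₀ hI hΦ l hx i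
  have hr3 : ∀ j ∈ (Finset.univ : Finset (Fin (n + 1 + 1))), (vdl G Qs μ lm l).G j
      (H93.BX.thq (rdb G B X W T Zc τ₀ e₀ Qs μ b Φ) (vdl G Qs μ lm l) x ((wy B W M).wv (x j))) = _ :=
    fun j _ => vdl_val hW hZ hZc τ₀ hI hΦ l hx j
  rw [hT, Finset.prod_congr rfl hr1, Finset.prod_congr rfl hr2, Finset.prod_congr rfl hr3]
  have hbl : ∀ v ∈ W.l, kx G B X W T Zc e₀ (up b x l) (wd FreeGroup.of (adx G B X W T Zc (up b x l)).W
      ((adx G B X W T Zc (up b x l)).bl v)) = 0 := by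
    rw [hkx]
    exact h.bl
  by_cases hC : ∀ v ∈ sp Zc (up b x l), kf (up b x l) v =
      if PPc X W T v then kx G B X W T Zc e₀ (up b x l) (W.Wv v) else 0
  · rw [if_pos ⟨hbl, hC⟩, hKr]
    rw [hkx] at hC
    congr 1
    · congr 1
      refine Finset.prod_congr rfl fun v hv => ?_
      by_cases h1 : v ∈ sp Zc b ∧ PPc X W T v
      · rw [if_pos h1, if_pos h1]
        have h2 := hC v (by rw [hsu, Finset.mem_union]; exact Or.inl h1.1)
        rw [if_pos h1.2, hkf v (hnx v hv)] at h2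
        rw [if_pos h2.symm]
      · rw [if_neg h1, if_neg h1]
    · refine Finset.prod_congr rfl fun j _ => ?_
      have h2 := hC (x j) (by
        rw [hsu, Finset.mem_union]
        exact Or.inr (Finset.mem_image_of_mem _ (Finset.mem_univ _)))
      rw [if_pos (hx'.1 j).2.1, hkx' j] at h2
      rw [if_pos ⟨h2.symm, hph j⟩]
  · rw [if_neg fun h1 => hC h1.2]
    rw [hkx] at hC
    push Not at hC
    obtain ⟨v, hv, hne⟩ := hC
    rw [hsu, Finset.mem_union] at hv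
    symm
    rcases hv with hv | hv
    · have hv' : v ∈ sp Zc b ∪ X.E := Finset.mem_union_left _ hv
      have h2 : PPc X W T v := by
        by_contra h3
        rw [if_neg h3, hkf v (hnx v hv')] at hne
        exact hne (h.nk v hv h3)
      rw [if_pos h2, hkf v (hnx v hv')] at hne
      have h3 : (∏ v ∈ sp Zc b ∪ X.E, if v ∈ sp Zc b ∧ PPc X W T v then
          (if kx G B X W T Zc e₀ b (W.Wv v) = kf b v then
          Kf (n + 1) (ef e₀ b (Sum.inl v)).1.1 (ef e₀ b (Sum.inl v)).2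
            ((adx G B X W T Zc (up b x l)).vl (tf τ₀ (up b x l)) (Sum.inl v)) else 0) else
          Kf (n + 1 + 1) (ef e₀ b (Sum.inl v)).1.2 (ef e₀ b (Sum.inl v)).2
            ((adx G B X W T Zc (up b x l)).vl (tf τ₀ (up b x l)) (Sum.inl v))) = 0 := by
        refine Finset.prod_eq_zero hv' ?_
        rw [if_pos ⟨hv, h2⟩, if_neg fun h4 => hne h4.symm]
      rw [h3, zero_mul, zero_mul]
    · obtain ⟨j, -, rfl⟩ := Finset.mem_image.1 hv
      rw [if_pos (hx'.1 j).2.1, hkx' j] at hne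
      refine mul_eq_zero_of_right _ (Finset.prod_eq_zero (Finset.mem_univ j) ?_)
      exact if_neg fun h4 => hne h4.1.symm

/-- the part of the evaluation in `Qs` -/
theorem thq_pi {G : SG c S} {B : SD D Q A} {X : FD A P S} {W : WF A} {k Mw : ℕ}
    (hW : W.Ok B k Mw) {T : ℝ} {Zc : Finset (Pl K)}
    (τ₀ : Pl K → S) {e₀ : Pl K ⊕ Fin A.g → El S P q (n + 1)}
    {Qs : Subgroup (Sd P (Du S q (n + 1 + 1)))} {b : Pl K → Option (Elb c S q (n + 1))}
    {PQ Lm : Type} [Group PQ] [MulAction Qs Lm] {μ : SP S Qs →* PQ}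
    {lm : Px c → Du S q (n + 1) → Lm} {Dx : LGx q n PQ Qs Lm} (hI : LgI G Qs μ lm Dx)
    {Φ : Gal(Ω/K) →* Qs}
    (hΦ : Hon G B X W T Zc e₀ Qs b Φ) (l : Fin (n + 1 + 1) → Elb c S q (n + 1))
    {x : Fin (n + 1 + 1) → Pl K} (hx : ∀ j, x j ∈ W.Z)
    (ha : H62.BL.Adm (rdb G B X W T Zc τ₀ e₀ Qs μ b Φ).T x) (w : FW A) :
    Dx.D.pi (H93.BX.thq (rdb G B X W T Zc τ₀ e₀ Qs μ b Φ) (vdl G Qs μ lm l) x w) =
      hat W.L A Φ w := by
  have h : Dx.D.pi.comp (H93.BX.thq (rdb G B X W T Zc τ₀ e₀ Qs μ b Φ) (vdl G Qs μ lm l) x) =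
      hat W.L A Φ := by
    refine FreeGroup.ext_hom _ _ fun j => ?_
    rw [MonoidHom.comp_apply]
    unfold H93.BX.thq
    rw [FreeGroup.lift_apply_of]
    rcases j with v | i
    · rw [hat_inl]
      show Dx.D.pi (H62.BL.lbq x (fun k => μ (cj (l k).2.1 (il (G.y (l k).1))))
        (fun v => if v ∈ sp Zc b ∪ X.E then
          μ (cj (tf τ₀ b v) ⟨((adx G B X W T Zc b).t (Sum.inl v)).left, Φ (W.L.t v)⟩) else 1) v) =
          Φ (W.L.t v)
      by_cases hv : ∃ k, x k = v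
      · obtain ⟨k, rfl⟩ := hv
        rw [H62.BL.lbq_eq ha.1, hI.pi, cj_right, hΦ.unz.2 _ (hW.zs _ (hx k)) (ha.2 k)]
        rfl
      · have hv' : ∀ k, x k ≠ v := fun k hk => hv ⟨k, hk⟩
        rw [H62.BL.lbq_ne _ _ hv']
        by_cases hm : v ∈ sp Zc b ∪ X.E
        · rw [if_pos hm, hI.pi, cj_right]
        · rw [if_neg hm, map_one]
          by_cases h0 : v ∈ D.S0
          · rw [Pool.Agent.H19.AB.t_S0 W.L h0, map_one]
          · exact (hΦ.unz.2 _ h0 hm).symm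
    · rw [hat_inr]
      show Dx.D.pi (μ (cj (tf τ₀ b (B.pl i)) ⟨X.si i, Φ (A.a i)⟩)) = Φ (A.a i)
      rw [hI.pi, cj_right]
  exact DFunLike.congr_fun h w

theorem fqz [Finite P] (G : SG c S) (B : SD D Q A) (X : FD A P S) (W : WF A) {k Mw : ℕ} (hX : X.Ok G B W)
    (hW : W.Ok B k Mw) (hP : Sml p k Mw P) (T : ℝ) (Zc : Finset (Pl K)) (hZ : Disjoint Zc X.E)
    (hZc : Zc ⊆ W.Z) (hE : X.E ⊆ W.Z) (τ₀ : Pl K → S) (e₀ : Pl K ⊕ Fin A.g → El S P q (n + 1))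
    (Qs : Subgroup (Sd P (Du S q (n + 1 + 1)))) (b : Pl K → Option (Elb c S q (n + 1)))
    (h : Gdb G B X W T Zc e₀ Qs b) {PQ Lm : Type} [Group PQ]
    [MulAction Qs Lm] {μ : SP S Qs →* PQ} {lm : Px c → Du S q (n + 1) → Lm}
    {Dx : LGx q n PQ Qs Lm} (hI : LgI G Qs μ lm Dx) (Φ : Gal(Ω/K) →* Qs)
    (hΦ : Hon G B X W T Zc e₀ Qs b Φ) (M : ℕ) (l : Fin (n + 1 + 1) → Elb c S q (n + 1))
    (x : Fin (n + 1 + 1) → Pl K) (hx : ∀ j, x j ∈ W.Z) (j : Fin (n + 1 + 1))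
    (hj : X.φ (W.Fr.F (x j)) ≠ 1) :
    H93.BX.Fq (wy B W M) (rdb G B X W T Zc τ₀ e₀ Qs μ b Φ) (vdl G Qs μ lm l) x = 0 := by
  have _ := h
  unfold H93.BX.Fq
  by_cases ha : H62.BL.Adm (rdb G B X W T Zc τ₀ e₀ Qs μ b Φ).T x
  · rw [if_pos ha]
    refine mul_eq_zero_of_right _ (Finset.prod_eq_zero (Finset.mem_univ j) ?_)
    obtain ⟨y, hy⟩ : ∃ y, y = H93.BX.thq (rdb G B X W T Zc τ₀ e₀ Qs μ b Φ) (vdl G Qs μ lm l) x
      (W.Wv (x j)) := ⟨_, rfl⟩
    have h1 : Dx.D.pi y = hat W.L A Φ (W.Wv (x j)) := by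
      rw [hy]
      exact thq_pi hW τ₀ hI hΦ l hx ha _
    show (vdl G Qs μ lm l).G j (H93.BX.thq (rdb G B X W T Zc τ₀ e₀ Qs μ b Φ) (vdl G Qs μ lm l) x
      (W.Wv (x j))) = 0
    rw [← hy]
    unfold vdl dsc
    dsimp only
    by_cases hz : ∃ z, μ z = y
    · rw [dif_pos hz, if_neg]
      intro h2
      have h3 := hI.pi hz.choose
      rw [hz.choose_spec, h1] at h3
      have h4 : ((hz.choose.right : Qs) : Sd P (Du S q (n + 1 + 1))).x = 1 := by
        rw [h2]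
      rw [← h3, hΦ.ht] at h4
      have h5 := (ph_v G B X W hX hW hP T Zc hZ hE (lf b)).1 (x j) (hx j)
      rw [ph_eq] at h5
      exact hj (h5.symm.trans h4)
    · rw [dif_neg hz]
  · rw [if_neg ha]

end H73.S3
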