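import Pool.Agent.H73.S3.Bxc
import Pool.Agent.H82.S3.Lgi

/-!
# [H73 S3 LGS] the instance of `LGx` for the stage `m = n + 1` (MP_b39724_nt, stage 3, chapter B)

`PQ = (S / gam_(n+3)) ⋊ Q`, `f 0 = ⊤`, `f i = gam_i`. Labels `(a, χ)`, `g • (a, χ) = (g a, g χ + g.n ∘ br (y (g a)))`, `ch (a, χ) = χ`, `ka g = g.n`. Unlinked tuples: H88/S3/Unx (negation).
-/

set_option autoImplicit false

open scoped NumberField commutatorElement
open IsDedekindDomain
open scoped Classical

noncomputable section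

namespace H73.S3

open H63.MA H38.BB H38.BG H57.PC H57.BRA H77.WD H77.WE H77.PC3 H35.CF H35.UB H77.S3 H71.S3 H1.S3
  H93.BX H93.BY

attribute [local instance 50] Fintype.ofFinite

variable {p N : ℕ} {P : Type} [Group P] {c : CL p N P} {S : Type} [Group S]
  [MulDistribMulAction P S] {q n : ℕ}

theorem lgi [Finite S] [Finite P] [NeZero q] (hp : p.Prime) (G : SG c S) (hS : IsPGroup p S)
    (hP : IsPGroup p P) (hq : ∀ s : S, s ^ q = 1) (hqp : ∃ r, q = p ^ r)
    (Q : Subgroup (Sd P (Du S q (n + 1 + 1)))) :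
    ∃ (PQ Lm : Type) (_ : Group PQ) (_ : Finite PQ) (_ : Fintype Lm) (_ : MulAction Q Lm)
      (μ : SP S Q →* PQ) (lm : Px c → Du S q (n + 1) → Lm) (Dx : LGx q n PQ Q Lm),
      LgI G Q μ lm Dx ∧ IsPGroup p PQ ∧
      Nat.card PQ ≤ Nat.card S * (Nat.card P * Nat.card (Du S q (n + 1 + 1))) ∧
      Nat.card Lm ≤ Nat.card (Px c) * Nat.card (Du S q (n + 1)) ∧
      ∀ (y : Fin (n + 1 + 1) → Px c) (χ : Fin (n + 1 + 1) → Du S q (n + 1)),
        ¬Ulk Q (fun k => G.y (y k)) χ → Dx.Lk fun k => lm (y k) (χ k) := by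
  letI : MulAction Q (H82.S3.Lbl c S q n) :=
    { smul := fun g x => H82.S3.lact G g x
      one_smul := fun x => H82.S3.lact_one G x
      mul_smul := fun g h x => H82.S3.lact_mul G g h x }
  have hact : ∀ (g : Q) (x : H82.S3.Lbl c S q n), g • x = H82.S3.lact G g x := fun _ _ => rfl
  have hSd : IsPGroup p (Sd P (Du S q (n + 1 + 1))) := by
    intro x
    obtain ⟨k, hk⟩ := hP x.x
    obtain ⟨r, hr⟩ := hqp
    have h1 : (x ^ p ^ k).x = 1 := by
      have : Sd.pr (x ^ p ^ k) = 1 := by rw [map_pow]; exact hk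
      exact this
    have h2 : ∀ (ν : Du S q (n + 1 + 1)) (j : ℕ), (⟨ν, 1⟩ : Sd P (Du S q (n + 1 + 1))) ^ j = ⟨j • ν, 1⟩ := by
      intro ν j
      induction j with
      | zero => rw [pow_zero, zero_smul]; rfl
      | succ j ih =>
        rw [pow_succ, ih, sd_mul, one_smul, mul_one, succ_nsmul]
    refine ⟨k + r, ?_⟩
    have h3 : x ^ p ^ k = ⟨(x ^ p ^ k).n, 1⟩ := Sd.ext rfl h1
    rw [pow_add, pow_mul, h3, h2, ← hr]
    have h4 : q • (x ^ p ^ k).n = 0 := du_ext fun z => by
      have h5 : ∀ j : ℕ, (j • (x ^ p ^ k).n).ap z = j • (x ^ p ^ k).n.ap z := by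
        intro j
        induction j with
        | zero => rw [zero_smul, zero_smul]; rfl
        | succ j ih => rw [succ_nsmul, succ_nsmul, ap_add, ih]
      rw [h5, nsmul_eq_mul, ZMod.natCast_self, zero_mul]
      rfl
    rw [h4]
    rfl
  have hQ : IsPGroup p Q := hSd.to_subgroup Q
  have hfin : Finite (SP S Q) := inferInstance
  obtain ⟨Dx, hDx⟩ : ∃ Dx : LGx q n (H82.S3.Pq S Q (n + 3)) Q (H82.S3.Lbl c S q n), Dx = H82.S3.lgd G hq Q hact := ⟨_, rfl⟩
  have hI : LgI G Q (H82.S3.mq S Q (n + 3)) (fun a χ => (⟨a, χ⟩ : H82.S3.Lbl c S q n)) Dx := by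
    subst hDx
    refine ⟨H82.S3.mq_surj _, fun x => H82.S3.mq_one, fun i hi x => H82.S3.mem_fI hi, fun x => rfl, fun a χ => rfl,
      fun a χ u hu => H82.S3.vx_il (by omega) χ hu, fun g u hu => H82.S3.vx_il (m := n + 1 + 1) (by omega) _ hu, ?_⟩
    intro g hg a χ h0
    rw [hact]
    refine H82.S3.Lbl.ext (Subtype.ext ?_) (du_ext fun z => ?_)
    · show (g : Sd P (Du S q (n + 1 + 1))).x * a.1 * (g : Sd P (Du S q (n + 1 + 1))).x⁻¹ = a.1
      rw [hg]
      group
    · have e1 : cjx (g : Sd P (Du S q (n + 1 + 1))).x a = a := Subtype.ext (by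
        show (g : Sd P (Du S q (n + 1 + 1))).x * a.1 * (g : Sd P (Du S q (n + 1 + 1))).x⁻¹ = a.1
        rw [hg]
        group)
      show ((g : Sd P (Du S q (n + 1 + 1))).x • χ + H82.S3.twl G (g : Sd P (Du S q (n + 1 + 1))).n
        (cjx (g : Sd P (Du S q (n + 1 + 1))).x a)).ap z = χ.ap z
      rw [e1, ap_add, H82.S3.twl_ap, h0, add_zero, hg, one_smul]
  refine ⟨H82.S3.Pq S Q (n + 3), H82.S3.Lbl c S q n, inferInstance, inferInstance, Fintype.ofFinite _, inferInstance,
    H82.S3.mq S Q (n + 3), fun a χ => ⟨a, χ⟩, Dx, hI, H82.S3.mq_pgroup hS hQ, ?_, H82.S3.lbl_card, ?_⟩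
  · have h1 : Nat.card (H82.S3.Pq S Q (n + 3)) ≤ Nat.card (SP S Q) := Nat.card_le_card_of_surjective _ (H82.S3.mq_surj (n + 3))
    have h2 : Nat.card (SP S Q) ≤ Nat.card S * Nat.card Q := by
      rw [← Nat.card_prod]
      refine Nat.card_le_card_of_injective (fun x : SP S Q => (x.left, x.right)) fun x y h => ?_
      simp only [Prod.mk.injEq] at h
      exact SemidirectProduct.ext h.1 h.2
    have h3 : Nat.card Q ≤ Nat.card P * Nat.card (Du S q (n + 1 + 1)) := by
      have h4 : Nat.card Q ≤ Nat.card (Sd P (Du S q (n + 1 + 1))) := Nat.card_le_card_of_injective _ Subtype.val_injective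
      refine h4.trans ?_
      rw [← Nat.card_prod]
      refine Nat.card_le_card_of_injective (fun x : Sd P (Du S q (n + 1 + 1)) => (x.x, x.n)) fun x y h => ?_
      simp only [Prod.mk.injEq] at h
      exact Sd.ext h.2 h.1
    exact h1.trans (h2.trans (Nat.mul_le_mul le_rfl h3))
  · intro y χ hU
    by_contra hL
    refine hU ?_
    obtain ⟨la, q1, q2⟩ := H88.S3.unx Dx _ hL
    have hmap : ∀ w : List (Fin (n + 1 + 1) × Q), (w.map (H88.S3.ex fun k => (⟨y k, χ k⟩ : H82.S3.Lbl c S q n))).map Dx.D.s =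
        (w.map fun a => (a.2 : Sd P (Du S q (n + 1 + 1))).x • G.y (y a.1)).map
          ((H82.S3.mq S Q (n + 3)).comp (SemidirectProduct.inl : S →* SP S Q)) := by
      intro w
      rw [List.map_map, List.map_map]
      refine List.map_congr_left fun a _ => ?_
      change Dx.D.s (a.2 • (⟨y a.1, χ a.1⟩ : H82.S3.Lbl c S q n)) = H82.S3.mq S Q (n + 3) (il ((a.2 : Sd P (Du S q (n + 1 + 1))).x • G.y (y a.1)))
      rw [hact, G.smul_y]
      exact hI.s _ _
    have hrn : ∀ w : List (Fin (n + 1 + 1) × Q), H62.BL.rn ((w.map (H88.S3.ex fun k => (⟨y k, χ k⟩ : H82.S3.Lbl c S q n))).map Dx.D.s) =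
        H82.S3.mq S Q (n + 3) (il (H62.BL.rn (w.map fun a => (a.2 : Sd P (Du S q (n + 1 + 1))).x • G.y (y a.1)))) := by
      intro w
      rw [hmap, ← H62.BL.rn_map]
      rfl
    have hgm : ∀ (l : List S), ∀ m, l.length = m + 1 → H62.BL.rn l ∈ gm S (m + 1) := by
      intro l
      induction l with
      | nil => intro m h; simp at h
      | cons a l ih =>
        intro m h
        cases l with
        | nil =>
          have : m = 0 := by simpa using h
          subst this
          exact Subgroup.mem_top _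
        | cons b l =>
          obtain ⟨m', rfl⟩ : ∃ m', m = m' + 1 := ⟨m - 1, by simp at h; omega⟩
          have h1 := ih m' (by simpa using h)
          exact gm_comm' (m' + 1) (v := a) h1
    refine ⟨la, fun k w hw => ?_, fun u w hw => ?_⟩
    · have hl : (w.map fun a => (a.2 : Sd P (Du S q (n + 1 + 1))).x • G.y (y a.1)).length = n + 1 := by
        have := hw.length_eq
        rw [List.length_cons, List.length_map, List.length_finRange] at this
        rw [List.length_map]
        omega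
      have h1 : Dx.ch (⟨y k, χ k⟩ : H82.S3.Lbl c S q n) (H62.BL.rn ((w.map (H88.S3.ex fun k =>
          (⟨y k, χ k⟩ : H82.S3.Lbl c S q n))).map Dx.D.s)) = - la (H62.BL.br ((k, 1) :: w)) := q1 k w hw
      rw [hrn] at h1
      rw [← h1]
      exact (hI.ch _ _ _ (hgm _ _ hl)).symm
    · have hl : (w.map fun a => (a.2 : Sd P (Du S q (n + 1 + 1))).x • G.y (y a.1)).length = n + 1 + 1 := by
        have := hw.length_eq
        rw [List.length_map, List.length_finRange] at this
        rw [List.length_map]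
        omega
      have h1 : la (H62.BL.br (w.map fun x => (x.1, u⁻¹ * x.2))) - la (H62.BL.br w) = Dx.ka u (H62.BL.rn ((w.map (H88.S3.ex fun k =>
          (⟨y k, χ k⟩ : H82.S3.Lbl c S q n))).map Dx.D.s)) := q2 u w hw
      rw [hrn] at h1
      rw [h1]
      exact hI.ka _ _ (hgm _ _ hl)

end H73.S3
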