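import Pool.Agent.H73.S3.Bxe
import Pool.Agent.H73.S3.Bxb
import Pool.Agent.H73.S3.Lgs

/-!
# [H73 S3 BXQ] the box inequality from BLG, one subgroup (MP_b39724_nt, stage 3, chapter B)

`qbx`: for one subgroup `Qs` (one instance `Dx`, `μ`, `lm` of `LGx`): the sum over the good `b` with this `Qs` is small, from BLG: `ι :=` configurations, `I := Cf Zc .. filter (bounds, Gdb)`, `r b := rdb ..` with
`Φ` from `hon_ex`, `v := vdl`, `h := 1`. `Rfx`: `rox`; `nr (sp ∪ E) ≤ Y ^ C₁ * log Y`; `card E ≤ log (nr E) / log 2`; multiplicity: `b` is determined by its labels on `s \ E`. Inner sum: `Fr Zc PPc b`, box, against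
`piFinset BX`: `Zc = Zg D Z E` (good primes of `Z` outside `E`), `T ≤ lo`; `fxe` if all `φ (F (x k)) = 1`, `fqz` otherwise, `Fq = 0` if not `Adm`. Weights: `nr (sp ∪ E) = nr sp * nr E`. In BLG: `Z₀ := Y ^ C₁` (real exponent), `C₂ ≥ C₁ + 1`.
-/

set_option autoImplicit false

open scoped NumberField commutatorElement
open IsDedekindDomain
open scoped Classical

noncomputable section

namespace H73.S3

open H63.MA H38.BB H38.BG H57.PC H57.BRA H77.WD H77.WE H77.PC3 H35.CF H35.UB H77.S3 H71.S3 H1.S3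
  H93.BX H93.BY H24.RK

attribute [local instance 50] Fintype.ofFinite

variable {K : Type} [Field K] [NumberField K] {Ω : Type} [Field Ω] [Algebra K Ω]
  {p N : ℕ} {ζ : K} {D : RD0 K p ζ} {Q : DP K Ω} {A : GS D Ω} {P : Type} [Group P]
  {c : CL p N P} {S : Type} [Group S] [MulDistribMulAction P S] {n : ℕ}

/-- the hypotheses for a fixed `Y` -/
structure BxH (G : SG c S) (B : SD D Q A) (X : FD A P S) (W : WF A) (κ mm N₁ : ℕ) (z : K)
    (C₁ : ℝ) (C₂ C' : ℕ) (ε Y : ℝ) (k Mw : ℕ) (T : ℝ) : Prop where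
  okX : X.Ok G B W
  okW : W.Ok B k Mw
  mM : Mx (p ^ κ) mm ≤ Mw
  kM : Mw ≤ p ^ k
  nl : NL (N₁ + 1) z W.L
  gl : H62.BL.GLp p W.Fr (Mx (p ^ κ) mm ^ (2 ^ mm)) (C₂ * (3 * mm + 4)) C' Y
  all : ∀ v, D.Gd v → (nm v : ℝ) ≤ Y ^ C₁ → v ∈ W.Z
  ez : X.E ⊆ W.Z
  ne : nr X.E ≤ Real.log Y
  lT : Real.exp (Real.log Y ^ ε) ≤ T

section cnt

variable {V Λ : Type}

/-- the number of configurations with a given support -/
private theorem bf_card [Fintype Λ] (Z : Finset V) (s : Finset V) (I : Finset (V → Option Λ))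
    (hI : ∀ b ∈ I, b ∈ Cf Z Λ ∧ sp Z b = s) :
    I.card ≤ (Fintype.card Λ + 1) ^ s.card := by
  have h1 : (Finset.univ : Finset (s → Option Λ)).card = (Fintype.card Λ + 1) ^ s.card := by
    rw [Finset.card_univ, Fintype.card_fun, Fintype.card_option, Fintype.card_coe]
  rw [← h1]
  refine Finset.card_le_card_of_injOn (fun b v => b v) (fun _ _ => Finset.mem_univ _) ?_
  intro b hb b' hb' h
  funext v
  by_cases hv : v ∈ s
  · exact congrFun h ⟨v, hv⟩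
  · have key : ∀ a ∈ I, a v = none := by
      intro a ha
      obtain ⟨h2, h3⟩ := hI a ha
      by_contra hc
      refine hv ?_
      rw [← h3, mem_sp]
      refine ⟨?_, hc⟩
      by_contra h4
      exact hc (mem_cf.1 h2 v h4)
    rw [key b hb, key b' hb']

end cnt

private theorem bf_an (C₁ L : ℝ) (hL : 1 ≤ L) (C₂ : ℕ)
    (hC : 2 * |C₁| * (Real.log L + 1) + 3 ≤ C₂) (Y : ℝ) (hY : Real.exp (Real.exp 1) ≤ Y) :
    1 ≤ Real.log (Real.log Y) ∧ 1 ≤ Real.log Y ∧ Y ^ C₁ * Real.log Y ≤ Y ^ C₂ ∧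
      Y ^ C₁ ≤ Y ^ C₂ ∧
      (∀ k : ℕ, (k : ℝ) ≤ C₁ * (1 + Real.log (Real.log Y)) → L ^ k ≤ Real.log Y ^ C₂) ∧
      ∀ k e : ℕ, (k : ℝ) ≤ C₁ * (1 + Real.log (Real.log Y)) → (2 : ℝ) ^ e ≤ Real.log Y →
        ((k + e : ℕ) : ℝ) ≤ C₂ * Real.log (Real.log Y) := by
  have hY0 : 0 < Y := lt_of_lt_of_le (Real.exp_pos _) hY
  have h1 : Real.exp 1 ≤ Real.log Y := (Real.le_log_iff_exp_le hY0).2 hY
  have h2 : (2 : ℝ) ≤ Real.exp 1 := by
    have := Real.add_one_le_exp (1 : ℝ)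
    linarith
  have h3 : (1 : ℝ) ≤ Real.log Y := by linarith
  have hl0 : 0 < Real.log Y := by linarith
  have h4 : 1 ≤ Real.log (Real.log Y) := (Real.le_log_iff_exp_le hl0).2 h1
  have h5 : Real.log Y ≤ Y := Real.log_le_self hY0.le
  have h6 : 1 ≤ Y := h3.trans h5
  have hLl : 0 ≤ Real.log L := Real.log_nonneg hL
  have hab : 0 ≤ |C₁| := abs_nonneg _
  have hC' : |C₁| + 1 ≤ (C₂ : ℝ) := by nlinarith [mul_nonneg hab hLl]
  have hC'' : 2 * |C₁| * Real.log L ≤ (C₂ : ℝ) := by nlinarith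
  have hC3 : 2 * |C₁| + 2 ≤ (C₂ : ℝ) := by nlinarith [mul_nonneg hab hLl]
  have h7 : Y ^ C₁ * Real.log Y ≤ Y ^ C₂ := by
    calc Y ^ C₁ * Real.log Y ≤ Y ^ |C₁| * Y := by
          refine mul_le_mul (Real.rpow_le_rpow_of_exponent_le h6 (le_abs_self _)) h5 hl0.le ?_
          exact (Real.rpow_pos_of_pos hY0 _).le
      _ = Y ^ (|C₁| + 1) := by rw [Real.rpow_add hY0, Real.rpow_one]
      _ ≤ Y ^ (C₂ : ℝ) := Real.rpow_le_rpow_of_exponent_le h6 hC'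
      _ = Y ^ C₂ := Real.rpow_natCast _ _
  have h8 : Y ^ C₁ ≤ Y ^ C₂ := by
    refine le_trans ?_ h7
    exact le_mul_of_one_le_right (Real.rpow_pos_of_pos hY0 _).le h3
  have h9 : ∀ k : ℕ, (k : ℝ) ≤ C₁ * (1 + Real.log (Real.log Y)) →
      (k : ℝ) ≤ |C₁| * (2 * Real.log (Real.log Y)) := by
    intro k hk
    refine hk.trans ?_
    calc C₁ * (1 + Real.log (Real.log Y)) ≤ |C₁| * (1 + Real.log (Real.log Y)) :=
          mul_le_mul_of_nonneg_right (le_abs_self _) (by linarith)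
      _ ≤ _ := mul_le_mul_of_nonneg_left (by linarith) hab
  refine ⟨h4, h3, h7, h8, fun k hk => ?_, fun k e hk he => ?_⟩
  · rw [← Real.log_le_log_iff (pow_pos (by linarith) _) (pow_pos hl0 _), Real.log_pow,
      Real.log_pow]
    calc (k : ℝ) * Real.log L ≤ |C₁| * (2 * Real.log (Real.log Y)) * Real.log L :=
          mul_le_mul_of_nonneg_right (h9 k hk) hLl
      _ = (2 * |C₁| * Real.log L) * Real.log (Real.log Y) := by ring
      _ ≤ _ := mul_le_mul_of_nonneg_right hC'' (by linarith)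
  · have h10 : (e : ℝ) * Real.log 2 ≤ Real.log (Real.log Y) := by
      rw [← Real.log_pow]
      exact Real.log_le_log (by positivity) he
    have h11 : (e : ℝ) ≤ 2 * Real.log (Real.log Y) := by
      have := Real.log_two_gt_d9
      have he0 : (0 : ℝ) ≤ e := Nat.cast_nonneg _
      nlinarith
    push_cast
    calc (k : ℝ) + e ≤ |C₁| * (2 * Real.log (Real.log Y)) + 2 * Real.log (Real.log Y) :=
          add_le_add (h9 k hk) h11
      _ = (2 * |C₁| + 2) * Real.log (Real.log Y) := by ring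
      _ ≤ _ := mul_le_mul_of_nonneg_right hC3 (by linarith)

private theorem bf_zg (D : RD0 K p ζ) (Z E : Finset (Pl K)) :
    Disjoint (Zg D Z E) E ∧ Zg D Z E ⊆ Z := by
  unfold Zg
  constructor
  · rw [Finset.disjoint_left]
    intro v hv hv'
    rw [Finset.mem_filter, Finset.mem_sdiff] at hv
    exact hv.1.2 hv'
  · intro v hv
    rw [Finset.mem_filter, Finset.mem_sdiff] at hv
    exact hv.1.1

/-- the norm of the fixed places -/
private theorem bf_two (E : Finset (Pl K)) : (2 : ℝ) ^ E.card ≤ nr E := by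
  unfold nr
  rw [← Finset.prod_const]
  refine Finset.prod_le_prod (fun _ _ => by norm_num) fun v _ => ?_
  exact_mod_cast one_lt_nm v

/-- the inner sums agree -/
private theorem qb_in [Finite P] (G : SG c S) (B : SD D Q A) (X : FD A P S) (W : WF A)
    {k Mw : ℕ} (hX : X.Ok G B W)
    (hW : W.Ok B k Mw) (hP : Sml p k Mw P) (T : ℝ) (hE : X.E ⊆ W.Z) (τ₀ : Pl K → S) {q : ℕ}
    (e₀ : Pl K ⊕ Fin A.g → El S P q (n + 1))
    (Qs : Subgroup (Sd P (Du S q (n + 1 + 1))))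
    (b : Pl K → Option (Elb c S q (n + 1)))
    (h : Gdb G B X W T (Zg D W.Z X.E) e₀ Qs b) {PQ Lm : Type} [Group PQ]
    [MulAction Qs Lm] {μ : SP S Qs →* PQ} {lm : Px c → Du S q (n + 1) → Lm}
    {Dx : LGx q n PQ Qs Lm} (hI : LgI G Qs μ lm Dx) (Φ : Gal(Ω/K) →* Qs)
    (hΦ : Hon G B X W T (Zg D W.Z X.E) e₀ Qs b Φ) (M : ℕ)
    (l : Fin (n + 1 + 1) → Elb c S q (n + 1)) (lo hi : Fin (n + 1 + 1) → ℝ)
    (hlo : ∀ k, T ≤ lo k) :
    ∑ x ∈ Fintype.piFinset (fun k => H62.BL.BX D W.Z (sp (Zg D W.Z X.E) b ∪ X.E) (lo k) (hi k)),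
        Fq (wy B W M) (rdb G B X W T (Zg D W.Z X.E) τ₀ e₀ Qs μ b Φ) (vdl G Qs μ lm l) x =
      ∑ v ∈ (H35.CF.Fr (Zg D W.Z X.E) (PPc X W T) b (n + 1 + 1)).filter
        (fun v => ∀ k, lo k < nm (v k) ∧ (nm (v k) : ℝ) ≤ hi k),
        FX G B X W T (Zg D W.Z X.E) τ₀ e₀ (up b v l) := by
  obtain ⟨hZ, hZc⟩ := bf_zg D W.Z X.E
  rw [Finset.sum_congr rfl fun v hv => fxe G B X W hX hW hP T _ hZ hZc hE τ₀ e₀ Qs b h hI Φ hΦ M l v
    (Finset.mem_filter.1 hv).1]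
  symm
  refine Finset.sum_subset ?_ ?_
  · intro x hx
    rw [Finset.mem_filter, mem_fr] at hx
    rw [Fintype.mem_piFinset]
    intro k
    obtain ⟨⟨h1, h2⟩, h3⟩ := hx
    have h4 := (h1 k).1
    unfold Zg at h4
    rw [Finset.mem_filter, Finset.mem_sdiff] at h4
    unfold H62.BL.BX
    rw [Finset.mem_filter, Finset.mem_union, mem_sp]
    exact ⟨h4.1.1, h4.2, fun h5 => h5.elim (fun h6 => h6.2 (h1 k).2.2) h4.1.2, h3 k⟩
  · intro x hx hx'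
    rw [Fintype.mem_piFinset] at hx
    have hx1 : ∀ k, x k ∈ W.Z ∧ D.Gd (x k) ∧ x k ∉ sp (Zg D W.Z X.E) b ∪ X.E ∧
        lo k < (nm (x k) : ℝ) ∧ (nm (x k) : ℝ) ≤ hi k := by
      intro k
      have h1 := hx k
      unfold H62.BL.BX at h1
      exact Finset.mem_filter.1 h1
    by_cases hF : ∀ j, X.φ (W.Fr.F (x j)) = 1
    · by_cases hi' : Function.Injective x
      · exfalso
        refine hx' ?_
        rw [Finset.mem_filter, mem_fr]
        refine ⟨⟨fun k => ?_, hi'⟩, fun k => (hx1 k).2.2.2⟩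
        obtain ⟨h1, h2, h3, h4, h5⟩ := hx1 k
        rw [Finset.mem_union, not_or] at h3
        have h6 : x k ∈ Zg D W.Z X.E := by
          unfold Zg
          rw [Finset.mem_filter, Finset.mem_sdiff]
          exact ⟨⟨h1, h3.2⟩, h2⟩
        refine ⟨h6, ⟨lt_of_le_of_lt (hlo k) h4, hF k⟩, ?_⟩
        by_contra h7
        exact h3.1 (mem_sp.2 ⟨h6, h7⟩)
      · unfold Fq
        rw [if_neg]
        exact fun h1 => hi' h1.1
    · push Not at hF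
      obtain ⟨j, hj⟩ := hF
      exact fqz G B X W hX hW hP T _ hZ hZc hE τ₀ e₀ Qs b h hI Φ hΦ M l x (fun j => (hx1 j).1) j hj

/-- one subgroup -/
theorem qbx [IsAlgClosure K Ω] [Finite S] [Finite P] (hp : p.Prime) (hζ : IsPrimitiveRoot ζ p)
    {κ mm c₁ N₁ : ℕ} {z : K} [NeZero (p ^ κ)] (B : SD D Q A) (hB : BLG D Ω Q A B κ mm c₁ N₁ z)
    (G : SG c S) (hS : IsPGroup p S) (hP : IsPGroup p P) (hn : n + 1 ≤ mm) (hg : A.g ≤ c₁)
    (hc : Nat.card P * Nat.card (Du S (p ^ κ) (n + 1 + 1)) ≤ mm) (C₁ A' ε : ℝ) (hε : 0 < ε) :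
    ∃ C₂ : ℕ, ∀ C' : ℕ, ∃ Y₀ : ℝ, ∀ Y : ℝ, Y₀ ≤ Y → ∀ (k Mw : ℕ) (X : FD A P S) (W : WF A)
      (T : ℝ), BxH G B X W κ mm N₁ z C₁ C₂ C' ε Y k Mw T →
      ∀ (Qs : Subgroup (Sd P (Du S (p ^ κ) (n + 1 + 1)))) (PQ Lm : Type) [Group PQ] [Finite PQ]
        [Fintype Lm] [MulAction Qs Lm] (μ : SP S Qs →* PQ) (lm : Px c → Du S (p ^ κ) (n + 1) → Lm)
        (Dx : LGx (p ^ κ) n PQ Qs Lm), LgI G Qs μ lm Dx → IsPGroup p PQ → Nat.card PQ ≤ mm →
        Nat.card Lm ≤ mm →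
      ∀ (τ₀ : Pl K → S) (e₀ : Pl K ⊕ Fin A.g → El S P (p ^ κ) (n + 1))
        (l : Fin (n + 1 + 1) → Elb c S (p ^ κ) (n + 1)),
        (∀ k, ∀ z : Gr S (n + 1), ((l k).2.2.2).ap (br (n + 1) (G.y (l k).1) z) = 0) →
        (Dx.Lk fun k => lm (l k).1 (l k).2.2.1.1.1) →
      ∀ lo hi : Fin (n + 1 + 1) → ℝ,
        (∀ k, T ≤ lo k ∧ lo k ≤ hi k ∧ hi k ≤ 2 * lo k ∧ hi k ≤ Y ^ C₁) →
      ∑ b ∈ (Cf (Zg D W.Z X.E) (Elb c S (p ^ κ) (n + 1))).filter (fun b =>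
          (nr (sp (Zg D W.Z X.E) b) ≤ Y ^ C₁ ∧
            ((sp (Zg D W.Z X.E) b).card : ℝ) ≤ C₁ * (1 + Real.log (Real.log Y))) ∧
          Gdb G B X W T (Zg D W.Z X.E) e₀ Qs b),
        (nr (sp (Zg D W.Z X.E) b))⁻¹ * (∏ k, lo k)⁻¹ *
          ‖∑ v ∈ (H35.CF.Fr (Zg D W.Z X.E) (PPc X W T) b (n + 1 + 1)).filter
            (fun v => ∀ k, lo k < nm (v k) ∧ (nm (v k) : ℝ) ≤ hi k),
            FX G B X W T (Zg D W.Z X.E) τ₀ e₀ (up b v l)‖ ≤ Real.log Y ^ (-A') := by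
  obtain ⟨L, hLd⟩ : ∃ L : ℝ, L = (Fintype.card (Elb c S (p ^ κ) (n + 1)) : ℝ) + 1 := ⟨_, rfl⟩
  have hL : 1 ≤ L := by
    rw [hLd]
    have := Nat.cast_nonneg (α := ℝ) (Fintype.card (Elb c S (p ^ κ) (n + 1)))
    linarith
  obtain ⟨C₂, hC₂⟩ := exists_nat_ge (2 * |C₁| * (Real.log L + 1) + 3)
  obtain ⟨A₁, hA₁⟩ := exists_nat_ge (A' + 1)
  refine ⟨C₂, fun C' => ?_⟩
  obtain ⟨Y₀, hY₀, hbl⟩ := hB C₂ A₁ C' ε hε
  refine ⟨max Y₀ (Real.exp (Real.exp 1)), fun Y hY k Mw X W T hH Qs PQ Lm _ _ _ _ μ lm Dx hI hPQ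
    hcP hcL τ₀ e₀ l hO hLk lo hi hlh => ?_⟩
  have hYa := le_trans (le_max_left _ _) hY
  obtain ⟨a1, a2, a3, a4, a5, a6⟩ := bf_an C₁ L hL C₂ hC₂ Y (le_trans (le_max_right _ _) hY)
  obtain ⟨hZ, hZc⟩ := bf_zg D W.Z X.E
  have hmm : mm ≤ Mx (p ^ κ) mm := by
    unfold Mx
    exact Nat.le_mul_of_pos_right _ (Nat.pow_pos (Nat.pow_pos hp.pos))
  have hD1 : 1 ≤ Nat.card (Du S (p ^ κ) (n + 1 + 1)) := Nat.card_pos
  have hcPM : Nat.card P * Nat.card (Du S (p ^ κ) (n + 1 + 1)) ≤ Mw :=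
    hc.trans (hmm.trans hH.mM)
  have hSP : Sml p k Mw P := sml_of hp hH.kM hP
    ((Nat.le_mul_of_pos_right _ hD1).trans hcPM)
  obtain ⟨I, hId⟩ : ∃ I, I = (Cf (Zg D W.Z X.E) (Elb c S (p ^ κ) (n + 1))).filter (fun b =>
          (nr (sp (Zg D W.Z X.E) b) ≤ Y ^ C₁ ∧
            ((sp (Zg D W.Z X.E) b).card : ℝ) ≤ C₁ * (1 + Real.log (Real.log Y))) ∧
          Gdb G B X W T (Zg D W.Z X.E) e₀ Qs b) := ⟨_, rfl⟩
  rw [← hId]
  have hI1 : ∀ b ∈ I, b ∈ Cf (Zg D W.Z X.E) (Elb c S (p ^ κ) (n + 1)) ∧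
      (nr (sp (Zg D W.Z X.E) b) ≤ Y ^ C₁ ∧
            ((sp (Zg D W.Z X.E) b).card : ℝ) ≤ C₁ * (1 + Real.log (Real.log Y))) ∧
          Gdb G B X W T (Zg D W.Z X.E) e₀ Qs b := by
    intro b hb
    rw [hId] at hb
    exact Finset.mem_filter.1 hb
  -- the honest homomorphisms
  obtain ⟨Φ, hΦ⟩ : ∃ Φ : (Pl K → Option (Elb c S (p ^ κ) (n + 1))) → (Gal(Ω/K) →* Qs),
      ∀ b ∈ I, Hon G B X W T (Zg D W.Z X.E) e₀ Qs b (Φ b) := by
    have h1 : ∀ b : Pl K → Option (Elb c S (p ^ κ) (n + 1)), ∃ Φ : Gal(Ω/K) →* Qs,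
        b ∈ I → Hon G B X W T (Zg D W.Z X.E) e₀ Qs b Φ := by
      intro b
      by_cases hb : b ∈ I
      · obtain ⟨Φ, h2⟩ := hon_ex hp hζ G B X W hH.okX hH.okW T _ hZ hZc hH.ez hP hS ⟨κ, rfl⟩ hH.kM
          hcPM e₀ Qs b (hI1 b hb).2.2
        exact ⟨Φ, fun _ => h2⟩
      · exact ⟨1, fun h => absurd h hb⟩
    choose Φ hΦ using h1
    exact ⟨Φ, hΦ⟩
  have hnrE : 0 < nr X.E := lt_of_lt_of_le (by positivity) (bf_two X.E)
  have hdsj : ∀ b : Pl K → Option (Elb c S (p ^ κ) (n + 1)),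
      Disjoint (sp (Zg D W.Z X.E) b) X.E := fun b =>
    Finset.disjoint_of_subset_left (Finset.filter_subset _ _) hZ
  have hnr : ∀ b : Pl K → Option (Elb c S (p ^ κ) (n + 1)),
      nr (sp (Zg D W.Z X.E) b ∪ X.E) = nr (sp (Zg D W.Z X.E) b) * nr X.E := fun b => by
    unfold nr
    rw [Finset.prod_union (hdsj b)]
  have hl0 : 0 < Real.log Y := by linarith
  have hY0 : 0 < Y := lt_of_lt_of_le (Real.exp_pos _) (le_trans (le_max_right _ _) hY)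
  have hR : Rfx (wy B W (Mx (p ^ κ) mm)) B id Dx C₂ Y I
      (fun b => rdb G B X W T (Zg D W.Z X.E) τ₀ e₀ Qs μ b (Φ b)) := by
    refine ⟨fun b hb => ?_, fun b hb => ?_, fun b hb => ?_, fun s => ?_⟩
    · exact rox G B X W hH.okX hH.okW T _ hZ hZc hH.ez τ₀ e₀ Qs b (hI1 b hb).2.2 hI (Φ b)
        (hΦ b hb) _
    · show nr (sp (Zg D W.Z X.E) b ∪ X.E) ≤ Y ^ C₂
      rw [hnr]
      exact (mul_le_mul (hI1 b hb).2.1.1 hH.ne hnrE.le
        (Real.rpow_pos_of_pos hY0 _).le).trans a3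
    · show (((sp (Zg D W.Z X.E) b ∪ X.E).card : ℕ) : ℝ) ≤ C₂ * Real.log (Real.log Y)
      rw [Finset.card_union_of_disjoint (hdsj b)]
      exact a6 _ _ (hI1 b hb).2.1.2 ((bf_two X.E).trans hH.ne)
    · show ((I.filter fun b => sp (Zg D W.Z X.E) b ∪ X.E = s).card : ℝ) ≤ Real.log Y ^ C₂
      rcases (I.filter fun b => sp (Zg D W.Z X.E) b ∪ X.E = s).eq_empty_or_nonempty with h1 | h1
      · rw [h1, Finset.card_empty, Nat.cast_zero]
        exact (pow_pos hl0 _).le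
      · obtain ⟨b₀, hb₀⟩ := h1
        rw [Finset.mem_filter] at hb₀
        have h2 : ∀ b ∈ I.filter (fun b => sp (Zg D W.Z X.E) b ∪ X.E = s),
            b ∈ Cf (Zg D W.Z X.E) (Elb c S (p ^ κ) (n + 1)) ∧
              sp (Zg D W.Z X.E) b = sp (Zg D W.Z X.E) b₀ := by
          intro b hb
          rw [Finset.mem_filter] at hb
          refine ⟨(hI1 b hb.1).1, ?_⟩
          have h3 : (sp (Zg D W.Z X.E) b ∪ X.E) \ X.E = (sp (Zg D W.Z X.E) b₀ ∪ X.E) \ X.E := by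
            rw [hb.2, hb₀.2]
          rw [Finset.union_sdiff_cancel_right (hdsj b),
            Finset.union_sdiff_cancel_right (hdsj b₀)] at h3
          exact h3
        have h4 := bf_card _ _ _ h2
        calc ((I.filter fun b => sp (Zg D W.Z X.E) b ∪ X.E = s).card : ℝ)
            ≤ (((Fintype.card (Elb c S (p ^ κ) (n + 1)) + 1) ^
              (sp (Zg D W.Z X.E) b₀).card : ℕ) : ℝ) := by exact_mod_cast h4
          _ = L ^ (sp (Zg D W.Z X.E) b₀).card := by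
              rw [hLd]
              push_cast
              rfl
          _ ≤ _ := a5 _ (hI1 b₀ hb₀.1).2.1.2
  have hfin := hbl Y hYa (Fin A.g) (wy B W (Mx (p ^ κ) mm)) id W.l
    (by rw [Fintype.card_fin]; exact hg)
    (wy_val hp B W hH.okW hH.mM hH.kM) rfl (wy_rlk hp B W hH.okW hH.mM hH.kM) hH.nl hH.gl
    hH.okW.zs (Y ^ C₁) a4 hH.all n PQ Qs Lm Dx (vdl G Qs μ lm l) hn hcP hcL hPQ
    (vox hI l hO) hLk (Pl K → Option (Elb c S (p ^ κ) (n + 1))) I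
    (fun b => rdb G B X W T (Zg D W.Z X.E) τ₀ e₀ Qs μ b (Φ b)) (fun _ _ _ => 1) (fun _ => lo)
    (fun _ => hi) hR (fun _ _ => ⟨fun _ _ => by rw [norm_one], fun _ _ _ => rfl⟩)
    (fun _ _ k => ⟨hH.lT.trans (hlh k).1, (hlh k).2.1, (hlh k).2.2.1, (hlh k).2.2.2⟩)
  calc ∑ b ∈ I, (nr (sp (Zg D W.Z X.E) b))⁻¹ * (∏ k, lo k)⁻¹ *
          ‖∑ v ∈ (H35.CF.Fr (Zg D W.Z X.E) (PPc X W T) b (n + 1 + 1)).filter
            (fun v => ∀ k, lo k < nm (v k) ∧ (nm (v k) : ℝ) ≤ hi k),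
            FX G B X W T (Zg D W.Z X.E) τ₀ e₀ (up b v l)‖
      = nr X.E * ∑ b ∈ I, (nr (sp (Zg D W.Z X.E) b ∪ X.E))⁻¹ * (∏ k, lo k)⁻¹ *
        ‖∑ x ∈ Fintype.piFinset (fun k => H62.BL.BX D W.Z (sp (Zg D W.Z X.E) b ∪ X.E) (lo k) (hi k)),
          Fq (wy B W (Mx (p ^ κ) mm)) (rdb G B X W T (Zg D W.Z X.E) τ₀ e₀ Qs μ b (Φ b))
            (vdl G Qs μ lm l) x * ∏ _k : Fin (n + 2), (1 : ℂ)‖ := by
        rw [Finset.mul_sum]
        refine Finset.sum_congr rfl fun b hb => ?_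
        rw [Finset.prod_const_one]
        simp only [mul_one]
        rw [qb_in G B X W hH.okX hH.okW hSP T hH.ez τ₀ e₀ Qs b (hI1 b hb).2.2 hI
          (Φ b) (hΦ b hb) _ l lo hi fun k => (hlh k).1, hnr, mul_inv]
        field_simp
    _ ≤ Real.log Y * Real.log Y ^ (-(A₁ : ℝ)) := by
        refine mul_le_mul hH.ne hfin ?_ hl0.le
        refine Finset.sum_nonneg fun b _ => mul_nonneg (mul_nonneg ?_ ?_) (norm_nonneg _)
        · exact inv_nonneg.2 (Finset.prod_nonneg fun _ _ => Nat.cast_nonneg _)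
        · refine inv_nonneg.2 (Finset.prod_nonneg fun k _ => ?_)
          exact ((Real.exp_pos _).le.trans hH.lT).trans (hlh k).1
    _ = Real.log Y ^ (1 + -(A₁ : ℝ)) := by rw [Real.rpow_add hl0, Real.rpow_one]
    _ ≤ Real.log Y ^ (-A') := Real.rpow_le_rpow_of_exponent_le a2 (by linarith)

end H73.S3
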