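import Pool.Agent.H73.S3.Fr
import Pool.Agent.H1.S3.Zet
import Pool.Agent.H62.BL.Alg

/-!
# H73-S3-ENR: enriched labels (MP_b39724_nt, stage 3, chapter B, the negligible part), definitions

Stage `m + 1 → m`. `q`: the exponent.
* `rp d x`: representative of `x` modulo `il gam_d` (on the left). `Kf d χ x₀ x`: `ep (χ (x x₀⁻¹))` if `x₀` is the representative of `x`, `0` otherwise.
* `El`: functionals and cell of a letter. `AD.Kr e x`: the product of the kernels over the letters. `AD.kk η`: the crossed homomorphism of `η`.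
* `AD.Qp k`: the group generated by the pairs `(k (of j), ph (of j))` in `Du ⋊ P`. `Ulk`: a tuple of labels is unlinked (the input of H88/S3/Unl).
* `Elb`: enriched labels: letter, conjugator, functionals, cell, value of the crossed homomorphism. `lf`, `tf`, `ef`, `kf`: the components of a configuration `f` with enriched labels
  (`τ₀`, `e₀`: the data at the places of `V0` and the letters of `J0`). `AX`: the amplitude, `FX`: the part which depends on the words. `Lk`: the tuple `q` of places is linked.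
* `EX`: the sum over all enriched configurations. `NX`: the sum which is to be estimated (`exa`). `Tp`, `Nl`: linked tuples of a configuration and their number.
* `BxF`: the box inequality for the part `FX` (to be proved in chapter C).
-/

set_option autoImplicit false

open scoped NumberField commutatorElement
open IsDedekindDomain
open scoped Classical

noncomputable section

namespace H73.S3

open H63.MA H38.BB H38.BG H57.PC H57.BRA H77.WD H77.WE H77.PC3 H35.CF H35.UB H77.S3 H71.S3 H1.S3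

attribute [local instance 50] Fintype.ofFinite

section ker

variable {S P : Type} [Group S] [Group P] [MulDistribMulAction P S] {J V : Type} {q m : ℕ}

instance sp_finite [Finite S] [Finite P] : Finite (SP S P) :=
  Finite.of_injective (fun x : SP S P => (x.left, x.right)) fun x y h => by
    simp only [Prod.mk.injEq] at h
    exact SemidirectProduct.ext h.1 h.2

/-- representatives modulo `il gam_d` on the left -/
def rp (d : ℕ) (x : SP S P) : SP S P :=
  Quotient.out (Quotient.mk (QuotientGroup.rightRel ((gm S d).map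
    (SemidirectProduct.inl : S →* SP S P))) x)

/-- the kernel -/
def Kf (d : ℕ) (χ : Du S q d) (x₀ x : SP S P) : ℂ :=
  if rp d x = x₀ then ep q (χ.ap (gk d (x * x₀⁻¹).left)) else 0

variable (S P q m) in
/-- functionals and cell of a letter -/
abbrev El : Type := (Du S q m × Du S q (m + 1)) × SP S P

/-- the product of the kernels -/
def AD.Kr (X : AD S P J V) (e : J → El S P q m) (x : J → SP S P) : ℂ :=
  ∏ j ∈ X.Jf, if X.pp j then Kf m (e j).1.1 (e j).2 (x j) else Kf (m + 1) (e j).1.2 (e j).2 (x j)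

/-- the functionals of the letters -/
def AD.et (X : AD S P J V) (e : J → El S P q m) (j : X.Jf) : Du S q m × Du S q (m + 1) := (e j).1

/-- extension by `1` -/
def AD.xj (X : AD S P J V) (x₀ : X.Jf → SP S P) (j : J) : SP S P :=
  if h : j ∈ X.Jf then x₀ ⟨j, h⟩ else 1

/-- the crossed homomorphism of a family -/
def AD.kk (X : AD S P J V) (η : X.Jf → Du S q m × Du S q (m + 1)) :
    FreeGroup J → Du S q (m + 1) := if h : ∃ k, X.Kx η k then h.choose else 0

/-- the group generated by the values -/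
def AD.Qp (X : AD S P J V) (k : FreeGroup J → Du S q (m + 1)) :
    Subgroup (Sd P (Du S q (m + 1))) :=
  Subgroup.closure (Set.range fun j : J => ⟨k (FreeGroup.of j), X.ph (FreeGroup.of j)⟩)

/-- the tuple with letters `y k` and functionals `χ k` is unlinked -/
def Ulk (Q : Subgroup (Sd P (Du S q (m + 1)))) (y : Fin (m + 1) → S)
    (χ : Fin (m + 1) → Du S q m) : Prop :=
  ∃ lam : (List (Fin (m + 1) × Q) → ZMod q) →ₗ[ZMod q] ZMod q,
    (∀ (k : Fin (m + 1)) (w : List (Fin (m + 1) × Q)),
      (k :: w.map Prod.fst).Perm (List.finRange (m + 1)) →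
      (χ k).ap (gk m (H62.BL.rn (w.map fun a => (a.2 : Sd P (Du S q (m + 1))).x • y a.1))) =
        -lam (H62.BL.br ((k, 1) :: w))) ∧
    ∀ (u : Q) (w : List (Fin (m + 1) × Q)),
      (w.map Prod.fst).Perm (List.finRange (m + 1)) →
      lam (H62.BL.br (w.map fun a => (a.1, u⁻¹ * a.2))) - lam (H62.BL.br w) =
        (u : Sd P (Du S q (m + 1))).n.ap (gk (m + 1)
          (H62.BL.rn (w.map fun a => (a.2 : Sd P (Du S q (m + 1))).x • y a.1)))

end ker

section nt

variable {K : Type} [Field K] [NumberField K] {Ω : Type} [Field Ω] [Algebra K Ω]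
  {p N : ℕ} {ζ : K} {D : RD0 K p ζ} {Q : DP K Ω} {A : GS D Ω} {P : Type} [Group P]
  {c : CL p N P} {S : Type} [Group S] [MulDistribMulAction P S] {q m : ℕ}

variable (c S q m) in
/-- enriched labels -/
abbrev Elb : Type := Px c × S × El S P q m × Du S q (m + 1)

/-- the letters -/
def lf (f : Pl K → Option (Elb c S q m)) (v : Pl K) : Option (Px c) := (f v).map fun a => a.1

/-- the conjugators -/
def tf (τ₀ : Pl K → S) (f : Pl K → Option (Elb c S q m)) (v : Pl K) : S :=
  (f v).elim (τ₀ v) fun a => a.2.1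

/-- the functionals and cells -/
def ef {g : ℕ} (e₀ : Pl K ⊕ Fin g → El S P q m) (f : Pl K → Option (Elb c S q m)) :
    Pl K ⊕ Fin g → El S P q m :=
  Sum.elim (fun v => (f v).elim (e₀ (Sum.inl v)) fun a => a.2.2.1) fun i => e₀ (Sum.inr i)

/-- the values of the crossed homomorphism -/
def kf (f : Pl K → Option (Elb c S q m)) (v : Pl K) : Du S q (m + 1) :=
  (f v).elim 0 fun a => a.2.2.2

variable (G : SG c S) (B : SD D Q A) (X : FD A P S) (W : WF A)

/-- the data of an enriched configuration -/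
abbrev adx (T : ℝ) (Zc : Finset (Pl K)) (f : Pl K → Option (Elb c S q m)) :
    AD S P (Pl K ⊕ Fin A.g) (Pl K) := adf G B X W T Zc (lf f)

/-- the crossed homomorphism of an enriched configuration -/
def kx (T : ℝ) (Zc : Finset (Pl K)) (e₀ : Pl K ⊕ Fin A.g → El S P q m)
    (f : Pl K → Option (Elb c S q m)) : FW A → Du S q (m + 1) :=
  (adx G B X W T Zc f).kk ((adx G B X W T Zc f).et (ef e₀ f))

/-- the part which depends on the words -/
def FX (T : ℝ) (Zc : Finset (Pl K)) (τ₀ : Pl K → S) (e₀ : Pl K ⊕ Fin A.g → El S P q m)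
    (f : Pl K → Option (Elb c S q m)) : ℂ :=
  if (∀ v ∈ W.l, kx G B X W T Zc e₀ f (wd FreeGroup.of (adx G B X W T Zc f).W
      ((adx G B X W T Zc f).bl v)) = 0) ∧
    ∀ v ∈ sp Zc f, kf f v = if PPc X W T v then kx G B X W T Zc e₀ f (W.Wv v) else 0 then
    (adx G B X W T Zc f).Kr (ef e₀ f) ((adx G B X W T Zc f).vl (tf τ₀ f)) else 0

/-- the amplitude -/
def AX [Fintype S] (T : ℝ) (Zc : Finset (Pl K)) (τ₀ : Pl K → S)
    (e₀ : Pl K ⊕ Fin A.g → El S P q m) (f : Pl K → Option (Elb c S q m)) : ℂ :=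
  if (adx G B X W T Zc f).Ff ((adx G B X W T Zc f).et (ef e₀ f)) ∧
    (∀ v ∈ sp Zc f, PPc X W T v → ∀ z : Gr S m,
      (kf f v).ap (br m ((adx G B X W T Zc f).y (Sum.inl v)) z) = 0) ∧
    ¬(adx G B X W T Zc f).Sv ((adx G B X W T Zc f).et (ef e₀ f)) then
    (adx G B X W T Zc f).Hh m (tf τ₀ f) (fun j => (ef e₀ f j).2)
      ((adx G B X W T Zc f).et (ef e₀ f)) /
      (Fintype.card S : ℂ) ^ (adx G B X W T Zc f).Vf.card else 0

/-- the tuple `v` of places is linked -/
def Lk (T : ℝ) (Zc : Finset (Pl K)) (e₀ : Pl K ⊕ Fin A.g → El S P q m)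
    (f : Pl K → Option (Elb c S q m)) (v : Fin (m + 1) → Pl K) : Prop :=
  ¬Ulk ((adx G B X W T Zc f).Qp (kx G B X W T Zc e₀ f))
    (fun k => (adx G B X W T Zc f).y (Sum.inl (v k))) fun k => (ef e₀ f (Sum.inl (v k))).1.1

/-- the fixed places -/
def V0 : Finset (Pl K) := X.E ∪ Finset.univ.image B.pl

/-- the fixed letters -/
def J0 : Finset (Pl K ⊕ Fin A.g) := X.E.disjSum Finset.univ

/-- extension of the conjugators -/
def xt0 (τ : V0 B X → S) (v : Pl K) : S := if h : v ∈ V0 B X then τ ⟨v, h⟩ else 1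

/-- extension of the data of the letters -/
def xe0 (e : J0 X → El S P q m) (j : Pl K ⊕ Fin A.g) : El S P q m :=
  if h : j ∈ J0 X then e ⟨j, h⟩ else ((0, 0), 1)

/-- the sum over all enriched configurations -/
def EX [Fintype S] [Fintype P] [NeZero q] (T : ℝ) (Zc : Finset (Pl K))
    (wt : (Pl K → Option (Px c)) → ℂ) : ℂ :=
  ∑ τ : V0 B X → S, ∑ e : J0 X → El S P q m, ∑ f ∈ Cf Zc (Elb c S q m),
    wt (lf f) * AX G B X W T Zc (xt0 B X τ) (xe0 X e) f *
      FX G B X W T Zc (xt0 B X τ) (xe0 X e) f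

variable (q) in
/-- the sum which is to be estimated -/
def NX [Fintype S] [Fintype P] [NeZero q] (T : ℝ) (Zc : Finset (Pl K))
    (wt : (Pl K → Option (Px c)) → ℂ) (m : ℕ) : ℂ :=
  ∑ f ∈ Cf Zc (Px c), wt f * ∑ η ∈ Finset.univ.filter
    (fun η : (adf G B X W T Zc f).Jf → Du S q m × Du S q (m + 1) =>
      (adf G B X W T Zc f).Ff η ∧ (adf G B X W T Zc f).Hk η ∧ ¬(adf G B X W T Zc f).Sv η),
    (adf G B X W T Zc f).Mn fun τ => (adf G B X W T Zc f).Hh m τ ((adf G B X W T Zc f).vl τ) η

/-- the box inequality for the part `FX`, linked tuples -/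
def BxF [Fintype S] [Fintype P] [NeZero q] (T : ℝ) (Zc : Finset (Pl K)) (m : ℕ) (C₁ A' Y : ℝ) :
    Prop :=
  ∀ (τ₀ : V0 B X → S) (e₀ : J0 X → El S P q m) (l : Fin (m + 1) → Elb c S q m)
    (lo hi : Fin (m + 1) → ℝ), (∀ k, T ≤ lo k ∧ lo k ≤ hi k ∧ hi k ≤ 2 * lo k ∧ hi k ≤ Y ^ C₁) →
    ∑ b ∈ (Cf Zc (Elb c S q m)).filter (fun b => nr (sp Zc b) ≤ Y ^ C₁ ∧
        ((sp Zc b).card : ℝ) ≤ C₁ * (1 + Real.log (Real.log Y))),
      (nr (sp Zc b))⁻¹ * (∏ k, lo k)⁻¹ * ‖∑ v ∈ (H35.CF.Fr Zc (PPc X W T) b (m + 1)).filter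
        (fun v => ∀ k, lo k < nm (v k) ∧ (nm (v k) : ℝ) ≤ hi k),
          (if (adx G B X W T Zc (up b v l)).Kx ((adx G B X W T Zc (up b v l)).et
                (ef (xe0 X e₀) (up b v l))) (kx G B X W T Zc (xe0 X e₀) (up b v l)) ∧
              Lk G B X W T Zc (xe0 X e₀) (up b v l) v ∧ ∀ k, ∀ z : Gr S m,
              ((l k).2.2.2).ap (br m (G.y (l k).1) z) = 0 then
            FX G B X W T Zc (xt0 B X τ₀) (xe0 X e₀) (up b v l) else 0)‖ ≤
      Real.log Y ^ (-A')

end nt

section cmb

variable {V Λ : Type}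

/-- the tuples of different places of the support -/
def Tp (Z : Finset V) (W : V → Prop) (f : V → Option Λ) (m : ℕ) : Finset (Fin m → V) :=
  (Fintype.piFinset fun _ : Fin m => (sp Z f).filter W).filter fun v => Function.Injective v

/-- the number of the tuples with the property `R` -/
def Nl (Z : Finset V) (W : V → Prop) (m : ℕ) (R : (V → Option Λ) → (Fin m → V) → Prop)
    (f : V → Option Λ) : ℕ := ((Tp Z W f m).filter fun v => R f v).card

end cmb

end H73.S3
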