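import Pool.Agent.H73.S3.Al
import Pool.Agent.H71.S3.Cnt

/-!
# H73-S3-FR: the frame of chapter B of stage 3 (MP_b39724_nt; think 1688, 1707, 1715), number theory

`P` a finite `p`-group, `c : CL p N P`, `Px c` the labels (letters), `T` generated by the labels.
* `SG c S`: what is used of the group `S = S'` (an action of `P` on `S` is given): letters `y s`, permuted by `P`, `pi : S → P`, `pi (y s) = s`. `SG.Pi : S ⋊ P → P`.
* `FD A P S`: the data of a fibre: `E` the fixed primes outside `S0`, `φ` the honest base (unramified outside `E`), `l` the local types at `E` and `S0` (`LT` of H71/S3/Cnt),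
  `sv`, `si` in `S` with `pi (sv v) * φ (t v) = l.t v` (`v ∈ E`), `pi (si i) * φ (a i) = l.a i`.
* `WF`: the local data: places `L`, `Fr`, the words `Wv v` (`v ∈ Z`), `Wi i`, the order `l`, the primes `Z`.
* `PPc`: `v` is a large (`T < nm v`) split prime. `adf`: the data `AD` of a configuration `f : Pl K → Option (Px c)`.
* `Mm m`: the sum over the configurations `f ∈ Cf Zc (Px c)` of `wt f` times the mean over the conjugators of `H m` at the actual values.
* `Rich M f`: every letter occurs at `M` primes with `PPc`. `FD.Ok`, `WF.Ok`: the hypotheses.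
* H73/S3/Adf: the data of a rich configuration satisfy `AD.Ok`.
-/

set_option autoImplicit false

open scoped NumberField commutatorElement
open IsDedekindDomain
open scoped Classical

noncomputable section

namespace H73.S3

open H63.MA H38.BB H38.BG H57.PC H57.BRA H77.WD H77.WE H77.PC3 H35.CF H35.UB H77.S3 H71.S3

section sg

variable {p N : ℕ} {P : Type} [Group P]

/-- conjugation of labels -/
def cjx {c : CL p N P} (g : P) (x : Px c) : Px c :=
  ⟨g * x.1 * g⁻¹, x.2.imp fun _ hi => (isConj_iff.2 ⟨g, rfl⟩ : IsConj x.1 (g * x.1 * g⁻¹)).symm.trans hi⟩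

/-- the group `S'` with its letters -/
structure SG (c : CL p N P) (S : Type) [Group S] [MulDistribMulAction P S] where
  y : Px c → S
  pi : S →* P
  smul_y : ∀ (g : P) (x : Px c), g • y x = y (cjx g x)
  pi_y : ∀ x, pi (y x) = x.1
  pi_smul : ∀ (g : P) (u : S), pi (g • u) = g * pi u * g⁻¹
  gen : Subgroup.closure (Set.range y) = ⊤

variable {c : CL p N P} {S : Type} [Group S] [MulDistribMulAction P S]

/-- `(u, g) ↦ pi u * g` -/
def SG.Pi (G : SG c S) : SP S P →* P :=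
  SemidirectProduct.lift G.pi (MonoidHom.id P) fun g => by
    ext u
    show G.pi (g • u) = g * G.pi u * g⁻¹
    exact G.pi_smul g u

theorem SG.Pi_mk (G : SG c S) (x : SP S P) : G.Pi x = G.pi x.left * x.right := rfl

end sg

section fr

variable {K : Type} [Field K] [NumberField K] {Ω : Type} [Field Ω] [Algebra K Ω]
  {p N : ℕ} {ζ : K} {D : RD0 K p ζ} {Q : DP K Ω} {A : GS D Ω} {P : Type} [Group P]
  {c : CL p N P} {S : Type} [Group S] [MulDistribMulAction P S]

/-- the data of a fibre -/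
structure FD (A : GS D Ω) (P S : Type) [Group P] [Group S] where
  E : Finset (Pl K)
  φ : Gal(Ω/K) →* P
  l : LT A P
  sv : Pl K → S
  si : Fin A.g → S

/-- places, words, the order of the places -/
structure WF (A : GS D Ω) where
  L : LDs D Ω
  Fr : FR L
  Z : Finset (Pl K)
  l : List (Pl K)
  Wv : Pl K → FW A
  Wi : Fin A.g → FW A

variable (G : SG c S) (B : SD D Q A) (X : FD A P S) (W : WF A)

/-- large split primes -/
def PPc (T : ℝ) (v : Pl K) : Prop := T < (nm v : ℝ) ∧ X.φ (W.Fr.F v) = 1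

/-- the data of a configuration -/
def adf (T : ℝ) (Zc : Finset (Pl K)) (f : Pl K → Option (Px c)) : AD S P (Pl K ⊕ Fin A.g) (Pl K) where
  pj := Sum.elim id B.pl
  bl v := if v ∈ D.S0 then ((List.finRange A.g).filter fun i => B.pl i = v).map Sum.inr
    else [Sum.inl v]
  l := W.l
  W := Sum.elim W.Wv W.Wi
  Jf := (sp Zc f ∪ X.E).disjSum Finset.univ
  pp := Sum.elim (fun v => v ∈ sp Zc f ∧ PPc X W T v) fun _ => False
  t := Sum.elim (fun v => if v ∈ X.E then ⟨X.sv v, X.φ (W.L.t v)⟩ else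
    (if v ∈ Zc then f v else none).elim 1 fun s => il (G.y s)) fun i => ⟨X.si i, X.φ (A.a i)⟩
  G x := (∀ v ∈ sp Zc f, ∀ s, f v = some s → Commute s.1 (G.Pi (x (Sum.inl v)))) ∧
    (∀ v ∈ X.E, G.Pi (x (Sum.inl v)) = X.l.F v) ∧ ∀ i, G.Pi (x (Sum.inr i)) = X.l.b i

/-- the sum over the configurations of the means of `H m` -/
def Mm [Fintype S] [Fintype P] (T : ℝ) (Zc : Finset (Pl K)) (wt : (Pl K → Option (Px c)) → ℂ)
    (m : ℕ) : ℂ :=
  ∑ f ∈ Cf Zc (Px c), wt f * (adf G B X W T Zc f).Mn fun τ =>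
    (adf G B X W T Zc f).H m τ ((adf G B X W T Zc f).vl τ)

/-- the configuration is rich -/
def Rich (T : ℝ) (Zc : Finset (Pl K)) (M : ℕ) (f : Pl K → Option (Px c)) : Prop :=
  ∀ s : Px c, M ≤ (Zc.filter fun v => f v = some s ∧ PPc X W T v).card

/-- the hypotheses on the fibre -/
structure FD.Ok : Prop where
  es : ∀ v ∈ X.E, v ∉ D.S0
  unz : Unz W.L X.E X.φ
  sv : ∀ v ∈ X.E, G.pi (X.sv v) * X.φ (W.L.t v) = X.l.t v
  si : ∀ i, G.pi (X.si i) * X.φ (A.a i) = X.l.a i
  lt : LTok B X.l X.E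

/-- the hypotheses on the places and the words (proved by H77/S3: `rel_ex`, `hon_frm`, `blk_one`, `crit`) -/
structure WF.Ok (k Mw : ℕ) : Prop where
  zs : ∀ v ∈ W.Z, v ∉ D.S0
  nd : W.l.Nodup
  lz : ∀ v, v ∈ W.l ↔ v ∈ W.Z ∨ v ∈ D.S0
  rel : Rel k Mw W.L W.Fr A B W.Z W.l W.Wv W.Wi
  cm : ∀ v, v ∉ D.S0 → ∀ (H : Type) [Group H] [Finite H], Sml p k Mw H → ∀ φ : Gal(Ω/K) →* H,
    H38.ML.FT φ → φ (W.Fr.F v) * φ (W.L.t v) = φ (W.L.t v) * φ (W.Fr.F v)
  s0 : ∀ v ∈ D.S0, ∀ (H : Type) [Group H] [Finite H], Sml p k Mw H → ∀ φ : Gal(Ω/K) →* H,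
    H38.ML.FT φ → blk B.pl v (fun i => φ (A.a i)) (fun i => φ (B.b i)) = 1
  cr : ∀ (H : Type) [Group H] [Finite H], Sml p k Mw H → ∀ θ : FW A →* H,
    (∀ v, v ∉ W.Z ∨ v ∈ D.S0 → θ (FreeGroup.of (Sum.inl v)) = 1) →
    (∀ v ∈ W.Z, v ∉ D.S0 → ⁅θ (FreeGroup.of (Sum.inl v)), θ (W.Wv v)⁆ = 1) →
    (∀ v ∈ D.S0, blk B.pl v (fun i => θ (FreeGroup.of (Sum.inr i))) (fun i => θ (W.Wi i)) = 1) →
    ∃ φ : Gal(Ω/K) →* H, Unz W.L W.Z φ ∧ hat W.L A φ = θ

end fr

end H73.S3
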