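import Pool.Agent.H73.S3.Fr
import Pool.Agent.H77.S3.Rel
import Pool.Agent.H77.S3.Crt

/-!
# [H73 S3 WFO] the hypotheses on the places and the words hold (chapter B of stage 3, MP_b39724_nt)

`wfo`: for places `L`, `Fr`, a finite set `Z` of primes outside `S0` and an order `l` of `Z ∪ S0` there are words `Wv`, `Wi` with `WF.Ok`
(H77/S3: `rel_ex`, `hon_frm`, `blk_one`, `crit`).
-/

set_option autoImplicit false

open scoped NumberField commutatorElement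
open IsDedekindDomain
open scoped Classical

noncomputable section

namespace H73.S3

open H63.MA H38.BB H38.BG H57.PC H57.BRA H57.GP H77.WD H77.WE H77.PC3 H35.CF H35.UB H77.S3 H71.S3
  Pool.Agent.H19.NF Pool.Agent.H19.AB Pool.Agent.H19.A2

variable {K : Type} [Field K] [NumberField K] {Ω : Type} [Field Ω] [Algebra K Ω] [IsAlgClosure K Ω]
  {p : ℕ} {ζ : K}

theorem wfo (hp : p.Prime) (hζ : IsPrimitiveRoot ζ p) {k M m j : ℕ} {z : K}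
    (hz : IsPrimitiveRoot z (p ^ (j + 1))) (hkj : k ≤ j + 1) (hkm : k ≤ m)
    [NeZero (p ^ m)] (hm : 1 ≤ m) {D : RD0 K p ζ} {L : LDs D Ω} {Q : DP K Ω} {Fr : FR L}
    {I : ((Gal(Ω/K) → Gal(Ω/K) → Gal(Ω/K) → ZMod (p ^ m)) ×
      (Pl K → Gal(Ω/K) → Gal(Ω/K) → ZMod (p ^ m))) →+ AddCircle (1 : ℝ)}
    (hI : FnC p k m D L Q Fr I) (hF : FF p k m D L Q Fr I) {A : GS D Ω} {B : SD D Q A}
    (hB : LOC k M D Q I A B) {Z : Finset (Pl K)} (hZ : ∀ v ∈ Z, v ∉ D.S0) {l : List (Pl K)}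
    (hl : l.Nodup) (hlZ : ∀ v, v ∈ l ↔ v ∈ Z ∨ v ∈ D.S0) :
    ∃ (Wv : Pl K → FW A) (Wi : Fin A.g → FW A), WF.Ok B (⟨L, Fr, Z, l, Wv, Wi⟩ : WF A) k M := by
  obtain ⟨X, Y, hR⟩ := rel_ex hp hζ hz hkj hkm hm hI hB hZ hl hlZ
  refine ⟨X, Y, ⟨hZ, hl, hlZ, hR, ?_, ?_, ?_⟩⟩
  · intro v hv H _ _ hH φ hφ
    exact hon_frm hp hζ hz hkj Fr hv hH φ hφ
  · intro v hv H _ _ hH φ hφ
    exact blk_one hp hm hI hB hv _ H rfl hH φ hφ
  · intro H _ _ hH θ h2 h3 h4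
    exact crit hp hζ hF hB hR.2.2.1 _ H rfl hH θ h2 h3 h4

end H73.S3
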